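import Mathlib.CategoryTheory.Category.Init
import Mathlib.LinearAlgebra.Complex.FiniteDimensional
import Mathlib.MeasureTheory.Integral.Average
import Mathlib.Analysis.CStarAlgebra.Classes
import Mathlib.Analysis.Calculus.BumpFunction.FiniteDimension
import Mathlib.Analysis.Calculus.BumpFunction.Normed
import Mathlib.Analysis.Calculus.Gradient.Basic

/-! Planar p-harmonic functions: Lipschitz bound for the critical power of the gradient, linear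
decay. Note: `/team-store/PLAP_helper1.md`. -/

set_option autoImplicit false

noncomputable section

namespace Pool.Agent.MP_815c6c_an.P

open Set Metric MeasureTheory Filter Topology Complex
open scoped ContDiff ENNReal ComplexConjugate Convolution

/-! ### definitions -/

/-- real linear maps of the plane -/
abbrev M2 : Type := ℂ →L[ℝ] ℂ

/-- the determinant -/
def jac (N : M2) : ℝ := (N 1).re * (N I).im - (N 1).im * (N I).re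

/-- bounded distortion -/
def Qr (K : ℝ) (N : M2) : Prop := ‖N‖ ^ 2 ≤ K * jac N

/-- multiplication by a complex number -/
def ml (c : ℂ) : M2 := ContinuousLinearMap.mul ℝ ℂ c

/-- Lebesgue measure on `U` -/
abbrev vo (U : Set ℂ) : Measure ℂ := volume.restrict U

/-- dominated convergence of maps and derivatives -/
def Dom (U : Set ℂ) (u : ℕ → ℂ → ℂ) (D : ℕ → ℂ → M2) (u0 : ℂ → ℂ) (D0 : ℂ → M2) : Prop :=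
  ∃ g : ℂ → ℝ, MemLp g 2 (vo U) ∧ ∀ᵐ z ∂vo U, (∀ n, ‖u n z‖ ≤ g z ∧ ‖D n z‖ ≤ g z) ∧
    Tendsto (fun n => u n z) atTop (𝓝 (u0 z)) ∧ Tendsto (fun n => D n z) atTop (𝓝 (D0 z))

/-- Sobolev maps with their derivative, as limits of smooth maps -/
def Sb (U : Set ℂ) (u : ℂ → ℂ) (D : ℂ → M2) : Prop :=
  ∃ v : ℕ → ℂ → ℂ, (∀ n, ContDiff ℝ ∞ (v n)) ∧ Dom U v (fun n => fderiv ℝ (v n)) u D

/-- test functions -/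
def Ts {E : Type} [NormedAddCommGroup E] [NormedSpace ℝ E] (U : Set ℂ) (φ : ℂ → E) : Prop :=
  ContDiff ℝ ∞ φ ∧ HasCompactSupport φ ∧ tsupport φ ⊆ U

/-- the gradient as a complex number -/
def dz (φ : ℂ → ℝ) (z : ℂ) : ℂ := (fderiv ℝ φ z 1 : ℝ) + I * (fderiv ℝ φ z I : ℝ)

/-- the conjugate field of `f` is curl free; for `I * f`: it is divergence free -/
def Cu (U : Set ℂ) (f : ℂ → ℂ) : Prop := ∀ φ : ℂ → ℝ, Ts U φ → ∫ z, (f z * dz φ z).im = 0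

/-- radial powers -/
def pw (a : ℝ) (w : ℂ) : ℂ := (‖w‖ ^ a : ℝ) * w

/-- smooth radial powers -/
def pd (δ a : ℝ) (w : ℂ) : ℂ := ((δ + ‖w‖ ^ 2) ^ (a / 2) : ℝ) * w

/-- the first order system at the value `w` -/
def Es (P Q : ℝ) (w : ℂ) (N : M2) : Prop :=
  (N (I * conj w) * conj w).im = Q * (N (conj w) * conj w).re ∧
    (N (conj w) * conj w).im = -P * (N (I * conj w) * conj w).re

/-- the two exponents -/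
def eP (ε : ℝ) : ℝ := (1 - ε) / (1 + 3 * ε)
def eQ (ε : ℝ) : ℝ := (1 + ε) / (1 - 3 * ε)

/-- the hodograph solution and its derivative -/
def T3 (w : ℂ) : ℂ := conj w ^ 3 / (‖w‖ ^ 2 : ℝ)
def Hc (ε : ℝ) (c w : ℂ) : ℂ := c * w + ε * conj c * T3 w
def DH (ε : ℝ) (c w : ℂ) : M2 := ml c + (ml (ε * conj c)).comp (fderiv ℝ T3 w)

/-- solutions of the first order system -/
structure Sol (ε : ℝ) (U : Set ℂ) (F : ℂ → ℂ) (D : ℂ → M2) : Prop where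
  sb : Sb U F D
  t3 : Sb U (fun z => T3 (F z)) fun z => (fderiv ℝ T3 (F z)).comp (D z)
  es : ∀ᵐ z ∂vo U, Es (eP ε) (eQ ε) (F z) (D z) ∧ (F z = 0 → D z = 0)

/-- `y` is an essential cluster value of `u` at `z` -/
def Cl (u : ℂ → ℂ) (z y : ℂ) : Prop :=
  ∀ ρ : ℝ, 0 < ρ → volume {x | x ∈ ball z ρ ∧ ‖u x - y‖ < ρ} ≠ 0

/-- closed rectangles and their boundaries -/
def Rc (a b c d : ℝ) : Set ℂ := Icc a b ×ℂ Icc c d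
def Bd (a b c d : ℝ) : Set ℂ :=
  {z | z ∈ Rc a b c d ∧ (z.re = a ∨ z.re = b ∨ z.im = c ∨ z.im = d)}

/-- cutoff profiles: `1` below `ρ`, `0` above `R` -/
structure Pf (ρ R η : ℝ) (Ψ Ψ' : ℝ → ℝ) : Prop where
  pos : 0 < ρ
  lt : ρ < R
  der : ∀ s, HasDerivAt Ψ (Ψ' s) s
  cont : Continuous Ψ'
  one : ∀ s ≤ ρ, Ψ s = 1
  zero : ∀ s, R ≤ s → Ψ s = 0
  anti : ∀ s, Ψ' s ≤ 0
  bnd : ∀ s, -(s * Ψ' s) ≤ η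

/-- mollifiers -/
def bp (n : ℕ) : ContDiffBump (0 : ℂ) :=
  ⟨1 / (n + 1), 2 / (n + 1), by positivity, div_lt_div_of_pos_right one_lt_two (by positivity)⟩
def mo {E : Type} [NormedAddCommGroup E] [NormedSpace ℝ E] (n : ℕ) (f : ℂ → E) : ℂ → E :=
  (bp n).normed volume ⋆[ContinuousLinearMap.lsmul ℝ ℝ, volume] f

/-- the mean oscillation -/
def osc (f : ℂ → ℂ) (x : ℂ) (r : ℝ) : ℝ := √(⨍ z in ball x r, ‖f z - ⨍ y in ball x r, f y‖ ^ 2)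

/-! ### A. the Sobolev class -/

/-- closure, chain rule, affine maps -/
def KitS : Prop :=
  (∀ (U : Set ℂ) (u : ℕ → ℂ → ℂ) (D : ℕ → ℂ → M2) (u0 : ℂ → ℂ) (D0 : ℂ → M2),
    (∀ n, Sb U (u n) (D n)) → AEStronglyMeasurable u0 (vo U) → AEStronglyMeasurable D0 (vo U) →
    Tendsto (fun n => eLpNorm (u n - u0) 2 (vo U)) atTop (𝓝 0) →
    Tendsto (fun n => eLpNorm (D n - D0) 2 (vo U)) atTop (𝓝 0) → Sb U u0 D0) ∧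
  (∀ (U : Set ℂ) (u : ℕ → ℂ → ℂ) (D : ℕ → ℂ → M2) (u0 : ℂ → ℂ) (D0 : ℂ → M2),
    (∀ n, Sb U (u n) (D n)) → Dom U u D u0 D0 → Sb U u0 D0) ∧
  (∀ (U : Set ℂ) (u : ℂ → ℂ) (D : ℂ → M2) (Φ : ℂ → ℂ) (b : ℝ), Bornology.IsBounded U → Sb U u D →
    ContDiff ℝ ∞ Φ → (∀ w, ‖fderiv ℝ Φ w‖ ≤ b) →
    Sb U (fun z => Φ (u z)) fun z => (fderiv ℝ Φ (u z)).comp (D z)) ∧
  (∀ (U : Set ℂ) (u u' : ℂ → ℂ) (D D' : ℂ → M2) (A A' B : M2) (c : ℂ), Bornology.IsBounded U →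
    Sb U u D → Sb U u' D' →
    Sb U (fun z => A (u z) + A' (u' z) + B z + c) fun z => A.comp (D z) + A'.comp (D' z) + B) ∧
  ∀ (U U' : Set ℂ) (u : ℂ → ℂ) (D : ℂ → M2) (a b : ℂ), b ≠ 0 → MeasurableSet U' →
    (∀ z ∈ U', a + b * z ∈ U) → Sb U u D →
    Sb U' (fun z => u (a + b * z)) fun z => (D (a + b * z)).comp (ml b)

/-- integration by parts and its consequences -/
def PartS : Prop := ∀ (U : Set ℂ) (u : ℂ → ℂ) (D : ℂ → M2), IsOpen U → Bornology.IsBounded U →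
  Sb U u D →
  (∀ φ : ℂ → ℂ, ContDiff ℝ 1 φ → HasCompactSupport φ → tsupport φ ⊆ U → ∀ v : ℂ,
    Integrable (fun z => fderiv ℝ φ z v * u z) ∧ Integrable (fun z => φ z * D z v) ∧
    ∫ z, fderiv ℝ φ z v * u z = -∫ z, φ z * D z v) ∧
  (∀ᵐ z ∂vo U, u z = 0 → D z = 0) ∧
  ∀ L : ℝ, (∀ x y, ‖u x - u y‖ ≤ L * ‖x - y‖) → ∀ᵐ z ∂vo U, ‖D z‖ ≤ 2 * L

/-- the Sobolev embedding; cluster values -/
def FourS : Prop :=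
  (∀ (r R : ℝ) (u : ℂ → ℂ) (D : ℂ → M2), r < R → Sb (ball 0 R) u D → MemLp u 4 (vo (ball 0 r))) ∧
  ∀ u : ℂ → ℂ, ∀ᵐ z, Cl u z (u z)

/-- the Caccioppoli inequality -/
def CacS : Prop := ∀ r R : ℝ, r < R → ∃ C : ℝ, 0 ≤ C ∧ ∀ (K : ℝ) (u : ℂ → ℂ) (D : ℂ → M2) (c : ℂ),
  Sb (ball 0 R) u D → (∀ᵐ z ∂vo (ball 0 R), Qr K (D z)) →
  ∫⁻ z in ball 0 r, ‖D z‖ₑ ^ 2 ≤ ENNReal.ofReal (C * K ^ 2) * ∫⁻ z in ball 0 R, ‖u z - c‖ₑ ^ 2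

/-- Young inequality and convergence of mollifications -/
def MolS : Prop := ∀ (E : Type) [NormedAddCommGroup E] [NormedSpace ℝ E] [CompleteSpace E]
  (p : ℝ≥0∞) (f : ℂ → E), 1 ≤ p → p ≠ ⊤ → MemLp f p volume →
  (∀ k : ℂ → ℝ, Continuous k → HasCompactSupport k →
    eLpNorm (k ⋆[ContinuousLinearMap.lsmul ℝ ℝ, volume] f) p volume ≤
      ENNReal.ofReal (∫ z, |k z|) * eLpNorm f p volume) ∧
  Tendsto (fun n => eLpNorm (mo n f - f) p volume) atTop (𝓝 0)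

/-- bounded difference quotients -/
def Dq (R : ℝ) (V : ℂ → ℂ) : Prop := ∃ C τ : ℝ, 0 < τ ∧ ∀ h : ℂ, ‖h‖ < τ →
  ∫⁻ z in ball 0 R, ‖V (z + h) - V z‖ₑ ^ 2 ≤ ENNReal.ofReal (C * ‖h‖ ^ 2)

def WkS : Prop := ∀ (r R R' : ℝ) (V : ℂ → ℂ), r < R → R < R' → MemLp V 2 (vo (ball 0 R')) →
  Dq R V → ∃ D, Sb (ball 0 r) V D

/-! ### B. algebra -/

/-- radial powers -/
def PowS : Prop :=
  (∀ (a b : ℝ) (w : ℂ), -1 < b → pw a (pw b w) = pw ((a + 1) * (b + 1) - 1) w) ∧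
  (∀ (a : ℝ) (w : ℂ), -1 < a → ‖pw a w‖ = ‖w‖ ^ (a + 1)) ∧
  (∀ a : ℝ, -1 < a → Continuous (pw a)) ∧ (∀ a : ℝ, ContDiffOn ℝ ∞ (pw a) {0}ᶜ) ∧
  (∀ (s : ℝ) (x y : ℂ), 0 ≤ s → s < 1 →
    (1 - s) * ‖x - y‖ ^ 2 ≤ ((pw s x - pw s y) * conj (pw (-s) x - pw (-s) y)).re) ∧
  (∀ a : ℝ, 0 ≤ a → ∃ C : ℝ, 0 < C ∧ ∀ x y : ℂ,
    ‖pw a x - pw a y‖ ≤ C * ((‖x‖ + ‖y‖) ^ a * ‖x - y‖) ∧
    (‖x‖ + ‖y‖) ^ a * ‖x - y‖ ≤ C * ‖pw a x - pw a y‖) ∧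
  (∀ δ a : ℝ, 0 < δ → ContDiff ℝ ∞ (pd δ a) ∧ ∀ w X : ℂ, fderiv ℝ (pd δ a) w X =
    ((δ + ‖w‖ ^ 2) ^ (a / 2) : ℝ) * (X + (a * (conj w * X).re / (δ + ‖w‖ ^ 2) : ℝ) * w)) ∧
  ∀ (a : ℝ) (w X : ℂ), w ≠ 0 →
    fderiv ℝ (pw a) w X = (‖w‖ ^ a : ℝ) * (X + (a * (conj w * X).re / ‖w‖ ^ 2 : ℝ) * w)

/-- the cubic term -/
def CubS : Prop := ContDiffOn ℝ ∞ T3 {0}ᶜ ∧ (∀ x y, ‖T3 x - T3 y‖ ≤ 3 * ‖x - y‖) ∧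
  (∀ w, ‖fderiv ℝ T3 w‖ ≤ 3) ∧
  (∀ w X : ℂ, w ≠ 0 → fderiv ℝ T3 w X =
    (3 * conj X * conj w ^ 2 - (2 * (conj w * X).re : ℝ) * T3 w) / (‖w‖ ^ 2 : ℝ)) ∧
  (∀ ε : ℝ, |ε| < 1 / 3 → ∀ c x y : ℂ, ‖c‖ = 1 →
    (1 - 3 * |ε|) * ‖x - y‖ ≤ ‖Hc ε c x - Hc ε c y‖ ∧ ‖Hc ε c x - Hc ε c y‖ ≤ 2 * ‖x - y‖ ∧
    (1 - 3 * |ε|) * ‖y‖ ≤ ‖DH ε c x y‖ ∧ ‖DH ε c x‖ ≤ 2) ∧
  ∀ (ε : ℝ) (x y z : ℂ), z ≠ 0 → ∃ (c : ℂ) (μ : ℝ), ‖c‖ = 1 ∧ Hc ε c x - Hc ε c y = μ * z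

/-- the first order system -/
def AlgS : Prop :=
  (∀ (P Q : ℝ) (w : ℂ) (N : M2), w ≠ 0 →
    (fderiv ℝ (pw (P - 1)) w (N 1) + I * fderiv ℝ (pw (P - 1)) w (N I)).im = 0 →
    (fderiv ℝ (pw (Q - 1)) w (N 1) + I * fderiv ℝ (pw (Q - 1)) w (N I)).re = 0 → Es P Q w N) ∧
  (∀ (P Q : ℝ) (w : ℂ) (N : M2), 0 < P → 0 < Q → w ≠ 0 → Es P Q w N →
    Qr (P + P⁻¹ + Q + Q⁻¹) N) ∧
  (∀ (P Q t l : ℝ) (w : ℂ) (N A : M2), w ≠ 0 → t ≠ 0 → l ≠ 0 → Es P Q w N →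
    (∀ X, A X = t * (X + ((l - 1) * (conj w * X).re / ‖w‖ ^ 2 : ℝ) * w)) →
    ∀ t' : ℝ, Es (P / l) (Q / l) (t' * w) (A.comp N)) ∧
  (∀ ε : ℝ, |ε| < 1 / 3 → ∃ K : ℝ, 1 ≤ K ∧ ∀ (w c : ℂ) (μ : ℝ) (N : M2),
    Es (eP ε) (eQ ε) w N → (w = 0 → N = 0) → Qr K N ∧ Qr K ((DH ε c w).comp N - ml μ)) ∧
  (∀ (K : ℝ) (N : M2), 0 ≤ K → Qr K N → N ≠ 0 →
    ∃ N' : M2, N'.comp N = ml 1 ∧ ‖N'‖ * ‖N‖ ≤ 2 * K ∧ 0 < jac N') ∧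
  ∀ (P Q : ℝ) (w : ℂ), 0 < P → 0 < Q → w ≠ 0 → ∃ l m : ℂ ≃L[ℝ] ℂ,
    (∀ β : ℂ, Es P Q w ((m.symm : M2).comp ((ml β).comp (l : M2)))) ∧
    (∀ η : ℝ, 0 < η → ∀ᶠ w' in 𝓝 w, ∀ N : M2, Es P Q w' N →
      ‖m (N (l.symm 1)) + I * m (N (l.symm I))‖ ≤ η * ‖N‖) ∧
    (P = 1 → Q = 1 → ∀ (w' : ℂ) (N : M2), w' ≠ 0 → Es P Q w' N →
      m (N (l.symm 1)) + I * m (N (l.symm I)) = 0)

/-! ### C. from the weak equations to the first order system -/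

def DqS : Prop := ∀ (s r R : ℝ) (V : ℂ → ℂ), 0 ≤ s → s < 1 → r < R → MemLp V 2 (vo (ball 0 R)) →
  Cu (ball 0 R) (fun z => pw (-s) (V z)) → Cu (ball 0 R) (fun z => I * pw s (V z)) → Dq r V

/-- the pointwise equation -/
def PtS : Prop := ∀ (R : ℝ) (V Ψ : ℂ → ℂ) (D : ℂ → M2), Sb (ball 0 R) V D →
  ContDiffOn ℝ ∞ Ψ {0}ᶜ → MemLp (fun z => Ψ (V z)) 2 (vo (ball 0 R)) →
  Cu (ball 0 R) (fun z => Ψ (V z)) → ∀ᵐ z ∂vo (ball 0 R), V z ≠ 0 →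
    (fderiv ℝ Ψ (V z) (D z 1) + I * fderiv ℝ Ψ (V z) (D z I)).im = 0

/-- the natural field is Sobolev and solves the system -/
def NatS : Prop := ∀ (s r R : ℝ) (V : ℂ → ℂ), |s| < 1 → r < R → MemLp V 2 (vo (ball 0 R)) →
  Cu (ball 0 R) (fun z => pw (-s) (V z)) → Cu (ball 0 R) (fun z => I * pw s (V z)) →
  ∃ D, Sb (ball 0 r) V D ∧ ∀ᵐ z ∂vo (ball 0 r), Es (1 - s) (1 + s) (V z) (D z) ∧ (V z = 0 → D z = 0)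

/-- lowering the power -/
def LowS : Prop := ∀ (P Q l r R : ℝ) (V : ℂ → ℂ) (D : ℂ → M2), 0 < P → 0 < Q → 0 < l → l ≤ 1 →
  r < R → Sb (ball 0 R) V D → (∀ᵐ z ∂vo (ball 0 R), Es P Q (V z) (D z) ∧ (V z = 0 → D z = 0)) →
  ∃ D', Sb (ball 0 r) (fun z => pw (l - 1) (V z)) D' ∧
    Sb (ball 0 r) (fun z => T3 (pw (l - 1) (V z)))
      (fun z => (fderiv ℝ T3 (pw (l - 1) (V z))).comp (D' z)) ∧
    ∀ᵐ z ∂vo (ball 0 r), Es (P / l) (Q / l) (pw (l - 1) (V z)) (D' z) ∧ (V z = 0 → D' z = 0)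

/-! ### D. injectivity -/

/-- the Green formula and winding numbers -/
def WindS : Prop := ∀ (ρ R η a b c d : ℝ) (Ψ Ψ' : ℝ → ℝ) (v : ℂ → ℂ), Pf ρ R η Ψ Ψ' →
  ContDiff ℝ ∞ v → a ≤ b → c ≤ d → (∀ z ∈ Bd a b c d, R ≤ ‖v z‖ ^ 2) →
  ∃ N : ℤ, ∫ z in Rc a b c d, -2 * Ψ' (‖v z‖ ^ 2) * jac (fderiv ℝ v z) = 2 * Real.pi * N ∧
    ∀ y : ℂ, (∀ z ∈ Bd a b c d, ‖v z - (z - y)‖ < ‖z - y‖) → N ≤ 1

/-- estimates on lines; logarithmic cutoffs -/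
def LineS : Prop :=
  (∀ (a b c d : ℝ) (w : ℂ → ℝ), ContDiff ℝ 1 w → a ≤ b → c < d →
    ((∀ x ∈ Icc a b, ∃ y ∈ Icc c d, ∃ y' ∈ Icc c d, 1 ≤ |w (x + y * I) - w (x + y' * I)|) →
      b - a ≤ (d - c) * ∫ z in Rc a b c d, ‖fderiv ℝ w z‖ ^ 2) ∧
    ((∀ x ∈ Icc a b, ∃ y ∈ Icc c d, 1 ≤ |w (x + y * I)|) →
      b - a ≤ 2 * ((d - c)⁻¹ + (d - c)) * ∫ z in Rc a b c d, (w z ^ 2 + ‖fderiv ℝ w z‖ ^ 2)) ∧
    ((∀ x ∈ Icc a b, ∃ y ∈ Icc c d, 1 ≤ |w (y + x * I)|) →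
      b - a ≤ 2 * ((d - c)⁻¹ + (d - c)) * ∫ z in Rc c d a b, (w z ^ 2 + ‖fderiv ℝ w z‖ ^ 2)) ∧
    ((∀ x ∈ Icc a b, w (x + c * I) = 0) →
      ∫ z in Rc a b c d, w z ^ 2 ≤ (d - c) ^ 2 * ∫ z in Rc a b c d, ‖fderiv ℝ w z‖ ^ 2)) ∧
  ∀ R η : ℝ, 0 < R → 0 < η → ∃ ρ Ψ Ψ', Pf ρ R η Ψ Ψ'

/-- a quasiregular map near the identity is injective -/
def InjS : Prop := ∃ δ : ℝ, 0 < δ ∧ ∀ (K : ℝ) (u : ℂ → ℂ) (D : ℂ → M2), 0 ≤ K →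
  Sb (ball 0 3) u D →
  (∀ᵐ z ∂vo (ball 0 3), Qr K (D z)) →
  ∫⁻ z in {z | z ∈ ball 0 3 ∧ δ < ‖u z - z‖}, (1 + ‖D z - ml 1‖ₑ ^ 2) ≤ ENNReal.ofReal δ →
  ∀ z₁ ∈ ball (0 : ℂ) (1 / 2), ∀ z₂ ∈ ball (0 : ℂ) (1 / 2), ∀ y, Cl u z₁ y → Cl u z₂ y → z₁ = z₂

/-! ### E. regularity -/

def LipS : Prop := ∀ ε : ℝ, |ε| < 1 / 3 → ∃ L : ℝ, 0 ≤ L ∧ ∀ (F : ℂ → ℂ) (D : ℂ → M2) (c : ℂ)
  (E : ℝ), Sol ε (ball 0 4) F D → 0 ≤ E →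
  ∫⁻ z in ball 0 4, ‖F z - c‖ₑ ^ 2 ≤ ENNReal.ofReal (E ^ 2) →
  ∃ F' : ℂ → ℂ, F' =ᵐ[vo (ball 0 (1 / 2))] F ∧ ∀ x y, ‖F' x - F' y‖ ≤ L * E * ‖x - y‖

/-- approximation by solutions of the frozen system -/
def ApxS : Prop := ∀ (l : ℂ ≃L[ℝ] ℂ) (L κ θ0 : ℝ), 0 < κ → 0 < θ0 → ∃ θ η : ℝ, 0 < θ ∧ θ ≤ θ0 ∧
  0 < η ∧ ∀ (G : ℂ → ℂ) (D : ℂ → M2), Sb (ball 0 1) G D → (∀ x y, ‖G x - G y‖ ≤ L * ‖x - y‖) →
    (∀ᵐ z ∂vo (ball 0 1), ‖D z (l.symm 1) + I * D z (l.symm I)‖ ≤ η) →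
    ∃ β : ℂ, ∀ z ∈ ball (0 : ℂ) θ, ‖G z - G 0 - β * l z‖ ≤ κ * θ

def StrS : Prop := ∀ (ε L R : ℝ) (F : ℂ → ℂ) (D : ℂ → M2) (z : ℂ), |ε| < 1 / 3 →
  Sol ε (ball 0 R) F D → (∀ x y, ‖F x - F y‖ ≤ L * ‖x - y‖) → z ∈ ball (0 : ℂ) R →
  (F z ≠ 0 ∨ ε = 0) → ∃ N : M2, HasStrictFDerivAt F N z

/-- the weak equations for `F` on `U` -/
structure Wk (ε : ℝ) (U : Set ℂ) (F : ℂ → ℂ) : Prop where
  mem : ∀ K ⊆ U, IsCompact K → MemLp (fun z => pw ((eP ε + eQ ε) / 2 - 1) (F z)) 2 (vo K)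
  cu : Cu U fun z => pw (eP ε - 1) (F z)
  dv : Cu U fun z => I * pw (eQ ε - 1) (F z)

/-- the estimate on a ball of fixed size -/
def CoreS : Prop := ∀ ε : ℝ, |ε| < 1 / 3 → ∃ L : ℝ, 0 ≤ L ∧ ∀ F : ℂ → ℂ, Wk ε (ball 0 8) F →
  MemLp F 2 (vo (ball 0 4)) ∧ ∀ (c : ℂ) (E : ℝ), 0 ≤ E →
    ∫⁻ z in ball 0 4, ‖F z - c‖ₑ ^ 2 ≤ ENNReal.ofReal (E ^ 2) →
    ∃ F' : ℂ → ℂ, F' =ᵐ[vo (ball 0 (1 / 2))] F ∧ (∀ x y, ‖F' x - F' y‖ ≤ L * E * ‖x - y‖) ∧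
      ∀ z ∈ ball (0 : ℂ) (1 / 2), (F' z ≠ 0 ∨ ε = 0) → ∃ N : M2, HasStrictFDerivAt F' N z

/-- scaling -/
def ScaS : Prop := ∀ (ε : ℝ) (U U' : Set ℂ) (F : ℂ → ℂ) (x : ℂ) (r : ℝ), 0 < r →
  (∀ z ∈ U', x + r * z ∈ U) → Wk ε U F → Wk ε U' fun z => F (x + r * z)

/-- gluing local representatives -/
def GlueS : Prop := ∀ (U : Set ℂ) (f : ℂ → ℂ), IsOpen U →
  (∀ x ∈ U, ∃ r, 0 < r ∧ ∃ g : ℂ → ℂ, g =ᵐ[vo (ball x r)] f ∧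
    ∀ z ∈ ball x r, ∃ N : M2, HasStrictFDerivAt g N z) →
  ∃ g : ℂ → ℂ, ContDiffOn ℝ 1 g U ∧ g =ᵐ[vo U] f

def RegS : Prop := ∀ ε a : ℝ, |ε| < 1 / 3 → 0 ≤ a → (0 < a ∨ ε = 0) →
  ∀ (U : Set ℂ) (F : ℂ → ℂ), IsOpen U → Wk ε U F →
    ∃ g : ℂ → ℂ, ContDiffOn ℝ 1 g U ∧ g =ᵐ[vo U] fun z => pw a (F z)

def DecS : Prop := ∀ ε a : ℝ, |ε| < 1 / 3 → 0 ≤ a → ∃ c : ℝ, ∀ (F : ℂ → ℂ) (x : ℂ) (r : ℝ),
  0 < r → Wk ε (ball x r) F → MemLp (fun z => pw a (F z)) 2 (vo (ball x r)) →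
  ∀ θ ∈ Ioc (0 : ℝ) 1, osc (fun z => pw a (F z)) x (θ * r) ≤ c * θ * osc (fun z => pw a (F z)) x r

/-- the Euclidean plane -/
abbrev E2 : Type := EuclideanSpace ℝ (Fin 2)

/-- the mean oscillation in the Euclidean plane -/
def osc2 (f : E2 → E2) (x : E2) (r : ℝ) : ℝ :=
  √(⨍ z in ball x r, ‖f z - ⨍ y in ball x r, f y‖ ^ 2)

def FinS : Prop := ∀ p b : ℝ, 1 < p → 0 < b → 3 * (p - 1) ≤ b ^ 2 + p * b → ∃ c : ℝ,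
  ∀ (U : Set E2) (h : E2 → ℝ) (G : E2 → E2), IsOpen U →
    (∀ K ⊆ U, IsCompact K → MemLp h (ENNReal.ofReal p) (volume.restrict K) ∧
      MemLp G (ENNReal.ofReal p) (volume.restrict K)) →
    (∀ φ : E2 → ℝ, ContDiff ℝ ∞ φ → HasCompactSupport φ → tsupport φ ⊆ U →
      (∀ v, ∫ x, h x * fderiv ℝ φ x v = -∫ x, φ x * inner ℝ (G x) v) ∧
      ∫ x, inner ℝ (‖G x‖ ^ (p - 2) • G x) (gradient φ x) = 0) →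
    ((p = 2 ∨ 3 * (p - 1) < b ^ 2 + p * b) → ∃ W : E2 → E2, ContDiffOn ℝ 1 W U ∧
      W =ᵐ[volume.restrict U] fun x => ‖G x‖ ^ (b - 1) • G x) ∧
    ∀ (x : E2) (r : ℝ), 0 < r → ball x r ⊆ U →
      MemLp (fun x => ‖G x‖ ^ (b - 1) • G x) 2 (volume.restrict (ball x r)) → ∀ θ ∈ Ioc (0 : ℝ) 1,
        osc2 (fun x => ‖G x‖ ^ (b - 1) • G x) x (θ * r) ≤
          c * θ * osc2 (fun x => ‖G x‖ ^ (b - 1) • G x) x r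

theorem fin_of (kit : KitS) (part : KitS → PartS) (four : FourS) (cac : CacS) (mol : MolS)
    (wk : KitS → MolS → WkS) (pow : PowS) (cub : CubS) (alg : PowS → CubS → AlgS)
    (dq : MolS → PowS → DqS) (pt : KitS → PtS)
    (nat : KitS → PartS → FourS → WkS → PowS → AlgS → DqS → PtS → NatS)
    (low : KitS → CacS → PowS → CubS → AlgS → LowS) (wind : WindS) (line : LineS)
    (inj : KitS → WindS → LineS → InjS)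
    (lip : KitS → FourS → CacS → CubS → AlgS → InjS → LipS) (apx : PartS → LineS → ApxS)
    (str : KitS → PartS → CubS → AlgS → InjS → ApxS → StrS)
    (core : PowS → NatS → LowS → LipS → StrS → CoreS) (sca : ScaS) (glue : GlueS)
    (reg : PowS → CoreS → ScaS → GlueS → RegS) (dec : PowS → CoreS → ScaS → DecS)
    (fin : PowS → RegS → DecS → FinS) : FinS :=
  have pa := part kit
  have al := alg pow cub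
  have ij := inj kit wind line
  have co := core pow (nat kit pa four (wk kit mol) pow al (dq mol pow) (pt kit))
    (low kit cac pow cub al) (lip kit four cac cub al ij) (str kit pa cub al ij (apx pa line))
  fin pow (reg pow co sca glue) (dec pow co sca)

end Pool.Agent.MP_815c6c_an.P
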