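import Mathlib.Topology.Sheaves.Presheaf
import Mathlib.Tactic.Monotonicity.Lemmas
import Mathlib.Algebra.Order.Ring.Star
import Mathlib.Algebra.Order.Star.Real
import Mathlib.Analysis.CStarAlgebra.Unitization
import Mathlib.Order.CompletePartialOrder
import Pool.Agent.MP_815c6c_an.P.Spec

/-! Planar p-harmonic functions: elementary facts. -/

set_option autoImplicit false

namespace Pool.Agent.MP_815c6c_an.P

open Set Metric MeasureTheory Filter Topology Complex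
open scoped ContDiff ENNReal ComplexConjugate

theorem M2_apply (N : M2) (z : ℂ) : N z = z.re * N 1 + z.im * N I := by
  conv_lhs => rw [show z = z.re • (1 : ℂ) + z.im • I by simp]
  rw [map_add, map_smul, map_smul]
  simp

theorem M2_ext {N N' : M2} (h1 : N 1 = N' 1) (h2 : N I = N' I) : N = N' :=
  ContinuousLinearMap.ext fun z => by rw [M2_apply N, M2_apply N', h1, h2]

@[simp] theorem ml_apply (c z : ℂ) : ml c z = c * z := rfl

@[simp] theorem norm_ml (c : ℂ) : ‖ml c‖ = ‖c‖ := ContinuousLinearMap.opNorm_mul_apply ℝ ℂ c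

theorem jac_ml (c : ℂ) : jac (ml c) = ‖c‖ ^ 2 := by
  simp [jac, Complex.sq_norm, normSq_apply]

theorem jac_comp (A N : M2) : jac (A.comp N) = jac A * jac N := by
  simp only [jac, ContinuousLinearMap.comp_apply]
  rw [M2_apply A (N 1), M2_apply A (N I)]
  simp
  ring

theorem abs_jac_le (N : M2) : |jac N| ≤ ‖N‖ ^ 2 := by
  have e : jac N = (conj (N 1) * N I).im := by simp [jac]; ring
  have a : ‖N 1‖ ≤ ‖N‖ := by simpa using N.le_opNorm 1
  have b : ‖N I‖ ≤ ‖N‖ := by simpa using N.le_opNorm I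
  rw [e, sq]
  refine (abs_im_le_norm _).trans ?_
  rw [norm_mul, Complex.norm_conj]
  exact mul_le_mul a b (norm_nonneg _) (norm_nonneg _)

theorem sq_norm_le (N : M2) : ‖N‖ ^ 2 ≤ ‖N 1‖ ^ 2 + ‖N I‖ ^ 2 := by
  have : ‖N‖ ≤ √(‖N 1‖ ^ 2 + ‖N I‖ ^ 2) := by
    refine N.opNorm_le_bound (Real.sqrt_nonneg _) fun z => ?_
    have h : ‖N z‖ ≤ |z.re| * ‖N 1‖ + |z.im| * ‖N I‖ := by
      rw [M2_apply]
      exact (norm_add_le _ _).trans (by simp)
    refine h.trans (abs_le_of_sq_le_sq' ?_ (by positivity)).2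
    rw [mul_pow, Real.sq_sqrt (by positivity), Complex.sq_norm z, normSq_apply,
      ← abs_mul_abs_self z.re, ← abs_mul_abs_self z.im]
    nlinarith [sq_nonneg (|z.re| * ‖N I‖ - |z.im| * ‖N 1‖)]
  exact (pow_le_pow_left₀ (norm_nonneg _) this 2).trans_eq (Real.sq_sqrt (by positivity))

theorem continuous_jac : Continuous jac := by
  unfold jac
  fun_prop

theorem Qr.jac_nonneg {K : ℝ} {N : M2} (h : Qr K N) (hK : 0 < K) : 0 ≤ jac N :=
  nonneg_of_mul_nonneg_right ((sq_nonneg _).trans h) hK |> fun x => x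

theorem Qr.mono {K K' : ℝ} {N : M2} (h : Qr K N) (hK : 0 < K) (h' : K ≤ K') : Qr K' N :=
  le_trans h (mul_le_mul_of_nonneg_right h' (h.jac_nonneg hK))

/-- composition with an orientation preserving linear map -/
theorem Qr.comp {K : ℝ} {N : M2} (h : Qr K N) {A : M2} (hA : 0 < jac A) :
    Qr (‖A‖ ^ 2 / jac A * K) (A.comp N) := by
  rw [Qr, jac_comp]
  calc _ ≤ (‖A‖ * ‖N‖) ^ 2 := pow_le_pow_left₀ (norm_nonneg _) (A.opNorm_comp_le N) 2
    _ ≤ ‖A‖ ^ 2 * (K * jac N) := by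
      rw [mul_pow]
      exact mul_le_mul_of_nonneg_left h (sq_nonneg _)
    _ = _ := by field_simp

variable {U U' : Set ℂ} {u u' : ℂ → ℂ} {D D' : ℂ → M2}

theorem Sb.mono (h : Sb U u D) (hU : U' ⊆ U) : Sb U' u D := by
  obtain ⟨v, hv, g, hg, h⟩ := h
  exact ⟨v, hv, g, hg.mono_measure (Measure.restrict_mono hU le_rfl),
    ae_restrict_of_ae_restrict_of_subset hU h⟩

theorem Sb.congr (h : Sb U u D) (h1 : u =ᵐ[vo U] u') (h2 : D =ᵐ[vo U] D') : Sb U u' D' := by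
  obtain ⟨v, hv, g, hg, h⟩ := h
  refine ⟨v, hv, g, hg, ?_⟩
  filter_upwards [h, h1, h2] with z a b c
  rwa [← b, ← c]

theorem Sb.memLp (h : Sb U u D) : MemLp u 2 (vo U) ∧ MemLp D 2 (vo U) := by
  obtain ⟨v, hv, g, hg, h⟩ := h
  refine ⟨hg.mono' (aestronglyMeasurable_of_tendsto_ae atTop
    (fun n => (hv n).continuous.aestronglyMeasurable) (h.mono fun z a => a.2.1))
    (h.mono fun z a => le_of_tendsto' a.2.1.norm fun n => (a.1 n).1),
    hg.mono' (aestronglyMeasurable_of_tendsto_ae atTop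
    (fun n => ((hv n).continuous_fderiv (by simp)).aestronglyMeasurable) (h.mono fun z a => a.2.2))
    (h.mono fun z a => le_of_tendsto' a.2.2.norm fun n => (a.1 n).2)⟩

theorem Cu.mono {f : ℂ → ℂ} (h : Cu U f) (hU : U' ⊆ U) : Cu U' f :=
  fun φ hφ => h φ ⟨hφ.1, hφ.2.1, hφ.2.2.trans hU⟩

theorem Sol.mono {ε : ℝ} (h : Sol ε U u D) (hU : U' ⊆ U) : Sol ε U' u D :=
  ⟨h.sb.mono hU, h.t3.mono hU, ae_restrict_of_ae_restrict_of_subset hU h.es⟩

theorem Sol.congr {ε : ℝ} (h : Sol ε U u D) (h1 : u =ᵐ[vo U] u') : Sol ε U u' D :=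
  ⟨h.sb.congr h1 EventuallyEq.rfl,
    h.t3.congr (h1.mono fun z a => by simp only [a]) (h1.mono fun z a => by simp only [a]), by
    filter_upwards [h.es, h1] with z a b
    rwa [← b]⟩

theorem Wk.mono {ε : ℝ} (h : Wk ε U u) (hU : U' ⊆ U) : Wk ε U' u :=
  ⟨fun K a b => h.mem K (a.trans hU) b, h.cu.mono hU, h.dv.mono hU⟩

theorem eP_pos {ε : ℝ} (h : |ε| < 1 / 3) : 0 < eP ε :=
  div_pos (by linarith [(abs_lt.1 h).2]) (by linarith [(abs_lt.1 h).1])

theorem eQ_pos {ε : ℝ} (h : |ε| < 1 / 3) : 0 < eQ ε :=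
  div_pos (by linarith [(abs_lt.1 h).1]) (by linarith [(abs_lt.1 h).2])

theorem pw_zero (w : ℂ) : pw 0 w = w := by simp [pw]

theorem pw_at_zero (a : ℝ) : pw a 0 = 0 := by simp [pw]

theorem pw_eq_zero {a : ℝ} {w : ℂ} : pw a w = 0 ↔ w = 0 := by
  refine ⟨fun h => by_contra fun h0 => ?_, fun h => h ▸ pw_at_zero a⟩
  exact mul_ne_zero (ofReal_ne_zero.2 (Real.rpow_pos_of_pos (norm_pos_iff.2 h0) a).ne') h0 h

theorem pw_mul (a : ℝ) {c : ℂ} (hc : ‖c‖ = 1) (w : ℂ) : pw a (c * w) = c * pw a w := by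
  rw [pw, pw, norm_mul, hc, one_mul, mul_left_comm]

end Pool.Agent.MP_815c6c_an.P
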