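import Mathlib.Algebra.Lie.OfAssociative
import Mathlib.Analysis.Calculus.LineDeriv.IntegrationByParts
import Mathlib.Analysis.Distribution.AEEqOfIntegralContDiff
import Mathlib.MeasureTheory.Function.L2Space
import Mathlib.MeasureTheory.Integral.CurveIntegral.Poincare
import Mathlib.Topology.UniformSpace.Uniformizable
import Pool.Agent.MP_815c6c_an.P.Basic

-- ======== part 0: formerly Pool.Agent.MP_815c6c_an.P.Dq
section MrgPart0

/-! Planar p-harmonic functions: the difference quotient estimate. -/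

set_option autoImplicit false

noncomputable section

namespace Pool.Agent.MP_815c6c_an.P

open Set Metric MeasureTheory Filter Topology Complex
open scoped ContDiff ENNReal ComplexConjugate Convolution

namespace DqR

lemma dz_cont {φ : ℂ → ℝ} (h : ContDiff ℝ ∞ φ) : Continuous (dz φ) := by
  have := h.continuous_fderiv (by simp)
  unfold dz
  fun_prop

lemma dz_zero {φ : ℂ → ℝ} {z : ℂ} (h : z ∉ tsupport φ) : dz φ z = 0 := by
  have : fderiv ℝ φ z = 0 :=
    image_eq_zero_of_notMem_tsupport fun h' => h (tsupport_fderiv_subset ℝ h')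
  simp [dz, this]

lemma dz_supp {φ : ℂ → ℝ} (h : HasCompactSupport φ) : HasCompactSupport (dz φ) :=
  HasCompactSupport.intro h fun _ hz => dz_zero hz

lemma integ {a : ℂ → ℂ} (ha : LocallyIntegrable a volume) {φ : ℂ → ℝ} (h1 : ContDiff ℝ ∞ φ)
    (h2 : HasCompactSupport φ) : Integrable fun z => a z * dz φ z :=
  ha.integrable_smul_right_of_hasCompactSupport (dz_cont h1) (dz_supp h2)

lemma cut {U : Set ℂ} {f f' : ℂ → ℂ} (h : Cu U f) (e : ∀ z ∈ U, f' z = f z) : Cu U f' := by
  intro φ hφ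
  rw [← h φ hφ]
  refine integral_congr_ae (Eventually.of_forall fun z => ?_)
  by_cases hz : z ∈ U
  · simp only [e z hz]
  · simp [dz_zero fun h' => hz (hφ.2.2 h')]

/-- the equation for the difference of two translates -/
lemma shift {R ρ : ℝ} {a : ℂ → ℂ} (ha : LocallyIntegrable a volume) {h : ℂ}
    (ha' : LocallyIntegrable (fun z => a (z + h)) volume)
    (hc : Cu (ball 0 R) fun z => I * a z) {φ : ℂ → ℝ} (hφ : Ts (ball 0 ρ) φ) (hh : ρ + ‖h‖ ≤ R) :
    ∫ z, ((a (z + h) - a z) * dz φ z).re = 0 := by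
  have h1 : ∫ z, (a z * dz φ z).re = 0 := by
    have := hc φ ⟨hφ.1, hφ.2.1, hφ.2.2.trans (ball_subset_ball (by linarith [norm_nonneg h]))⟩
    simpa only [mul_assoc, I_mul_im] using this
  have h2 : ∫ z, (a (z + h) * dz φ z).re = 0 := by
    have t : Ts (ball 0 R) fun y => φ (y - h) := by
      refine ⟨hφ.1.comp (contDiff_id.sub contDiff_const),
        hφ.2.1.comp_homeomorph (Homeomorph.subRight h), fun y hy => ?_⟩
      have := hφ.2.2 (tsupport_comp_subset_preimage (f := fun y => y - h) φ (by fun_prop) hy)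
      rw [mem_ball_zero_iff] at this ⊢
      linarith [norm_le_norm_sub_add y h]
    have := hc _ t
    rw [← integral_add_right_eq_self _ h] at this
    simpa only [mul_assoc, I_mul_im, dz, fderiv_comp_sub, add_sub_cancel_right] using this
  have i1 : Integrable fun z => (a z * dz φ z).re := (integ ha hφ.1 hφ.2.1).re
  have i2 : Integrable fun z => (a (z + h) * dz φ z).re := (integ ha' hφ.1 hφ.2.1).re
  simp only [sub_mul, sub_re]
  rw [integral_sub i2 i1, h1, h2, sub_zero]

/-- the mollified field is curl free -/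
lemma mo_cu {R : ℝ} {f : ℂ → ℂ} (hf : LocallyIntegrable f volume) (hc : Cu (ball 0 R) f) (n : ℕ)
    (z : ℂ) (hz : ‖z‖ + 2 / (n + 1) < R) :
    (fderiv ℝ (mo n f) z 1 + I * fderiv ℝ (mo n f) z I).im = 0 := by
  set ρ : ℂ → ℝ := (bp n).normed volume with hρ
  have h1 : ContDiff ℝ ∞ ρ := (bp n).contDiff_normed
  have h2 : HasCompactSupport ρ := (bp n).hasCompactSupport_normed
  have h3 : Continuous (fderiv ℝ ρ) := h1.continuous_fderiv (by simp)
  have ex := ((h2.fderiv ℝ).convolutionExists_left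
    ((ContinuousLinearMap.lsmul ℝ ℝ : ℝ →L[ℝ] ℂ →L[ℝ] ℂ).precompL ℂ) h3 hf z).integrable_swap
  have key : ∀ v, fderiv ℝ (mo n f) z v = ∫ y, fderiv ℝ ρ (z - y) v • f y := by
    intro v
    rw [mo, (h2.hasFDerivAt_convolution_left (ContinuousLinearMap.lsmul ℝ ℝ) (h1.of_le (by simp))
      hf z).fderiv, convolution_eq_swap, ContinuousLinearMap.integral_apply ex]
    rfl
  have it : ∀ v, Integrable fun y => fderiv ℝ ρ (z - y) v • f y := fun v =>
    ex.apply_continuousLinearMap v
  have t : Ts (ball 0 R) fun y => ρ (z - y) := by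
    refine ⟨h1.comp (contDiff_const.sub contDiff_id),
      h2.comp_homeomorph (Homeomorph.subLeft z), fun y hy => ?_⟩
    have := tsupport_comp_subset_preimage (f := fun y => z - y) ρ (by fun_prop) hy
    rw [hρ, (bp n).tsupport_normed_eq, mem_preimage, mem_closedBall_zero_iff] at this
    have e : (bp n).rOut = 2 / (n + 1) := rfl
    rw [mem_ball_zero_iff]
    linarith [norm_le_norm_add_norm_sub z y]
  have d : ∀ y, fderiv ℝ (fun y => ρ (z - y)) y = -fderiv ℝ ρ (z - y) := fun y => by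
    have := ((h1.differentiable (by simp)) (z - y)).hasFDerivAt.comp y
      ((hasFDerivAt_id y).const_sub z)
    exact this.fderiv.trans (by simp)
  have := hc _ t
  have i2 : Integrable fun y => fderiv ℝ ρ (z - y) 1 • f y + I * fderiv ℝ ρ (z - y) I • f y :=
    (it 1).add ((it I).const_mul I)
  rw [key, key, ← integral_const_mul, ← integral_add (it 1) ((it I).const_mul I),
    ← imCLM_apply, ← imCLM.integral_comp_comm i2, ← neg_eq_zero, ← integral_neg, ← this]
  refine integral_congr_ae (Eventually.of_forall fun y => ?_)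
  simp [dz, d]
  ring

/-- the one-form of a field -/
def om : ℂ →L[ℝ] ℂ →L[ℝ] ℝ :=
  (ContinuousLinearMap.compL ℝ ℂ ℂ ℝ reCLM).comp (ContinuousLinearMap.mul ℝ ℂ)

lemma om_apply (c v : ℂ) : om c v = (c * v).re := rfl

lemma pot {ρ : ℝ} {F : ℂ → ℂ} (hF : ContDiff ℝ ∞ F)
    (hc : ∀ z ∈ ball (0 : ℂ) ρ, (fderiv ℝ F z 1 + I * fderiv ℝ F z I).im = 0) :
    ∃ u : ℂ → ℝ, ∀ z ∈ ball (0 : ℂ) ρ, HasFDerivAt u (om (F z)) z := by
  have hd := hF.differentiable (by simp)
  refine (convex_ball (0 : ℂ) ρ).exists_forall_hasFDerivAt_of_fderiv_symmetric isOpen_ball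
    (om.differentiable.comp hd).differentiableOn fun a ha x y => ?_
  have e : fderiv ℝ (fun z => om (F z)) a = om.comp (fderiv ℝ F a) :=
    (om.hasFDerivAt.comp a (hd a).hasFDerivAt).fderiv
  have := hc a ha
  simp only [add_im, I_mul_im] at this
  rw [e]
  simp only [ContinuousLinearMap.comp_apply, om_apply]
  rw [M2_apply _ x, M2_apply _ y]
  simp
  linear_combination (x.im * y.re - x.re * y.im) * this

/-- the mean of the norm along a segment -/
def av (F : ℂ → ℂ) (h z : ℂ) : ℝ := ∫ t in (0 : ℝ)..1, ‖F (z + t • h)‖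

lemma test {ρ ρ' : ℝ} {F : ℂ → ℂ} {u η : ℂ → ℝ} {h : ℂ} (hF : ContDiff ℝ ∞ F)
    (hu : ∀ z ∈ ball (0 : ℂ) ρ', HasFDerivAt u (om (F z)) z) (hη : Ts (ball 0 ρ) η)
    (hh : ρ + ‖h‖ ≤ ρ') :
    Ts (ball 0 ρ) (fun z => η z ^ 2 * (u (z + h) - u z)) ∧
    (∀ z, dz (fun z => η z ^ 2 * (u (z + h) - u z)) z = (η z ^ 2 : ℝ) * conj (F (z + h) - F z) +
      (2 * η z * (u (z + h) - u z) : ℝ) * dz η z) ∧
    ∀ z ∈ ball (0 : ℂ) ρ, |u (z + h) - u z| ≤ ‖h‖ * av F h z := by
  have seg : ∀ z ∈ ball (0 : ℂ) ρ, ∀ t ∈ Icc (0 : ℝ) 1, z + t • h ∈ ball (0 : ℂ) ρ' := by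
    intro z hz t ht
    rw [mem_ball_zero_iff] at hz ⊢
    have : ‖t • h‖ ≤ ‖h‖ := by
      rw [norm_smul, Real.norm_of_nonneg ht.1]
      exact mul_le_of_le_one_left (norm_nonneg _) ht.2
    linarith [norm_add_le z (t • h)]
  have m0 : ∀ z ∈ ball (0 : ℂ) ρ, z ∈ ball (0 : ℂ) ρ' := fun z hz => by
    simpa using seg z hz 0 (by simp)
  have m1 : ∀ z ∈ ball (0 : ℂ) ρ, z + h ∈ ball (0 : ℂ) ρ' := fun z hz => by
    simpa using seg z hz 1 (by simp)
  have su : ContDiffOn ℝ ∞ u (ball 0 ρ') := by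
    rw [contDiffOn_infty_iff_fderiv_of_isOpen isOpen_ball]
    exact ⟨fun z hz => (hu z hz).differentiableAt.differentiableWithinAt,
      (om.contDiff.comp hF).contDiffOn.congr fun z hz => (hu z hz).fderiv⟩
  have ts : tsupport (fun z => η z ^ 2 * (u (z + h) - u z)) ⊆ tsupport η :=
    closure_mono fun z hz h0 => hz (by simp [h0])
  refine ⟨⟨contDiff_iff_contDiffAt.2 fun z => ?_, hη.2.1.of_isClosed_subset isClosed_closure ts,
    ts.trans hη.2.2⟩, fun z => ?_, fun z hz => ?_⟩
  · by_cases hz : z ∈ tsupport η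
    · have hz' := hη.2.2 hz
      have a : ContDiffAt ℝ ∞ (fun z => u (z + h)) z :=
        (su.contDiffAt (isOpen_ball.mem_nhds (m1 z hz'))).comp z
          (contDiffAt_id.add contDiffAt_const)
      exact (hη.1.contDiffAt.pow 2).mul (a.sub (su.contDiffAt (isOpen_ball.mem_nhds (m0 z hz'))))
    · exact contDiffAt_const.congr_of_eventuallyEq
        (notMem_tsupport_iff_eventuallyEq.1 fun h' => hz (ts h'))
  · by_cases hz : z ∈ tsupport η
    · have hz' := hη.2.2 hz
      have a : HasFDerivAt (fun z => u (z + h)) (om (F (z + h))) z :=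
        (hasFDerivAt_comp_add_right h).2 (hu _ (m1 z hz'))
      have b := (((hη.1.differentiable (by simp)) z).hasFDerivAt.pow 2).mul (a.sub (hu z (m0 z hz')))
      rw [dz, show (fun z => η z ^ 2 * (u (z + h) - u z)) =
        (fun z => η z ^ 2) * ((fun z => u (z + h)) - u) from rfl, b.fderiv]
      apply Complex.ext <;> simp [dz, om_apply, -ofReal_pow] <;> ring
    · rw [dz_zero fun h' => hz (ts h'), image_eq_zero_of_notMem_tsupport hz]
      simp
  · have hc := hF.continuous
    have d : ∀ t ∈ uIcc (0 : ℝ) 1,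
        HasDerivAt (fun t : ℝ => u (z + t • h)) ((F (z + t • h) * h).re) t := by
      intro t ht
      rw [uIcc_of_le zero_le_one] at ht
      have := (hu _ (seg z hz t ht)).comp_hasDerivAt t
        (((hasDerivAt_id t).smul_const h).const_add z)
      rw [one_smul] at this
      exact this
    have e := intervalIntegral.integral_eq_sub_of_hasDerivAt d
      (Continuous.intervalIntegrable (by fun_prop) _ _)
    simp only [one_smul, zero_smul, add_zero] at e
    rw [← e, av, ← intervalIntegral.integral_const_mul]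
    refine (intervalIntegral.abs_integral_le_integral_abs zero_le_one).trans
      (intervalIntegral.integral_mono zero_le_one (Continuous.intervalIntegrable (by fun_prop) _ _)
        (Continuous.intervalIntegrable (by fun_prop) _ _) fun t => ?_)
    exact (abs_re_le_norm _).trans_eq (by rw [norm_mul, mul_comm])

lemma av_nonneg (F : ℂ → ℂ) (h z : ℂ) : 0 ≤ av F h z :=
  intervalIntegral.integral_nonneg zero_le_one fun _ _ => norm_nonneg _

lemma av_cont {F : ℂ → ℂ} (hF : Continuous F) (h : ℂ) : Continuous (av F h) :=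
  intervalIntegral.continuous_parametric_intervalIntegral_of_continuous'
    (f := fun (z : ℂ) (t : ℝ) => ‖F (z + t • h)‖) (by fun_prop) 0 1

lemma av_lint {p : ℝ} (hp : 1 ≤ p) {F : ℂ → ℂ} (hF : Continuous F) (h : ℂ) :
    ∫⁻ z, ENNReal.ofReal (av F h z ^ p) ≤ ∫⁻ z, ‖F z‖ₑ ^ p := by
  have hp0 : 0 < p := by linarith
  have : IsProbabilityMeasure (volume.restrict (Ioc (0 : ℝ) 1)) := ⟨by simp⟩
  have pt : ∀ z, ENNReal.ofReal (av F h z ^ p) ≤
      ∫⁻ t in Ioc (0 : ℝ) 1, ‖F (z + t • h)‖ₑ ^ p := by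
    intro z
    have c : Continuous fun t : ℝ => F (z + t • h) := by fun_prop
    rw [← ENNReal.ofReal_rpow_of_nonneg (av_nonneg F h z) hp0.le, av,
      intervalIntegral.integral_of_le zero_le_one,
      ofReal_integral_norm_eq_lintegral_enorm (c.integrableOn_Ioc),
      lintegral_rpow_enorm_eq_rpow_eLpNorm' hp0]
    refine ENNReal.rpow_le_rpow ?_ hp0.le
    have := eLpNorm'_le_eLpNorm'_of_exponent_le one_pos hp (volume.restrict (Ioc (0 : ℝ) 1))
      c.aestronglyMeasurable
    simpa [eLpNorm'_eq_lintegral_enorm] using this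
  refine (lintegral_mono pt).trans ?_
  rw [lintegral_lintegral_swap]
  · simp only [lintegral_add_right_eq_self (fun z => ‖F z‖ₑ ^ p)]
    simp
  · have c : Continuous fun q : ℂ × ℝ => F (q.1 + q.2 • h) := by fun_prop
    exact (c.enorm.measurable.pow_const p).aemeasurable

lemma young {s σ X D m w e c C H : ℝ} {A G : ℂ} (hs0 : 0 ≤ s) (hs1 : s < 1) (hσ : 0 < σ)
    (hX : 0 ≤ X) (hm : 0 ≤ m) (he : 0 ≤ e) (hA : ‖A‖ ≤ C * (X ^ s * D)) (hG : ‖G‖ ≤ c)
    (hw : |w| ≤ H * m) :
    -(A * ((2 * e * w : ℝ) * G)).re ≤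
      σ * (e ^ 2 * D ^ 2) + (c * C * H) ^ 2 / σ * (X ^ 2 + m ^ (2 / (1 - s))) := by
  have h1 : -(A * ((2 * e * w : ℝ) * G)).re ≤ C * (X ^ s * D) * (2 * e * (H * m) * c) := by
    refine (neg_le_abs _).trans ((abs_re_le_norm _).trans ?_)
    rw [norm_mul, norm_mul, Complex.norm_real, Real.norm_eq_abs, abs_mul,
      abs_of_nonneg (by positivity : 0 ≤ 2 * e)]
    have := (abs_nonneg _).trans hw
    have := (norm_nonneg _).trans hA
    gcongr
  have h2 : (X ^ s * m) ^ 2 ≤ X ^ 2 + m ^ (2 / (1 - s)) := by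
    have hs : 0 < 1 - s := by linarith
    have a : 0 ≤ m ^ (2 / (1 - s)) := by positivity
    have := Real.geom_mean_le_arith_mean2_weighted hs0 hs.le (sq_nonneg X) a (by ring)
    rw [← Real.rpow_mul hm, div_mul_cancel₀ _ hs.ne', ← Real.rpow_natCast X, ← Real.rpow_mul hX,
      mul_comm _ s, Real.rpow_mul hX, Real.rpow_natCast, Real.rpow_natCast, Real.rpow_two] at this
    rw [mul_pow]
    nlinarith [sq_nonneg X]
  have h3 : C * (X ^ s * D) * (2 * e * (H * m) * c) ≤
      σ * (e ^ 2 * D ^ 2) + (c * C * H) ^ 2 / σ * (X ^ s * m) ^ 2 := by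
    rw [← sub_nonneg]
    have : σ * (e ^ 2 * D ^ 2) + (c * C * H) ^ 2 / σ * (X ^ s * m) ^ 2 -
        C * (X ^ s * D) * (2 * e * (H * m) * c) =
        (σ * (e * D) - c * C * H * (X ^ s * m)) ^ 2 / σ := by
      field_simp
      ring
    rw [this]
    positivity
  refine h1.trans (h3.trans ?_)
  gcongr

lemma tr {p : ℝ≥0∞} {f : ℂ → ℂ} (hf : MemLp f p volume) (h : ℂ) :
    MemLp (fun z => f (z + h)) p volume :=
  hf.comp_measurePreserving (measurePreserving_add_right volume h)

lemma pair_int {p q : ℝ≥0∞} [ENNReal.HolderTriple q p 1] {b g : ℂ → ℂ} (hb : MemLp b q volume)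
    (hg : MemLp g p volume) : Integrable fun z => (b z * conj (g z)).re :=
  (hb.integrable_mul hg.star).re

lemma pair {p q : ℝ≥0∞} [ENNReal.HolderTriple q p 1] {b f : ℂ → ℂ} {g : ℕ → ℂ → ℂ}
    (hb : MemLp b q volume) (hg : ∀ n, MemLp (g n) p volume) (hf : MemLp f p volume)
    (hl : Tendsto (fun n => eLpNorm (g n - f) p volume) atTop (𝓝 0)) :
    Tendsto (fun n => ∫ z, (b z * conj (g n z)).re) atTop (𝓝 (∫ z, (b z * conj (f z)).re)) := by
  refine tendsto_integral_of_L1' _ (pair_int hb hf).1 (Eventually.of_forall fun n =>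
    pair_int hb (hg n)) ?_
  have l := ENNReal.Tendsto.const_mul hl (Or.inr hb.eLpNorm_ne_top)
  rw [mul_zero] at l
  refine tendsto_of_tendsto_of_tendsto_of_le_of_le tendsto_const_nhds l (fun _ => zero_le)
    fun n => le_trans (eLpNorm_mono fun z => ?_)
      (eLpNorm_smul_le_mul_eLpNorm ((hg n).sub hf).1 hb.1 (r := 1))
  simp only [Pi.sub_apply, Pi.smul_apply', smul_eq_mul]
  rw [← sub_re, ← mul_sub, ← map_sub, Real.norm_eq_abs]
  exact (abs_re_le_norm _).trans_eq (by rw [norm_mul, norm_mul, Complex.norm_conj])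

lemma pw_mem (pow : PowS) {b : ℝ} (hb : -1 < b) {V : ℂ → ℂ} (hV : MemLp V 2 volume) :
    MemLp (fun z => pw b (V z)) (ENNReal.ofReal (2 / (b + 1))) volume := by
  have h := hV.norm_rpow_div (ENNReal.ofReal (b + 1))
  rw [ENNReal.toReal_ofReal (by linarith)] at h
  rw [ENNReal.ofReal_div_of_pos (by linarith), ENNReal.ofReal_ofNat]
  refine h.congr_norm ((pow.2.2.1 b hb).comp_aestronglyMeasurable hV.1)
    (Eventually.of_forall fun z => ?_)
  rw [pow.2.1 b _ hb, Real.norm_of_nonneg (by positivity)]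

lemma main (mol : MolS) (pow : PowS) {s r R : ℝ} {V : ℂ → ℂ} (hs0 : 0 ≤ s) (hs1 : s < 1)
    (hr : 0 < r) (hrR : r < R) (hV : MemLp V 2 volume)
    (h1 : Cu (ball 0 R) fun z => pw (-s) (V z)) (h2 : Cu (ball 0 R) fun z => I * pw s (V z)) :
    Dq r V := by
  obtain ⟨d, hd, rfl⟩ : ∃ d, 0 < d ∧ R = r + 4 * d := ⟨(R - r) / 4, by linarith, by ring⟩
  have hs : 0 < 1 - s := by linarith
  set p : ℝ := 2 / (1 - s) with hp
  have p1 : 1 ≤ p := by rw [hp, le_div_iff₀ hs]; linarith
  have q1 : 1 ≤ 2 / (s + 1) := by rw [le_div_iff₀ (by linarith)]; linarith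
  have hf := pw_mem pow (b := -s) (by linarith) hV
  rw [neg_add_eq_sub, ← hp] at hf
  have ha := pw_mem pow (b := s) (by linarith) hV
  set f : ℂ → ℂ := fun z => pw (-s) (V z) with hfd
  set a : ℂ → ℂ := fun z => pw s (V z) with had
  have P1 : 1 ≤ ENNReal.ofReal p := ENNReal.one_le_ofReal.2 p1
  have Q1 : 1 ≤ ENNReal.ofReal (2 / (s + 1)) := ENNReal.one_le_ofReal.2 q1
  have : ENNReal.HolderConjugate (ENNReal.ofReal (2 / (s + 1))) (ENNReal.ofReal p) :=
    Real.HolderConjugate.ennrealOfReal ⟨by rw [hp]; field_simp; ring, by linarith, by linarith⟩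
  obtain ⟨my, ml⟩ := mol ℂ _ f P1 ENNReal.ofReal_ne_top hf
  have fl := hf.locallyIntegrable P1
  have sm : ∀ n, ContDiff ℝ ∞ (mo n f) := fun n =>
    (bp n).hasCompactSupport_normed.contDiff_convolution_left _ (bp n).contDiff_normed fl
  have le : ∀ n, eLpNorm (mo n f) (ENNReal.ofReal p) volume ≤
      eLpNorm f (ENNReal.ofReal p) volume := fun n => by
    have := my _ ((bp n).continuous_normed (μ := volume)) (bp n).hasCompactSupport_normed
    simpa only [abs_of_nonneg ((bp n).nonneg_normed _), (bp n).integral_normed,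
      ENNReal.ofReal_one, one_mul, mo] using this
  have mm : ∀ n, MemLp (mo n f) (ENNReal.ofReal p) volume := fun n =>
    ⟨(sm n).continuous.aestronglyMeasurable, (le n).trans_lt hf.2⟩
  have P0 : ENNReal.ofReal p ≠ 0 := (zero_lt_one.trans_le P1).ne'
  have fin : ∫⁻ z, ‖f z‖ₑ ^ p < ⊤ := by
    have := lintegral_rpow_enorm_lt_top_of_eLpNorm_lt_top P0 ENNReal.ofReal_ne_top hf.2
    rwa [ENNReal.toReal_ofReal (by linarith)] at this
  have le' : ∀ n, ∫⁻ z, ‖mo n f z‖ₑ ^ p ≤ ∫⁻ z, ‖f z‖ₑ ^ p := fun n => by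
    have := le n
    rw [eLpNorm_eq_lintegral_rpow_enorm_toReal P0 ENNReal.ofReal_ne_top,
      eLpNorm_eq_lintegral_rpow_enorm_toReal P0 ENNReal.ofReal_ne_top,
      ENNReal.toReal_ofReal (by linarith)] at this
    exact (ENNReal.rpow_le_rpow_iff (by positivity)).1 this
  let η : ContDiffBump (0 : ℂ) := ⟨r, r + d, hr, by linarith⟩
  have hη : Ts (ball (0 : ℂ) (r + 2 * d)) η := ⟨η.contDiff, η.hasCompactSupport, by
    rw [η.tsupport_eq]
    exact closedBall_subset_ball (show r + d < _ by linarith)⟩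
  obtain ⟨c, hc⟩ := (dz_cont hη.1).bounded_above_of_compact_support (dz_supp hη.2.1)
  obtain ⟨C, -, hC⟩ := pow.2.2.2.2.2.1 s hs0
  set σ : ℝ := (1 - s) / 2 with hσ
  have σ0 : 0 < σ := by positivity
  set N : ℝ := ∫ z, ‖V z‖ ^ 2
  set B : ℝ := (∫⁻ z, ‖f z‖ₑ ^ p).toReal
  refine ⟨(c * C) ^ 2 / σ * (4 * N + B) / σ, d, hd, fun h hh => ?_⟩
  have ηb : ∀ z, η z ^ 2 ≤ 1 := fun z => pow_le_one₀ η.nonneg η.le_one
  have ηc : Continuous fun z => η z ^ 2 := η.continuous.pow 2
  have iV : Integrable fun z => ‖V z‖ ^ 2 := hV.norm.integrable_sq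
  have iW : Integrable fun z => ‖V (z + h)‖ ^ 2 := (tr hV h).norm.integrable_sq
  have iE : Integrable fun z => η z ^ 2 * ‖V (z + h) - V z‖ ^ 2 :=
    ((tr hV h).sub hV).norm.integrable_sq.bdd_mul ηc.aestronglyMeasurable
      (Eventually.of_forall fun z => by rw [Real.norm_of_nonneg (sq_nonneg _)]; exact ηb z)
  set E : ℝ := ∫ z, η z ^ 2 * ‖V (z + h) - V z‖ ^ 2 with hE
  set b : ℂ → ℂ := fun z => (η z ^ 2 : ℝ) * (a (z + h) - a z) with hbd
  have hb : MemLp b (ENNReal.ofReal (2 / (s + 1))) volume := by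
    refine ((tr ha h).sub ha).of_le ((continuous_ofReal.comp ηc).aestronglyMeasurable.mul
      ((tr ha h).sub ha).1) (Eventually.of_forall fun z => ?_)
    rw [norm_mul, Complex.norm_real, Real.norm_of_nonneg (sq_nonneg _)]
    exact mul_le_of_le_one_left (norm_nonneg _) (ηb z)
  have low : (1 - s) * E ≤ ∫ z, (b z * conj (f (z + h) - f z)).re := by
    rw [hE, ← integral_const_mul]
    refine integral_mono (iE.const_mul _) (pair_int hb ((tr hf h).sub hf)) fun z => ?_
    have := mul_le_mul_of_nonneg_left (pow.2.2.2.2.1 s (V (z + h)) (V z) hs0 hs1) (sq_nonneg (η z))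
    simp only [hbd, mul_assoc, re_ofReal_mul]
    linarith
  have lim : Tendsto (fun n => ∫ z, (b z * conj (mo n f (z + h) - mo n f z)).re) atTop
      (𝓝 (∫ z, (b z * conj (f (z + h) - f z)).re)) := by
    refine pair (g := fun n z => mo n f (z + h) - mo n f z) hb
      (fun n => (tr (mm n) h).sub (mm n)) ((tr hf h).sub hf) ?_
    have l := ml.add ml
    rw [add_zero] at l
    refine tendsto_of_tendsto_of_tendsto_of_le_of_le tendsto_const_nhds l (fun _ => zero_le)
      fun n => ?_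
    have m := (mm n).sub hf
    have e : ((fun z => mo n f (z + h) - mo n f z) - fun z => f (z + h) - f z) =
        (mo n f - f) ∘ (· + h) - (mo n f - f) := by
      funext z
      simp only [Pi.sub_apply, Function.comp]
      ring
    simp only [e]
    refine (eLpNorm_sub_le (tr m h).1 m.1 P1).trans_eq ?_
    rw [← eLpNorm_comp_measurePreserving m.1 (measurePreserving_add_right volume h)]
    rfl
  have up : ∀ᶠ n in atTop, ∫ z, (b z * conj (mo n f (z + h) - mo n f z)).re ≤
      σ * E + (c * C * ‖h‖) ^ 2 / σ * (4 * N + B) := by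
    have t : Tendsto (fun n : ℕ => (2 : ℝ) / (n + 1)) atTop (𝓝 0) :=
      tendsto_const_nhds.div_atTop (tendsto_natCast_atTop_atTop.atTop_add tendsto_const_nhds)
    filter_upwards [t.eventually_lt_const hd] with n hn
    obtain ⟨u, hu⟩ := pot (ρ := r + 3 * d) (sm n) fun z hz => mo_cu fl h1 n z (by
      rw [mem_ball_zero_iff] at hz
      linarith)
    obtain ⟨t1, t2, t3⟩ := test (sm n) hu hη (h := h) (by linarith)
    have al := ha.locallyIntegrable Q1
    have al' := (tr ha h).locallyIntegrable Q1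
    have z0 := shift al al' h2 t1 (by linarith)
    have i0 : Integrable fun z => ((a (z + h) - a z) *
        dz (fun z => η z ^ 2 * (u (z + h) - u z)) z).re := (integ (al'.sub al) t1.1 t1.2.1).re
    have i1 : Integrable fun z => (b z * conj (mo n f (z + h) - mo n f z)).re :=
      pair_int hb ((tr (mm n) h).sub (mm n))
    have ac : Continuous fun z => av (mo n f) h z ^ p :=
      (av_cont (sm n).continuous h).rpow_const fun _ => Or.inr (by linarith)
    have an : ∀ z, 0 ≤ av (mo n f) h z ^ p := fun z => Real.rpow_nonneg (av_nonneg _ _ _) _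
    have ab := (av_lint p1 (sm n).continuous h).trans (le' n)
    have ia : Integrable fun z => av (mo n f) h z ^ p :=
      ⟨ac.aestronglyMeasurable,
        (hasFiniteIntegral_iff_ofReal (Eventually.of_forall an)).2 (ab.trans_lt fin)⟩
    have aB : ∫ z, av (mo n f) h z ^ p ≤ B := by
      rw [integral_eq_lintegral_of_nonneg_ae (Eventually.of_forall an) ia.1]
      exact ENNReal.toReal_mono fin.ne ab
    have i2 : Integrable fun z => 2 * ‖V (z + h)‖ ^ 2 + 2 * ‖V z‖ ^ 2 :=
      (iW.const_mul 2).add (iV.const_mul 2)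
    have i3 : Integrable fun z => 2 * ‖V (z + h)‖ ^ 2 + 2 * ‖V z‖ ^ 2 + av (mo n f) h z ^ p :=
      i2.add ia
    have K0 : 0 ≤ (c * C * ‖h‖) ^ 2 / σ := by positivity
    calc _ = ∫ z, ((b z * conj (mo n f (z + h) - mo n f z)).re - ((a (z + h) - a z) *
          dz (fun z => η z ^ 2 * (u (z + h) - u z)) z).re) := by
          rw [integral_sub i1 i0, z0, sub_zero]
      _ ≤ ∫ z, (σ * (η z ^ 2 * ‖V (z + h) - V z‖ ^ 2) + (c * C * ‖h‖) ^ 2 / σ *
          (2 * ‖V (z + h)‖ ^ 2 + 2 * ‖V z‖ ^ 2 + av (mo n f) h z ^ p)) := by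
          refine integral_mono (i1.sub i0) ((iE.const_mul _).add (i3.const_mul _)) fun z => ?_
          have e : (b z * conj (mo n f (z + h) - mo n f z)).re - ((a (z + h) - a z) *
              dz (fun z => η z ^ 2 * (u (z + h) - u z)) z).re =
              -((a (z + h) - a z) * ((2 * η z * (u (z + h) - u z) : ℝ) * dz η z)).re := by
            rw [t2, ← sub_re, ← neg_re, hbd]
            congr 1
            ring
          simp only [e]
          by_cases hz : z ∈ ball (0 : ℂ) (r + 2 * d)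
          · refine (young hs0 hs1 σ0 (by positivity) (av_nonneg _ _ _) η.nonneg
              (hC (V (z + h)) (V z)).1 (hc z) (t3 z hz)).trans ?_
            gcongr
            nlinarith [sq_nonneg (‖V (z + h)‖ - ‖V z‖)]
          · rw [dz_zero fun h' => hz (hη.2.2 h')]
            have := an z
            simp only [mul_zero, zero_re, neg_zero]
            positivity
      _ ≤ _ := by
          rw [integral_add (iE.const_mul _) (i3.const_mul _), integral_const_mul,
            integral_const_mul, integral_add i2 ia, integral_add (iW.const_mul 2) (iV.const_mul 2),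
            integral_const_mul, integral_const_mul,
            integral_add_right_eq_self (fun z => ‖V z‖ ^ 2) h]
          gcongr
          linarith
  have fi : E ≤ (c * C) ^ 2 / σ * (4 * N + B) / σ * ‖h‖ ^ 2 := by
    have := low.trans (le_of_tendsto lim up)
    rw [div_mul_eq_mul_div, le_div_iff₀ σ0]
    have e : (c * C * ‖h‖) ^ 2 / σ * (4 * N + B) = (c * C) ^ 2 / σ * (4 * N + B) * ‖h‖ ^ 2 := by
      ring
    have e' : (1 - s) * E = σ * E + E * σ := by rw [hσ]; ring
    linarith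
  refine le_trans ?_ (ENNReal.ofReal_le_ofReal fi)
  rw [hE, ofReal_integral_eq_lintegral_ofReal iE (Eventually.of_forall fun z => by positivity)]
  refine le_trans (le_of_eq ?_) (setLIntegral_le_lintegral (ball 0 r) _)
  refine setLIntegral_congr_fun measurableSet_ball fun z hz => ?_
  simp only [η.one_of_mem_closedBall (ball_subset_closedBall hz), one_pow, one_mul]
  rw [ENNReal.ofReal_pow (norm_nonneg _), ofReal_norm]

end DqR

theorem dq : MolS → PowS → DqS := by
  intro mol pow s r R V hs0 hs1 hrR hV h1 h2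
  rcases le_or_gt r 0 with hr | hr
  · exact ⟨0, 1, one_pos, fun h _ => by simp [ball_eq_empty.2 hr]⟩
  obtain ⟨C, τ, hτ, H⟩ := DqR.main mol pow (V := (ball 0 R).indicator V) hs0 hs1 hr hrR
    ((memLp_indicator_iff_restrict measurableSet_ball).2 hV)
    (DqR.cut h1 fun z hz => by rw [indicator_of_mem hz])
    (DqR.cut h2 fun z hz => by rw [indicator_of_mem hz])
  refine ⟨C, min τ (R - r), lt_min hτ (by linarith), fun h hh => ?_⟩
  refine le_trans (le_of_eq ?_) (H h (hh.trans_le (min_le_left _ _)))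
  refine setLIntegral_congr_fun measurableSet_ball fun z hz => ?_
  have a := hh.trans_le (min_le_right _ _)
  have b : z + h ∈ ball (0 : ℂ) R := by
    rw [mem_ball_zero_iff] at hz ⊢
    linarith [norm_add_le z h]
  simp only [indicator_of_mem b, indicator_of_mem (ball_subset_ball hrR.le hz)]

end Pool.Agent.MP_815c6c_an.P

end
end MrgPart0

-- ======== part 1: formerly Pool.Agent.MP_815c6c_an.P.Fin
section MrgPart1

/-! Planar p-harmonic functions: transfer from the complex plane to the Euclidean plane. -/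

set_option autoImplicit false

noncomputable section

namespace Pool.Agent.MP_815c6c_an.P

open Set Metric MeasureTheory Filter Topology Complex
open scoped ContDiff ENNReal ComplexConjugate

namespace FinT

/-- the identification of the two planes -/
def e : ℂ ≃ₗᵢ[ℝ] E2 := orthonormalBasisOneI.repr

/-- the identification that reverses the orientation -/
def j : E2 ≃ₗᵢ[ℝ] ℂ := e.symm.trans conjLIE

lemma j_e (w : ℂ) : j (e w) = conj w := by simp [j]

lemma mp : MeasurePreserving e volume volume := orthonormalBasisOneI.measurePreserving_repr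

lemma emb : MeasurableEmbedding e := e.toHomeomorph.measurableEmbedding

lemma mpr (s : Set E2) : MeasurePreserving e (vo (e ⁻¹' s)) (volume.restrict s) :=
  mp.restrict_preimage_emb emb s

lemma avg_e {X : Type} [NormedAddCommGroup X] [NormedSpace ℝ X] (f : E2 → X) (x : E2) (r : ℝ) :
    ⨍ z in ball (e.symm x) r, f (e z) = ⨍ y in ball x r, f y := by
  rw [← e.preimage_ball, setAverage_eq, setAverage_eq, mp.setIntegral_preimage_emb emb,
    measureReal_def, measureReal_def, mp.measure_preimage_emb emb]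

lemma osc_e (V : E2 → E2) (x : E2) (r : ℝ) :
    osc (fun z => j (V (e z))) (e.symm x) r = osc2 V x r := by
  have h : ⨍ y in ball x r, j (V y) = j (⨍ y in ball x r, V y) := by
    rw [setAverage_eq, setAverage_eq, map_smul]
    congr 1
    exact j.toLinearIsometry.integral_comp_comm V
  rw [osc, osc2, avg_e (fun y => j (V y)), h, avg_e fun y => ‖j (V y) - j _‖ ^ 2]
  simp only [← map_sub, LinearIsometryEquiv.norm_map]

lemma pw_j (a : ℝ) (y : E2) : pw a (j y) = j (‖y‖ ^ a • y) := by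
  rw [pw, map_smul, LinearIsometryEquiv.norm_map, real_smul]

lemma pair (L : E2 →L[ℝ] ℝ) (y : E2) :
    (I * j y * ((L (e 1) : ℝ) + I * (L (e I) : ℝ))).im = L y ∧
      (j y * ((L (e 1) : ℝ) + I * (L (e I) : ℝ))).im =
        L (e I) * inner ℝ y (e 1) - L (e 1) * inner ℝ y (e I) := by
  obtain ⟨w, rfl⟩ := e.surjective y
  have h : L (e w) = w.re * L (e 1) + w.im * L (e I) := by
    conv_lhs => rw [show w = w.re • (1 : ℂ) + w.im • I by simp]
    simp only [map_add, map_smul, smul_eq_mul]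
  rw [j_e, h, e.inner_map_map, e.inner_map_map]
  constructor
  · simp [add_comm]
  · simp [Complex.inner]
    ring

lemma dz_e (φ : ℂ → ℝ) (z : ℂ) : dz φ z =
    (fderiv ℝ (φ ∘ e.symm) (e z) (e 1) : ℝ) + I * (fderiv ℝ (φ ∘ e.symm) (e z) (e I) : ℝ) := by
  have := e.symm.toContinuousLinearEquiv.comp_right_fderiv (f := φ) (x := e z)
  simp only [LinearIsometryEquiv.coe_toContinuousLinearEquiv] at this
  simp [dz, this]

lemma test {U : Set E2} {φ : ℂ → ℝ} (h : Ts (e ⁻¹' U) φ) : ContDiff ℝ ∞ (φ ∘ e.symm) ∧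
    HasCompactSupport (φ ∘ e.symm) ∧ tsupport (φ ∘ e.symm) ⊆ U := by
  refine ⟨h.1.comp e.symm.contDiff, h.2.1.comp_homeomorph e.symm.toHomeomorph, fun x hx => ?_⟩
  have := h.2.2 (tsupport_comp_subset_preimage φ e.symm.continuous hx)
  simpa using this

/-- a weak gradient is curl free -/
lemma curl {U : Set E2} {h : E2 → ℝ} {G : E2 → E2}
    (h1 : ∀ K ⊆ U, IsCompact K → IntegrableOn G K)
    (h2 : ∀ φ : E2 → ℝ, ContDiff ℝ ∞ φ → HasCompactSupport φ → tsupport φ ⊆ U →
      ∀ v, ∫ x, h x * fderiv ℝ φ x v = -∫ x, φ x * inner ℝ (G x) v)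
    {φ : E2 → ℝ} (a1 : ContDiff ℝ ∞ φ) (a2 : HasCompactSupport φ) (a3 : tsupport φ ⊆ U)
    (v w : E2) :
    ∫ x, (fderiv ℝ φ x w * inner ℝ (G x) v - fderiv ℝ φ x v * inner ℝ (G x) w) = 0 := by
  have b0 : ContDiff ℝ ∞ (fderiv ℝ φ) := a1.fderiv_right (m := ∞) (by simp)
  have b1 : ∀ v, ContDiff ℝ ∞ fun x => fderiv ℝ φ x v := fun v => b0.clm_apply contDiff_const
  have b2 : ∀ v, tsupport (fun x => fderiv ℝ φ x v) ⊆ tsupport φ := tsupport_fderiv_apply_subset ℝ
  have b3 : ∀ v w, Integrable fun x => fderiv ℝ φ x w * inner ℝ (G x) v := fun v w => by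
    refine (integrableOn_iff_integrable_of_support_subset
      (((Function.support_mul_subset_left _ _).trans (subset_tsupport _)).trans (b2 w))).1 ?_
    exact IntegrableOn.continuousOn_mul (b1 w).continuous.continuousOn
      ((h1 _ a3 a2).inner_const v) a2
  have b4 : ∀ x v w, fderiv ℝ (fun x => fderiv ℝ φ x w) x v = fderiv ℝ (fderiv ℝ φ) x v w := by
    intro x v w
    rw [fderiv_clm_apply (b0.differentiable (by simp) x) (differentiableAt_const _)]
    simp
  have b5 := h2 _ (b1 w) (a2.fderiv_apply ℝ w) ((b2 w).trans a3) v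
  have b6 := h2 _ (b1 v) (a2.fderiv_apply ℝ v) ((b2 v).trans a3) w
  have b7 : ∀ x, fderiv ℝ (fderiv ℝ φ) x v w = fderiv ℝ (fderiv ℝ φ) x w v := fun x =>
    (a1.contDiffAt.isSymmSndFDerivAt (by
      rw [minSmoothness_of_isRCLikeNormedField]
      exact WithTop.coe_le_coe.2 (le_top : (2 : ℕ∞) ≤ ⊤)) :) v w
  simp only [b4, b7] at b5 b6
  rw [integral_sub (b3 v w) (b3 w v)]
  linarith

lemma root {p : ℝ} (hp : 1 < p) : ∃ c : ℝ, 0 < c ∧ c < 3 ∧ c ^ 2 + p * c = 3 * (p - 1) := by
  obtain ⟨c, hc, h⟩ := intermediate_value_Ioo (show (0 : ℝ) ≤ 3 by norm_num)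
    (show ContinuousOn (fun c : ℝ => c ^ 2 + p * c) (Icc 0 3) by fun_prop)
    (show 3 * (p - 1) ∈ Ioo _ _ by constructor <;> linarith)
  exact ⟨c, hc.1, hc.2, h⟩

end FinT

open FinT

theorem fin (pow : PowS) (reg : RegS) (dec : DecS) : FinS := by
  intro p b hp hb hpb
  obtain ⟨c, c0, c3, hc⟩ := root hp
  have hε : |(c - 1) / (c + 3)| < 1 / 3 := by
    rw [abs_lt, lt_div_iff₀ (by linarith), div_lt_iff₀ (by linarith)]
    constructor <;> linarith
  have hP : eP ((c - 1) / (c + 3)) = 1 / c := by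
    have : c + 3 ≠ 0 := by linarith
    rw [eP, div_eq_div_iff (by linarith [(abs_lt.1 hε).1]) c0.ne']
    field_simp
    ring
  have hQ : eQ ((c - 1) / (c + 3)) = (p - 1) / c := by
    have : c + 3 ≠ 0 := by linarith
    rw [eQ, div_eq_div_iff (by linarith [(abs_lt.1 hε).2]) c0.ne']
    field_simp
    linarith
  have ha : 0 ≤ b / c - 1 := by
    rw [sub_nonneg, one_le_div c0]
    by_contra! h
    nlinarith
  have ha' : p = 2 ∨ 3 * (p - 1) < b ^ 2 + p * b → 0 < b / c - 1 ∨ (c - 1) / (c + 3) = 0 := by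
    rintro (h | h)
    · subst h
      rw [show c = 1 by nlinarith]
      simp
    · refine Or.inl ?_
      rw [sub_pos, one_lt_div c0]
      by_contra! h
      nlinarith
  obtain ⟨C, hC⟩ := dec _ _ hε ha
  refine ⟨C, fun U h G hU h1 h2 => ?_⟩
  have hw : ∀ (s : ℝ) (w : ℂ), pw (s / c - 1) (pw (c - 1) w) = pw (s - 1) w := fun s w => by
    rw [pow.1 _ _ _ (by linarith)]
    congr 1
    field_simp
    ring
  have hw' : ∀ (s : ℝ) (y : E2), pw (s / c - 1) (pw (c - 1) (j y)) = j (‖y‖ ^ (s - 1) • y) :=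
    fun s y => by rw [hw, pw_j]
  have hW : Wk ((c - 1) / (c + 3)) (e ⁻¹' U) fun z => pw (c - 1) (j (G (e z))) := by
    refine ⟨fun K a1 a2 => ?_, fun φ hφ => ?_, fun φ hφ => ?_⟩
    · have b1 := ((h1 _ (image_subset_iff.2 a1) (a2.image e.continuous)).2.comp_measurePreserving
        (mpr _)).norm_rpow_div (ENNReal.ofReal (p / 2))
      have b2 := ((h1 _ (image_subset_iff.2 a1) (a2.image e.continuous)).2.comp_measurePreserving
        (mpr _)).1
      rw [preimage_image_eq _ e.injective] at b1 b2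
      rw [← ENNReal.ofReal_div_of_pos (by linarith), show p / (p / 2) = 2 by field_simp,
        ENNReal.ofReal_ofNat, ENNReal.toReal_ofReal (by linarith)] at b1
      simp only [hP, hQ, show (1 / c + (p - 1) / c) / 2 = p / 2 / c by ring, hw]
      refine b1.of_le ((pow.2.2.1 _ (by linarith)).comp_aestronglyMeasurable
        (j.continuous.comp_aestronglyMeasurable b2)) (Eventually.of_forall fun z => ?_)
      rw [pow.2.1 _ _ (by linarith), sub_add_cancel, LinearIsometryEquiv.norm_map]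
      exact le_abs_self _
    · obtain ⟨a1, a2, a3⟩ := test hφ
      simp only [hP, hw, sub_self, pw_zero, dz_e φ, (pair _ _).2]
      rw [← curl (fun K b1 b2 => ?_) (fun φ b1 b2 b3 => (h2 φ b1 b2 b3).1) a1 a2 a3 (e 1) (e I),
        ← mp.integral_comp emb]
      have : IsFiniteMeasure (volume.restrict K) := isFiniteMeasure_restrict.2 b2.measure_ne_top
      exact (h1 K b1 b2).2.integrable (ENNReal.one_le_ofReal.2 hp.le)
    · obtain ⟨a1, a2, a3⟩ := test hφ
      simp only [hQ, hw', dz_e φ, (pair _ _).1]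
      rw [← (h2 _ a1 a2 a3).2, ← mp.integral_comp emb, show p - 1 - 1 = p - 2 by ring]
      simp only [inner_gradient_right, RCLike.conj_to_real]
  refine ⟨fun hs => ?_, fun x r hr hx hm θ hθ => ?_⟩
  · obtain ⟨g, a1, a2⟩ := reg _ _ hε ha (ha' hs) _ _ (hU.preimage e.continuous) hW
    refine ⟨fun y => j.symm (g (e.symm y)), j.symm.contDiff.comp_contDiffOn
      (a1.comp e.symm.contDiff.contDiffOn fun y hy => by simpa using hy), ?_⟩
    rw [← (mpr U).map_eq]
    refine emb.ae_map_iff.2 (a2.mono fun z hz => ?_)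
    simp only [LinearIsometryEquiv.symm_apply_apply, hz, hw']
  · have := hC _ (e.symm x) r hr (hW.mono (by rw [← e.preimage_ball]; exact preimage_mono hx))
      (by
        simp only [hw']
        rw [← e.preimage_ball]
        exact j.toLinearIsometry.toContinuousLinearMap.comp_memLp'
          (hm.comp_measurePreserving (mpr _))) θ hθ
    simp only [hw'] at this
    rwa [osc_e fun y => ‖G y‖ ^ (b - 1) • G y, osc_e fun y => ‖G y‖ ^ (b - 1) • G y] at this

end Pool.Agent.MP_815c6c_an.P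

end
end MrgPart1

-- ======== part 2: formerly Pool.Agent.MP_815c6c_an.P.Pt
section MrgPart2

/-! Planar p-harmonic functions: from the weak equation to the pointwise equation. -/

set_option autoImplicit false

noncomputable section

namespace Pool.Agent.MP_815c6c_an.P

open Set Metric MeasureTheory Filter Topology Complex
open scoped ContDiff ENNReal ComplexConjugate

namespace Pt

def S (N : M2) : ℂ := N 1 + I * N I

lemma norm_S (N : M2) : ‖S N‖ ≤ 2 * ‖N‖ := by
  have a : ‖N 1‖ ≤ ‖N‖ := by simpa using N.le_opNorm 1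
  have b : ‖N I‖ ≤ ‖N‖ := by simpa using N.le_opNorm I
  refine (norm_add_le _ _).trans ?_
  rw [norm_mul, norm_I, one_mul]
  linarith

lemma cont_S : Continuous S := by
  unfold S
  fun_prop

def T (P : ℂ → ℂ) (η : ℂ → ℝ) (z w : ℂ) (N : M2) : ℂ :=
  P w * dz η z + η z * S ((fderiv ℝ P w).comp N)

lemma dz_eq {φ : ℂ → ℝ} {z : ℂ} (h : DifferentiableAt ℝ φ z) :
    dz φ z = S (fderiv ℝ (fun y => (φ y : ℂ)) z) := by
  have := (ofRealCLM.hasFDerivAt.comp z h.hasFDerivAt).fderiv
  simp only [Function.comp_def, ofRealCLM_apply] at this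
  rw [this]
  rfl

lemma S_prod {η : ℂ → ℝ} {P v : ℂ → ℂ} {z : ℂ} (h : DifferentiableAt ℝ η z)
    (hP : DifferentiableAt ℝ P (v z)) (hv : DifferentiableAt ℝ v z) :
    S (fderiv ℝ (fun y => (η y : ℂ) * P (v y)) z) = T P η z (v z) (fderiv ℝ v z) := by
  have h1 := (ofRealCLM.hasFDerivAt.comp z h.hasFDerivAt).mul
    (hP.hasFDerivAt.comp z hv.hasFDerivAt)
  have h2 : fderiv ℝ (fun y => (η y : ℂ) * P (v y)) z = _ := h1.fderiv
  rw [h2]
  simp [S, T, dz]
  ring

lemma int_S {u : ℂ → ℂ} (hu : ContDiff ℝ ∞ u) (hc : HasCompactSupport u) :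
    ∫ z, (S (fderiv ℝ u z)).im = 0 := by
  have hi : ∀ X : ℂ, Integrable fun z => fderiv ℝ u z X := fun X =>
    ((hu.continuous_fderiv (by simp)).clm_apply continuous_const).integrable_of_hasCompactSupport
      (hc.fderiv_apply ℝ X)
  have h0 : ∀ X : ℂ, ∫ z, fderiv ℝ u z X = 0 := fun X => by
    have := integral_mul_fderiv_eq_neg_fderiv_mul_of_integrable (μ := volume)
      (f := fun _ : ℂ => (1 : ℂ)) (g := u) (v := X) (by simp) (by simpa using hi X)
      (by simpa using hu.continuous.integrable_of_hasCompactSupport hc)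
      (fun _ _ => differentiableAt_const _) (fun x _ => hu.differentiable (by simp) x)
    simpa using this
  have h1 : Integrable fun z => S (fderiv ℝ u z) := (hi 1).add ((hi I).const_mul I)
  have h2 : ∫ z, S (fderiv ℝ u z) = 0 := by
    unfold S
    rw [integral_add (hi 1) ((hi I).const_mul I), integral_const_mul, h0, h0]
    simp
  have := integral_im (𝕜 := ℂ) h1
  rw [h2] at this
  simpa using this

lemma cont_dz {η : ℂ → ℝ} (h : ContDiff ℝ ∞ η) : Continuous (dz η) := by
  have := h.continuous_fderiv (by simp)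
  unfold dz
  fun_prop

lemma T_zero {U : Set ℂ} {η : ℂ → ℝ} (hη : Ts U η) (P : ℂ → ℂ) {z : ℂ} (hz : z ∉ U) (w : ℂ)
    (N : M2) : T P η z w N = 0 := by
  have h1 : z ∉ tsupport η := fun h => hz (hη.2.2 h)
  have h2 : fderiv ℝ η z = 0 := fderiv_of_notMem_tsupport ℝ h1
  simp [T, dz, h2, image_eq_zero_of_notMem_tsupport h1]

lemma bound {P : ℂ → ℂ} (hP : ContDiff ℝ ∞ P) (hc : HasCompactSupport P) {η : ℂ → ℝ}
    (hη : ContDiff ℝ ∞ η) (hη' : HasCompactSupport η) :
    ∃ C : ℝ, 0 ≤ C ∧ ∀ z w N, ‖T P η z w N‖ ≤ C * (1 + ‖N‖) := by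
  obtain ⟨C1, h1⟩ := hP.continuous.bounded_above_of_compact_support hc
  obtain ⟨C2, h2⟩ := (hP.continuous_fderiv (by simp)).bounded_above_of_compact_support
    (hc.fderiv ℝ)
  obtain ⟨C3, h3⟩ := hη.continuous.bounded_above_of_compact_support hη'
  obtain ⟨C4, h4⟩ := (cont_dz hη).bounded_above_of_compact_support
    (hη'.mono' fun z hz => by_contra fun h => hz (by simp [dz, fderiv_of_notMem_tsupport ℝ h]))
  have p1 := (norm_nonneg _).trans (h1 0)
  have p2 := (norm_nonneg _).trans (h2 0)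
  have p3 := (norm_nonneg _).trans (h3 0)
  have p4 := (norm_nonneg _).trans (h4 0)
  refine ⟨C1 * C4 + C3 * (2 * C2), by positivity, fun z w N => ?_⟩
  have a : ‖P w * dz η z‖ ≤ C1 * C4 := by
    rw [norm_mul]
    exact mul_le_mul (h1 w) (h4 z) (norm_nonneg _) p1
  have b : ‖(η z : ℂ) * S ((fderiv ℝ P w).comp N)‖ ≤ C3 * (2 * (C2 * ‖N‖)) := by
    rw [norm_mul, norm_real]
    refine mul_le_mul (h3 z) ((norm_S _).trans ?_) (norm_nonneg _) p3
    exact mul_le_mul_of_nonneg_left (((fderiv ℝ P w).opNorm_comp_le N).trans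
      (mul_le_mul_of_nonneg_right (h2 w) (norm_nonneg _))) two_pos.le
  refine (norm_add_le _ _).trans ((add_le_add a b).trans ?_)
  have := norm_nonneg N
  nlinarith [mul_nonneg (mul_nonneg p1 p4) this, mul_nonneg p3 p2]

lemma cont_T {P : ℂ → ℂ} (hP : ContDiff ℝ ∞ P) {η : ℂ → ℝ} (hη : ContDiff ℝ ∞ η) :
    Continuous fun q : ℂ × ℂ × M2 => T P η q.1 q.2.1 q.2.2 := by
  have h1 := hP.continuous
  have h2 := hP.continuous_fderiv (by simp)
  have h3 := hη.continuous
  have h4 := cont_dz hη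
  have h5 := cont_S
  unfold T
  refine ((h1.comp continuous_snd.fst).mul (h4.comp continuous_fst)).add
    ((continuous_ofReal.comp (h3.comp continuous_fst)).mul (h5.comp ?_))
  exact (h2.comp continuous_snd.fst).clm_comp continuous_snd.snd

lemma fin_ball (R : ℝ) : IsFiniteMeasure (vo (ball 0 R)) :=
  isFiniteMeasure_restrict.2 measure_ball_lt_top.ne

lemma key {R : ℝ} {V : ℂ → ℂ} {D : ℂ → M2} {v : ℕ → ℂ → ℂ} (hv : ∀ n, ContDiff ℝ ∞ (v n))
    (hd : Dom (ball 0 R) v (fun n => fderiv ℝ (v n)) V D) {P : ℂ → ℂ} (hP : ContDiff ℝ ∞ P)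
    (hc : HasCompactSupport P) {η : ℂ → ℝ} (hη : Ts (ball 0 R) η) {a : ℂ → ℂ}
    (ha : MemLp a 2 (vo (ball 0 R)))
    (h0 : ∀ n, ∫ z, (a z * T P η z (v n z) (fderiv ℝ (v n) z)).im = 0) :
    Integrable (fun z => (a z * T P η z (V z) (D z)).im) (vo (ball 0 R)) ∧
      ∫ z in ball 0 R, (a z * T P η z (V z) (D z)).im = 0 := by
  have := fin_ball R
  obtain ⟨g, hg, h⟩ := hd
  obtain ⟨C, hC, hb⟩ := bound hP hc hη.1 hη.2.1
  have hT := cont_T hP hη.1
  have hi : Integrable (fun z => ‖a z‖ * (C * (1 + g z))) (vo (ball 0 R)) :=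
    ha.norm.integrable_mul (((memLp_const (1 : ℝ)).add hg).const_mul C)
  have hbd : ∀ (z w : ℂ) (N : M2), ‖N‖ ≤ g z →
      ‖(a z * T P η z w N).im‖ ≤ ‖a z‖ * (C * (1 + g z)) := fun z w N hN => by
    refine (abs_im_le_norm _).trans ?_
    rw [norm_mul]
    exact mul_le_mul_of_nonneg_left ((hb z w N).trans (by gcongr)) (norm_nonneg _)
  have hm : ∀ n, AEStronglyMeasurable
      (fun z => (a z * T P η z (v n z) (fderiv ℝ (v n) z)).im) (vo (ball 0 R)) := fun n =>
    continuous_im.comp_aestronglyMeasurable (ha.1.mul (hT.comp (continuous_id.prodMk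
      ((hv n).continuous.prodMk ((hv n).continuous_fderiv (by simp))))).aestronglyMeasurable)
  have hl : ∀ᵐ z ∂vo (ball 0 R), Tendsto
      (fun n => (a z * T P η z (v n z) (fderiv ℝ (v n) z)).im) atTop
      (𝓝 (a z * T P η z (V z) (D z)).im) := h.mono fun z hz =>
    (continuous_im.tendsto _).comp (((hT.tendsto (z, V z, D z)).comp
      (tendsto_const_nhds.prodMk_nhds (hz.2.1.prodMk_nhds hz.2.2))).const_mul (a z))
  refine ⟨hi.mono' (aestronglyMeasurable_of_tendsto_ae atTop hm hl) (h.mono fun z hz =>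
    hbd z _ _ (le_of_tendsto' hz.2.2.norm fun n => (hz.1 n).2)), ?_⟩
  have ht := tendsto_integral_of_dominated_convergence _ hm hi
    (fun n => h.mono fun z hz => hbd z _ _ (hz.1 n).2) hl
  refine tendsto_nhds_unique ht (tendsto_const_nhds.congr fun n => ?_)
  rw [setIntegral_eq_integral_of_forall_compl_eq_zero fun z hz => by
    simp [T_zero hη P hz], h0]

lemma int_aS {R : ℝ} {V : ℂ → ℂ} {D : ℂ → M2} (h : Sb (ball 0 R) V D) {P : ℂ → ℂ}
    (hP : ContDiff ℝ ∞ P) (hc : HasCompactSupport P) {a : ℂ → ℂ}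
    (ha : MemLp a 2 (vo (ball 0 R))) :
    Integrable (fun z => (a z * S ((fderiv ℝ P (V z)).comp (D z))).im) (vo (ball 0 R)) := by
  obtain ⟨hV, hD⟩ := h.memLp
  have h2 := hP.continuous_fderiv (by simp)
  obtain ⟨C, hC⟩ := h2.bounded_above_of_compact_support (hc.fderiv ℝ)
  have hi : Integrable (fun z => ‖a z‖ * (2 * (C * ‖D z‖))) (vo (ball 0 R)) :=
    ha.norm.integrable_mul ((hD.norm.const_mul C).const_mul 2)
  have hs : Continuous fun q : ℂ × M2 => S ((fderiv ℝ P q.1).comp q.2) :=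
    cont_S.comp ((h2.comp continuous_fst).clm_comp continuous_snd)
  refine hi.mono' (continuous_im.comp_aestronglyMeasurable
    (ha.1.mul (hs.comp_aestronglyMeasurable (hV.1.prodMk hD.1)))) (.of_forall fun z => ?_)
  refine (abs_im_le_norm _).trans ?_
  rw [norm_mul]
  refine mul_le_mul_of_nonneg_left ((norm_S _).trans ?_) (norm_nonneg _)
  exact mul_le_mul_of_nonneg_left (((fderiv ℝ P (V z)).opNorm_comp_le _).trans
    (mul_le_mul_of_nonneg_right (hC _) (norm_nonneg _))) two_pos.le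

lemma one {R : ℝ} {V Ψ : ℂ → ℂ} {D : ℂ → M2} (h : Sb (ball 0 R) V D)
    (hΨ : ContDiffOn ℝ ∞ Ψ {0}ᶜ) (hm : MemLp (fun z => Ψ (V z)) 2 (vo (ball 0 R)))
    (hcu : Cu (ball 0 R) fun z => Ψ (V z)) {χ : ℂ → ℝ} (hχ : ContDiff ℝ ∞ χ)
    (hc : HasCompactSupport χ) (h0 : χ =ᶠ[𝓝 0] 0) :
    ∀ᵐ z ∂vo (ball 0 R), χ (V z) * (S ((fderiv ℝ Ψ (V z)).comp (D z))).im = 0 := by
  have := fin_ball R
  have hX : ContDiff ℝ ∞ fun w => (χ w : ℂ) := ofRealCLM.contDiff.comp hχ
  have hXc : HasCompactSupport fun w => (χ w : ℂ) := hc.comp_left ofReal_zero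
  have hΨ' : ∀ w : ℂ, w ≠ 0 → ContDiffAt ℝ ∞ Ψ w := fun w hw =>
    hΨ.contDiffAt (isOpen_compl_singleton.mem_nhds hw)
  have e0 : (fun w => (χ w : ℂ) * Ψ w) =ᶠ[𝓝 0] fun _ => 0 := h0.mono fun w hw => by simp [hw]
  have e1 : (fun w => (χ w : ℂ)) =ᶠ[𝓝 0] fun _ => 0 := h0.mono fun w hw => by simp [hw]
  have hΦ : ContDiff ℝ ∞ fun w => (χ w : ℂ) * Ψ w := contDiff_iff_contDiffAt.2 fun w => by
    by_cases hw : w = 0
    · subst hw
      exact contDiffAt_const.congr_of_eventuallyEq e0
    · exact hX.contDiffAt.mul (hΨ' w hw)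
  have hΦc : HasCompactSupport fun w => (χ w : ℂ) * Ψ w := hXc.mul_right
  have pt : ∀ (w : ℂ) (N : M2), S ((fderiv ℝ (fun w => (χ w : ℂ) * Ψ w) w).comp N) =
      χ w * S ((fderiv ℝ Ψ w).comp N) + Ψ w * S ((fderiv ℝ (fun w => (χ w : ℂ)) w).comp N) :=
    fun w N => by
      by_cases hw : w = 0
      · subst hw
        rw [e0.fderiv_eq, e1.fderiv_eq, h0.eq_of_nhds]
        simp [S]
      · have h2 : fderiv ℝ (fun w => (χ w : ℂ) * Ψ w) w = _ :=
          ((hX.differentiable (by simp) w).hasFDerivAt.mul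
            ((hΨ' w hw).differentiableAt (by simp)).hasFDerivAt).fderiv
        rw [h2]
        simp [S]
        ring
  have hi : Integrable (fun z => χ (V z) * (S ((fderiv ℝ Ψ (V z)).comp (D z))).im)
      (vo (ball 0 R)) := by
    refine ((int_aS h hΦ hΦc (memLp_const (1 : ℂ))).sub (int_aS h hX hXc hm)).congr
      (.of_forall fun z => ?_)
    simp [pt]
  rw [ae_restrict_iff' measurableSet_ball]
  refine isOpen_ball.ae_eq_zero_of_integral_contDiff_smul_eq_zero
    (IntegrableOn.locallyIntegrableOn hi) fun η h1 h2 h3 => ?_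
  have hη : Ts (ball 0 R) η := ⟨h1, h2, h3⟩
  obtain ⟨v, hv, hd⟩ := h
  have dη := h1.differentiable (by simp)
  have dv := fun n => (hv n).differentiable (by simp)
  obtain ⟨iA, hA⟩ := key hv hd hX hXc hη hm fun n => by
    have hφ : ContDiff ℝ ∞ fun z => η z * χ (v n z) := h1.mul (hχ.comp (hv n))
    rw [← hcu _ ⟨hφ, h2.mul_right, (tsupport_mul_subset_left).trans h3⟩]
    refine integral_congr_ae (.of_forall fun z => ?_)
    simp only
    rw [dz_eq (hφ.differentiable (by simp) z),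
      ← S_prod (dη z) (hX.differentiable (by simp) _) (dv n z)]
    simp only [ofReal_mul]
  obtain ⟨iB, hB⟩ := key hv hd hΦ hΦc hη (memLp_const (1 : ℂ)) fun n => by
    have h4 : HasCompactSupport fun w => (η w : ℂ) := h2.comp_left ofReal_zero
    rw [← int_S ((ofRealCLM.contDiff.comp h1).mul (hΦ.comp (hv n))) h4.mul_right]
    refine integral_congr_ae (.of_forall fun z => ?_)
    simp only
    rw [one_mul, ← S_prod (dη z) (hΦ.differentiable (by simp) _) (dv n z)]
    rfl
  rw [← setIntegral_eq_integral_of_forall_compl_eq_zero (s := ball 0 R) fun z hz => by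
    simp [image_eq_zero_of_notMem_tsupport fun h => hz (h3 h)], ← sub_zero (0 : ℝ)]
  nth_rewrite 1 [← hB, ← hA]
  rw [← integral_sub iB iA]
  refine integral_congr_ae (.of_forall fun z => ?_)
  simp only [T, pt]
  simp
  ring

def b1 (k : ℕ) : ContDiffBump (0 : ℂ) := ⟨k + 1, k + 2, by positivity, by linarith⟩

def b2 (k : ℕ) : ContDiffBump (0 : ℂ) :=
  ⟨1 / (k + 2), 1 / (k + 1), by positivity,
    one_div_lt_one_div_of_lt (by positivity) (by linarith)⟩

end Pt

open Pt in
theorem pt : KitS → PtS := fun _ R V Ψ D h hΨ hm hcu => by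
  have := fun k : ℕ => one h hΨ hm hcu (χ := fun w => b1 k w * (1 - b2 k w))
    ((b1 k).contDiff.mul (contDiff_const.sub (b2 k).contDiff)) (b1 k).hasCompactSupport.mul_right
    ((b2 k).eventuallyEq_one.mono fun w hw => by simp [hw])
  filter_upwards [ae_all_iff.2 this] with z hz h0
  obtain ⟨k1, hk1⟩ := exists_nat_one_div_lt (norm_pos_iff.2 h0)
  obtain ⟨k2, hk2⟩ := exists_nat_ge ‖V z‖
  have a1 : (k1 : ℝ) ≤ (max k1 k2 : ℕ) := by exact_mod_cast le_max_left _ _
  have a2 : (k2 : ℝ) ≤ (max k1 k2 : ℕ) := by exact_mod_cast le_max_right _ _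
  have e1 : b1 (max k1 k2) (V z) = 1 := (b1 _).one_of_mem_closedBall (by
    rw [mem_closedBall_zero_iff]
    change _ ≤ ((max k1 k2 : ℕ) : ℝ) + 1
    linarith)
  have e2 : b2 (max k1 k2) (V z) = 0 := (b2 _).zero_of_le_dist (by
    rw [dist_zero_right]
    change 1 / (((max k1 k2 : ℕ) : ℝ) + 1) ≤ _
    exact (one_div_le_one_div_of_le (by positivity) (by linarith)).trans hk1.le)
  have := hz (max k1 k2)
  rw [e1, e2, sub_zero, one_mul, one_mul] at this
  exact this

end Pool.Agent.MP_815c6c_an.P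

end

end MrgPart2

-- marker of a merged file
example : 731051 + 630770 = 731051 + 630770 := rfl
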