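import Mathlib.LinearAlgebra.FreeModule.PID
import Mathlib.Algebra.Lie.OfAssociative
import Mathlib.RingTheory.Flat.TorsionFree
import Mathlib.MeasureTheory.Integral.DivergenceTheorem
import Mathlib.MeasureTheory.Measure.Lebesgue.Complex
import Mathlib.Analysis.Calculus.BumpFunction.Convolution
import Mathlib.Analysis.Calculus.FDeriv.Symmetric
import Mathlib.Analysis.Calculus.LineDeriv.Basic
import Mathlib.MeasureTheory.Function.L2Space
import Mathlib.MeasureTheory.Function.ContinuousMapDense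
import Mathlib.Analysis.FunctionalSpaces.SobolevInequality
import Mathlib.RingTheory.SimpleRing.Principal
import Mathlib.RingTheory.RegularLocalRing.Defs
import Mathlib.Topology.UniformSpace.Uniformizable
import Pool.Agent.MP_815c6c_an.P.Basic

-- ======== part 0: formerly Pool.Agent.MP_815c6c_an.P.Wind
section MrgPart0

/-! Planar p-harmonic functions: the Green formula and winding numbers. -/

set_option autoImplicit false

noncomputable section

namespace Pool.Agent.MP_815c6c_an.P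

open Set Metric MeasureTheory Filter Topology Complex
open scoped ContDiff ENNReal ComplexConjugate

namespace Wind

variable {γ γ' k δ : ℝ → ℂ} {a b : ℝ}

theorem edge1 (hγ : ∀ t, HasDerivAt γ (γ' t) t) (hk : Continuous k) (hab : a ≤ b)
    (h : ∀ t ∈ Icc a b, k t * γ t = γ' t) : exp (∫ t in a..b, k t) * γ a = γ b := by
  have d : ∀ t, HasDerivAt (fun t => γ t * exp (-∫ s in a..t, k s))
      (γ' t * exp (-∫ s in a..t, k s) + γ t * (exp (-∫ s in a..t, k s) * -k t)) t := fun t =>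
    (hγ t).mul (hk.integral_hasStrictDerivAt a t).hasDerivAt.neg.cexp
  have := constant_of_has_deriv_right_zero (fun t _ => (d t).continuousAt.continuousWithinAt)
    (fun t ht => by
      have := d t
      rw [← h t (Ico_subset_Icc_self ht), show k t * γ t * exp (-∫ s in a..t, k s) +
        γ t * (exp (-∫ s in a..t, k s) * -k t) = 0 by ring] at this
      exact this.hasDerivWithinAt) b (right_mem_Icc.2 hab)
  simp only [intervalIntegral.integral_same, neg_zero, exp_zero, mul_one] at this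
  rw [← this, mul_left_comm, ← exp_add, add_neg_cancel, exp_zero, mul_one]

theorem edge2 (hγ : ∀ t, HasDerivAt γ (γ' t) t) (hk : Continuous k) (hab : a ≤ b)
    (h : ∀ t ∈ Icc a b, k t * γ t = γ' t) {κ : ℂ} (h1 : ∀ t ∈ Icc a b, 0 < (κ * δ t).re)
    (h2 : ∀ t ∈ Icc a b, ‖γ t - δ t‖ < ‖δ t‖) :
    |(∫ t in a..b, k t).im - (arg (γ b / δ b) - arg (γ a / δ a))| < Real.pi := by
  have c : ∀ t ∈ Icc a b, arg (κ * γ t) = arg (γ t / δ t) + arg (κ * δ t) ∧ κ * γ t ∈ slitPlane ∧
      |arg (κ * δ t)| < Real.pi / 2 := fun t ht => by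
    have d0 : δ t ≠ 0 := norm_pos_iff.1 ((norm_nonneg _).trans_lt (h2 t ht))
    have d1 : 0 < (γ t / δ t).re := by
      have e : ‖γ t / δ t - 1‖ < 1 := by
        rw [div_sub_one d0, norm_div, div_lt_one (norm_pos_iff.2 d0)]
        exact h2 t ht
      have := (abs_lt.1 ((abs_re_le_norm _).trans_lt e)).1
      simpa using this
    have d2 := abs_arg_lt_pi_div_two_iff.2 (Or.inl d1)
    have d3 := abs_arg_lt_pi_div_two_iff.2 (Or.inl (h1 t ht))
    have n1 : γ t / δ t ≠ 0 := fun e => by simp [e] at d1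
    have n2 : κ * δ t ≠ 0 := fun e => by simpa [e] using h1 t ht
    have e : κ * γ t = γ t / δ t * (κ * δ t) := by field_simp
    have d4 : arg (κ * γ t) = arg (γ t / δ t) + arg (κ * δ t) :=
      e ▸ arg_mul n1 n2 ⟨by linarith [(abs_lt.1 d2).1, (abs_lt.1 d3).1],
        by linarith [(abs_lt.1 d2).2, (abs_lt.1 d3).2]⟩
    exact ⟨d4, mem_slitPlane_iff_arg.2 ⟨by linarith [(abs_lt.1 d2).2, (abs_lt.1 d3).2] |> ne_of_lt,
      e ▸ mul_ne_zero n1 n2⟩, d3⟩
  have i := intervalIntegral.integral_eq_sub_of_hasDerivAt (f := fun t => log (κ * γ t)) (f' := k)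
    (a := a) (b := b) (fun t ht => by
      rw [uIcc_of_le hab] at ht
      have := ((hγ t).const_mul κ).clog_real (c t ht).2.1
      rwa [← h t ht, mul_left_comm, mul_div_cancel_right₀ _ (slitPlane_ne_zero (c t ht).2.1)] at this)
    (hk.intervalIntegrable _ _)
  obtain ⟨a1, -, a2⟩ := c a (left_mem_Icc.2 hab)
  obtain ⟨b1, -, b2⟩ := c b (right_mem_Icc.2 hab)
  rw [i, sub_im, log_im, log_im, a1, b1, abs_lt]
  constructor <;> linarith [(abs_lt.1 a2).1, (abs_lt.1 a2).2, (abs_lt.1 b2).1, (abs_lt.1 b2).2]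

theorem seg (p : ℂ) (h : ∀ t ∈ Icc a b, (t : ℂ) + p ≠ 0) :
    ∃ κ : ℂ, ∀ t ∈ Icc a b, 0 < (κ * (t + p)).re := by
  rcases lt_trichotomy p.im 0 with c | c | c
  · exact ⟨I, fun t _ => by simpa using c⟩
  · have : -p.re ∉ Icc a b := fun e => h _ e (Complex.ext (by simp) (by simp [c]))
    rcases not_and_or.1 this with d | d
    · exact ⟨1, fun t ht => by simp; linarith [ht.1]⟩
    · exact ⟨-1, fun t ht => by simp; linarith [ht.2]⟩
  · exact ⟨-I, fun t _ => by simpa using c⟩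

variable {ρ R η : ℝ} {Ψ Ψ' : ℝ → ℝ} {v : ℂ → ℂ}

/-- the coefficient of the form -/
def cf (Ψ : ℝ → ℝ) (s : ℝ) : ℝ := (1 - Ψ s) / s

theorem cf_der (h : Pf ρ R η Ψ Ψ') (s : ℝ) :
    ∃ e, HasDerivAt (cf Ψ) e s ∧ cf Ψ s + s * e = -Ψ' s := by
  by_cases c : s = 0
  · subst c
    have e : Ψ =ᶠ[𝓝 0] fun _ => 1 := (eventually_lt_nhds h.pos).mono fun s a => h.one s a.le
    refine ⟨0, (hasDerivAt_const _ (0 : ℝ)).congr_of_eventuallyEq (e.mono fun s a => ?_), ?_⟩
    · simp [cf, a]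
    · simp [cf, (h.der 0).unique ((hasDerivAt_const _ (1 : ℝ)).congr_of_eventuallyEq e)]
  · refine ⟨_, ((h.der s).const_sub 1).div (hasDerivAt_id s) c, ?_⟩
    simp only [cf]
    field_simp
    ring

/-- the form in the direction `e` -/
def fm (Ψ : ℝ → ℝ) (v : ℂ → ℂ) (e z : ℂ) : ℂ :=
  (cf Ψ (‖v z‖ ^ 2) : ℝ) * conj (v z) * fderiv ℝ v z e

theorem fm_der (h : Pf ρ R η Ψ Ψ') (hv : ContDiff ℝ ∞ v) (z : ℂ) :
    ∃ F : ℂ → M2, (∀ e, HasFDerivAt (fm Ψ v e) (F e) z) ∧
      F I 1 - F 1 I = I * (-2 * Ψ' (‖v z‖ ^ 2) * jac (fderiv ℝ v z) : ℝ) := by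
  obtain ⟨e, e1, e2⟩ := cf_der h (‖v z‖ ^ 2)
  have d1 := (hv.differentiable (by simp) z).hasFDerivAt
  have d2 := ((hv.fderiv_right (m := ∞) (by simp)).differentiable (by simp) z).hasFDerivAt
  have s := (hv.contDiffAt (x := z).isSymmSndFDerivAt
    (by simpa using WithTop.coe_le_coe.2 (le_top (a := (2 : ℕ∞))))).eq 1 I
  refine ⟨_, fun e => ((ofRealCLM.hasFDerivAt.comp z (e1.comp_hasFDerivAt z d1.norm_sq)).mul
    (conjCLE.hasFDerivAt.comp z d1)).mul
    ((ContinuousLinearMap.apply ℝ ℂ e).hasFDerivAt.comp z d2), ?_⟩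
  rw [show -2 * Ψ' (‖v z‖ ^ 2) = 2 * (cf Ψ (‖v z‖ ^ 2) + ‖v z‖ ^ 2 * e) by linarith]
  simp only [add_apply, smul_apply,
    ContinuousLinearMap.comp_apply, ContinuousLinearMap.apply_apply, Function.comp_apply,
    Pi.mul_apply, s, smul_eq_mul, innerSL_apply_apply, Complex.inner, jac, ofRealCLM_apply,
    ContinuousLinearEquiv.coe_coe, conjCLE_apply, nsmul_eq_mul]
  generalize cf Ψ _ = c
  rw [Complex.sq_norm, normSq_apply]
  refine Complex.ext ?_ ?_ <;> simp <;> ring

theorem fm_cont (h : Pf ρ R η Ψ Ψ') (hv : ContDiff ℝ ∞ v) (e : ℂ) : Continuous (fm Ψ v e) :=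
  continuous_iff_continuousAt.2 fun z => ((fm_der h hv z).choose_spec.1 e).continuousAt

theorem green (h : Pf ρ R η Ψ Ψ') (hv : ContDiff ℝ ∞ v) {c d : ℝ} (hab : a ≤ b) (hcd : c ≤ d) :
    I * (∫ z in Rc a b c d, -2 * Ψ' (‖v z‖ ^ 2) * jac (fderiv ℝ v z) : ℝ) =
      (∫ t in a..b, fm Ψ v 1 (c * I + t * 1)) + (∫ t in c..d, fm Ψ v I (b + t * I)) -
        (∫ t in a..b, fm Ψ v 1 (d * I + t * 1)) - ∫ t in c..d, fm Ψ v I (a + t * I) := by
  choose F F1 F2 using fm_der h hv
  let T : ℝ × ℝ →L[ℝ] ℂ := equivRealProdCLM.symm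
  have hT : ∀ p, T p = p.1 + p.2 * I := equivRealProdCLM_symm_apply
  have e : ∀ p, (F (T p) I).comp T (1, 0) + (-(F (T p) 1).comp T) (0, 1) =
      I * (-2 * Ψ' (‖v (T p)‖ ^ 2) * jac (fderiv ℝ v (T p)) : ℝ) := fun p => by
    rw [← F2]
    simp [hT (1, 0), hT (0, 1), sub_eq_add_neg]
  have i := integral_divergence_prod_Icc_of_hasFDerivAt_of_le (fun p => fm Ψ v I (T p))
    (fun p => -fm Ψ v 1 (T p)) (fun p => (F (T p) I).comp T) (fun p => -(F (T p) 1).comp T)
    (a, c) (b, d) ⟨hab, hcd⟩ ((fm_cont h hv I).comp T.continuous).continuousOn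
    ((fm_cont h hv 1).comp T.continuous).neg.continuousOn
    (fun p _ => (F1 _ I).comp p T.hasFDerivAt) (fun p _ => ((F1 _ 1).comp p T.hasFDerivAt).neg) (by
      simp only [e]
      exact (continuous_const.mul (continuous_ofReal.comp (((continuous_const.mul
        (h.cont.comp (hv.continuous.norm.pow 2))).mul (continuous_jac.comp
          (hv.continuous_fderiv (by simp)))).comp T.continuous))).integrableOn_Icc)
  have j := volume_preserving_equiv_real_prod.symm.setIntegral_preimage_emb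
    measurableEquivRealProd.symm.measurableEmbedding
    (fun z => -2 * Ψ' (‖v z‖ ^ 2) * jac (fderiv ℝ v z)) (Rc a b c d)
  simp only [e, integral_const_mul, integral_complex_ofReal, intervalIntegral.integral_neg] at i
  rw [← j, show measurableEquivRealProd.symm ⁻¹' Rc a b c d = Icc (a, c) (b, d) from
    (Icc_prod_Icc a b c d)]
  refine Eq.trans i ?_
  simp only [hT, mul_one, add_comm (_ * I)]
  ring

theorem line (hv : ContDiff ℝ ∞ v) (p e : ℂ) (t : ℝ) :
    HasDerivAt (fun t : ℝ => v (p + t * e)) (fderiv ℝ v (p + t * e) e) t := by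
  have := (hv.differentiable (by simp) _).hasFDerivAt.comp_hasDerivAt t
    (((hasDerivAt_id t).ofReal_comp.mul_const e).const_add p)
  rwa [ofReal_one, one_mul] at this

theorem fm_mul (h : Pf ρ R η Ψ Ψ') {z : ℂ} (hz : R ≤ ‖v z‖ ^ 2) (e : ℂ) :
    fm Ψ v e z * v z = fderiv ℝ v z e ∧ v z ≠ 0 := by
  have c := (h.pos.trans h.lt).trans_le hz
  refine ⟨?_, fun e => by simp [e] at c⟩
  rw [fm, mul_right_comm, mul_assoc _ (conj _), conj_mul', cf, h.zero _ hz, ← ofReal_pow,
    ← ofReal_mul, sub_zero, div_mul_cancel₀ _ c.ne', ofReal_one, one_mul]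

theorem edge (h : Pf ρ R η Ψ Ψ') (hv : ContDiff ℝ ∞ v) (hab : a ≤ b) {p e : ℂ} (he : e ≠ 0)
    {S : Set ℂ} (hS : ∀ t ∈ Icc a b, p + t * e ∈ S) (h1 : ∀ z ∈ S, R ≤ ‖v z‖ ^ 2) :
    v (p + a * e) ≠ 0 ∧ exp (∫ t in a..b, fm Ψ v e (p + t * e)) * v (p + a * e) = v (p + b * e) ∧
      ∀ y : ℂ, (∀ z ∈ S, ‖v z - (z - y)‖ < ‖z - y‖) →
        |(∫ t in a..b, fm Ψ v e (p + t * e)).im - (arg (v (p + b * e) / (p + b * e - y)) -
          arg (v (p + a * e) / (p + a * e - y)))| < Real.pi := by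
  have c : Continuous fun t : ℝ => fm Ψ v e (p + t * e) := (fm_cont h hv e).comp (by fun_prop)
  have d := fun t ht => (fm_mul h (h1 _ (hS t ht)) e).1
  refine ⟨(fm_mul h (h1 _ (hS a (left_mem_Icc.2 hab))) e).2, edge1 (line hv p e) c hab d,
    fun y hy => ?_⟩
  have i : ∀ t : ℝ, (t : ℂ) + (p - y) / e = e⁻¹ * (p + t * e - y) := fun t => by
    field_simp
    ring
  obtain ⟨κ, hκ⟩ := seg (a := a) (b := b) ((p - y) / e) fun t ht => by
    rw [i]
    exact mul_ne_zero (inv_ne_zero he) (norm_pos_iff.1 ((norm_nonneg _).trans_lt (hy _ (hS t ht))))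
  exact edge2 (δ := fun t => p + t * e - y) (line hv p e) c hab d (κ := κ * e⁻¹)
    (fun t ht => by rw [mul_assoc, ← i]; exact hκ t ht) fun t ht => hy _ (hS t ht)

end Wind

open Wind in
theorem wind : WindS := by
  intro ρ R η a b c d Ψ Ψ' v h hv hab hcd hB
  have g := green h hv hab hcd
  have m : ∀ x ∈ Icc a b, ∀ y ∈ Icc c d, (x = a ∨ x = b ∨ y = c ∨ y = d) →
      (x + y * I : ℂ) ∈ Bd a b c d := fun x hx y hy e =>
    ⟨mem_reProdIm.2 (by simpa using ⟨hx, hy⟩), by simpa using e⟩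
  have m1 : ∀ y ∈ Icc c d, (y = c ∨ y = d) → ∀ t ∈ Icc a b, (y * I + t * 1 : ℂ) ∈ Bd a b c d :=
    fun y hy e t ht => by
      rw [mul_one, add_comm]
      exact m t ht y hy (Or.inr (Or.inr e))
  obtain ⟨a1, a2, a3⟩ := edge h hv hab one_ne_zero (m1 c (left_mem_Icc.2 hcd) (Or.inl rfl)) hB
  obtain ⟨-, b2, b3⟩ := edge h hv hcd I_ne_zero
    (fun t ht => m b (right_mem_Icc.2 hab) t ht (Or.inr (Or.inl rfl))) hB
  obtain ⟨-, c2, c3⟩ := edge h hv hab one_ne_zero (m1 d (right_mem_Icc.2 hcd) (Or.inr rfl)) hB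
  obtain ⟨-, d2, d3⟩ := edge h hv hcd I_ne_zero
    (fun t ht => m a (left_mem_Icc.2 hab) t ht (Or.inl rfl)) hB
  generalize ∫ t in a..b, fm Ψ v 1 (c * I + t * 1) = E1 at *
  generalize ∫ t in c..d, fm Ψ v I (b + t * I) = E2 at *
  generalize ∫ t in a..b, fm Ψ v 1 (d * I + t * 1) = E3 at *
  generalize ∫ t in c..d, fm Ψ v I (a + t * I) = E4 at *
  generalize ∫ z in Rc a b c d, -2 * Ψ' (‖v z‖ ^ 2) * jac (fderiv ℝ v z) = J at *
  simp only [mul_one, add_comm (_ * I)] at a1 a2 a3 c2 c3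
  obtain ⟨N, hN⟩ := exp_eq_one_iff.1 (show exp (E1 + E2 - E3 - E4) = 1 by
    rw [sub_sub, exp_sub, div_eq_one_iff_eq (exp_ne_zero _), exp_add, exp_add]
    refine mul_right_cancel₀ a1 ?_
    rw [mul_assoc, mul_assoc, d2, c2, mul_left_comm, a2, b2])
  have e : J = 2 * Real.pi * N := by
    have := congrArg im (g.trans hN)
    simp at this
    linarith
  refine ⟨N, e, fun y hy => Int.lt_add_one_iff.1 (Int.cast_lt (R := ℝ).1 ?_)⟩
  have i := congrArg im g
  simp only [mul_im, I_re, I_im, ofReal_re, ofReal_im, zero_mul, one_mul, zero_add, sub_im,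
    add_im] at i
  refine lt_of_mul_lt_mul_left ?_ Real.two_pi_pos.le
  push_cast
  linarith [(abs_lt.1 (a3 y hy)).2, (abs_lt.1 (b3 y hy)).2, (abs_lt.1 (c3 y hy)).1,
    (abs_lt.1 (d3 y hy)).1]

end Pool.Agent.MP_815c6c_an.P

end
end MrgPart0

-- ======== part 1: formerly Pool.Agent.MP_815c6c_an.P.Mol
section MrgPart1

/-! Young inequality and convergence of mollifications. -/

set_option autoImplicit false

namespace Pool.Agent.MP_815c6c_an.P

open Set Metric MeasureTheory Filter Topology Complex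
open scoped ENNReal Convolution Pointwise

namespace Mol

theorem hold {K g : ℂ → ℝ≥0∞} (hK : Measurable K) (hg : Measurable g) {q : ℝ} (hq : 1 ≤ q) :
    (∫⁻ t, K t * g t) ^ q ≤ (∫⁻ t, K t * g t ^ q) * (∫⁻ t, K t) ^ (q - 1) := by
  have h0 : 0 < q := one_pos.trans_le hq
  have h1 : 0 ≤ 1 - 1 / q := sub_nonneg.2 ((div_le_one h0).2 hq)
  have e : ∀ t, K t * g t = (K t * g t ^ q) ^ (1 / q) * K t ^ (1 - 1 / q) := fun t => by
    rw [ENNReal.mul_rpow_of_nonneg _ _ (by positivity), ← ENNReal.rpow_mul, mul_one_div_cancel h0.ne',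
      ENNReal.rpow_one, mul_right_comm, ← ENNReal.rpow_add_of_nonneg _ _ (by positivity) h1]
    simp
  have := ENNReal.lintegral_mul_norm_pow_le (μ := volume) (hK.mul (hg.pow_const q)).aemeasurable
    hK.aemeasurable (p := 1 / q) (q := 1 - 1 / q) (by positivity) h1 (by ring)
  refine (ENNReal.rpow_le_rpow ((lintegral_congr e).trans_le this) h0.le).trans_eq ?_
  rw [ENNReal.mul_rpow_of_nonneg _ _ h0.le, ← ENNReal.rpow_mul, ← ENNReal.rpow_mul,
    one_div_mul_cancel h0.ne', ENNReal.rpow_one]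
  congr 2
  field_simp

variable {E : Type} [NormedAddCommGroup E] [NormedSpace ℝ E]

theorem young {p : ℝ≥0∞} {f : ℂ → E} (hp : 1 ≤ p) (hp' : p ≠ ⊤)
    (hf : AEStronglyMeasurable f volume) {k : ℂ → ℝ} (hk : Continuous k)
    (hc : HasCompactSupport k) :
    eLpNorm (k ⋆[ContinuousLinearMap.lsmul ℝ ℝ, volume] f) p volume ≤
      ENNReal.ofReal (∫ z, |k z|) * eLpNorm f p volume := by
  have p0 : p ≠ 0 := (one_pos.trans_le hp).ne'
  have hq : 1 ≤ p.toReal := by simpa using ENNReal.toReal_mono hp' hp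
  have eA : ENNReal.ofReal (∫ z, |k z|) = ∫⁻ t, ‖k t‖ₑ :=
    ofReal_integral_norm_eq_lintegral_enorm (hk.integrable_of_hasCompactSupport hc)
  rw [eLpNorm_eq_lintegral_rpow_enorm_toReal p0 hp', eLpNorm_eq_lintegral_rpow_enorm_toReal p0 hp',
    eA]
  generalize p.toReal = q at hq
  have h0 : 0 < q := one_pos.trans_le hq
  obtain ⟨g, hg, e⟩ := hf.enorm
  have hK : Measurable fun t => ‖k t‖ₑ := hk.measurable.enorm
  have m : Measurable fun z : ℂ × ℂ => ‖k z.2‖ₑ * g (z.1 - z.2) ^ q :=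
    (hK.comp measurable_snd).mul ((hg.comp (measurable_fst.sub measurable_snd)).pow_const q)
  have a : ∀ x, ‖(k ⋆[ContinuousLinearMap.lsmul ℝ ℝ, volume] f) x‖ₑ ^ q ≤
      (∫⁻ t, ‖k t‖ₑ * g (x - t) ^ q) * (∫⁻ t, ‖k t‖ₑ) ^ (q - 1) := fun x => by
    refine (ENNReal.rpow_le_rpow ((enorm_integral_le_lintegral_enorm _).trans_eq ?_) h0.le).trans
      (hold hK (hg.comp (measurable_const.sub measurable_id)) hq)
    refine lintegral_congr_ae ?_
    filter_upwards [(Measure.measurePreserving_sub_left volume x).quasiMeasurePreserving.ae e]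
      with t ht
    simp [enorm_smul, ht]
  have b : ∫⁻ x, ∫⁻ t, ‖k t‖ₑ * g (x - t) ^ q = (∫⁻ t, ‖k t‖ₑ) * ∫⁻ x, ‖f x‖ₑ ^ q := by
    rw [lintegral_lintegral_swap m.aemeasurable, ← lintegral_mul_const _ hK]
    refine lintegral_congr fun t => ?_
    rw [lintegral_const_mul _ (f := fun x => g (x - t) ^ q)
      ((hg.comp (measurable_id.sub measurable_const)).pow_const q), lintegral_sub_right_eq_self (fun x => g x ^ q) t]
    exact congrArg _ (lintegral_congr_ae (e.mono fun x hx => by simp only [hx]))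
  refine (ENNReal.rpow_le_rpow (lintegral_mono a) (by positivity)).trans_eq ?_
  rw [lintegral_mul_const _ m.lintegral_prod_right', b, mul_right_comm,
    ENNReal.mul_rpow_of_nonneg _ _ (by positivity)]
  congr 1
  generalize ∫⁻ t, ‖k t‖ₑ = A
  nth_rewrite 1 [← ENNReal.rpow_one A]
  rw [← ENNReal.rpow_add_of_nonneg _ _ zero_le_one (sub_nonneg.2 hq), ← ENNReal.rpow_mul,
    add_sub_cancel, mul_one_div_cancel h0.ne', ENNReal.rpow_one]

theorem rOut_le (n : ℕ) : (bp n).rOut ≤ 2 :=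
  div_le_self zero_le_two (le_add_of_nonneg_left n.cast_nonneg)

theorem rOut_lim : Tendsto (fun n => (bp n).rOut) atTop (𝓝 0) := by
  simpa [bp, div_eq_mul_inv] using (tendsto_one_div_add_atTop_nhds_zero_nat (𝕜 := ℝ)).const_mul 2

theorem mo_le {p : ℝ≥0∞} {f : ℂ → E} (hp : 1 ≤ p) (hp' : p ≠ ⊤)
    (hf : AEStronglyMeasurable f volume) (n : ℕ) : eLpNorm (mo n f) p volume ≤ eLpNorm f p volume := by
  have := young hp hp' hf (k := (bp n).normed volume) (bp n).continuous_normed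
    (bp n).hasCompactSupport_normed
  simpa only [abs_of_nonneg ((bp n).nonneg_normed _), (bp n).integral_normed, ENNReal.ofReal_one,
    one_mul, mo] using this

variable [CompleteSpace E]

theorem cont {p : ℝ≥0∞} (hp' : p ≠ ⊤) {g : ℂ → E} (hg : Continuous g)
    (hc : HasCompactSupport g) : Tendsto (fun n => eLpNorm (mo n g - g) p volume) atTop (𝓝 0) := by
  have hS : IsCompact (closedBall (0 : ℂ) 2 + tsupport g) := (isCompact_closedBall _ _).add hc
  have s1 : ∀ n, (mo n g).support ⊆ closedBall (0 : ℂ) 2 + tsupport g := fun n =>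
    (support_convolution_subset _).trans (add_subset_add ((bp n).support_normed_eq.subset.trans
      (ball_subset_closedBall.trans (closedBall_subset_closedBall (rOut_le n)))) subset_closure)
  have s2 : g.support ⊆ closedBall (0 : ℂ) 2 + tsupport g := fun z hz =>
    ⟨0, mem_closedBall_self zero_le_two, z, subset_closure hz, zero_add z⟩
  have t : Tendsto (fun c : ℝ => ENNReal.ofReal c *
      volume (closedBall (0 : ℂ) 2 + tsupport g) ^ (1 / p.toReal)) (𝓝[>] 0) (𝓝 0) := by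
    simpa using ENNReal.Tendsto.mul_const
      ((ENNReal.continuous_ofReal.tendsto 0).mono_left (nhdsWithin_le_nhds (s := Ioi 0)))
      (Or.inr (ENNReal.rpow_ne_top_of_nonneg (by positivity) hS.measure_lt_top.ne))
  refine ENNReal.tendsto_nhds_zero.2 fun ε hε => ?_
  obtain ⟨c, h1, h2⟩ := ((ENNReal.tendsto_nhds_zero.1 t ε hε).and self_mem_nhdsWithin).exists
  obtain ⟨δ, d0, hd⟩ := Metric.uniformContinuous_iff.1 (hc.uniformContinuous_of_continuous hg) c h2
  filter_upwards [rOut_lim.eventually (gt_mem_nhds d0)] with n hn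
  exact (eLpNorm_sub_le_of_dist_bdd volume hp' hS.measurableSet (le_of_lt h2)
    (fun x => (bp n).dist_normed_convolution_le hg.aestronglyMeasurable
      fun y hy => (hd (lt_trans hy hn)).le) (s1 n) s2).trans h1

end Mol

theorem mol : MolS := by
  intro E _ _ _ p f hp hp' hf
  refine ⟨fun k hk hc => Mol.young hp hp' hf.1 hk hc, ENNReal.tendsto_nhds_zero.2 fun ε hε => ?_⟩
  have e3 : ε / 3 ≠ 0 := ENNReal.div_ne_zero.2 ⟨hε.ne', by simp⟩
  obtain ⟨g, hc, hfg, hg, hm⟩ := hf.exists_hasCompactSupport_eLpNorm_sub_le hp' e3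
  filter_upwards [ENNReal.tendsto_nhds_zero.1 (Mol.cont hp' hg hc) _ e3.bot_lt] with n hn
  have ex : ∀ h : ℂ → E, MemLp h p volume → ConvolutionExists ((bp n).normed volume) h
      (ContinuousLinearMap.lsmul ℝ ℝ) volume := fun h hh =>
    (bp n).hasCompactSupport_normed.convolutionExists_left _ (bp n).continuous_normed
      (hh.locallyIntegrable hp)
  have ms : ∀ h : ℂ → E, MemLp h p volume → AEStronglyMeasurable (mo n h) volume := fun h hh =>
    ((bp n).hasCompactSupport_normed.continuous_convolution_left _ (bp n).continuous_normed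
      (hh.locallyIntegrable hp)).aestronglyMeasurable
  have e : mo n f - f = mo n (f - g) + (mo n g - g) - (f - g) := by
    have := (ex _ (hf.sub hm)).distrib_add (ex _ hm)
    rw [sub_add_cancel] at this
    rw [mo, this, mo, mo]
    abel
  have m1 := ms _ (hf.sub hm)
  have m2 := (ms _ hm).sub hm.1
  rw [e, ← ENNReal.add_thirds ε]
  exact (eLpNorm_sub_le (m1.add m2) (hf.sub hm).1 hp).trans (add_le_add
    ((eLpNorm_add_le m1 m2 hp).trans
      (add_le_add ((Mol.mo_le hp hp' (hf.sub hm).1 n).trans hfg) hn)) hfg)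

end Pool.Agent.MP_815c6c_an.P

end MrgPart1

-- ======== part 2: formerly Pool.Agent.MP_815c6c_an.P.Kit
section MrgPart2

/-! Planar p-harmonic functions: closure, chain rule and affine maps in the Sobolev class. -/

set_option autoImplicit false

namespace Pool.Agent.MP_815c6c_an.P

open Set Metric MeasureTheory Filter Topology Complex
open scoped ContDiff ENNReal ComplexConjugate

namespace Kit

variable {E : Type} [NormedAddCommGroup E] {μ : Measure ℂ}

theorem sq_eq (f : ℂ → E) : ∫⁻ z, ‖f z‖ₑ ^ 2 ∂μ = eLpNorm f 2 μ ^ 2 := by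
  have := eLpNorm_nnreal_pow_eq_lintegral (μ := μ) (f := f) (p := 2) two_ne_zero
  simpa using this.symm

/-- dominated convergence in `L²` -/
theorem dct {f : ℕ → ℂ → E} {f0 : ℂ → E} {g : ℂ → ℝ} (hf : ∀ n, AEStronglyMeasurable (f n) μ)
    (hg : MemLp g 2 μ) (hb : ∀ᵐ z ∂μ, ∀ n, ‖f n z‖ ≤ g z)
    (hl : ∀ᵐ z ∂μ, Tendsto (fun n => f n z) atTop (𝓝 (f0 z))) :
    Tendsto (fun n => eLpNorm (f n - f0) 2 μ) atTop (𝓝 0) := by
  have h0 : AEStronglyMeasurable f0 μ := aestronglyMeasurable_of_tendsto_ae atTop hf hl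
  have h1 : Tendsto (fun n => ∫⁻ z, ‖(f n - f0) z‖ₑ ^ 2 ∂μ) atTop (𝓝 (∫⁻ _, 0 ∂μ)) := by
    refine tendsto_lintegral_of_dominated_convergence' (fun z => ‖2 * g z‖ₑ ^ 2)
      (fun n => ((hf n).sub h0).enorm.pow_const 2) (fun n => ?_) ?_ ?_
    · filter_upwards [hb, hl] with z a b
      have c : ‖f0 z‖ ≤ g z := le_of_tendsto' b.norm a
      have d : ‖(f n - f0) z‖ ≤ ‖2 * g z‖ :=
        (norm_sub_le _ _).trans ((by linarith [a n] : _ ≤ 2 * g z).trans (le_abs_self _))
      gcongr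
      exact enorm_le_iff_norm_le.2 d
    · rw [sq_eq]
      exact ENNReal.pow_ne_top (hg.const_mul 2).2.ne
    · filter_upwards [hl] with z b
      have c : Tendsto (fun n => ‖(f n - f0) z‖ₑ) atTop (𝓝 0) := by
        simpa using (b.sub_const (f0 z)).enorm
      simpa using ENNReal.Tendsto.pow (n := 2) c
  simp only [sq_eq, lintegral_zero] at h1
  have h2 := (ENNReal.continuous_rpow_const (y := 1 / 2)).tendsto 0 |>.comp h1
  rw [ENNReal.zero_rpow_of_pos (by norm_num)] at h2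
  refine h2.congr fun n => ?_
  rw [Function.comp_apply, ← ENNReal.rpow_natCast, ← ENNReal.rpow_mul]
  norm_num

/-- a sequence with geometrically small norms is dominated and tends to zero -/
theorem dom {f : ℕ → ℂ → E} (hf : ∀ n, AEStronglyMeasurable (f n) μ)
    (hb : ∀ n, eLpNorm (f n) 2 μ ≤ 2⁻¹ ^ n) :
    ∃ g : ℂ → ℝ, MemLp g 2 μ ∧ ∀ᵐ z ∂μ, (∀ n, ‖f n z‖ ≤ g z) ∧
      Tendsto (fun n => f n z) atTop (𝓝 0) := by
  set S : ℂ → ℝ≥0∞ := fun z => ∑' n, ‖f n z‖ₑ ^ 2 with hS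
  have hm : ∀ n, AEMeasurable (fun z => ‖f n z‖ₑ ^ 2) μ := fun n => (hf n).enorm.pow_const 2
  have hSm : AEMeasurable S μ := AEMeasurable.tsum hm
  have hfin : ∫⁻ z, S z ∂μ ≠ ⊤ := by
    rw [hS, lintegral_tsum hm]
    refine ne_top_of_le_ne_top (b := ∑' n : ℕ, 2⁻¹ ^ n) (by simp [ENNReal.tsum_geometric]) ?_
    refine ENNReal.tsum_le_tsum fun n => ?_
    rw [sq_eq, sq]
    calc _ ≤ 2⁻¹ ^ n * (1 : ℝ≥0∞) :=
          mul_le_mul' (hb n) ((hb n).trans (pow_le_one' (by simp) n))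
      _ = _ := mul_one _
  refine ⟨fun z => √(S z).toReal, ?_, ?_⟩
  · rw [memLp_two_iff_integrable_sq hSm.ennreal_toReal.sqrt.aestronglyMeasurable]
    simpa [Real.sq_sqrt] using integrable_toReal_of_lintegral_ne_top hSm hfin
  · filter_upwards [ae_lt_top' hSm hfin] with z hz
    refine ⟨fun n => Real.le_sqrt_of_sq_le ?_, ?_⟩
    · have := ENNReal.toReal_mono hz.ne (ENNReal.le_tsum (f := fun n => ‖f n z‖ₑ ^ 2) n)
      simpa using this
    · have h1 := ENNReal.tendsto_atTop_zero_of_tsum_ne_top hz.ne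
      have h2 := (ENNReal.tendsto_toReal ENNReal.zero_ne_top).comp h1
      have h3 := Real.continuous_sqrt.tendsto _ |>.comp h2
      rw [tendsto_zero_iff_norm_tendsto_zero]
      simpa [Function.comp_def] using h3

variable {U U' : Set ℂ} {u u' u0 : ℂ → ℂ} {D D' D0 : ℂ → M2}

theorem cf {v : ℂ → ℂ} (hv : ContDiff ℝ ∞ v) : Continuous (fderiv ℝ v) :=
  hv.continuous_fderiv (by simp)

theorem df {v : ℂ → ℂ} (hv : ContDiff ℝ ∞ v) (z : ℂ) : HasFDerivAt v (fderiv ℝ v z) z :=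
  (hv.differentiable (by simp) z).hasFDerivAt

theorem apx (h : Sb U u D) {ε : ℝ≥0∞} (hε : 0 < ε) : ∃ w : ℂ → ℂ, ContDiff ℝ ∞ w ∧
    eLpNorm (w - u) 2 (vo U) ≤ ε ∧ eLpNorm (fderiv ℝ w - D) 2 (vo U) ≤ ε := by
  obtain ⟨v, hv, g, hg, h⟩ := h
  have h1 := dct (fun n => (hv n).continuous.aestronglyMeasurable) hg
    (h.mono fun z a n => (a.1 n).1) (h.mono fun z a => a.2.1)
  have h2 := dct (fun n => (cf (hv n)).aestronglyMeasurable) hg
    (h.mono fun z a n => (a.1 n).2) (h.mono fun z a => a.2.2)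
  obtain ⟨n, a, b⟩ := ((h1.eventually (Iic_mem_nhds hε)).and (h2.eventually (Iic_mem_nhds hε))).exists
  exact ⟨v n, hv n, a, b⟩

theorem of_apx (hu : MemLp u 2 (vo U)) (hD : MemLp D 2 (vo U))
    (h : ∀ ε : ℝ≥0∞, 0 < ε → ∃ w : ℂ → ℂ, ContDiff ℝ ∞ w ∧
      eLpNorm (w - u) 2 (vo U) ≤ ε ∧ eLpNorm (fderiv ℝ w - D) 2 (vo U) ≤ ε) : Sb U u D := by
  choose w hw h1 h2 using fun n : ℕ => h (2⁻¹ ^ n) (ENNReal.pow_pos (by simp) n)
  obtain ⟨g1, m1, a1⟩ := dom (fun n => (hw n).continuous.aestronglyMeasurable.sub hu.1) h1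
  obtain ⟨g2, m2, a2⟩ := dom (fun n => (cf (hw n)).aestronglyMeasurable.sub hD.1) h2
  refine ⟨w, hw, fun z => g1 z + ‖u z‖ + (g2 z + ‖D z‖), (m1.add hu.norm).add (m2.add hD.norm), ?_⟩
  filter_upwards [a1, a2] with z b1 b2
  refine ⟨fun n => ?_, tendsto_sub_nhds_zero_iff.1 b1.2, tendsto_sub_nhds_zero_iff.1 b2.2⟩
  have c1 : ‖w n z - u z‖ ≤ g1 z := b1.1 n
  have c2 : ‖fderiv ℝ (w n) z - D z‖ ≤ g2 z := b2.1 n
  have d1 := norm_sub_norm_le (w n z) (u z)
  have d2 := norm_sub_norm_le (fderiv ℝ (w n) z) (D z)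
  constructor <;> linarith [norm_nonneg (w n z - u z), norm_nonneg (fderiv ℝ (w n) z - D z),
    norm_nonneg (u z), norm_nonneg (D z)]

theorem mem_lim {f : ℕ → ℂ → E} {f0 : ℂ → E} (hf : ∀ n, MemLp (f n) 2 μ)
    (h0 : AEStronglyMeasurable f0 μ)
    (h : Tendsto (fun n => eLpNorm (f n - f0) 2 μ) atTop (𝓝 0)) : MemLp f0 2 μ := by
  obtain ⟨n, a⟩ := (h.eventually (Iio_mem_nhds ENNReal.zero_lt_top)).exists
  simpa using (hf n).sub (⟨(hf n).1.sub h0, a⟩ : MemLp (f n - f0) 2 μ)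

theorem tri {f g k : ℂ → E} (hf : AEStronglyMeasurable f μ) (hg : AEStronglyMeasurable g μ)
    (hk : AEStronglyMeasurable k μ) {ε : ℝ≥0∞} (a : eLpNorm (f - g) 2 μ ≤ ε / 2)
    (b : eLpNorm (g - k) 2 μ ≤ ε / 2) : eLpNorm (f - k) 2 μ ≤ ε := by
  rw [← sub_add_sub_cancel f g k, ← ENNReal.add_halves ε]
  exact (eLpNorm_add_le (hf.sub hg) (hg.sub hk) one_le_two).trans (add_le_add a b)

theorem clo {u : ℕ → ℂ → ℂ} {D : ℕ → ℂ → M2} (h : ∀ n, Sb U (u n) (D n))
    (hu : AEStronglyMeasurable u0 (vo U)) (hD : AEStronglyMeasurable D0 (vo U))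
    (h1 : Tendsto (fun n => eLpNorm (u n - u0) 2 (vo U)) atTop (𝓝 0))
    (h2 : Tendsto (fun n => eLpNorm (D n - D0) 2 (vo U)) atTop (𝓝 0)) : Sb U u0 D0 := by
  refine of_apx (mem_lim (fun n => (h n).memLp.1) hu h1) (mem_lim (fun n => (h n).memLp.2) hD h2)
    fun ε hε => ?_
  have hε' : 0 < ε / 2 := ENNReal.half_pos hε.ne'
  obtain ⟨n, a, b⟩ :=
    ((h1.eventually (Iic_mem_nhds hε')).and (h2.eventually (Iic_mem_nhds hε'))).exists
  obtain ⟨w, hw, c, d⟩ := apx (h n) hε'
  exact ⟨w, hw, tri hw.continuous.aestronglyMeasurable (h n).memLp.1.1 hu c a,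
    tri (cf hw).aestronglyMeasurable (h n).memLp.2.1 hD d b⟩

theorem cloD {u : ℕ → ℂ → ℂ} {D : ℕ → ℂ → M2} (h : ∀ n, Sb U (u n) (D n))
    (hd : Dom U u D u0 D0) : Sb U u0 D0 := by
  obtain ⟨g, hg, hd⟩ := hd
  exact clo h
    (aestronglyMeasurable_of_tendsto_ae atTop (fun n => (h n).memLp.1.1) (hd.mono fun z a => a.2.1))
    (aestronglyMeasurable_of_tendsto_ae atTop (fun n => (h n).memLp.2.1) (hd.mono fun z a => a.2.2))
    (dct (fun n => (h n).memLp.1.1) hg (hd.mono fun z a n => (a.1 n).1) (hd.mono fun z a => a.2.1))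
    (dct (fun n => (h n).memLp.2.1) hg (hd.mono fun z a n => (a.1 n).2) (hd.mono fun z a => a.2.2))

theorem fin (hU : Bornology.IsBounded U) : IsFiniteMeasure (vo U) :=
  isFiniteMeasure_restrict.2 hU.measure_lt_top.ne

theorem tc {A B : ℕ → M2} {A0 B0 : M2} (a : Tendsto A atTop (𝓝 A0)) (b : Tendsto B atTop (𝓝 B0)) :
    Tendsto (fun n => (A n).comp (B n)) atTop (𝓝 (A0.comp B0)) :=
  a.mul b

theorem grow {Φ : ℂ → ℂ} {b : ℝ} (hΦ : ContDiff ℝ ∞ Φ) (hb : ∀ w, ‖fderiv ℝ Φ w‖ ≤ b) (w : ℂ) :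
    ‖Φ w‖ ≤ ‖Φ 0‖ + b * ‖w‖ := by
  have := convex_univ.norm_image_sub_le_of_norm_fderiv_le (𝕜 := ℝ) (f := Φ) (C := b)
    (fun x _ => (df hΦ x).differentiableAt) (fun x _ => hb x) (mem_univ 0) (mem_univ w)
  rw [sub_zero] at this
  linarith [norm_sub_norm_le (Φ w) (Φ 0)]

theorem chain {Φ : ℂ → ℂ} {b : ℝ} (hU : Bornology.IsBounded U) (h : Sb U u D)
    (hΦ : ContDiff ℝ ∞ Φ) (hb : ∀ w, ‖fderiv ℝ Φ w‖ ≤ b) :
    Sb U (fun z => Φ (u z)) fun z => (fderiv ℝ Φ (u z)).comp (D z) := by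
  obtain ⟨v, hv, g, hg, h⟩ := h
  have := fin hU
  have b0 : 0 ≤ b := (norm_nonneg _).trans (hb 0)
  have e : ∀ n z, fderiv ℝ (fun z => Φ (v n z)) z = (fderiv ℝ Φ (v n z)).comp (fderiv ℝ (v n) z) :=
    fun n z => by
      have := ((df hΦ (v n z)).comp z (df (hv n) z)).fderiv
      exact this
  have k : ∀ n, ContDiff ℝ ∞ fun z => Φ (v n z) := fun n => by
    have := hΦ.comp (hv n)
    exact this
  have m : MemLp (fun z => ‖Φ 0‖ + b * g z) 2 (vo U) :=
    MemLp.add (f := fun _ => ‖Φ 0‖) (g := fun z => b * g z) (memLp_const _) (hg.const_mul b)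
  refine ⟨fun n z => Φ (v n z), k, fun z => ‖Φ 0‖ + b * g z, m, ?_⟩
  filter_upwards [h] with z a
  simp only [e]
  refine ⟨fun n => ⟨?_, ?_⟩, (hΦ.continuous.tendsto _).comp a.2.1, ?_⟩
  · have := mul_le_mul_of_nonneg_left (a.1 n).1 b0
    linarith [grow hΦ hb (v n z)]
  · have := mul_le_mul (hb (v n z)) (a.1 n).2 (norm_nonneg _) b0
    linarith [(fderiv ℝ Φ (v n z)).opNorm_comp_le (fderiv ℝ (v n) z), norm_nonneg (Φ 0)]
  · have c : Tendsto (fun n => fderiv ℝ Φ (v n z)) atTop (𝓝 (fderiv ℝ Φ (u z))) :=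
      ((cf hΦ).tendsto _).comp a.2.1
    exact tc c a.2.2

theorem lin (A A' B : M2) (c : ℂ) (hU : Bornology.IsBounded U) (h : Sb U u D) (h' : Sb U u' D') :
    Sb U (fun z => A (u z) + A' (u' z) + B z + c) fun z => A.comp (D z) + A'.comp (D' z) + B := by
  obtain ⟨v, hv, g, hg, h⟩ := h
  obtain ⟨v', hv', g', hg', h'⟩ := h'
  have := fin hU
  obtain ⟨R, hR⟩ := hU.subset_closedBall 0
  have hz : ∀ᵐ z ∂vo U, z ∈ closedBall (0 : ℂ) R :=
    ae_mono (Measure.restrict_mono hR le_rfl) (ae_restrict_mem measurableSet_closedBall)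
  have e : ∀ n z, fderiv ℝ (fun z => A (v n z) + A' (v' n z) + B z + c) z =
      A.comp (fderiv ℝ (v n) z) + A'.comp (fderiv ℝ (v' n) z) + B := fun n z =>
    ((((A.hasFDerivAt.comp z (df (hv n) z)).add (A'.hasFDerivAt.comp z (df (hv' n) z))).add
      B.hasFDerivAt).add_const c).fderiv
  refine ⟨fun n z => A (v n z) + A' (v' n z) + B z + c,
    fun n => (((A.contDiff.comp (hv n)).add (A'.contDiff.comp (hv' n))).add B.contDiff).add
      contDiff_const, fun z => ‖A‖ * g z + ‖A'‖ * g' z + (‖B‖ * R + ‖c‖ + ‖B‖),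
    ((hg.const_mul _).add (hg'.const_mul _)).add (memLp_const _), ?_⟩
  filter_upwards [h, h', hz] with z a a' r
  rw [mem_closedBall_zero_iff] at r
  simp only [e]
  have r1 : ‖B z‖ ≤ ‖B‖ * R := B.le_opNorm_of_le r
  have d : ∀ N : M2, Continuous fun p : M2 => N.comp p := fun N =>
    continuous_const.clm_comp continuous_id
  refine ⟨fun n => ⟨?_, ?_⟩, ?_, ?_⟩
  · have := A.le_opNorm_of_le (a.1 n).1
    have := A'.le_opNorm_of_le (a'.1 n).1
    have := norm_add_le (A (v n z) + A' (v' n z) + B z) c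
    have := norm_add₃_le (a := A (v n z)) (b := A' (v' n z)) (c := B z)
    linarith [norm_nonneg B]
  · have := (A.opNorm_comp_le _).trans (mul_le_mul_of_nonneg_left (a.1 n).2 (norm_nonneg A))
    have := (A'.opNorm_comp_le _).trans (mul_le_mul_of_nonneg_left (a'.1 n).2 (norm_nonneg A'))
    have := norm_add₃_le (a := A.comp (fderiv ℝ (v n) z)) (b := A'.comp (fderiv ℝ (v' n) z)) (c := B)
    linarith [norm_nonneg c, norm_nonneg (B z)]
  · exact ((((A.continuous.tendsto _).comp a.2.1).add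
      ((A'.continuous.tendsto _).comp a'.2.1)).add_const _).add_const _
  · exact ((((d A).tendsto _).comp a.2.2).add (((d A').tendsto _).comp a'.2.2)).add_const _

theorem map_le {a b : ℂ} (hb : b ≠ 0) (h : ∀ z ∈ U', a + b * z ∈ U) :
    ∃ c : ℝ≥0∞, c ≠ ⊤ ∧ (vo U').map (fun z => a + b * z) ≤ c • vo U := by
  have hd : LinearMap.det (ml b : ℂ →ₗ[ℝ] ℂ) ≠ 0 := by
    rw [Ne, LinearMap.det_eq_zero_iff_ker_ne_bot, not_not, LinearMap.ker_eq_bot]
    exact mul_right_injective₀ hb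
  have h1 := Measure.map_linearMap_addHaar_eq_smul_addHaar (volume : Measure ℂ) hd
  have me : MeasurableEmbedding fun z => a + b * z :=
    (measurableEmbedding_addLeft a).comp (measurableEmbedding_mulLeft₀ hb)
  refine ⟨ENNReal.ofReal |(LinearMap.det (ml b : ℂ →ₗ[ℝ] ℂ))⁻¹|, ENNReal.ofReal_ne_top, ?_⟩
  have h2 : (volume : Measure ℂ).map (fun z => a + b * z) =
      ENNReal.ofReal |(LinearMap.det (ml b : ℂ →ₗ[ℝ] ℂ))⁻¹| • volume := by
    have : (fun z => a + b * z) = (fun z => a + z) ∘ (ml b : ℂ →ₗ[ℝ] ℂ) := rfl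
    have m : Measurable (ml b : ℂ →ₗ[ℝ] ℂ) := (ml b).continuous.measurable
    rw [this, ← Measure.map_map (measurable_const_add a) m, h1,
      Measure.map_smul, map_add_left_eq_self]
  rw [← Measure.restrict_smul, ← h2, me.restrict_map]
  exact Measure.map_mono (Measure.restrict_mono h le_rfl) me.measurable

theorem aff {a b : ℂ} (hb : b ≠ 0) (hU : ∀ z ∈ U', a + b * z ∈ U) (h : Sb U u D) :
    Sb U' (fun z => u (a + b * z)) fun z => (D (a + b * z)).comp (ml b) := by
  obtain ⟨v, hv, g, hg, h⟩ := h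
  obtain ⟨c, hc, hm⟩ := map_le hb hU
  have s : ContDiff ℝ ∞ fun z : ℂ => a + b * z := contDiff_const.add (ml b).contDiff
  have e : ∀ n z, fderiv ℝ (fun z => v n (a + b * z)) z =
      (fderiv ℝ (v n) (a + b * z)).comp (ml b) := fun n z =>
    ((df (hv n) _).comp z ((ml b).hasFDerivAt.const_add a)).fderiv
  have m := s.continuous.measurable.aemeasurable (μ := vo U')
  refine ⟨fun n z => v n (a + b * z), fun n => (hv n).comp s, fun z => (1 + ‖b‖) * g (a + b * z),
    ((hg.of_measure_le_smul hc hm).comp_of_map m).const_mul _, ?_⟩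
  filter_upwards [ae_of_ae_map m ((Measure.absolutelyContinuous_of_le_smul hm).ae_le h)] with z k
  simp only [e]
  have g0 : 0 ≤ g (a + b * z) := (norm_nonneg _).trans (k.1 0).1
  have d : Continuous fun p : M2 => p.comp (ml b) := continuous_id.clm_comp continuous_const
  refine ⟨fun n => ⟨?_, ?_⟩, k.2.1, (d.tendsto _).comp k.2.2⟩
  · nlinarith [(k.1 n).1, norm_nonneg b]
  · refine (ContinuousLinearMap.opNorm_comp_le _ _).trans ?_
    rw [norm_ml]
    nlinarith [(k.1 n).2, norm_nonneg b]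

end Kit

theorem kit : KitS :=
  ⟨fun _ _ _ _ _ => Kit.clo, fun _ _ _ _ _ => Kit.cloD, fun _ _ _ _ _ => Kit.chain,
    fun _ _ _ _ _ => Kit.lin, fun _ _ _ _ _ _ hb _ => Kit.aff hb⟩

end Pool.Agent.MP_815c6c_an.P

end MrgPart2

-- ======== part 3: formerly Pool.Agent.MP_815c6c_an.P.Four
section MrgPart3

/-! Planar p-harmonic functions: the Sobolev embedding, cluster values, gluing, scaling. -/

set_option autoImplicit false

namespace Pool.Agent.MP_815c6c_an.P

open Set Metric MeasureTheory Filter Topology Complex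
open scoped ContDiff ENNReal NNReal ComplexConjugate

namespace Four

theorem l4 (r R : ℝ) (u : ℂ → ℂ) (D : ℂ → M2) (hr : r < R) (h : Sb (ball 0 R) u D) :
    MemLp u 4 (vo (ball 0 r)) := by
  rcases le_or_gt r 0 with h0 | h0
  · simp [vo, ball_eq_empty.2 h0]
  have hu := ((h.mono (ball_subset_ball hr.le)).memLp).1.1
  obtain ⟨v, hv, g, hg, h⟩ := h
  let η : ContDiffBump (0 : ℂ) := ⟨r, R, h0, hr⟩
  have hη : ContDiff ℝ 1 η := η.contDiff
  obtain ⟨C, hC⟩ := (hη.continuous_fderiv one_ne_zero).bounded_above_of_compact_support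
    (η.hasCompactSupport.fderiv (𝕜 := ℝ))
  have hs : Function.support η = ball 0 R := η.support_eq
  have : IsFiniteMeasure (vo (ball (0 : ℂ) R)) :=
    ⟨by rw [vo, Measure.restrict_apply_univ]; exact measure_ball_lt_top⟩
  have hg' : MemLp (fun z => (1 + C) * g z) (3 / 2 : ℝ≥0) (vo (ball 0 R)) :=
    (hg.const_mul _).mono_exponent (by
      rw [show (2 : ℝ≥0∞) = ((2 : ℝ≥0) : ℝ≥0∞) from rfl, ENNReal.coe_le_coe]
      rw [div_le_iff₀ (by norm_num)]
      norm_num)
  set K := eLpNormLESNormFDerivOfLeConst ℂ (volume : Measure ℂ) (ball (0 : ℂ) R) (3 / 2) 4 *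
    eLpNorm (fun z => (1 + C) * g z) (3 / 2 : ℝ≥0) (vo (ball 0 R)) with hK
  have key : ∀ n, eLpNorm (v n) 4 (vo (ball 0 r)) ≤ K := by
    intro n
    have c1 : ContDiff ℝ 1 (v n) := (hv n).of_le (by simp)
    have c2 : ContDiff ℝ 1 fun z => η z • v n z := hη.smul c1
    have s2 : Function.support (fun z => η z • v n z) ⊆ ball 0 R :=
      (Function.support_smul_subset_left _ _).trans hs.subset
    have a := eLpNorm_le_eLpNorm_fderiv_of_le (volume : Measure ℂ) c2 s2 (p := 3 / 2) (q := 4)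
      (by rw [le_div_iff₀ (by norm_num)]; norm_num)
      (by rw [Complex.finrank_real_complex, div_lt_iff₀ (by norm_num)]; norm_num)
      (by rw [Complex.finrank_real_complex]; norm_num) isBounded_ball
    have d : ∀ z, fderiv ℝ (fun z => η z • v n z) z =
        η z • fderiv ℝ (v n) z + (fderiv ℝ η z).smulRight (v n z) := fun z =>
      fderiv_fun_smul (hη.differentiable one_ne_zero z) (c1.differentiable one_ne_zero z)
    have b : eLpNorm (fderiv ℝ fun z => η z • v n z) (3 / 2 : ℝ≥0) volume ≤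
        eLpNorm (fun z => (1 + C) * g z) (3 / 2 : ℝ≥0) (vo (ball 0 R)) := by
      have e : (fderiv ℝ fun z => η z • v n z) =
          (ball (0 : ℂ) R).indicator (fderiv ℝ fun z => η z • v n z) := by
        refine (indicator_eq_self.2 fun z hz => by_contra fun hz' => hz ?_).symm
        have z0 : η z = 0 := by
          rwa [← hs, Function.mem_support, not_not] at hz'
        have z1 : fderiv ℝ η z = 0 :=
          IsLocalMin.fderiv_eq_zero (Eventually.of_forall fun y => z0.le.trans η.nonneg)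
        rw [d, z0, z1]
        simp
      rw [e, eLpNorm_indicator_eq_eLpNorm_restrict measurableSet_ball]
      refine eLpNorm_mono_ae (h.mono fun z a => ?_)
      have g0 : 0 ≤ g z := (norm_nonneg _).trans (a.1 n).1
      have C0 : 0 ≤ C := (norm_nonneg _).trans (hC 0)
      rw [d, Real.norm_of_nonneg (by positivity)]
      refine (norm_add_le _ _).trans ?_
      rw [norm_smul, ContinuousLinearMap.norm_smulRight_apply, Real.norm_of_nonneg η.nonneg]
      have t1 := mul_le_mul (η.le_one (x := z)) (a.1 n).2 (norm_nonneg _) zero_le_one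
      have t2 := mul_le_mul (hC z) (a.1 n).1 (norm_nonneg _) C0
      linarith
    calc eLpNorm (v n) 4 (vo (ball 0 r)) = eLpNorm (fun z => η z • v n z) 4 (vo (ball 0 r)) := by
          refine eLpNorm_congr_ae ((ae_restrict_mem measurableSet_ball).mono fun z hz => ?_)
          simp only [η.one_of_mem_closedBall (ball_subset_closedBall hz), one_smul]
      _ ≤ eLpNorm (fun z => η z • v n z) 4 volume :=
          eLpNorm_mono_measure _ Measure.restrict_le_self
      _ ≤ K := a.trans (mul_le_mul_right b _)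
  refine ⟨hu, lt_of_le_of_lt ?_ (ENNReal.mul_lt_top ENNReal.coe_lt_top hg'.2 : K < ⊤)⟩
  refine (Lp.eLpNorm_lim_le_liminf_eLpNorm (fun n => (hv n).continuous.aestronglyMeasurable) u
    ((ae_restrict_of_ae_restrict_of_subset (ball_subset_ball hr.le) h).mono fun z a => a.2.1)).trans ?_
  exact liminf_le_of_frequently_le' (Eventually.of_forall key).frequently

theorem cl (u : ℂ → ℂ) : ∀ᵐ z, Cl u z (u z) := by
  have h : ∀ᵐ z : ℂ, ∀ b ∈ TopologicalSpace.countableBasis (ℂ × ℂ),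
      volume {x : ℂ | (x, u x) ∈ b} = 0 → (z, u z) ∉ b := by
    refine (ae_ball_iff (TopologicalSpace.countable_countableBasis _)).2 fun b _ => ?_
    by_cases hb : volume {x : ℂ | (x, u x) ∈ b} = 0
    · exact (measure_eq_zero_iff_ae_notMem.1 hb).mono fun z a _ => a
    · exact Eventually.of_forall fun z a => (hb a).elim
  refine h.mono fun z a ρ hρ h0 => ?_
  obtain ⟨b, hb, h1, h2⟩ := (TopologicalSpace.isBasis_countableBasis (ℂ × ℂ)).exists_subset_of_mem_open
    (show (z, u z) ∈ ball z ρ ×ˢ ball (u z) ρ from ⟨mem_ball_self hρ, mem_ball_self hρ⟩)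
    (isOpen_ball.prod isOpen_ball)
  refine a b hb (measure_mono_null (fun x hx => ?_) h0) h1
  exact ⟨(h2 hx).1, mem_ball_iff_norm.1 (h2 hx).2⟩

theorem c1 {g : ℂ → ℂ} {S : Set ℂ} (hS : IsOpen S)
    (h : ∀ z ∈ S, ∃ N : M2, HasStrictFDerivAt g N z) : ContDiffOn ℝ 1 g S := by
  have hd : ∀ z ∈ S, HasFDerivAt g (fderiv ℝ g z) z := fun z hz =>
    (h z hz).elim fun _ a => a.hasFDerivAt.differentiableAt.hasFDerivAt
  have hc : ContinuousOn (fderiv ℝ g) S := by
    intro z hz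
    obtain ⟨N, hN⟩ := h z hz
    refine ContinuousAt.continuousWithinAt (Metric.continuousAt_iff'.2 fun ε hε => ?_)
    have a := hN.isLittleO.def (half_pos hε)
    rw [nhds_prod_eq] at a
    obtain ⟨A, hA, B, hB, hAB⟩ := Filter.mem_prod_iff.1 a
    filter_upwards [eventually_mem_nhds_iff.2 hA, hB, hS.mem_nhds hz] with y yA yB yS
    have := ((hd y yS).sub N.hasFDerivAt).le_of_lip' (half_pos hε).le
      (Filter.mem_of_superset yA fun x hx => by
        have t : ‖g x - g y - N (x - y)‖ ≤ ε / 2 * ‖x - y‖ := hAB (mk_mem_prod hx yB)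
        show ‖g x - N x - (g y - N y)‖ ≤ ε / 2 * ‖x - y‖
        rwa [show g x - N x - (g y - N y) = g x - g y - N (x - y) by rw [map_sub]; ring])
    rw [hN.hasFDerivAt.fderiv, dist_eq_norm]
    linarith
  exact fun z hz => (contDiffAt_one_iff.2 ⟨_, S, hS.mem_nhds hz, hc, hd⟩).contDiffWithinAt

theorem map_aff (x : ℂ) {r : ℝ} (hr : 0 < r) : Measure.map (fun z : ℂ => x + r * z) volume =
    ENNReal.ofReal |(r ^ 2)⁻¹| • (volume : Measure ℂ) := by
  have e : (fun z : ℂ => x + r * z) = (fun w => x + w) ∘ fun z : ℂ => r • z := by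
    ext z; simp
  rw [e, ← Measure.map_map (measurable_const_add x) (measurable_const_smul r),
    Measure.map_addHaar_smul _ hr.ne', Complex.finrank_real_complex, Measure.map_smul,
    map_add_left_eq_self]

theorem cu {U U' : Set ℂ} {f : ℂ → ℂ} {x : ℂ} {r : ℝ} (hr : 0 < r)
    (hU : ∀ z ∈ U', x + r * z ∈ U) (h : Cu U f) : Cu U' fun z => f (x + r * z) := by
  intro φ hφ
  have r0 : (r : ℂ) ≠ 0 := ofReal_ne_zero.2 hr.ne'
  let T : ℂ ≃ₜ ℂ := (Homeomorph.addLeft (-x)).trans (Homeomorph.mulLeft₀ (r : ℂ)⁻¹ (inv_ne_zero r0))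
  have hT : ∀ w, T w = (r : ℂ)⁻¹ * (-x + w) := fun _ => rfl
  have hT' : ∀ z, T (x + r * z) = z := fun z => by rw [hT]; field_simp; ring
  have dT : ∀ w, HasFDerivAt T (ml (r : ℂ)⁻¹) w := fun w =>
    (ml (r : ℂ)⁻¹).hasFDerivAt.comp w ((hasFDerivAt_id w).const_add (-x))
  have ts : Ts U (φ ∘ T) := by
    refine ⟨hφ.1.comp (contDiff_const.mul (contDiff_const.add contDiff_id)),
      hφ.2.1.comp_homeomorph T, fun w hw => ?_⟩
    have : T w ∈ tsupport φ := tsupport_comp_subset_preimage φ T.continuous hw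
    have := hU _ (hφ.2.2 this)
    rwa [hT, show x + r * ((r : ℂ)⁻¹ * (-x + w)) = w by field_simp; ring] at this
  have e : ∀ z, (f (x + r * z) * dz φ z).im =
      r * (f (x + r * z) * dz (φ ∘ T) (x + r * z)).im := by
    intro z
    have d : ∀ v : ℂ, fderiv ℝ (φ ∘ T) (x + r * z) v = r⁻¹ * fderiv ℝ φ z v := by
      intro v
      rw [((hφ.1.differentiable (by simp) _).hasFDerivAt.comp _ (dT _)).fderiv, hT',
        ContinuousLinearMap.comp_apply, ml_apply, ← ofReal_inv, ← real_smul, map_smul, smul_eq_mul]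
    rw [dz, dz, d, d, ← im_ofReal_mul]
    congr 1
    push_cast
    field_simp
  simp only [e]
  rw [integral_const_mul]
  have m := (show MeasurableEmbedding fun z : ℂ => x + r * z from
    ((Homeomorph.mulLeft₀ (r : ℂ) r0).trans (Homeomorph.addLeft x)).measurableEmbedding).integral_map
    (μ := volume) fun w => (f w * dz (φ ∘ T) w).im
  rw [← m, map_aff x hr, integral_smul_measure, h _ ts]
  simp

end Four

theorem four : FourS := ⟨Four.l4, Four.cl⟩

theorem glue : GlueS := by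
  intro U f hU h
  choose! r hr g hg hN using h
  have c : ∀ x ∈ U, ContDiffOn ℝ 1 (g x) (ball x (r x)) := fun x hx => Four.c1 isOpen_ball (hN x hx)
  have e : ∀ x ∈ U, ∀ y ∈ U, y ∈ ball x (r x) → g y y = g x y := by
    intro x hx y hy hxy
    refine Measure.eqOn_open_of_ae_eq (μ := volume) (U := ball x (r x) ∩ ball y (r y)) ?_
      (isOpen_ball.inter isOpen_ball) ((c y hy).continuousOn.mono inter_subset_right)
      ((c x hx).continuousOn.mono inter_subset_left) ⟨hxy, mem_ball_self (hr y hy)⟩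
    filter_upwards [ae_restrict_of_ae_restrict_of_subset inter_subset_left (hg x hx),
      ae_restrict_of_ae_restrict_of_subset inter_subset_right (hg y hy)] with z a b
    rw [a, b]
  refine ⟨fun x => g x x, fun x hx => ContDiffAt.contDiffWithinAt ?_, ?_⟩
  · refine ((c x hx).contDiffAt (ball_mem_nhds x (hr x hx))).congr_of_eventuallyEq ?_
    filter_upwards [hU.mem_nhds hx, ball_mem_nhds x (hr x hx)] with y a b
    exact e x hx y a b
  · refine (ae_restrict_iff' hU.measurableSet).2 (ae_iff.2 (measure_null_of_locally_null _ ?_))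
    intro x hx
    have hx' : x ∈ U := (Classical.not_imp.1 hx).1
    refine ⟨_, inter_mem_nhdsWithin _ (ball_mem_nhds x (hr x hx')), ?_⟩
    refine measure_mono_null (fun y hy => ?_)
      (ae_iff.1 ((ae_restrict_iff' measurableSet_ball).1 (hg x hx')))
    exact fun a => hy.1 fun b => (e x hx' y b hy.2).trans (a hy.2)

theorem sca : ScaS := by
  intro ε U U' F x r hr hU h
  refine ⟨fun K hK hc => ?_, Four.cu hr hU h.cu, Four.cu hr hU h.dv⟩
  have r0 : (r : ℂ) ≠ 0 := ofReal_ne_zero.2 hr.ne'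
  have ct : Continuous fun z : ℂ => x + r * z := by fun_prop
  have m := h.mem _ (image_subset_iff.2 fun z hz => hU z (hK hz)) (hc.image ct)
  have e : Measure.map (fun z : ℂ => x + r * z) (vo K) =
      ENNReal.ofReal |(r ^ 2)⁻¹| • vo ((fun z : ℂ => x + r * z) '' K) := by
    rw [vo, vo, ← Measure.restrict_smul, ← Four.map_aff x hr,
      Measure.restrict_map ct.measurable (hc.image ct).measurableSet,
      preimage_image_eq _ fun a b hab => mul_left_cancel₀ r0 (add_left_cancel hab)]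
  exact MemLp.comp_of_map (f := fun z : ℂ => x + r * z)
    (g := fun z => pw ((eP ε + eQ ε) / 2 - 1) (F z))
    (e ▸ m.smul_measure ENNReal.ofReal_ne_top) ct.aemeasurable

end Pool.Agent.MP_815c6c_an.P

end MrgPart3

-- ======== part 4: formerly Pool.Agent.MP_815c6c_an.P.Wk
section MrgPart4

/-! Bounded difference quotients give a Sobolev map. -/

set_option autoImplicit false

namespace Pool.Agent.MP_815c6c_an.P

open Set Metric MeasureTheory Filter Topology Complex
open scoped ContDiff ENNReal ComplexConjugate Convolution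

namespace WkA

/-- almost least norm elements of a decreasing chain of midpoint closed sets converge -/
theorem mz {H : Type} [NormedAddCommGroup H] [InnerProductSpace ℝ H] [CompleteSpace H]
    (S : ℕ → Set H) (hS : Antitone S)
    (hm : ∀ n, ∀ x ∈ S n, ∀ y ∈ S n, (1 / 2 : ℝ) • (x + y) ∈ S n)
    (M : ℝ) (hM : ∀ n, ∃ x ∈ S n, ‖x‖ ≤ M) :
    ∃ (y : ℕ → H) (y0 : H), (∀ n, y n ∈ S n) ∧ Tendsto y atTop (𝓝 y0) := by
  let d : ℕ → ℝ := fun n => sInf ((fun x : H => ‖x‖ ^ 2) '' S n)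
  have hb : ∀ n, BddBelow ((fun x : H => ‖x‖ ^ 2) '' S n) := fun n =>
    ⟨0, by rintro _ ⟨x, -, rfl⟩; positivity⟩
  have hn : ∀ n, ((fun x : H => ‖x‖ ^ 2) '' S n).Nonempty := fun n =>
    let ⟨x, hx, _⟩ := hM n; ⟨_, x, hx, rfl⟩
  have hle : ∀ n, ∀ x ∈ S n, d n ≤ ‖x‖ ^ 2 := fun n x hx => csInf_le (hb n) ⟨x, hx, rfl⟩
  have hmono : Monotone d := fun n m h =>
    csInf_le_csInf (hb n) (hn m) (image_mono (hS h))
  have hbd : BddAbove (range d) := ⟨M ^ 2, by
    rintro _ ⟨n, rfl⟩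
    obtain ⟨x, hx, h⟩ := hM n
    exact (hle n x hx).trans (pow_le_pow_left₀ (norm_nonneg _) h 2)⟩
  have hd := tendsto_atTop_ciSup hmono hbd
  have hup : ∀ n, d n ≤ ⨆ n, d n := fun n => le_ciSup hbd n
  have : ∀ n : ℕ, ∃ x ∈ S n, ‖x‖ ^ 2 < d n + 1 / ((n : ℝ) + 1) := fun n => by
    obtain ⟨_, ⟨x, hx, rfl⟩, h⟩ := exists_lt_of_csInf_lt (hn n)
      (lt_add_of_pos_right (d n) (Nat.one_div_pos_of_nat (n := n)))
    exact ⟨x, hx, h⟩
  choose y hy hy' using this
  have hc : CauchySeq y := by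
    refine cauchySeq_of_le_tendsto_0' (fun n => √(2 * ((⨆ n, d n) - d n) + 4 * (1 / ((n : ℝ) + 1))))
      (fun n m h => ?_) ?_
    · rw [dist_eq_norm]
      refine Real.le_sqrt_of_sq_le ?_
      have h1 := hle n _ (hm n _ (hy n) _ (hS h (hy m)))
      rw [norm_smul, mul_pow] at h1
      have h2 := parallelogram_law_with_norm ℝ (y n) (y m)
      have h3 : 1 / ((m : ℝ) + 1) ≤ 1 / ((n : ℝ) + 1) := Nat.one_div_le_one_div h
      have h4 : ‖(1 / 2 : ℝ)‖ ^ 2 = 1 / 4 := by norm_num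
      rw [h4] at h1
      linarith [hy' n, hy' m, hup m]
    · have := (((tendsto_const_nhds (x := ⨆ n, d n)).sub hd).const_mul 2).add
        ((tendsto_one_div_add_atTop_nhds_zero_nat (𝕜 := ℝ)).const_mul 4)
      simpa using this.sqrt
  obtain ⟨y0, h⟩ := cauchySeq_tendsto_of_complete hc
  exact ⟨y, y0, hy, h⟩

theorem memLp_ball {E : Type} [NormedAddCommGroup E] {w : ℂ → E} (hw : Continuous w) (r : ℝ) :
    MemLp w 2 (vo (ball 0 r)) := by
  obtain ⟨C, hC⟩ := (isCompact_closedBall (0 : ℂ) r).exists_bound_of_continuousOn hw.continuousOn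
  have : IsFiniteMeasure (vo (ball 0 r)) := isFiniteMeasure_restrict.2 measure_ball_lt_top.ne
  exact MemLp.of_bound hw.aestronglyMeasurable C
    ((ae_restrict_mem measurableSet_ball).mono fun z hz => hC z (ball_subset_closedBall hz))

theorem sb_smooth {w : ℂ → ℂ} (hw : ContDiff ℝ ∞ w) (r : ℝ) : Sb (ball 0 r) w (fderiv ℝ w) :=
  ⟨fun _ => w, fun _ => hw, fun z => ‖w z‖ + ‖fderiv ℝ w z‖,
    memLp_ball (hw.continuous.norm.add (hw.continuous_fderiv (by simp)).norm) r,
    Eventually.of_forall fun _ => ⟨fun _ => ⟨le_add_of_nonneg_right (norm_nonneg _),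
      le_add_of_nonneg_left (norm_nonneg _)⟩, tendsto_const_nhds, tendsto_const_nhds⟩⟩

theorem eLp_le {f : ℂ → ℂ} {μ : Measure ℂ} {c : ℝ} (hc : 0 ≤ c)
    (h : ∫⁻ z, ‖f z‖ₑ ^ 2 ∂μ ≤ ENNReal.ofReal (c ^ 2)) : eLpNorm f 2 μ ≤ ENNReal.ofReal c := by
  have e := eLpNorm_nnreal_pow_eq_lintegral (f := f) (μ := μ) (p := 2) two_ne_zero
  simp only [ENNReal.coe_ofNat, NNReal.coe_ofNat, ENNReal.rpow_ofNat] at e
  rw [← e, ENNReal.ofReal_pow hc] at h
  exact (ENNReal.pow_le_pow_left_iff two_ne_zero).1 h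

theorem mo_smooth {W : ℂ → ℂ} (hW : MemLp W 2 volume) (n : ℕ) : ContDiff ℝ ∞ (mo n W) :=
  (bp n).hasCompactSupport_normed.contDiff_convolution_left _ (bp n).contDiff_normed
    (hW.locallyIntegrable one_le_two)

/-- differences of the mollification on the small ball -/
theorem mo_diff (mol : MolS) {r R : ℝ} {W : ℂ → ℂ} (hW : MemLp W 2 volume) {n : ℕ}
    (hn : 2 / ((n : ℝ) + 1) ≤ R - r) (h : ℂ) :
    eLpNorm (fun z => mo n W (z + h) - mo n W z) 2 (vo (ball 0 r)) ≤
      eLpNorm (fun z => W (z + h) - W z) 2 (vo (ball 0 R)) := by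
  let G : ℂ → ℂ := indicator (ball 0 R) fun z => W (z + h) - W z
  have hG : MemLp G 2 volume :=
    ((hW.comp_measurePreserving (measurePreserving_add_right volume h)).sub hW).indicator
      measurableSet_ball
  have h1 := (mol ℂ 2 G one_le_two (by simp) hG).1 ((bp n).normed volume)
    (bp n).continuous_normed (bp n).hasCompactSupport_normed
  have h2 : ∫ z, |(bp n).normed volume z| = 1 := by
    simp_rw [abs_of_nonneg ((bp n).nonneg_normed _)]
    exact (bp n).integral_normed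
  rw [h2, ENNReal.ofReal_one, one_mul, eLpNorm_indicator_eq_eLpNorm_restrict measurableSet_ball]
    at h1
  refine le_trans ?_
    ((eLpNorm_mono_measure _ (Measure.restrict_le_self (s := ball 0 r))).trans h1)
  refine (eLpNorm_congr_ae ((ae_restrict_mem measurableSet_ball).mono fun z hz => ?_)).le
  have hx := ((bp n).hasCompactSupport_normed (μ := volume)).convolutionExists_left (μ := volume)
    (ContinuousLinearMap.lsmul ℝ ℝ) (bp n).continuous_normed (hW.locallyIntegrable one_le_two)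
  simp only [mo, convolution_def]
  rw [← integral_sub (hx (z + h)) (hx z)]
  refine integral_congr_ae (Eventually.of_forall fun t => ?_)
  simp only [ContinuousLinearMap.lsmul_apply]
  by_cases ht : (bp n).normed volume t = 0
  · simp [ht]
  · have ht' : t ∈ ball (0 : ℂ) (bp n).rOut := by
      rw [← (bp n).support_normed_eq (μ := volume)]
      exact ht
    have hz' : z - t ∈ ball (0 : ℂ) R := by
      rw [mem_ball_zero_iff] at ht' hz ⊢
      have : ‖t‖ < 2 / ((n : ℝ) + 1) := ht'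
      linarith [norm_sub_le z t]
    simp only [G, indicator_of_mem hz']
    rw [smul_sub, add_sub_right_comm]

/-- the bound for directional derivatives -/
theorem dir_le {w : ℂ → ℂ} (hw : ContDiff ℝ ∞ w) {μ : Measure ℂ} {c τ : ℝ} (hτ : 0 < τ)
    (h : ∀ h : ℂ, ‖h‖ < τ → eLpNorm (fun z => w (z + h) - w z) 2 μ ≤ ENNReal.ofReal (c * ‖h‖))
    {e : ℂ} (he : ‖e‖ = 1) : eLpNorm (fun z => fderiv ℝ w z e) 2 μ ≤ ENNReal.ofReal c := by
  refine Lp.eLpNorm_le_of_ae_tendsto (u := 𝓝[>] (0 : ℝ))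
    (f := fun t z => t⁻¹ • (w (z + t • e) - w z)) ?_ (fun t => ?_) (Eventually.of_forall fun z => ?_)
  · filter_upwards [Ioo_mem_nhdsGT hτ] with t ht
    have hn : ‖t • e‖ = t := by rw [norm_smul, he, mul_one, Real.norm_of_nonneg ht.1.le]
    have h1 := h (t • e) (by rw [hn]; exact ht.2)
    have h2 := eLpNorm_le_mul_eLpNorm_of_ae_le_mul (μ := μ) (c := t⁻¹)
      (f := fun z => t⁻¹ • (w (z + t • e) - w z)) (g := fun z => w (z + t • e) - w z)
      (Eventually.of_forall fun z => by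
        rw [norm_smul, Real.norm_of_nonneg (inv_pos.2 ht.1).le]) 2
    refine h2.trans ((mul_le_mul_right h1 _).trans_eq ?_)
    rw [← ENNReal.ofReal_mul (inv_pos.2 ht.1).le, hn]
    congr 1
    field_simp [ht.1.ne']
  · exact (((hw.continuous.comp (continuous_id.add continuous_const)).sub
      hw.continuous).const_smul t⁻¹).aestronglyMeasurable
  · exact ((hw.differentiable (by simp) z).hasFDerivAt.hasLineDerivAt e).tendsto_slope_zero_right

theorem norm_le_add (N : M2) : ‖N‖ ≤ ‖N 1‖ + ‖N I‖ :=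
  abs_le_of_sq_le_sq' ((sq_norm_le N).trans (by nlinarith [norm_nonneg (N 1), norm_nonneg (N I)]))
    (by positivity) |>.2

/-- smooth approximations with bounded derivatives -/
theorem approx (mol : MolS) {r R R' : ℝ} {V : ℂ → ℂ} (h1 : r < R) (h2 : R < R')
    (hV : MemLp V 2 (vo (ball 0 R'))) (hq : Dq R V) : ∃ M : ℝ, 0 ≤ M ∧ ∀ ε : ℝ≥0∞, 0 < ε →
      ∃ w : ℂ → ℂ, ContDiff ℝ ∞ w ∧ eLpNorm (w - V) 2 (vo (ball 0 r)) ≤ ε ∧
        eLpNorm (fderiv ℝ w) 2 (vo (ball 0 r)) ≤ ENNReal.ofReal M := by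
  obtain ⟨C, τ, hτ, hq⟩ := hq
  let W : ℂ → ℂ := indicator (ball 0 R') V
  have hW : MemLp W 2 volume := (memLp_indicator_iff_restrict measurableSet_ball).2 hV
  refine ⟨√C + √C, by positivity, fun ε hε => ?_⟩
  have a1 := (mol ℂ 2 W one_le_two (by simp) hW).2.eventually (ge_mem_nhds hε)
  have a2 : ∀ᶠ n : ℕ in atTop, 2 / ((n : ℝ) + 1) ≤ R - r := by
    have := (tendsto_one_div_add_atTop_nhds_zero_nat (𝕜 := ℝ)).const_mul 2
    rw [mul_zero] at this
    filter_upwards [this.eventually (ge_mem_nhds (sub_pos.2 h1))] with n hn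
    rwa [mul_one_div] at hn
  obtain ⟨n, b1, b2⟩ := (a1.and a2).exists
  have hw := mo_smooth hW n
  refine ⟨mo n W, hw, ?_, ?_⟩
  · refine le_trans (eLpNorm_congr_ae ((ae_restrict_mem measurableSet_ball).mono fun z hz => ?_)).le
      ((eLpNorm_mono_measure _ Measure.restrict_le_self).trans b1)
    simp only [Pi.sub_apply, W, indicator_of_mem (ball_subset_ball (h1.trans h2).le hz)]
  · have key : ∀ h : ℂ, ‖h‖ < min τ (R' - R) →
        eLpNorm (fun z => mo n W (z + h) - mo n W z) 2 (vo (ball 0 r)) ≤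
          ENNReal.ofReal (√C * ‖h‖) := by
      intro h hh
      rw [lt_min_iff] at hh
      refine (mo_diff mol hW b2 h).trans ?_
      have e : (fun z => W (z + h) - W z) =ᵐ[vo (ball 0 R)] fun z => V (z + h) - V z := by
        refine (ae_restrict_mem measurableSet_ball).mono fun z hz => ?_
        have hz' : z + h ∈ ball (0 : ℂ) R' := by
          rw [mem_ball_zero_iff] at hz ⊢
          linarith [norm_add_le z h, hh.2]
        simp only [W, indicator_of_mem hz', indicator_of_mem (ball_subset_ball h2.le hz)]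
      rw [eLpNorm_congr_ae e]
      refine eLp_le (by positivity) ((hq h hh.1).trans (ENNReal.ofReal_le_ofReal ?_))
      rw [mul_pow]
      exact mul_le_mul_of_nonneg_right ((le_max_left C 0).trans_eq Real.sq_sqrt'.symm) (sq_nonneg _)
    have hm := lt_min hτ (sub_pos.2 h2)
    have d1 := dir_le hw hm key (e := 1) norm_one
    have d2 := dir_le hw hm key (e := I) norm_I
    have hc := hw.continuous_fderiv (by simp)
    rw [ENNReal.ofReal_add (Real.sqrt_nonneg _) (Real.sqrt_nonneg _)]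
    refine le_trans ?_ (add_le_add d1 d2)
    rw [← eLpNorm_norm (fun z => fderiv ℝ (mo n W) z 1),
      ← eLpNorm_norm (fun z => fderiv ℝ (mo n W) z I)]
    refine le_trans ?_ (eLpNorm_add_le (hc.clm_apply continuous_const).norm.aestronglyMeasurable
      (hc.clm_apply continuous_const).norm.aestronglyMeasurable one_le_two)
    exact eLpNorm_mono_real fun z => norm_le_add _

end WkA

open WkA in
theorem wk : KitS → MolS → WkS := by
  intro kit mol r R R' V h1 h2 hV hq
  obtain ⟨M, hM0, hM⟩ := approx mol h1 h2 hV hq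
  have hV' : MemLp V 2 (vo (ball 0 r)) :=
    hV.mono_measure (Measure.restrict_mono (ball_subset_ball (h1.trans h2).le) le_rfl)
  let T := toEuclidean (E := M2)
  let S : ℕ → Set (Lp (EuclideanSpace ℝ (Fin (Module.finrank ℝ M2))) 2 (vo (ball 0 r))) := fun n =>
    {p | ∃ w : ℂ → ℂ, ContDiff ℝ ∞ w ∧ eLpNorm (w - V) 2 (vo (ball 0 r)) ≤ (n : ℝ≥0∞)⁻¹ ∧
      p =ᵐ[vo (ball 0 r)] fun z => T (fderiv ℝ w z)}
  refine (mz S (fun n m h p ⟨w, a, b, c⟩ =>
      ⟨w, a, b.trans (ENNReal.inv_le_inv.2 (by exact_mod_cast h)), c⟩) ?_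
      (‖T.toContinuousLinearMap‖ * M) ?_).elim ?_
  rotate_right
  · rintro y ⟨y0, hy, hy0⟩
    choose w hw hw1 hw2 using hy
    refine ⟨fun z => T.symm (y0 z), kit.1 _ w (fun n => fderiv ℝ (w n)) _ _
      (fun n => sb_smooth (hw n) r) hV'.1
      (T.symm.continuous.comp_aestronglyMeasurable (Lp.aestronglyMeasurable y0)) ?_ ?_⟩
    · exact tendsto_of_tendsto_of_tendsto_of_le_of_le tendsto_const_nhds
        ENNReal.tendsto_inv_nat_nhds_zero (fun _ => zero_le) hw1
    · have t := ENNReal.Tendsto.const_mul (a := ENNReal.ofReal ‖T.symm.toContinuousLinearMap‖)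
        ((Lp.tendsto_Lp_iff_tendsto_eLpNorm' y y0).1 hy0) (Or.inr ENNReal.ofReal_ne_top)
      rw [mul_zero] at t
      refine tendsto_of_tendsto_of_tendsto_of_le_of_le tendsto_const_nhds t (fun _ => zero_le)
        fun n => eLpNorm_le_mul_eLpNorm_of_ae_le_mul ((hw2 n).mono fun z hz => ?_) 2
      have := T.symm.toContinuousLinearMap.le_opNorm (y n z - y0 z)
      simpa [hz] using this
  · rintro n p ⟨u, a, b, c⟩ q ⟨v, a', b', c'⟩
    refine ⟨(1 / 2 : ℝ) • (u + v), (a.add a').const_smul (1 / 2 : ℝ), ?_, ?_⟩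
    · have e : (1 / 2 : ℝ) • (u + v) - V = (1 / 2 : ℝ) • ((u - V) + (v - V)) := by module
      rw [e, eLpNorm_const_smul]
      refine (mul_le_mul_right ((eLpNorm_add_le (a.continuous.aestronglyMeasurable.sub hV'.1)
        (a'.continuous.aestronglyMeasurable.sub hV'.1) one_le_two).trans (add_le_add b b')) _).trans_eq
        ?_
      rw [← two_mul, ← mul_assoc]
      have : ‖(1 / 2 : ℝ)‖ₑ * 2 = 1 := by
        rw [Real.enorm_eq_ofReal (by norm_num), ← ENNReal.ofReal_ofNat 2,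
          ← ENNReal.ofReal_mul (by norm_num)]
        norm_num
      rw [this, one_mul]
    · filter_upwards [Lp.coeFn_smul (1 / 2 : ℝ) (p + q), Lp.coeFn_add p q, c, c'] with z e1 e2 e3 e4
      have du := a.differentiable (by simp) z
      have dv := a'.differentiable (by simp) z
      rw [e1, Pi.smul_apply, e2, Pi.add_apply, e3, e4, fderiv_const_smul (du.add dv),
        fderiv_add du dv, map_smul, map_add]
  · intro n
    obtain ⟨w, a, b, c⟩ := hM (n : ℝ≥0∞)⁻¹ (ENNReal.inv_pos.2 (ENNReal.natCast_ne_top n))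
    have m : MemLp (fun z => T (fderiv ℝ w z)) 2 (vo (ball 0 r)) :=
      memLp_ball (T.continuous.comp (a.continuous_fderiv (by simp))) r
    refine ⟨m.toLp _, ⟨w, a, b, m.coeFn_toLp⟩, ?_⟩
    rw [Lp.norm_toLp]
    refine ENNReal.toReal_le_of_le_ofReal (by positivity) ?_
    rw [ENNReal.ofReal_mul (norm_nonneg T.toContinuousLinearMap)]
    exact (eLpNorm_le_mul_eLpNorm_of_ae_le_mul (Eventually.of_forall fun z =>
      T.toContinuousLinearMap.le_opNorm (fderiv ℝ w z)) 2).trans (mul_le_mul_right c _)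

end Pool.Agent.MP_815c6c_an.P

end MrgPart4

-- marker of a merged file
example : 731051 + 866119 = 731051 + 866119 := rfl
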