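import Mathlib.MeasureTheory.Function.L2Space
import Pool.Agent.MP_815c6c_an.P.Basic

/-! Planar p-harmonic functions: regularity above the critical power, linear decay. -/

set_option autoImplicit false

namespace Pool.Agent.MP_815c6c_an.P

open Set Metric MeasureTheory Filter Topology Complex
open scoped ContDiff ENNReal ComplexConjugate

namespace Dec

variable {x : ℂ} {r ρ : ℝ}

theorem emb (x : ℂ) (hr : 0 < r) : MeasurableEmbedding fun z : ℂ => x + r * z :=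
  ((Homeomorph.mulLeft₀ (r : ℂ) (ofReal_ne_zero.2 hr.ne')).trans
    (Homeomorph.addLeft x)).measurableEmbedding

theorem mem_sc (hr : 0 < r) {z : ℂ} : x + r * z ∈ ball x (r * ρ) ↔ z ∈ ball (0 : ℂ) ρ := by
  simp [abs_of_pos hr, hr]

theorem map_sc (x : ℂ) (hr : 0 < r) (ρ : ℝ) : ∃ c : ℝ≥0∞, c ≠ 0 ∧ c ≠ ⊤ ∧
    (vo (ball 0 ρ)).map (fun z : ℂ => x + r * z) = c • vo (ball x (r * ρ)) := by
  refine ⟨ENNReal.ofReal |(r ^ Module.finrank ℝ ℂ)⁻¹|, by simp [hr.ne'], ENNReal.ofReal_ne_top, ?_⟩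
  have e : (volume : Measure ℂ).map (fun z : ℂ => x + r * z) =
      ENNReal.ofReal |(r ^ Module.finrank ℝ ℂ)⁻¹| • volume := by
    rw [show (fun z : ℂ => x + r * z) = (fun z => x + z) ∘ (fun z : ℂ => r • z) from rfl,
      ← Measure.map_map (by fun_prop) (by fun_prop), Measure.map_addHaar_smul _ hr.ne',
      Measure.map_smul, map_add_left_eq_self]
  rw [vo, vo, ← Measure.restrict_smul, ← e, (emb x hr).restrict_map]
  congr 2
  exact (Set.ext fun z => mem_sc hr).symm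

theorem avg_sc {E : Type} [NormedAddCommGroup E] [NormedSpace ℝ E] (hr : 0 < r) (g : ℂ → E) :
    ⨍ w in ball x (r * ρ), g w = ⨍ z in ball (0 : ℂ) ρ, g (x + r * z) := by
  obtain ⟨c, c0, c1, e⟩ := map_sc x hr ρ
  have a := (emb x hr).integral_map (μ := vo (ball 0 ρ)) g
  have b : (vo (ball 0 ρ)).real univ = c.toReal * (vo (ball x (r * ρ))).real univ := by
    rw [← measureReal_ennreal_smul_apply, ← e, map_measureReal_apply (emb x hr).measurable .univ,
      preimage_univ]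
  rw [average_eq, average_eq, ← a, e, b, integral_smul_measure, smul_smul]
  congr 1
  have := ENNReal.toReal_ne_zero.2 ⟨c0, c1⟩
  field_simp

theorem osc_sc (hr : 0 < r) (f : ℂ → ℂ) :
    osc f x (r * ρ) = osc (fun z => f (x + r * z)) 0 ρ := by
  rw [osc, osc, avg_sc hr, avg_sc hr]

theorem lint {μ : Measure ℂ} {f : ℂ → ℂ} (h : MemLp f 2 μ) :
    ∫⁻ z, ‖f z‖ₑ ^ 2 ∂μ = ENNReal.ofReal (√(∫ z, ‖f z‖ ^ 2 ∂μ) ^ 2) := by
  rw [Real.sq_sqrt (integral_nonneg fun _ => sq_nonneg _), ofReal_integral_eq_lintegral_ofReal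
    ((memLp_two_iff_integrable_sq_norm h.1).1 h) (ae_of_all _ fun _ => sq_nonneg _)]
  simp [ENNReal.ofReal_pow]

instance fin (x : ℂ) (ρ : ℝ) : IsFiniteMeasure (vo (ball x ρ)) :=
  isFiniteMeasure_restrict.2 measure_ball_lt_top.ne

theorem sq_int {μ : Measure ℂ} [IsFiniteMeasure μ] {f : ℂ → ℂ} (h : MemLp f 2 μ) (c : ℂ) :
    Integrable (fun z => ‖f z - c‖ ^ 2) μ :=
  have := h.sub (memLp_const c)
  (memLp_two_iff_integrable_sq_norm this.1).1 this

theorem var_le {μ : Measure ℂ} [IsFiniteMeasure μ] {f : ℂ → ℂ} (h : MemLp f 2 μ) (c : ℂ) :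
    ∫ z, ‖f z - ⨍ y, f y ∂μ‖ ^ 2 ∂μ ≤ ∫ z, ‖f z - c‖ ^ 2 ∂μ := by
  set m := ⨍ y, f y ∂μ
  have i1 : Integrable (fun z => f z - m) μ := (h.integrable one_le_two).sub (integrable_const m)
  have z0 : ∫ z, inner ℝ (m - c) (f z - m) ∂μ = 0 := by
    rw [integral_inner i1, integral_sub_average, inner_zero_right]
  have : ∫ z, (‖f z - m‖ ^ 2 + 2 * inner ℝ (m - c) (f z - m)) ∂μ ≤ ∫ z, ‖f z - c‖ ^ 2 ∂μ := by
    refine integral_mono ((sq_int h m).add ((i1.const_inner _).const_mul 2)) (sq_int h c)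
      fun z => ?_
    have := norm_add_sq_real (m - c) (f z - m)
    rw [show m - c + (f z - m) = f z - c by ring] at this
    simp only
    nlinarith [sq_nonneg ‖m - c‖]
  rwa [integral_add (sq_int h m) ((i1.const_inner _).const_mul 2), integral_const_mul, z0,
    mul_zero, add_zero] at this

theorem vol_pos (x : ℂ) (h : 0 < ρ) : 0 < volume.real (ball x ρ) :=
  ENNReal.toReal_pos (measure_ball_pos _ _ h).ne' measure_ball_lt_top.ne

theorem osc_le {f : ℂ → ℂ} {B : ℝ} (hρ : 0 < ρ) (h : MemLp f 2 (vo (ball x ρ))) (c : ℂ)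
    (hB : 0 ≤ B) (b : ∫ z in ball x ρ, ‖f z - c‖ ^ 2 ≤ volume.real (ball x ρ) * B ^ 2) :
    osc f x ρ ≤ B := by
  refine Real.sqrt_le_iff.2 ⟨hB, ?_⟩
  rw [setAverage_eq, smul_eq_mul, inv_mul_le_iff₀ (vol_pos x hρ)]
  exact (var_le h c).trans b

theorem osc_sq (f : ℂ → ℂ) (hρ : 0 < ρ) : ∫ z in ball x ρ, ‖f z - ⨍ y in ball x ρ, f y‖ ^ 2 =
    volume.real (ball x ρ) * osc f x ρ ^ 2 := by
  rw [osc, setAverage_eq _ (fun z => ‖f z - _‖ ^ 2), smul_eq_mul, Real.sq_sqrt (mul_nonneg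
    (inv_nonneg.2 measureReal_nonneg) (integral_nonneg fun _ => sq_nonneg _)),
    mul_inv_cancel_left₀ (vol_pos x hρ).ne']

theorem strict (pow : PowS) {a K : ℝ} (ha : 0 < a) {F : ℂ → ℂ}
    (hF : ∀ x y, ‖F x - F y‖ ≤ K * ‖x - y‖) {z : ℂ}
    (h : F z ≠ 0 → ∃ N : M2, HasStrictFDerivAt F N z) :
    ∃ N : M2, HasStrictFDerivAt (fun w => pw a (F w)) N z := by
  by_cases c : F z = 0
  · obtain ⟨C, C0, hC⟩ := pow.2.2.2.2.2.1 a ha.le
    have ct : Continuous F := (LipschitzWith.of_dist_le' (K := K) fun x y => by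
      simpa only [dist_eq_norm] using hF x y).continuous
    refine ⟨0, .of_isLittleO ?_⟩
    have t : Tendsto (fun p : ℂ × ℂ => C * K * (‖F p.1‖ + ‖F p.2‖) ^ a) (𝓝 (z, z)) (𝓝 0) := by
      have : Continuous fun p : ℂ × ℂ => C * K * (‖F p.1‖ + ‖F p.2‖) ^ a :=
        continuous_const.mul (Continuous.rpow_const (by fun_prop) fun _ => Or.inr ha.le)
      simpa [c, Real.zero_rpow ha.ne'] using this.tendsto (z, z)
    refine Asymptotics.isLittleO_iff.2 fun η hη => ?_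
    filter_upwards [t.eventually (gt_mem_nhds hη)] with p hp
    have := mul_le_mul_of_nonneg_left (hF p.1 p.2)
      (Real.rpow_nonneg (add_nonneg (norm_nonneg (F p.1)) (norm_nonneg (F p.2))) a)
    simp only [zero_apply, sub_zero]
    nlinarith [(hC (F p.1) (F p.2)).1, norm_nonneg (p.1 - p.2)]
  · obtain ⟨N, hN⟩ := h c
    exact ⟨_, ((pow.2.2.2.1 a).contDiffAt (isOpen_compl_singleton.mem_nhds c)
      |>.hasStrictFDerivAt (by simp)).comp z hN⟩

theorem low {a C κ O : ℝ} (ha : 0 ≤ a) (hO : 0 ≤ O) (C0 : 0 < C)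
    (k : κ ^ 2 * volume.real (ball (0 : ℂ) 4) = 1 / 2)
    (hC : ∀ x y : ℂ, (‖x‖ + ‖y‖) ^ a * ‖x - y‖ ≤ C * ‖pw a x - pw a y‖) {G : ℂ → ℂ} {c : ℂ}
    (m1 : MemLp G 2 (vo (ball 0 4))) (m2 : MemLp (fun z => pw a (G z)) 2 (vo (ball 0 4)))
    (b : 2 * ∫ z in ball 0 4, ‖pw a (G z) - pw a c‖ ^ 2 ≤ O ^ 2) {E : ℝ}
    (hE : E = √(∫ z in ball 0 4, ‖G z - c‖ ^ 2)) : max ‖c‖ (κ * E) ^ a * E ≤ C * O := by
  have E2 : E ^ 2 = ∫ z in ball 0 4, ‖G z - c‖ ^ 2 :=
    hE ▸ Real.sq_sqrt (integral_nonneg fun _ => sq_nonneg _)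
  have S0 : 0 ≤ max ‖c‖ (κ * E) := le_max_of_le_left (norm_nonneg _)
  have T0 := Real.rpow_nonneg S0 a
  have pt : ∀ z, (max ‖c‖ (κ * E) ^ a) ^ 2 * ‖G z - c‖ ^ 2 ≤
      (max ‖c‖ (κ * E) ^ a) ^ 2 * (κ * E) ^ 2 + C ^ 2 * ‖pw a (G z) - pw a c‖ ^ 2 := fun z => by
    rcases le_total ‖G z - c‖ (κ * E) with h | h
    · exact le_add_of_le_of_nonneg (mul_le_mul_of_nonneg_left
        (pow_le_pow_left₀ (norm_nonneg _) h 2) (sq_nonneg _)) (by positivity)
    · have := (mul_le_mul_of_nonneg_right (Real.rpow_le_rpow S0 (max_le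
        (le_add_of_nonneg_left (norm_nonneg (G z))) (h.trans (norm_sub_le _ _))) ha)
        (norm_nonneg (G z - c))).trans (hC _ _)
      rw [← mul_pow, ← mul_pow C]
      exact le_add_of_nonneg_of_le (by positivity) (pow_le_pow_left₀ (by positivity) this 2)
  have := integral_mono ((sq_int m1 c).const_mul _)
    ((integrable_const _).add ((sq_int m2 (pw a c)).const_mul _)) pt
  rw [integral_add' (integrable_const _) ((sq_int m2 (pw a c)).const_mul _), integral_const_mul,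
    integral_const, integral_const_mul, ← E2, measureReal_restrict_apply_univ, smul_eq_mul] at this
  refine abs_le_of_sq_le_sq' ?_ (by positivity) |>.2
  generalize max ‖c‖ (κ * E) ^ a = T at *
  have e : volume.real (ball (0 : ℂ) 4) * (T ^ 2 * (κ * E) ^ 2) = T ^ 2 * E ^ 2 / 2 := by
    linear_combination T ^ 2 * E ^ 2 * k
  nlinarith [mul_le_mul_of_nonneg_left b (sq_nonneg C)]

theorem dec8 (pow : PowS) (core : CoreS) {ε a : ℝ} (hε : |ε| < 1 / 3) (ha : 0 ≤ a) :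
    ∃ c : ℝ, ∀ G : ℂ → ℂ, Wk ε (ball 0 8) G → MemLp (fun z => pw a (G z)) 2 (vo (ball 0 8)) →
      ∀ θ ∈ Ioc (0 : ℝ) 1,
        osc (fun z => pw a (G z)) 0 (θ * 8) ≤ c * θ * osc (fun z => pw a (G z)) 0 8 := by
  obtain ⟨C, C0, hC⟩ := pow.2.2.2.2.2.1 a ha
  obtain ⟨L, L0, hL⟩ := core ε hε
  have V4 := vol_pos (0 : ℂ) (show (0 : ℝ) < 4 by norm_num)
  have V8 := vol_pos (0 : ℂ) (show (0 : ℝ) < 8 by norm_num)
  have Vh := vol_pos (0 : ℂ) (show (0 : ℝ) < 1 / 2 by norm_num)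
  obtain ⟨κ, κ0, hκ⟩ : ∃ κ : ℝ, 0 < κ ∧ κ ^ 2 * volume.real (ball (0 : ℂ) 4) = 1 / 2 :=
    ⟨√(1 / (2 * volume.real (ball (0 : ℂ) 4))), by positivity, by
      rw [Real.sq_sqrt (by positivity)]; field_simp⟩
  obtain ⟨u, u0, hu⟩ : ∃ u : ℝ, 0 < u ∧ u ^ 2 = 2 * volume.real (ball (0 : ℂ) 8) :=
    ⟨√_, by positivity, Real.sq_sqrt (by positivity)⟩
  obtain ⟨v, v0, hv⟩ : ∃ v : ℝ, 0 < v ∧ v ^ 2 = (volume.real (ball (0 : ℂ) (1 / 2)))⁻¹ :=
    ⟨√_, by positivity, Real.sq_sqrt (by positivity)⟩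
  obtain ⟨K, hK⟩ : ∃ K, K = C * (2 * (1 + (v + L) / κ)) ^ a * L * (C * u) := ⟨_, rfl⟩
  have K0 : 0 ≤ K := by rw [hK]; positivity
  refine ⟨8 * K + 16 * (u * v), fun G W hX θ hθ => ?_⟩
  have θ0 := hθ.1
  have sub : ∀ {ρ : ℝ}, ρ ≤ 8 → vo (ball (0 : ℂ) ρ) ≤ vo (ball 0 8) := fun h =>
    Measure.restrict_mono (ball_subset_ball h) le_rfl
  have hX' := hX.mono_measure (sub (show θ * 8 ≤ 8 by linarith [hθ.2]))
  have o2 := osc_sq (x := 0) (fun z => pw a (G z)) (show (0 : ℝ) < 8 by norm_num)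
  have O0 : 0 ≤ osc (fun z => pw a (G z)) 0 8 := Real.sqrt_nonneg _
  generalize osc (fun z => pw a (G z)) 0 8 = O at *
  set m := ⨍ y in ball (0 : ℂ) 8, pw a (G y)
  have bd : ∀ {ρ : ℝ}, ρ ≤ 8 → 2 * ∫ z in ball 0 ρ, ‖pw a (G z) - m‖ ^ 2 ≤ (u * O) ^ 2 := fun h => by
    have := integral_mono_measure (sub h) (ae_of_all _ fun _ => sq_nonneg _) (sq_int hX m)
    rw [mul_pow, hu]
    linarith
  rcases le_total θ (1 / 16) with h | h
  · obtain ⟨mG, hG⟩ := hL G W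
    have a1 : (0 : ℝ) < 1 + a := by linarith
    have cm : pw a (pw (1 / (1 + a) - 1) m) = m := by
      rw [pow.1 _ _ _ (by linarith [one_div_pos.2 a1]),
        show (a + 1) * (1 / (1 + a) - 1 + 1) - 1 = 0 by field_simp; ring, pw_zero]
    generalize pw (1 / (1 + a) - 1) m = c at cm
    have mc := mG.sub (memLp_const c)
    obtain ⟨F', e, l, -⟩ := hG c _ (Real.sqrt_nonneg _) (lint mc).le
    obtain ⟨E, hE⟩ : ∃ E, E = √(∫ z in ball 0 4, ‖G z - c‖ ^ 2) := ⟨_, rfl⟩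
    have E0 : 0 ≤ E := hE ▸ Real.sqrt_nonneg _
    have lo := low ha (mul_nonneg u0.le O0) C0 hκ (fun x y => (hC x y).2) mG
      (hX.mono_measure (sub (by norm_num))) (cm ▸ bd (by norm_num)) hE
    replace l : ∀ x y, ‖F' x - F' y‖ ≤ L * E * ‖x - y‖ := hE ▸ l
    have s4 : vo (ball (0 : ℂ) (1 / 2)) ≤ vo (ball 0 4) :=
      Measure.restrict_mono (ball_subset_ball (by norm_num)) le_rfl
    obtain ⟨z0, hz0, b0⟩ := exists_le_setAverage (measure_ball_pos volume (0 : ℂ) one_half_pos).ne'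
      measure_ball_lt_top.ne (sq_int ((mG.mono_measure s4).ae_eq e.symm) c)
    have b1 : ‖F' z0 - c‖ ≤ v * E := by
      refine abs_le_of_sq_le_sq' (b0.trans ?_) (by positivity) |>.2
      rw [setAverage_eq, smul_eq_mul, mul_pow, hv, hE,
        Real.sq_sqrt (integral_nonneg fun _ => sq_nonneg _),
        integral_congr_ae (e.mono fun z hz => by rw [hz] : _ =ᵐ[_] fun z => ‖G z - c‖ ^ 2)]
      exact mul_le_mul_of_nonneg_left (integral_mono_measure s4 (ae_of_all _ fun _ => sq_nonneg _)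
        (sq_int mG c)) (by positivity)
    have S1 := le_max_left ‖c‖ (κ * E)
    have S2 : E ≤ max ‖c‖ (κ * E) / κ := (le_div_iff₀' κ0).2 (le_max_right _ _)
    have S0 : 0 ≤ max ‖c‖ (κ * E) := (norm_nonneg _).trans S1
    generalize max ‖c‖ (κ * E) = S at *
    have sup : ∀ z ∈ ball (0 : ℂ) (1 / 2), ‖F' z‖ ≤ (1 + (v + L) / κ) * S := fun z hz => by
      have t1 := norm_add₃_le (a := F' z - F' z0) (b := F' z0 - c) (c := c)
      have t2 : ‖z - z0‖ ≤ 1 := (norm_sub_le _ _).trans (by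
        linarith [mem_ball_zero_iff.1 hz, mem_ball_zero_iff.1 hz0])
      have t3 := (l z z0).trans (mul_le_of_le_one_right (by positivity) t2)
      have t4 := mul_le_mul_of_nonneg_left S2 (add_nonneg v0.le L0)
      rw [show F' z - F' z0 + (F' z0 - c) + c = F' z by ring] at t1
      have : (1 + (v + L) / κ) * S = S + (v + L) * (S / κ) := by ring
      linarith
    have ss : ball (0 : ℂ) (θ * 8) ⊆ ball 0 (1 / 2) := ball_subset_ball (by linarith)
    refine (osc_le (B := K * O * (θ * 8)) (by positivity) hX' (pw a (F' 0)) (by positivity) ?_).trans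
      (by nlinarith [mul_nonneg (mul_pos (mul_pos u0 v0) θ0).le O0])
    refine (integral_mono_ae (sq_int hX' _) (integrable_const ((K * O * (θ * 8)) ^ 2)) ?_).trans_eq
      (by rw [integral_const, measureReal_restrict_apply_univ, smul_eq_mul])
    filter_upwards [ae_restrict_of_ae_restrict_of_subset ss e, ae_restrict_mem measurableSet_ball]
      with z hz mz
    refine pow_le_pow_left₀ (norm_nonneg _) ?_ 2
    have r1 : (‖F' z‖ + ‖F' 0‖) ^ a ≤ (2 * (1 + (v + L) / κ)) ^ a * S ^ a := by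
      rw [← Real.mul_rpow (by positivity) S0]
      exact Real.rpow_le_rpow (by positivity)
        (by linarith [sup z (ss mz), sup 0 (mem_ball_self one_half_pos)]) ha
    have r2 : ‖F' z - F' 0‖ ≤ L * E * (θ * 8) := (l z 0).trans
      (mul_le_mul_of_nonneg_left (mem_ball_iff_norm.1 mz).le (by positivity))
    rw [← hz]
    calc _ ≤ C * ((2 * (1 + (v + L) / κ)) ^ a * S ^ a * (L * E * (θ * 8))) :=
          (hC _ _).1.trans (mul_le_mul_of_nonneg_left
            (mul_le_mul r1 r2 (norm_nonneg _) (by positivity)) C0.le)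
      _ = C * (2 * (1 + (v + L) / κ)) ^ a * L * (θ * 8) * (S ^ a * E) := by ring
      _ ≤ C * (2 * (1 + (v + L) / κ)) ^ a * L * (θ * 8) * (C * (u * O)) :=
          mul_le_mul_of_nonneg_left lo (by positivity)
      _ = _ := by rw [hK]; ring
  · refine (osc_le (B := u * v * O) (by positivity) hX' m (by positivity) ?_).trans
      (by nlinarith [mul_nonneg (mul_pos u0 v0).le O0, mul_nonneg (mul_nonneg K0 θ0.le) O0])
    have t1 : volume.real (ball (0 : ℂ) (1 / 2)) ≤ volume.real (ball (0 : ℂ) (θ * 8)) :=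
      measureReal_mono (ball_subset_ball (by linarith)) measure_ball_lt_top.ne
    have t2 := bd (show θ * 8 ≤ 8 by linarith [hθ.2])
    have t3 : volume.real (ball (0 : ℂ) (1 / 2)) * (u * v * O) ^ 2 = (u * O) ^ 2 := by
      rw [mul_right_comm, mul_pow (u * O), hv]; field_simp
    nlinarith [mul_le_mul_of_nonneg_right t1 (sq_nonneg (u * v * O)), sq_nonneg (u * O)]

end Dec

open Dec

theorem dec : PowS → CoreS → ScaS → DecS := by
  intro pow core sca ε a hε ha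
  obtain ⟨c, hc⟩ := dec8 pow core hε ha
  refine ⟨c, fun F x r r0 W hX θ hθ => ?_⟩
  have r8 : 0 < r / 8 := by positivity
  have e : r = r / 8 * 8 := by ring
  obtain ⟨d, -, d1, k⟩ := map_sc x r8 8
  have := hc _ (sca ε _ (ball 0 8) F x _ r8
    (fun z hz => ball_subset_ball e.ge ((mem_sc r8).2 hz)) W)
    (((emb x r8).memLp_map_measure_iff (g := fun z => pw a (F z))).1
      (by rw [k, ← e]; exact hX.smul_measure d1)) θ hθ
  rwa [← osc_sc r8 fun z => pw a (F z), ← osc_sc r8 fun z => pw a (F z), ← e,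
    show r / 8 * (θ * 8) = θ * r by ring] at this

theorem reg : PowS → CoreS → ScaS → GlueS → RegS := by
  intro pow core sca glue ε a hε ha h U F hU W
  refine glue U _ hU fun x hx => ?_
  obtain ⟨R, R0, hR⟩ := Metric.isOpen_iff.1 hU x hx
  obtain ⟨L, -, hL⟩ := core ε hε
  have r0 : 0 < R / 8 := by positivity
  set r := R / 8
  obtain ⟨m, hm⟩ := hL _ (sca ε U (ball 0 8) F x r r0
    (fun z hz => hR (by rw [show R = r * 8 by ring]; exact (mem_sc r0).2 hz)) W)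
  obtain ⟨F', e, l, d⟩ := hm 0 _ (Real.sqrt_nonneg _) (by simpa using (lint m).le)
  have iv : ∀ z : ℂ, ((r : ℂ)⁻¹ * (x + r * z - x)) = z := fun z => by
    have := ofReal_ne_zero.2 r0.ne'
    field_simp; ring
  refine ⟨r * (1 / 2), by positivity, fun w => pw a (F' ((r : ℂ)⁻¹ * (w - x))), ?_, fun w hw => ?_⟩
  · obtain ⟨c, c0, -, k⟩ := map_sc x r0 (1 / 2)
    rw [EventuallyEq, ← Measure.ae_ennreal_smul_measure_iff c0, ← k, (emb x r0).ae_map_iff]
    filter_upwards [e] with z hz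
    rw [iv, hz]
  · have hz : (r : ℂ)⁻¹ * (w - x) ∈ ball (0 : ℂ) (1 / 2) := by
      rw [← mem_sc (x := x) r0, mul_inv_cancel_left₀ (ofReal_ne_zero.2 r0.ne'), add_sub_cancel]
      exact hw
    have af : HasStrictFDerivAt (fun w : ℂ => (r : ℂ)⁻¹ * (w - x)) _ w :=
      (show ContDiff ℝ 1 fun w : ℂ => (r : ℂ)⁻¹ * (w - x) by fun_prop).contDiffAt.hasStrictFDerivAt
        one_ne_zero
    rcases ha.eq_or_lt with rfl | a0
    · obtain ⟨N, hN⟩ := d _ hz (Or.inr (h.resolve_left (lt_irrefl _)))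
      exact ⟨_, by simpa only [pw_zero] using hN.comp w af⟩
    · obtain ⟨N, hN⟩ := strict pow a0 l fun k => d _ hz (Or.inl k)
      exact ⟨_, HasStrictFDerivAt.comp (g := fun w => pw a (F' w)) w hN af⟩

end Pool.Agent.MP_815c6c_an.P
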