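import Mathlib.Analysis.Complex.ReImTopology
import Mathlib.MeasureTheory.Measure.Lebesgue.Complex
import Mathlib.Analysis.Complex.Isometry
import Mathlib.MeasureTheory.Function.L2Space
import Mathlib.Analysis.Real.Pi.Bounds
import Mathlib.RingTheory.PiTensorProduct
import Mathlib.Topology.Separation.CompletelyRegular
import Pool.Agent.MP_815c6c_an.P.Basic

-- ======== part 0: formerly Pool.Agent.MP_815c6c_an.P.InjA
section MrgPart0

/-! Planar p-harmonic functions: limits and energies for the injectivity lemma. -/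

set_option autoImplicit false

namespace Pool.Agent.MP_815c6c_an.P.Inj

open Set Metric MeasureTheory Filter Topology Complex
open scoped ContDiff ENNReal ComplexConjugate

variable {ρ R η : ℝ} {Ψ Ψ' : ℝ → ℝ}

theorem mem01 (h : Pf ρ R η Ψ Ψ') (s : ℝ) : 0 ≤ Ψ s ∧ Ψ s ≤ 1 := by
  have a : Antitone Ψ := antitone_of_deriv_nonpos (fun s => (h.der s).differentiableAt)
    fun s => by rw [(h.der s).deriv]; exact h.anti s
  exact ⟨h.zero _ (le_max_right s R) ▸ a (le_max_left s R),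
    h.one _ (min_le_right s ρ) ▸ a (min_le_left s ρ)⟩

theorem der0 (h : Pf ρ R η Ψ Ψ') {s : ℝ} (hs : s < ρ) : Ψ' s = 0 :=
  (h.der s).unique ((hasDerivAt_const s (1 : ℝ)).congr_of_eventuallyEq
    ((gt_mem_nhds hs).mono fun t ht => h.one t (le_of_lt ht)))

theorem eta0 (h : Pf ρ R η Ψ Ψ') : 0 ≤ η := by simpa using h.bnd 0

theorem bnd (h : Pf ρ R η Ψ Ψ') (s : ℝ) : |Ψ' s| ≤ η / ρ := by
  rcases lt_or_ge s ρ with a | a
  · rw [der0 h a, abs_zero]
    exact div_nonneg (eta0 h) h.pos.le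
  · rw [abs_of_nonpos (h.anti s), le_div_iff₀ h.pos]
    nlinarith [h.bnd s, h.anti s]

theorem c1 (h : Pf ρ R η Ψ Ψ') : ContDiff ℝ 1 Ψ :=
  contDiff_one_iff_deriv.2 ⟨fun s => (h.der s).differentiableAt,
    (funext fun s => (h.der s).deriv : deriv Ψ = Ψ') ▸ h.cont⟩

theorem grad (h : Pf ρ R η Ψ Ψ') {V : ℂ → ℂ} (hV : ContDiff ℝ ∞ V) :
    ContDiff ℝ 1 (fun z => Ψ (‖V z‖ ^ 2)) ∧ ∀ z, ‖fderiv ℝ (fun z => Ψ (‖V z‖ ^ 2)) z‖ ^ 2 ≤
      4 * η * (-Ψ' (‖V z‖ ^ 2) * ‖fderiv ℝ V z‖ ^ 2) := by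
  refine ⟨(c1 h).comp ((hV.of_le (by simp)).norm_sq ℝ), fun z => ?_⟩
  have d := (h.der _).comp_hasFDerivAt z
    (hV.differentiable (by simp) z).hasFDerivAt.norm_sq
  have e := d.fderiv
  rw [show (fun z => Ψ (‖V z‖ ^ 2)) = Ψ ∘ fun z => ‖V z‖ ^ 2 from rfl, e]
  have a : ‖Ψ' (‖V z‖ ^ 2) • (2 • (innerSL ℝ (V z)).comp (fderiv ℝ V z))‖ ≤
      -Ψ' (‖V z‖ ^ 2) * (2 * (‖V z‖ * ‖fderiv ℝ V z‖)) := by
    rw [norm_smul, Real.norm_eq_abs, abs_of_nonpos (h.anti _)]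
    refine mul_le_mul_of_nonneg_left ((norm_nsmul_le).trans ?_) (neg_nonneg.2 (h.anti _))
    have := (innerSL ℝ (V z)).opNorm_comp_le (fderiv ℝ V z)
    rw [innerSL_apply_norm] at this
    push_cast
    linarith
  refine (pow_le_pow_left₀ (norm_nonneg _) a 2).trans ?_
  have b := mul_le_mul_of_nonneg_right (h.bnd (‖V z‖ ^ 2))
    (mul_nonneg (neg_nonneg.2 (h.anti (‖V z‖ ^ 2))) (sq_nonneg ‖fderiv ℝ V z‖))
  nlinarith

variable {v : ℕ → ℂ → ℂ} {u : ℂ → ℂ} {D : ℂ → M2}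

theorem intg {f : ℂ → ℝ} (hf : Continuous f) {S : Set ℂ} (hS : S ⊆ ball 0 3) : IntegrableOn f S :=
  (hf.continuousOn.integrableOn_compact (isCompact_closedBall 0 3)).mono_set
    (hS.trans ball_subset_closedBall)

theorem cq (hv : ∀ n, ContDiff ℝ ∞ (v n)) {q : ℂ × ℂ × M2 → ℝ} (hq : Continuous q) (n : ℕ) :
    Continuous fun z => q (z, v n z, fderiv ℝ (v n) z) :=
  hq.comp (continuous_id.prodMk ((hv n).continuous.prodMk ((hv n).continuous_fderiv (by simp))))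

theorem conv (hv : ∀ n, ContDiff ℝ ∞ (v n))
    (hd : Dom (ball 0 3) v (fun n => fderiv ℝ (v n)) u D) {q : ℂ × ℂ × M2 → ℝ} (hq : Continuous q)
    {C : ℝ} (hC : ∀ z w N, |q (z, w, N)| ≤ C * (1 + ‖N‖ ^ 2)) {S : Set ℂ} (hS : S ⊆ ball 0 3) :
    IntegrableOn (fun z => q (z, u z, D z)) S ∧
    Tendsto (fun n => ∫ z in S, q (z, v n z, fderiv ℝ (v n) z)) atTop
      (𝓝 (∫ z in S, q (z, u z, D z))) := by
  obtain ⟨g, hg, h⟩ := hd
  have C0 : 0 ≤ C := by simpa using (abs_nonneg _).trans (hC 0 0 0)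
  have i : IntegrableOn (fun z => C * (1 + g z ^ 2)) S :=
    IntegrableOn.mono_set (((integrableOn_const measure_ball_lt_top.ne).add
      hg.integrable_sq).const_mul C) hS
  have h' := ae_restrict_of_ae_restrict_of_subset hS h
  have b : ∀ n, ∀ᵐ z ∂vo S, ‖q (z, v n z, fderiv ℝ (v n) z)‖ ≤ C * (1 + g z ^ 2) := fun n =>
    h'.mono fun z a => (hC _ _ _).trans (by have := (a.1 n).2; gcongr)
  have l : ∀ᵐ z ∂vo S, Tendsto (fun n => q (z, v n z, fderiv ℝ (v n) z)) atTop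
      (𝓝 (q (z, u z, D z))) := h'.mono fun z a =>
    (hq.tendsto _).comp (tendsto_const_nhds.prodMk_nhds (a.2.1.prodMk_nhds a.2.2))
  have m := fun n => (cq hv hq n).aestronglyMeasurable (μ := vo S)
  refine ⟨i.mono' (aestronglyMeasurable_of_tendsto_ae atTop m l) ?_,
    tendsto_integral_of_dominated_convergence _ m i b l⟩
  filter_upwards [ae_all_iff.2 b, l] with z a c using le_of_tendsto' c.norm a

theorem small (hv : ∀ n, ContDiff ℝ ∞ (v n))
    (hd : Dom (ball 0 3) v (fun n => fderiv ℝ (v n)) u D) {q : ℂ × ℂ × M2 → ℝ} (hq : Continuous q)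
    {C : ℝ} (hC : ∀ z w N, |q (z, w, N)| ≤ C * (1 + ‖N‖ ^ 2))
    (h0 : ∀ᵐ z ∂vo (ball 0 3), q (z, u z, D z) ≤ 0) {ε : ℝ} (hε : 0 < ε) :
    ∀ᶠ n in atTop, ∀ S ⊆ ball 0 3, ∫ z in S, q (z, v n z, fderiv ℝ (v n) z) ≤ ε := by
  have hq' : Continuous fun x => max (q x) 0 := hq.max continuous_const
  have l := (conv hv hd hq' (C := C) (fun z w N => le_trans (by
    rw [abs_of_nonneg (le_max_right _ _)]
    exact max_le (le_abs_self _) (abs_nonneg _)) (hC z w N)) Subset.rfl).2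
  rw [integral_congr_ae (g := fun _ => 0) (h0.mono fun z a => max_eq_right a), integral_zero] at l
  filter_upwards [l.eventually (gt_mem_nhds hε)] with n hn S hS
  refine le_trans (integral_mono (intg (cq hv hq n) hS) (intg (cq hv hq' n) hS)
    fun z => le_max_left _ _) (le_trans ?_ hn.le)
  exact setIntegral_mono_set (intg (cq hv hq' n) Subset.rfl)
    (Eventually.of_forall fun z => le_max_right _ _) hS.eventuallyLE

/-- the energy of a cutoff is bounded by the angle integral -/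
theorem energy (hv : ∀ n, ContDiff ℝ ∞ (v n))
    (hd : Dom (ball 0 3) v (fun n => fderiv ℝ (v n)) u D) {K : ℝ} (hK : 0 ≤ K)
    (hQ : ∀ᵐ z ∂vo (ball 0 3), Qr K (D z)) (h : Pf ρ R η Ψ Ψ') (y : ℂ) {ε : ℝ} (hε : 0 < ε) :
    ∀ᶠ n in atTop, ∀ S ⊆ ball 0 3,
      ∫ z in S, ‖fderiv ℝ (fun z => Ψ (‖v n z - y‖ ^ 2)) z‖ ^ 2 ≤ 2 * η * K *
        (∫ z in S, -2 * Ψ' (‖v n z - y‖ ^ 2) * jac (fderiv ℝ (fun z => v n z - y) z)) + ε ∧
      -ε ≤ ∫ z in S, -2 * Ψ' (‖v n z - y‖ ^ 2) * jac (fderiv ℝ (fun z => v n z - y) z) := by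
  have c := h.cont
  have cj := continuous_jac
  have e0 := eta0 h
  have b0 : 0 ≤ η / ρ := div_nonneg e0 h.pos.le
  have c1 : Continuous fun x : ℂ × ℂ × M2 => 4 * η * (-Ψ' (‖x.2.1 - y‖ ^ 2) * ‖x.2.2‖ ^ 2) := by
    fun_prop
  have c2 : Continuous fun x : ℂ × ℂ × M2 => -2 * Ψ' (‖x.2.1 - y‖ ^ 2) * jac x.2.2 := by fun_prop
  have b1 : ∀ (s : ℝ) (N : M2), |4 * η * (-Ψ' s * ‖N‖ ^ 2)| ≤ 4 * η * (η / ρ) * (1 + ‖N‖ ^ 2) := by
    intro s N
    rw [abs_mul, abs_mul (-Ψ' s), abs_neg, abs_of_nonneg (by positivity),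
      abs_of_nonneg (sq_nonneg ‖N‖), mul_assoc (4 * η)]
    have := bnd h s
    gcongr
    linarith
  have b2 : ∀ (s : ℝ) (N : M2), |-2 * Ψ' s * jac N| ≤ 2 * (η / ρ) * (1 + ‖N‖ ^ 2) := by
    intro s N
    rw [abs_mul, abs_mul, abs_neg, abs_two]
    have := bnd h s
    have := abs_jac_le N
    gcongr
    linarith
  filter_upwards [small hv hd (c1.sub (c2.const_mul (2 * η * K)))
    (C := 4 * η * (η / ρ) + 2 * η * K * (2 * (η / ρ))) (fun z w N => by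
      refine (abs_sub _ _).trans ?_
      rw [add_mul, abs_mul (2 * η * K), abs_of_nonneg (show 0 ≤ 2 * η * K by positivity),
        mul_assoc (2 * η * K)]
      exact add_le_add (b1 _ _) (mul_le_mul_of_nonneg_left (b2 _ _) (by positivity)))
    (hQ.mono fun z a => by
      have := mul_le_mul_of_nonneg_left a
        (mul_nonneg e0 (neg_nonneg.2 (h.anti (‖u z - y‖ ^ 2))))
      simp only [Pi.sub_apply]
      nlinarith) hε, small hv hd c2.neg (C := 2 * (η / ρ))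
    (fun z w N => by rw [Pi.neg_apply, abs_neg]; exact b2 _ _) (hQ.mono fun z a => by
      have j : 0 ≤ jac (D z) := by
        rcases hK.eq_or_lt with rfl | hK
        · have : D z = 0 := by simpa [Qr] using a
          simp [this, jac]
        · exact a.jac_nonneg hK
      have := mul_nonneg (neg_nonneg.2 (h.anti (‖u z - y‖ ^ 2))) j
      simp only [Pi.neg_apply]
      linarith) hε] with n h1 h2 S hS
  have g := grad h ((hv n).sub (contDiff_const (c := y)))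
  simp only [fderiv_sub_const] at g ⊢
  have h1 := h1 S hS
  have h2 := h2 S hS
  simp only [Pi.sub_apply, Pi.neg_apply] at h1 h2
  have i1 := intg (cq hv c1 n) hS
  have i2 := (intg (cq hv c2 n) hS).const_mul (2 * η * K)
  dsimp only at i1 i2
  rw [integral_sub i1 i2, integral_const_mul (2 * η * K)] at h1
  rw [integral_neg] at h2
  refine ⟨le_trans (integral_mono (intg ((g.1.continuous_fderiv one_ne_zero).norm.pow 2) hS)
    (intg (cq hv c1 n) hS) g.2) (by linarith), by linarith⟩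

theorem Rc_sub {a b c d : ℝ} (ha : -2 ≤ a) (hb : b ≤ 2) (hc : -2 ≤ c) (hd : d ≤ 2) :
    Rc a b c d ⊆ ball 0 3 := fun z hz => by
  obtain ⟨⟨h1, h2⟩, h3, h4⟩ := mem_reProdIm.1 hz
  rw [mem_ball_zero_iff, ← sq_lt_sq₀ (norm_nonneg _) (by norm_num), Complex.sq_norm, normSq_apply]
  nlinarith

theorem pick (t a : ℝ) : ∃ a' ∈ Icc a (a + 1 / 2), ∀ x ∈ Icc a' (a' + 1 / 4), 1 / 8 ≤ |x - t| := by
  rcases le_total t (a + 3 / 8) with h | h
  · exact ⟨a + 1 / 2, ⟨by linarith, le_rfl⟩, fun x hx => le_abs.2 (Or.inl (by linarith [hx.1]))⟩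
  · exact ⟨a, ⟨le_rfl, by linarith⟩, fun x hx => le_abs.2 (Or.inr (by linarith [hx.2]))⟩

theorem split {f : ℂ → ℝ} (hf : Continuous f) {a x b c d : ℝ} (h1 : a ≤ x) (h2 : x ≤ b)
    (hS : Rc a b c d ⊆ ball 0 3) :
    ∫ z in Rc a b c d, f z = (∫ z in Rc a x c d, f z) + ∫ z in Rc x b c d, f z := by
  have e : Rc a b c d = Rc a x c d ∪ Rc x b c d := by
    ext z
    rw [mem_union, Rc, Rc, Rc, mem_reProdIm, mem_reProdIm, mem_reProdIm, ← or_and_right,
      ← mem_union, Icc_union_Icc_eq_Icc h1 h2]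
  have n : volume {z : ℂ | z.re = x} = 0 := by
    have := Complex.volume_preserving_equiv_real_prod.measure_preimage (s := {x} ×ˢ univ)
      ((measurableSet_singleton x).prod MeasurableSet.univ).nullMeasurableSet
    rw [Measure.volume_eq_prod, Measure.prod_prod, Real.volume_singleton, zero_mul] at this
    rw [← this]
    congr 1
    ext z
    simp
  rw [e] at hS ⊢
  exact setIntegral_union₀ (measure_mono_null (fun z hz => le_antisymm
    (mem_reProdIm.1 hz.1).1.2 (mem_reProdIm.1 hz.2).1.1) n)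
    (isClosed_Icc.reProdIm isClosed_Icc).measurableSet.nullMeasurableSet
    (intg hf (subset_union_left.trans hS)) (intg hf (subset_union_right.trans hS))

end Pool.Agent.MP_815c6c_an.P.Inj

end MrgPart0

-- ======== part 1: formerly Pool.Agent.MP_815c6c_an.P.Inj
section MrgPart1

/-! Planar p-harmonic functions: a quasiregular map near the identity is injective. -/

set_option autoImplicit false

namespace Pool.Agent.MP_815c6c_an.P

open Set Metric MeasureTheory Filter Topology Complex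
open scoped ContDiff ENNReal ComplexConjugate

namespace Inj

variable {v : ℕ → ℂ → ℂ} {u : ℂ → ℂ} {D : ℂ → M2}

/-- the outer rectangle -/
theorem outer (line : LineS) : ∃ δ : ℝ, 0 < δ ∧ ∀ (v : ℕ → ℂ → ℂ) (u : ℂ → ℂ) (D : ℂ → M2),
    (∀ n, ContDiff ℝ ∞ (v n)) → Dom (ball 0 3) v (fun n => fderiv ℝ (v n)) u D →
    ∫⁻ z in {z | z ∈ ball 0 3 ∧ δ < ‖u z - z‖}, (1 + ‖D z - ml 1‖ₑ ^ 2) ≤ ENNReal.ofReal δ →
    ∀ y : ℂ, ∀ᶠ n in atTop, ∃ a ∈ Icc (-2 : ℝ) (-1), ∃ b ∈ Icc (1 : ℝ) 2, ∃ c ∈ Icc (-2 : ℝ) (-1),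
      ∃ d ∈ Icc (1 : ℝ) 2, ∀ z ∈ Bd a b c d, ‖v n z - z‖ < 1 / 32 ∧ 1 / 8 ≤ ‖z - y‖ := by
  obtain ⟨ρ, Ψ, Ψ', h⟩ := line.2 ((1 / 32) ^ 2) 1 (by norm_num) one_pos
  have hρ := h.pos
  obtain ⟨δ, hδ, d1, d2⟩ : ∃ δ : ℝ, 0 < δ ∧ δ ^ 2 < ρ ∧ (1 + 4 / ρ) * δ < 1 / 34 := by
    have a : ∀ᶠ δ : ℝ in 𝓝 0, δ ^ 2 < ρ :=
      ((continuous_pow 2).tendsto' 0 0 (by simp)).eventually (gt_mem_nhds hρ)
    have b : ∀ᶠ δ : ℝ in 𝓝 0, (1 + 4 / ρ) * δ < 1 / 34 :=
      ((continuous_const_mul _).tendsto' 0 0 (by simp)).eventually (gt_mem_nhds (by norm_num))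
    obtain ⟨δ, k, l⟩ := (((a.and b).filter_mono nhdsWithin_le_nhds).and
      (self_mem_nhdsWithin (s := Ioi 0))).exists
    exact ⟨δ, l, k⟩
  refine ⟨δ, hδ, fun v u D hv hd hb y => ?_⟩
  have c := h.cont
  have c' := (c1 h).continuous
  let q : ℂ × ℂ × M2 → ℝ := fun x => (1 - Ψ (‖x.2.1 - x.1‖ ^ 2)) ^ 2 +
    4 * 1 * (-Ψ' (‖x.2.1 - x.1‖ ^ 2) * ‖x.2.2 - ml 1‖ ^ 2)
  have cq' : Continuous q := by fun_prop
  have q0 : ∀ x, 0 ≤ q x := fun x => by
    have := neg_nonneg.2 (h.anti (‖x.2.1 - x.1‖ ^ 2))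
    positivity
  have q1 : ∀ x, q x ≤ (1 + 4 / ρ) * (1 + ‖x.2.2 - ml 1‖ ^ 2) := fun x => by
    have a := mem01 h (‖x.2.1 - x.1‖ ^ 2)
    have b := mul_le_mul_of_nonneg_right ((neg_le_abs _).trans (bnd h (‖x.2.1 - x.1‖ ^ 2)))
      (sq_nonneg ‖x.2.2 - ml 1‖)
    have e : 4 / ρ = 4 * (1 / ρ) := by ring
    have : 0 < 1 / ρ := by positivity
    rw [e]
    simp only [q]
    nlinarith [sq_nonneg ‖x.2.2 - ml 1‖]
  obtain ⟨i, l⟩ := conv hv hd cq' (C := (1 + 4 / ρ) * 3) (fun z w N => by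
    rw [abs_of_nonneg (q0 _), mul_assoc]
    refine (q1 _).trans (mul_le_mul_of_nonneg_left ?_ (by positivity))
    have := norm_sub_le N (ml 1)
    rw [norm_ml, norm_one] at this
    have := pow_le_pow_left₀ (norm_nonneg _) this 2
    dsimp only
    nlinarith [sq_nonneg (‖N‖ - 1)]) Subset.rfl
  have lt : ∫ z in ball 0 3, q (z, u z, D z) < 1 / 34 := by
    refine lt_of_le_of_lt ?_ d2
    rw [integral_eq_lintegral_of_nonneg_ae (Eventually.of_forall fun z => q0 _)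
      i.aestronglyMeasurable]
    refine ENNReal.toReal_le_of_le_ofReal (by positivity) ?_
    rw [ENNReal.ofReal_mul (by positivity), ← lintegral_indicator measurableSet_ball]
    refine le_trans ?_ (mul_le_mul_right hb _)
    rw [← lintegral_const_mul' _ _ ENNReal.ofReal_ne_top]
    refine le_trans (lintegral_mono fun z => ?_) (lintegral_indicator_le _ _)
    by_cases h1 : z ∈ ball (0 : ℂ) 3
    · rw [indicator_of_mem h1]
      by_cases h2 : δ < ‖u z - z‖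
      · rw [indicator_of_mem (show z ∈ {z | z ∈ ball 0 3 ∧ δ < ‖u z - z‖} from ⟨h1, h2⟩)]
        refine (ENNReal.ofReal_le_ofReal (q1 _)).trans_eq ?_
        rw [ENNReal.ofReal_mul (by positivity), ENNReal.ofReal_add zero_le_one (sq_nonneg _),
          ENNReal.ofReal_one, ENNReal.ofReal_pow (norm_nonneg _), ofReal_norm]
      · have := (pow_le_pow_left₀ (norm_nonneg _) (not_lt.1 h2) 2).trans_lt d1
        simp [q, h.one _ this.le, der0 h this]
    · rw [indicator_of_notMem h1]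
      exact zero_le
  filter_upwards [l.eventually (gt_mem_nhds lt)] with n hn
  have hG : ContDiff ℝ ∞ fun z => v n z - z := (hv n).sub contDiff_id
  have g := grad h hG
  have e : ∀ z, fderiv ℝ (fun z => v n z - z) z = fderiv ℝ (v n) z - ml 1 := fun z => by
    rw [fderiv_fun_sub ((hv n).differentiable (by simp) z) differentiableAt_fun_id, fderiv_fun_id]
    congr 1
    ext1 x
    simp
  have w1 : ContDiff ℝ 1 fun z => 1 - Ψ (‖v n z - z‖ ^ 2) := contDiff_const.sub g.1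
  have en : ∀ S ⊆ ball (0 : ℂ) 3, ∫ z in S, ((1 - Ψ (‖v n z - z‖ ^ 2)) ^ 2 +
      ‖fderiv ℝ (fun z => 1 - Ψ (‖v n z - z‖ ^ 2)) z‖ ^ 2) < 1 / 34 := fun S hS => by
    refine lt_of_le_of_lt (le_trans (integral_mono (intg ((w1.continuous.pow 2).add
      ((w1.continuous_fderiv one_ne_zero).norm.pow 2)) hS) (intg (cq hv cq' n) hS) fun z => ?_)
      (setIntegral_mono_set (intg (cq hv cq' n) Subset.rfl)
        (Eventually.of_forall fun z => q0 _) hS.eventuallyLE)) hn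
    have := g.2 z
    rw [e] at this
    simp only [fderiv_const_sub, norm_neg, q]
    linarith
  have sm : ∀ z, |1 - Ψ (‖v n z - z‖ ^ 2)| < 1 → ‖v n z - z‖ < 1 / 32 := fun z hz => by
    by_contra k
    rw [h.zero _ (pow_le_pow_left₀ (by norm_num) (not_lt.1 k) 2)] at hz
    simp at hz
  have ve : ∀ a ∈ Icc (-7 / 4 : ℝ) 1, ∃ x ∈ Icc a (a + 3 / 4), 1 / 8 ≤ |x - y.re| ∧
      ∀ t ∈ Icc (-2 : ℝ) 2, ‖v n (x + t * I) - (x + t * I)‖ < 1 / 32 := fun a ha => by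
    obtain ⟨a', h1, h2⟩ := pick y.re a
    by_contra k
    have := (line.1 a' (a' + 1 / 4) (-2) 2 _ w1 (by linarith) (by norm_num)).2.1 fun x hx => by
      by_contra k'
      push Not at k'
      exact k ⟨x, ⟨h1.1.trans hx.1, by linarith [h1.2, hx.2]⟩, h2 x hx, fun t ht => sm _ (k' t ht)⟩
    linarith [en _ (Rc_sub (a := a') (b := a' + 1 / 4) (by linarith [h1.1, ha.1])
      (by linarith [h1.2, ha.2]) le_rfl le_rfl)]
  have ho : ∀ a ∈ Icc (-7 / 4 : ℝ) 1, ∃ x ∈ Icc a (a + 3 / 4), 1 / 8 ≤ |x - y.im| ∧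
      ∀ t ∈ Icc (-2 : ℝ) 2, ‖v n (t + x * I) - (t + x * I)‖ < 1 / 32 := fun a ha => by
    obtain ⟨a', h1, h2⟩ := pick y.im a
    by_contra k
    have := (line.1 a' (a' + 1 / 4) (-2) 2 _ w1 (by linarith) (by norm_num)).2.2.1 fun x hx => by
      by_contra k'
      push Not at k'
      exact k ⟨x, ⟨h1.1.trans hx.1, by linarith [h1.2, hx.2]⟩, h2 x hx, fun t ht => sm _ (k' t ht)⟩
    linarith [en _ (Rc_sub (c := a') (d := a' + 1 / 4) le_rfl le_rfl (by linarith [h1.1, ha.1])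
      (by linarith [h1.2, ha.2]))]
  obtain ⟨a, a1, a2, a3⟩ := ve (-7 / 4) (by norm_num)
  obtain ⟨b, b1, b2, b3⟩ := ve 1 (by norm_num)
  obtain ⟨c, c1, c2, c3⟩ := ho (-7 / 4) (by norm_num)
  obtain ⟨d, d1, d2, d3⟩ := ho 1 (by norm_num)
  refine ⟨a, ⟨by linarith [a1.1], by linarith [a1.2]⟩, b, ⟨b1.1, by linarith [b1.2]⟩,
    c, ⟨by linarith [c1.1], by linarith [c1.2]⟩, d, ⟨d1.1, by linarith [d1.2]⟩, fun z hz => ?_⟩
  obtain ⟨⟨h1, h2⟩, h3, h4⟩ := mem_reProdIm.1 hz.1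
  have r : z.re ∈ Icc (-2 : ℝ) 2 := ⟨by linarith [a1.1], by linarith [b1.2]⟩
  have s : z.im ∈ Icc (-2 : ℝ) 2 := ⟨by linarith [c1.1], by linarith [d1.2]⟩
  have k1 : |z.re - y.re| ≤ ‖z - y‖ := abs_re_le_norm (z - y)
  have k2 : |z.im - y.im| ≤ ‖z - y‖ := abs_im_le_norm (z - y)
  rcases hz.2 with rfl | rfl | rfl | rfl
  · exact ⟨by simpa using a3 _ s, a2.trans k1⟩
  · exact ⟨by simpa using b3 _ s, b2.trans k1⟩
  · exact ⟨by simpa using c3 _ r, c2.trans k2⟩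
  · exact ⟨by simpa using d3 _ r, d2.trans k2⟩

theorem pos {ρ R η r : ℝ} {Ψ Ψ' : ℝ → ℝ} (h : Pf ρ R η Ψ Ψ') {z y : ℂ} (hc : Cl u z y) (hr : 0 < r)
    (i : IntegrableOn (fun x => Ψ (‖u x - y‖ ^ 2) ^ 2) (ball z r)) :
    0 < ∫ x in ball z r, Ψ (‖u x - y‖ ^ 2) ^ 2 := by
  refine (integral_nonneg fun x => sq_nonneg _).lt_of_ne fun e => ?_
  have a := (integral_eq_zero_iff_of_nonneg (fun x => sq_nonneg _) i).1 e.symm
  refine hc (min r √ρ) (lt_min hr (Real.sqrt_pos.2 h.pos)) (measure_mono_null ?_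
    (ae_iff.1 ((ae_restrict_iff' measurableSet_ball).1 a)))
  intro x hx k
  have b : Ψ (‖u x - y‖ ^ 2) ^ 2 = 0 := k (ball_subset_ball (min_le_left _ _) hx.1)
  rw [h.one _ ((pow_le_pow_left₀ (norm_nonneg _) (hx.2.le.trans (min_le_right _ _)) 2).trans_eq
    (Real.sq_sqrt h.pos.le))] at b
  simp at b

theorem core (wind : WindS) (line : LineS) (hv : ∀ n, ContDiff ℝ ∞ (v n))
    (hd : Dom (ball 0 3) v (fun n => fderiv ℝ (v n)) u D) {K : ℝ} (hK : 0 ≤ K)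
    (hQ : ∀ᵐ z ∂vo (ball 0 3), Qr K (D z)) {y z₁ z₂ : ℂ}
    (ho : ∀ᶠ n in atTop, ∃ a ∈ Icc (-2 : ℝ) (-1), ∃ b ∈ Icc (1 : ℝ) 2, ∃ c ∈ Icc (-2 : ℝ) (-1),
      ∃ d ∈ Icc (1 : ℝ) 2, ∀ z ∈ Bd a b c d, ‖v n z - z‖ < 1 / 32 ∧ 1 / 8 ≤ ‖z - y‖)
    (h1 : z₁ ∈ ball (0 : ℂ) (1 / 2)) (h2 : z₂ ∈ ball (0 : ℂ) (1 / 2)) (k1 : Cl u z₁ y)
    (k2 : Cl u z₂ y) (hx : z₁.re < z₂.re) : False := by
  rw [mem_ball_zero_iff] at h1 h2
  have r1 := abs_lt.1 ((abs_re_le_norm z₁).trans_lt h1)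
  have r2 := abs_lt.1 ((abs_re_le_norm z₂).trans_lt h2)
  have s1 := abs_lt.1 ((abs_im_le_norm z₁).trans_lt h1)
  have s2 := abs_lt.1 ((abs_im_le_norm z₂).trans_lt h2)
  obtain ⟨l, hl, el⟩ : ∃ l, 0 < l ∧ z₂.re = z₁.re + 3 * l := ⟨(z₂.re - z₁.re) / 3, by linarith, by ring⟩
  obtain ⟨ρ, Ψ, Ψ', h⟩ := line.2 ((1 / 16) ^ 2) (l / (100 * (K + 1))) (by norm_num) (by positivity)
  obtain ⟨ρ', Φ, Φ', h'⟩ := line.2 ρ 1 h.pos one_pos
  have c' := (c1 h').continuous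
  have cv := fun S hS => conv hv hd (q := fun x => Φ (‖x.2.1 - y‖ ^ 2) ^ 2) (by fun_prop) (C := 1)
    (fun z w N => by
      have := mem01 h' (‖w - y‖ ^ 2)
      rw [abs_of_nonneg (sq_nonneg _)]
      nlinarith [sq_nonneg ‖N‖]) (S := S) hS
  have sb : ∀ z : ℂ, ‖z‖ < 1 / 2 → ball z l ⊆ ball 0 3 := fun z hz =>
    ball_subset_ball' (by rw [dist_zero_right]; linarith)
  obtain ⟨i1, l1⟩ := cv _ (sb _ h1)
  obtain ⟨i2, l2⟩ := cv _ (sb _ h2)
  have p1 := pos h' k1 hl i1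
  have p2 := pos h' k2 hl i2
  obtain ⟨ε, hε, e1, e2, e3, e4⟩ : ∃ ε : ℝ, 0 < ε ∧ ε ≤ l / 20 ∧ ε ≤ 1 ∧
      16 * ε < ∫ x in ball z₁ l, Φ (‖u x - y‖ ^ 2) ^ 2 ∧
      16 * ε < ∫ x in ball z₂ l, Φ (‖u x - y‖ ^ 2) ^ 2 := by
    have t : Tendsto (fun ε : ℝ => 16 * ε) (𝓝 0) (𝓝 0) :=
      (continuous_const_mul _).tendsto' 0 0 (by simp)
    obtain ⟨ε, k, l⟩ := ((((eventually_le_nhds (show 0 < l / 20 by positivity)).and
      ((eventually_le_nhds one_pos).and ((t.eventually (gt_mem_nhds p1)).and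
      (t.eventually (gt_mem_nhds p2))))).filter_mono nhdsWithin_le_nhds).and
      (self_mem_nhdsWithin (s := Ioi 0))).exists
    exact ⟨ε, l, k⟩
  obtain ⟨n, ⟨a, ha, b, hb, c, hc, d, hd', hB⟩, E1, E2, m1, m2⟩ := (ho.and
    ((energy hv hd hK hQ h y hε).and ((energy hv hd hK hQ h' y hε).and
    ((l1.eventually (lt_mem_nhds e3)).and (l2.eventually (lt_mem_nhds e4)))))).exists
  dsimp only at m1 m2
  have hV : ContDiff ℝ ∞ fun z => v n z - y := (hv n).sub contDiff_const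
  have hab : a ≤ b := by linarith [ha.2, hb.1]
  have hcd : c < d := by linarith [hc.2, hd'.1]
  have B1 : ∀ z ∈ Bd a b c d, (1 / 16) ^ 2 ≤ ‖v n z - y‖ ^ 2 := fun z hz => by
    have := norm_sub_le_norm_sub_add_norm_sub z (v n z) y
    rw [norm_sub_rev z (v n z)] at this
    exact pow_le_pow_left₀ (by norm_num) (by linarith [(hB z hz).1, (hB z hz).2]) 2
  have B2 : ∀ z ∈ Bd a b c d, ‖v n z - y - (z - y)‖ < ‖z - y‖ := fun z hz => by
    rw [sub_sub_sub_cancel_right]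
    linarith [(hB z hz).1, (hB z hz).2]
  have sR : ∀ {a' b' : ℝ}, a ≤ a' → b' ≤ b → Rc a' b' c d ⊆ ball 0 3 := fun k k' =>
    Rc_sub (ha.1.trans k) (k'.trans hb.2) hc.1 hd'.2
  have bot : ∀ x ∈ Icc a b, (x + c * I : ℂ) ∈ Bd a b c d := fun x hx =>
    ⟨mem_reProdIm.2 ⟨by simpa using hx, by simpa using hcd.le⟩, Or.inr (Or.inr (Or.inl (by simp)))⟩
  have pi4 := Real.pi_le_four
  have pi3 := Real.pi_gt_three
  obtain ⟨x, hx, hL⟩ : ∃ x ∈ Icc (z₁.re + l) (z₁.re + 2 * l), ∀ t ∈ Icc c d,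
      ρ ≤ ‖v n (x + t * I) - y‖ ^ 2 := by
    by_contra k
    push Not at k
    obtain ⟨N, eN, hN⟩ := wind _ _ _ a b c d _ _ _ h hV hab hcd.le B1
    have N1 : (N : ℝ) ≤ 1 := by exact_mod_cast hN y B2
    have g := (grad h hV).1
    have t1 := (line.1 (z₁.re + l) (z₁.re + 2 * l) c d _ g (by linarith) hcd).1 fun x hx => by
      obtain ⟨t, ht, kt⟩ := k x hx
      refine ⟨t, ht, c, ⟨le_rfl, hcd.le⟩, ?_⟩
      rw [h.one _ kt.le, h.zero _ (B1 _ (bot x ⟨by linarith [ha.2, hx.1], by linarith [hb.1, hx.2]⟩))]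
      simp
    have t2 := setIntegral_mono_set (intg ((g.continuous_fderiv one_ne_zero).norm.pow 2)
      (sR le_rfl le_rfl)) (Eventually.of_forall fun z => sq_nonneg _)
      (show Rc (z₁.re + l) (z₁.re + 2 * l) c d ⊆ Rc a b c d from fun z hz => mem_reProdIm.2
        ⟨⟨by linarith [ha.2, (mem_reProdIm.1 hz).1.1], by linarith [hb.1, (mem_reProdIm.1 hz).1.2]⟩,
          (mem_reProdIm.1 hz).2⟩).eventuallyLE
    have t3 := (E1 _ (sR le_rfl le_rfl)).1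
    rw [eN] at t3
    have t4 : 2 * (l / (100 * (K + 1))) * K ≤ l / 50 := by
      rw [mul_div_assoc', div_mul_eq_mul_div, div_le_div_iff₀ (by positivity) (by positivity)]
      nlinarith
    have t5 : 2 * (l / (100 * (K + 1))) * K * (2 * Real.pi * N) ≤ l / 50 * 8 :=
      (mul_le_mul_of_nonneg_left (show 2 * Real.pi * N ≤ 8 by nlinarith) (by positivity)).trans
        (by linarith)
    have t6 := mul_le_mul (show d - c ≤ 4 by linarith [hc.1, hd'.2])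
      (t2.trans (t3.trans (add_le_add t5 e1))) (integral_nonneg fun z => sq_nonneg _) (by norm_num)
    simp only [Pi.pow_apply] at t6
    linarith
  have ax : a ≤ x := by linarith [ha.2, hx.1]
  have xb : x ≤ b := by linarith [hb.1, hx.2]
  have B3 : ∀ z ∈ Bd a b c d, ρ ≤ ‖v n z - y‖ ^ 2 := fun z hz => h.lt.le.trans (B1 z hz)
  have mid : ∀ z : ℂ, z.re = x → z.im ∈ Icc c d → ρ ≤ ‖v n z - y‖ ^ 2 := fun z k k' => by
    simpa [← k] using hL _ k'
  obtain ⟨N, eN, hN⟩ := wind _ _ _ a b c d _ _ _ h' hV hab hcd.le B3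
  obtain ⟨N1, eN1, -⟩ := wind _ _ _ a x c d _ _ _ h' hV ax hcd.le fun z hz => by
    obtain ⟨k, k'⟩ := mem_reProdIm.1 hz.1
    have : z ∈ Rc a b c d := mem_reProdIm.2 ⟨⟨k.1, k.2.trans xb⟩, k'⟩
    rcases hz.2 with e | e | e
    exacts [B3 z ⟨this, Or.inl e⟩, mid z e k', B3 z ⟨this, Or.inr (Or.inr e)⟩]
  obtain ⟨N2, eN2, -⟩ := wind _ _ _ x b c d _ _ _ h' hV xb hcd.le fun z hz => by
    obtain ⟨k, k'⟩ := mem_reProdIm.1 hz.1
    have : z ∈ Rc a b c d := mem_reProdIm.2 ⟨⟨ax.trans k.1, k.2⟩, k'⟩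
    rcases hz.2 with e | e
    exacts [mid z e k', B3 z ⟨this, Or.inr e⟩]
  have cΦ := h'.cont
  rw [split (f := fun z => -2 * Φ' (‖v n z - y‖ ^ 2) * jac (fderiv ℝ (fun z => v n z - y) z))
    ((continuous_const.mul (cΦ.comp (hV.continuous.norm.pow 2))).mul
    (continuous_jac.comp (hV.continuous_fderiv (by simp)))) ax xb (sR le_rfl le_rfl)] at eN
  have g := (grad h' hV).1
  have fin : ∀ (a' b' : ℝ) (M : ℤ) (z : ℂ), a ≤ a' → a' ≤ b' → b' ≤ b → a' ≤ z.re - l →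
      z.re + l ≤ b' → |z.im| < 1 / 2 → ∫ z in Rc a' b' c d, -2 * Φ' (‖v n z - y‖ ^ 2) *
        jac (fderiv ℝ (fun z => v n z - y) z) = 2 * Real.pi * M →
      16 * ε < ∫ x in ball z l, Φ (‖v n x - y‖ ^ 2) ^ 2 → 1 ≤ M := by
    intro a' b' M z k1 k2 k3 k4 k5 k6 eM m
    by_contra k
    have M0 : (M : ℝ) ≤ 0 := by exact_mod_cast (by omega : M ≤ 0)
    have t1 := (line.1 a' b' c d _ g k2 hcd).2.2.2 fun x hx =>
      h'.zero _ (B3 _ (bot x ⟨k1.trans hx.1, hx.2.trans k3⟩))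
    have t2 := (E2 _ (sR k1 k3)).1
    rw [eM] at t2
    have t3 : 2 * 1 * K * (2 * Real.pi * M) ≤ 0 :=
      mul_nonpos_of_nonneg_of_nonpos (by positivity) (by nlinarith)
    have t4 := mul_le_mul (show (d - c) ^ 2 ≤ 16 by nlinarith [hc.1, hd'.2])
      (t2.trans (add_le_add t3 le_rfl)) (integral_nonneg fun z => sq_nonneg _) (by norm_num)
    have t5 := setIntegral_mono_set (intg (g.continuous.pow 2) (sR k1 k3))
      (Eventually.of_forall fun z => sq_nonneg _) (show ball z l ⊆ Rc a' b' c d from fun w hw => by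
        have w1 := abs_lt.1 ((abs_re_le_norm (w - z)).trans_lt (mem_ball_iff_norm.1 hw))
        have w2 := abs_lt.1 ((abs_im_le_norm (w - z)).trans_lt (mem_ball_iff_norm.1 hw))
        have w3 := abs_lt.1 k6
        rw [sub_re] at w1
        rw [sub_im] at w2
        exact mem_reProdIm.2 ⟨⟨by linarith, by linarith⟩, by linarith [hc.2],
          by linarith [hd'.1]⟩).eventuallyLE
    simp only [Pi.pow_apply] at t5
    linarith
  have f1 := fin a x N1 z₁ le_rfl ax xb (by linarith [ha.2]) hx.1 (abs_lt.2 s1) eN1 m1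
  have f2 := fin x b N2 z₂ ax xb le_rfl (by linarith [hx.2]) (by linarith [hb.1]) (abs_lt.2 s2)
    eN2 m2
  have f3 := hN y B2
  rw [eN1, eN2, ← mul_add] at eN
  have : N1 + N2 = N := by exact_mod_cast mul_left_cancel₀ (by positivity) eN
  omega

end Inj

open Inj in
theorem inj (kit : KitS) (wind : WindS) (line : LineS) : InjS := by
  obtain ⟨δ, hδ, ho⟩ := outer line
  have key : ∀ (K : ℝ) (u : ℂ → ℂ) (D : ℂ → M2), 0 ≤ K → Sb (ball 0 3) u D →
      (∀ᵐ z ∂vo (ball 0 3), Qr K (D z)) →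
      ∫⁻ z in {z | z ∈ ball 0 3 ∧ δ < ‖u z - z‖}, (1 + ‖D z - ml 1‖ₑ ^ 2) ≤ ENNReal.ofReal δ →
      ∀ z₁ ∈ ball (0 : ℂ) (1 / 2), ∀ z₂ ∈ ball (0 : ℂ) (1 / 2), ∀ y, Cl u z₁ y → Cl u z₂ y →
        z₁.re = z₂.re := by
    rintro K u D hK ⟨v, hv, hd⟩ hQ hb z₁ h1 z₂ h2 y k1 k2
    rcases lt_trichotomy z₁.re z₂.re with h | h | h
    · exact (core wind line hv hd hK hQ (ho v u D hv hd hb y) h1 h2 k1 k2 h).elim
    · exact h
    · exact (core wind line hv hd hK hQ (ho v u D hv hd hb y) h2 h1 k2 k1 h).elim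
  refine ⟨δ, hδ, fun K u D hK hs hQ hb z₁ h1 z₂ h2 y k1 k2 =>
    Complex.ext (key K u D hK hs hQ hb z₁ h1 z₂ h2 y k1 k2) ?_⟩
  let e : ℂ ≃ₗᵢ[ℝ] ℂ := rotation ⟨I, by simp [Submonoid.unitSphere]⟩
  have ee : ∀ z, e z = I * z := fun z => rfl
  have mp : MeasurePreserving e volume volume := e.measurePreserving
  have me : MeasurableEmbedding e := e.toHomeomorph.measurableEmbedding
  have nI : ∀ z : ℂ, ‖I * z‖ = ‖z‖ := fun z => by simp
  have nD : ∀ N : M2, ‖(ml (-I)).comp (N.comp (ml I))‖ ≤ ‖N‖ := fun N =>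
    ContinuousLinearMap.opNorm_le_bound _ (norm_nonneg _) fun z => by
      simpa using N.le_opNorm (I * z)
  have s1 := kit.2.2.2.2 (ball 0 3) (ball 0 3) u D 0 I I_ne_zero measurableSet_ball
    (fun z hz => by simpa using hz) hs
  have s2 := kit.2.2.2.1 _ _ _ _ _ (ml (-I)) 0 0 0 isBounded_ball s1 s1
  simp only [zero_add, zero_apply, add_zero, ContinuousLinearMap.zero_comp,
    ml_apply] at s2
  have cl : ∀ z, Cl u z y → Cl (fun z => -I * u (I * z)) (-I * z) (-I * y) := fun z k ρ hρ h0 => by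
    refine k ρ hρ ?_
    rw [← mp.measure_preimage_emb me, ← h0]
    congr 1
    ext x
    have a : I * x - z = I * (x - -I * z) := by linear_combination (-z) * I_mul_I
    simp only [mem_preimage, mem_ofPred_eq, ee, mem_ball_iff_norm, a, nI, ← mul_sub, norm_mul,
      norm_neg, norm_I, one_mul]
  have := key K _ _ hK s2 ?_ ?_ (-I * z₁) (by simpa using h1) (-I * z₂) (by simpa using h2) _
    (cl _ k1) (cl _ k2)
  · simpa using this
  · have := (mp.restrict_preimage_emb me (ball 0 3)).quasiMeasurePreserving.ae hQ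
    rw [show e ⁻¹' ball 0 3 = ball 0 3 from Set.ext fun z => by simp] at this
    refine this.mono fun z a => (pow_le_pow_left₀ (norm_nonneg _) (nD _) 2).trans ?_
    rw [jac_comp, jac_comp, jac_ml, jac_ml]
    simpa [ee, Qr] using a
  · refine le_trans ?_ hb
    rw [← mp.setLIntegral_comp_preimage_emb me (fun z => 1 + ‖D z - ml 1‖ₑ ^ 2)]
    have a : ∀ z, -I * u (I * z) - z = -I * (u (I * z) - I * z) := fun z => by
      linear_combination (-z) * I_mul_I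
    refine lintegral_mono' (Measure.restrict_mono (fun z hz => ?_) le_rfl) fun z => ?_
    · have k := hz.2
      rw [a, norm_mul, norm_neg, norm_I, one_mul] at k
      exact ⟨by simpa using hz.1, k⟩
    · have b : (ml (-I)).comp ((D (I * z)).comp (ml I)) - ml 1 =
          (ml (-I)).comp ((D (I * z) - ml 1).comp (ml I)) := by
        ext1 x
        simp only [sub_apply, ContinuousLinearMap.comp_apply, ml_apply]
        linear_combination (-x) * I_mul_I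
      rw [b, ee]
      gcongr
      exact enorm_le_iff_norm_le.2 (nD _)

end Pool.Agent.MP_815c6c_an.P

end MrgPart1

-- marker of a merged file
example : 731051 + 132175 = 731051 + 132175 := rfl
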