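import Mathlib.Algebra.Lie.OfAssociative
import Mathlib.Analysis.Calculus.LineDeriv.IntegrationByParts
import Mathlib.Analysis.Calculus.Rademacher
import Mathlib.RingTheory.PiTensorProduct
import Mathlib.MeasureTheory.Measure.Lebesgue.VolumeOfBalls
import Pool.Agent.MP_815c6c_an.P.Basic

-- ======== part 0: formerly Pool.Agent.MP_815c6c_an.P.Part
section MrgPart0

/-! Planar p-harmonic functions: integration by parts and its consequences. -/

set_option autoImplicit false

noncomputable section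

namespace Pool.Agent.MP_815c6c_an.P

open Set Metric MeasureTheory Filter Topology Complex
open scoped ContDiff ENNReal ComplexConjugate

namespace Part

theorem fin {U : Set ℂ} (hb : Bornology.IsBounded U) : IsFiniteMeasure (vo U) :=
  isFiniteMeasure_restrict.2 hb.measure_lt_top.ne

theorem lim {U : Set ℂ} (hb : Bornology.IsBounded U) {a : ℂ → ℂ} (ha : Continuous a)
    (hc : HasCompactSupport a) (hs : Function.support a ⊆ U) {w : ℕ → ℂ → ℂ} {w0 : ℂ → ℂ}
    {g : ℂ → ℝ} (hg : MemLp g 2 (vo U)) (hm : ∀ n, AEStronglyMeasurable (w n) (vo U))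
    (h : ∀ᵐ z ∂vo U, (∀ n, ‖w n z‖ ≤ g z) ∧ Tendsto (fun n => w n z) atTop (𝓝 (w0 z))) :
    Integrable (fun z => a z * w0 z) ∧
      Tendsto (fun n => ∫ z, a z * w n z) atTop (𝓝 (∫ z, a z * w0 z)) := by
  have := fin hb
  obtain ⟨C, hC⟩ := hc.exists_bound_of_continuous ha
  have hC0 : 0 ≤ C := (norm_nonneg _).trans (hC 0)
  have hgi : Integrable (fun z => C * g z) (vo U) := (hg.integrable one_le_two).const_mul C
  have e : ∀ f : ℂ → ℂ, ∫ z in U, a z * f z = ∫ z, a z * f z := fun f =>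
    setIntegral_eq_integral_of_forall_compl_eq_zero fun z hz => by
      rw [Function.notMem_support.1 fun h => hz (hs h), zero_mul]
  have m0 : AEStronglyMeasurable w0 (vo U) :=
    aestronglyMeasurable_of_tendsto_ae atTop hm (h.mono fun z a => a.2)
  refine ⟨(integrableOn_iff_integrable_of_support_subset (s := U) fun z hz =>
    hs fun h0 => hz (by simp only [h0, zero_mul])).1 ?_, ?_⟩
  · refine hgi.mono' (ha.aestronglyMeasurable.mul m0) (h.mono fun z hz => ?_)
    rw [norm_mul]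
    exact mul_le_mul (hC z) (le_of_tendsto' hz.2.norm hz.1) (norm_nonneg _) hC0
  · simp only [← e]
    refine tendsto_integral_of_dominated_convergence (fun z => C * g z)
      (fun n => ha.aestronglyMeasurable.mul (hm n)) hgi (fun n => h.mono fun z hz => ?_)
      (h.mono fun z hz => hz.2.const_mul _)
    rw [norm_mul]
    exact mul_le_mul (hC z) (hz.1 n) (norm_nonneg _) hC0

theorem ibp {U : Set ℂ} {u : ℂ → ℂ} {D : ℂ → M2} (hb : Bornology.IsBounded U) (h : Sb U u D)
    {φ : ℂ → ℂ} (h1 : ContDiff ℝ 1 φ) (hc : HasCompactSupport φ) (hs : tsupport φ ⊆ U) (v : ℂ) :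
    Integrable (fun z => fderiv ℝ φ z v * u z) ∧ Integrable (fun z => φ z * D z v) ∧
    ∫ z, fderiv ℝ φ z v * u z = -∫ z, φ z * D z v := by
  obtain ⟨w, hw, g, hg, h⟩ := h
  have c1 : Continuous fun z => fderiv ℝ φ z v :=
    (h1.continuous_fderiv one_ne_zero).clm_apply continuous_const
  have k1 : HasCompactSupport fun z => fderiv ℝ φ z v := hc.fderiv_apply ℝ v
  have c2 : ∀ n, Continuous fun z => fderiv ℝ (w n) z v := fun n =>
    ((hw n).continuous_fderiv (by simp)).clm_apply continuous_const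
  have A := lim hb c1 k1 (fun z hz => hs (support_fderiv_subset ℝ fun h0 => hz (by
      simp only [h0, zero_apply]))) hg
    (fun n => (hw n).continuous.aestronglyMeasurable)
    (h.mono fun z a => ⟨fun n => (a.1 n).1, a.2.1⟩)
  have B := lim (w := fun n z => fderiv ℝ (w n) z v) (w0 := fun z => D z v) hb h1.continuous hc
    ((subset_tsupport φ).trans hs) (hg.mul_const ‖v‖) (fun n => (c2 n).aestronglyMeasurable)
    (h.mono fun z a => ⟨fun n => ((fderiv ℝ (w n) z).le_opNorm v).trans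
      (mul_le_mul_of_nonneg_right (a.1 n).2 (norm_nonneg _)),
      ((ContinuousLinearMap.apply ℝ ℂ v).continuous.tendsto _).comp a.2.2⟩)
  refine ⟨A.1, B.1, tendsto_nhds_unique A.2 (B.2.neg.congr fun n => ?_)⟩
  rw [integral_mul_fderiv_eq_neg_fderiv_mul_of_integrable
    ((c1.mul (hw n).continuous).integrable_of_hasCompactSupport k1.mul_right)
    ((h1.continuous.mul (c2 n)).integrable_of_hasCompactSupport hc.mul_right)
    ((h1.continuous.mul (hw n).continuous).integrable_of_hasCompactSupport hc.mul_right)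
    (fun x _ => h1.differentiable one_ne_zero x)
    (fun x _ => (hw n).differentiable (by simp) x), neg_neg]

theorem locInt {U : Set ℂ} {u : ℂ → ℂ} {D : ℂ → M2} (hb : Bornology.IsBounded U) (h : Sb U u D)
    (v : ℂ) : IntegrableOn (fun z => D z v) U := by
  have := fin hb
  exact (ContinuousLinearMap.apply ℝ ℂ v).integrable_comp (h.memLp.2.integrable one_le_two)

/-- integration by parts with a real test function -/
theorem ibpR {U : Set ℂ} {u : ℂ → ℂ} {D : ℂ → M2} (hb : Bornology.IsBounded U) (h : Sb U u D)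
    {φ : ℂ → ℝ} (h1 : ContDiff ℝ ∞ φ) (hc : HasCompactSupport φ) (hs : tsupport φ ⊆ U) (v : ℂ) :
    Integrable (fun z => fderiv ℝ φ z v • u z) ∧ Integrable (fun z => φ z • D z v) ∧
    ∫ z, fderiv ℝ φ z v • u z = -∫ z, φ z • D z v := by
  have e : ∀ z, fderiv ℝ (fun z => (φ z : ℂ)) z v = (fderiv ℝ φ z v : ℝ) := fun z => by
    have := (ofRealCLM.hasFDerivAt.comp z (h1.differentiable (by simp) z).hasFDerivAt).fderiv
    exact congrArg (fun N : ℂ →L[ℝ] ℂ => N v) this
  have := ibp hb h (φ := fun z => (φ z : ℂ)) (ofRealCLM.contDiff.comp (h1.of_le (by simp)))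
    (hc.comp_left ofReal_zero) ((tsupport_comp_subset ofReal_zero φ).trans hs) v
  simpa only [e, real_smul] using this

theorem uniq {U : Set ℂ} {D : ℂ → M2} (hU : IsOpen U) (hb : Bornology.IsBounded U)
    (h : Sb U (fun _ => 0) D) : ∀ᵐ z ∂vo U, D z = 0 := by
  have A : ∀ v : ℂ, ∀ᵐ z, z ∈ U → D z v = 0 := fun v =>
    hU.ae_eq_zero_of_integral_contDiff_smul_eq_zero (locInt hb h v).locallyIntegrableOn
      fun φ h1 hc hs => by
        have := (ibpR hb h h1 hc hs v).2.2
        simp only [smul_zero, integral_zero] at this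
        exact neg_eq_zero.1 this.symm
  rw [ae_restrict_iff' hU.measurableSet]
  filter_upwards [A 1, A I] with z a b hz
  exact M2_ext (a hz) (b hz)

/-- a smooth map with compact support that is the identity near the origin -/
theorem bump : ∃ (Φ : ℂ → ℂ) (b : ℝ), ContDiff ℝ ∞ Φ ∧ (∀ w, ‖fderiv ℝ Φ w‖ ≤ b) ∧
    (∀ w, ‖Φ w‖ ≤ ‖w‖) ∧ fderiv ℝ Φ 0 = ContinuousLinearMap.id ℝ ℂ ∧
    ∀ w, 2 < ‖w‖ → Φ w = 0 ∧ fderiv ℝ Φ w = 0 := by
  let χ : ContDiffBump (0 : ℂ) := ⟨1, 2, one_pos, one_lt_two⟩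
  have hs : ContDiff ℝ ∞ fun w : ℂ => χ w • w := χ.contDiff.smul contDiff_id
  have hc : HasCompactSupport fun w : ℂ => χ w • w := χ.hasCompactSupport.smul_right
  obtain ⟨b, hb⟩ := (hc.fderiv ℝ).exists_bound_of_continuous (hs.continuous_fderiv (by simp))
  refine ⟨_, b, hs, hb, fun w => ?_, ?_, fun w hw => ?_⟩
  · rw [norm_smul, Real.norm_of_nonneg χ.nonneg]
    exact mul_le_of_le_one_left (norm_nonneg _) χ.le_one
  · have : (fun w : ℂ => χ w • w) =ᶠ[𝓝 0] id := by
      filter_upwards [χ.eventuallyEq_one] with w hw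
      simp only [hw, Pi.one_apply, one_smul, id]
    rw [this.fderiv_eq, fderiv_id]
  · have : (fun w : ℂ => χ w • w) =ᶠ[𝓝 w] fun _ => 0 := by
      filter_upwards [(isOpen_lt continuous_const continuous_norm).mem_nhds hw] with y hy
      rw [χ.zero_of_le_dist (by simpa using le_of_lt hy), zero_smul]
    exact ⟨this.self_of_nhds, by rw [this.fderiv_eq, fderiv_const_apply]⟩

theorem zero (kit : KitS) {U : Set ℂ} {u : ℂ → ℂ} {D : ℂ → M2} (hU : IsOpen U)
    (hb : Bornology.IsBounded U) (h : Sb U u D) : ∀ᵐ z ∂vo U, u z = 0 → D z = 0 := by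
  classical
  obtain ⟨Φ, b, hs, hb', hn, h0, h2⟩ := bump
  have hb0 : 0 ≤ b := (norm_nonneg _).trans (hb' 0)
  have hk : ∀ k : ℕ, (0 : ℝ) < k + 1 := fun k => by positivity
  let Ψ : ℕ → ℂ → ℂ := fun k w => ((k : ℝ) + 1)⁻¹ • Φ (((k : ℝ) + 1) • w)
  have hΨ : ∀ k, ContDiff ℝ ∞ (Ψ k) := fun k =>
    (hs.comp (contDiff_id.const_smul _)).const_smul _
  have hd : ∀ (k : ℕ) w, fderiv ℝ (Ψ k) w = fderiv ℝ Φ (((k : ℝ) + 1) • w) := fun k w => by
    have a := (((hs.differentiable (by simp) (((k : ℝ) + 1) • w)).hasFDerivAt.comp w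
      ((hasFDerivAt_id w).const_smul ((k : ℝ) + 1))).const_smul ((k : ℝ) + 1)⁻¹).fderiv
    refine Eq.trans a (ContinuousLinearMap.ext fun y => ?_)
    simp only [smul_apply, ContinuousLinearMap.comp_apply,
      ContinuousLinearMap.id_apply, map_smul, smul_smul, inv_mul_cancel₀ (hk k).ne', one_smul]
  have hev : ∀ w : ℂ, w ≠ 0 → ∀ᶠ k : ℕ in atTop, 2 < ‖((k : ℝ) + 1) • w‖ := fun w hw => by
    have : Tendsto (fun k : ℕ => ((k : ℝ) + 1) * ‖w‖) atTop atTop :=
      (tendsto_atTop_add_const_right _ 1 tendsto_natCast_atTop_atTop).atTop_mul_const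
        (norm_pos_iff.2 hw)
    filter_upwards [this.eventually_gt_atTop 2] with k hk'
    rwa [norm_smul, Real.norm_of_nonneg (hk k).le]
  have key : Sb U (fun _ => 0) fun z => if u z = 0 then D z else 0 := by
    refine kit.2.1 U (fun k z => Ψ k (u z)) (fun k z => (fderiv ℝ (Ψ k) (u z)).comp (D z)) _ _
      (fun k => kit.2.2.1 U u D (Ψ k) b hb h (hΨ k) fun w => by rw [hd]; exact hb' _)
      ⟨fun z => ‖u z‖ + b * ‖D z‖, h.memLp.1.norm.add (h.memLp.2.norm.const_mul b),
        Eventually.of_forall fun z => ⟨fun k => ⟨?_, ?_⟩, ?_, ?_⟩⟩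
    · refine le_trans ?_ (le_add_of_nonneg_right (by positivity))
      simp only [Ψ]
      rw [norm_smul, Real.norm_of_nonneg (inv_nonneg.2 (hk k).le)]
      refine (mul_le_mul_of_nonneg_left (hn _) (inv_nonneg.2 (hk k).le)).trans_eq ?_
      rw [norm_smul, Real.norm_of_nonneg (hk k).le, inv_mul_cancel_left₀ (hk k).ne']
    · refine le_trans ?_ (le_add_of_nonneg_left (norm_nonneg _))
      simp only [hd]
      exact (ContinuousLinearMap.opNorm_comp_le _ _).trans
        (mul_le_mul_of_nonneg_right (hb' _) (norm_nonneg _))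
    · by_cases hz : u z = 0
      · have : Φ 0 = 0 := norm_le_zero_iff.1 ((hn 0).trans_eq norm_zero)
        simp only [Ψ, hz, smul_zero, this]
        exact tendsto_const_nhds
      · refine tendsto_const_nhds.congr' ?_
        filter_upwards [hev _ hz] with k hk'
        simp only [Ψ, (h2 _ hk').1, smul_zero]
    · by_cases hz : u z = 0
      · simp only [hd, hz, smul_zero, h0, ContinuousLinearMap.id_comp, if_true]
        exact tendsto_const_nhds
      · simp only [if_neg hz]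
        refine tendsto_const_nhds.congr' ?_
        filter_upwards [hev _ hz] with k hk'
        simp only [hd, (h2 _ hk').2, ContinuousLinearMap.zero_comp]
  filter_upwards [uniq hU hb key] with z hz h0
  rwa [if_pos h0] at hz

theorem lip1 {U : Set ℂ} {u : ℂ → ℂ} {D : ℂ → M2} (hU : IsOpen U) (hb : Bornology.IsBounded U)
    (h : Sb U u D) {L : NNReal} (p : ℂ →L[ℝ] ℝ) (hL : LipschitzWith L fun z => p (u z)) (v : ℂ) :
    ∀ᵐ z, z ∈ U → |p (D z v)| ≤ L * ‖v‖ := by
  have A : ∀ᵐ z, z ∈ U → p (D z v) - lineDeriv ℝ (fun z => p (u z)) z v = 0 := by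
    refine hU.ae_eq_zero_of_integral_contDiff_smul_eq_zero
      ((IntegrableOn.locallyIntegrableOn (p.integrable_comp (locInt hb h v))).sub
        ((hL.locallyIntegrable_lineDeriv v).locallyIntegrableOn U)) fun φ h1 hc hs => ?_
    obtain ⟨i1, i2, e⟩ := ibpR hb h h1 hc hs v
    obtain ⟨K, hK⟩ := h1.lipschitzWith_of_hasCompactSupport hc (by simp)
    have e2 := hL.integral_lineDeriv_mul_eq (μ := volume) hK hc v
    have e3 := congrArg p e
    rw [map_neg, ← p.integral_comp_comm i1, ← p.integral_comp_comm i2] at e3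
    have i3 : Integrable fun z => φ z • p (D z v) := by
      simpa only [map_smul] using p.integrable_comp i2
    have i4 : Integrable fun z => φ z • lineDeriv ℝ (fun z => p (u z)) z v :=
      (hL.locallyIntegrable_lineDeriv v).integrable_smul_left_of_hasCompactSupport
        h1.continuous hc
    simp only [smul_sub]
    rw [integral_sub i3 i4]
    simp only [map_smul, smul_eq_mul] at e3 ⊢
    simp only [(h1.differentiable (by simp) _).lineDeriv_eq_fderiv, map_neg, neg_mul,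
      integral_neg] at e2
    simp only [mul_comm (φ _) (lineDeriv ℝ (fun z => p (u z)) _ v)]
    rw [e2, e3, neg_neg, sub_self]
  filter_upwards [A] with z hz hzU
  rw [sub_eq_zero.1 (hz hzU)]
  exact norm_lineDeriv_le_of_lipschitz ℝ hL

theorem lip {U : Set ℂ} {u : ℂ → ℂ} {D : ℂ → M2} (hU : IsOpen U) (hb : Bornology.IsBounded U)
    (h : Sb U u D) {L : ℝ} (hL : ∀ x y, ‖u x - u y‖ ≤ L * ‖x - y‖) :
    ∀ᵐ z ∂vo U, ‖D z‖ ≤ 2 * L := by
  have h0 : 0 ≤ L := by simpa using (norm_nonneg _).trans (hL 1 0)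
  lift L to NNReal using h0
  have a : LipschitzWith L fun z => reCLM (u z) := LipschitzWith.of_dist_le_mul fun x y => by
    rw [dist_eq_norm, dist_eq_norm, ← map_sub]
    exact (abs_re_le_norm _).trans (hL x y)
  have b : LipschitzWith L fun z => imCLM (u z) := LipschitzWith.of_dist_le_mul fun x y => by
    rw [dist_eq_norm, dist_eq_norm, ← map_sub]
    exact (abs_im_le_norm _).trans (hL x y)
  rw [ae_restrict_iff' hU.measurableSet]
  filter_upwards [lip1 hU hb h _ a 1, lip1 hU hb h _ a I, lip1 hU hb h _ b 1,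
    lip1 hU hb h _ b I] with z a1 a2 b1 b2 hz
  have a1 := sq_le_sq' (abs_le.1 (a1 hz)).1 (abs_le.1 (a1 hz)).2
  have a2 := sq_le_sq' (abs_le.1 (a2 hz)).1 (abs_le.1 (a2 hz)).2
  have b1 := sq_le_sq' (abs_le.1 (b1 hz)).1 (abs_le.1 (b1 hz)).2
  have b2 := sq_le_sq' (abs_le.1 (b2 hz)).1 (abs_le.1 (b2 hz)).2
  simp only [reCLM_apply, imCLM_apply, norm_one, norm_I, mul_one] at a1 a2 b1 b2
  refine (abs_le_of_sq_le_sq' ((sq_norm_le _).trans ?_) (by positivity)).2
  rw [Complex.sq_norm, Complex.sq_norm, normSq_apply, normSq_apply]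
  nlinarith

end Part

theorem part : KitS → PartS := fun kit _ _ _ hU hb h =>
  ⟨fun _ h1 hc hs v => Part.ibp hb h h1 hc hs v, Part.zero kit hU hb h,
    fun _ hL => Part.lip hU hb h hL⟩

end Pool.Agent.MP_815c6c_an.P

end
end MrgPart0

-- ======== part 1: formerly Pool.Agent.MP_815c6c_an.P.Nat
section MrgPart1

/-! Planar p-harmonic functions: the natural field, and the estimate on a fixed ball. -/

set_option autoImplicit false

namespace Pool.Agent.MP_815c6c_an.P

open Set Metric MeasureTheory Filter Topology Complex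
open scoped ContDiff ENNReal ComplexConjugate

namespace NatA

theorem cu_congr {U : Set ℂ} {f g : ℂ → ℂ} (h : Cu U f) (e : ∀ z, f z = g z) : Cu U g := by
  rwa [← funext e]

theorem cu_neg {U : Set ℂ} {f : ℂ → ℂ} (h : Cu U f) : Cu U fun z => -f z := fun φ hφ => by
  have := h φ hφ
  simp only [neg_mul, neg_im]
  rw [integral_neg, this, neg_zero]

theorem dq_of (dq : DqS) {s r R : ℝ} {V : ℂ → ℂ} (hs : |s| < 1) (hr : r < R)
    (hV : MemLp V 2 (vo (ball 0 R))) (h1 : Cu (ball 0 R) fun z => pw (-s) (V z))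
    (h2 : Cu (ball 0 R) fun z => I * pw s (V z)) : Dq r V := by
  rcases le_total 0 s with h | h
  · exact dq s r R V h (abs_lt.1 hs).2 hr hV h1 h2
  · obtain ⟨C, τ, hτ, H⟩ := dq (-s) r R (fun z => I * V z) (by linarith)
      (by linarith [(abs_lt.1 hs).1]) hr (hV.const_mul I)
      (cu_congr h2 fun z => by rw [neg_neg, pw_mul _ norm_I])
      (cu_congr (cu_neg h1) fun z => by rw [pw_mul _ norm_I, ← mul_assoc, I_mul_I, neg_one_mul])
    refine ⟨C, τ, hτ, fun k hk => ?_⟩
    have := H k hk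
    simp only [← mul_sub, enorm_mul] at this
    have e : ‖I‖ₑ = 1 := by rw [← ofReal_norm, norm_I, ENNReal.ofReal_one]
    simpa only [e, one_mul] using this

theorem mem_pw (pow : PowS) {a r : ℝ} {V : ℂ → ℂ} (ha : |a| < 1)
    (hV : MemLp V 4 (vo (ball 0 r))) : MemLp (fun z => pw a (V z)) 2 (vo (ball 0 r)) := by
  have : IsFiniteMeasure (vo (ball (0 : ℂ) r)) :=
    isFiniteMeasure_restrict.2 measure_ball_lt_top.ne
  have h2 : MemLp (fun z => ‖V z‖ ^ (2 : ℝ≥0∞).toReal) (4 / 2) (vo (ball 0 r)) :=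
    hV.norm_rpow_div 2
  have e : (4 : ℝ≥0∞) / 2 = 2 := by
    rw [ENNReal.div_eq_inv_mul, show (4 : ℝ≥0∞) = 2 * 2 by norm_num, ← mul_assoc,
      ENNReal.inv_mul_cancel (by norm_num) (by norm_num), one_mul]
  rw [e] at h2
  have h3 := (memLp_const (p := 2) (μ := vo (ball (0 : ℂ) r)) (1 : ℝ)).add h2
  refine h3.mono' ((pow.2.2.1 a (abs_lt.1 ha).1).comp_aestronglyMeasurable hV.1)
    (Eventually.of_forall fun z => ?_)
  rw [pow.2.1 a _ (abs_lt.1 ha).1]
  simp only [Pi.add_apply, ENNReal.toReal_ofNat]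
  rcases le_total ‖V z‖ 1 with h | h
  · exact (Real.rpow_le_one (norm_nonneg _) h (by linarith [(abs_lt.1 ha).1])).trans
      (le_add_of_nonneg_right (by positivity))
  · exact (Real.rpow_le_rpow_of_exponent_le h (by linarith [(abs_lt.1 ha).2])).trans
      (le_add_of_nonneg_left zero_le_one)

theorem one_le {ε : ℝ} (h : |ε| < 1 / 3) : 1 ≤ (eP ε + eQ ε) / 2 := by
  have a : 0 < 1 + 3 * ε := by linarith [(abs_lt.1 h).1]
  have b : 0 < 1 - 3 * ε := by linarith [(abs_lt.1 h).2]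
  rw [eP, eQ, div_add_div _ _ a.ne' b.ne', le_div_iff₀ two_pos, le_div_iff₀ (mul_pos a b)]
  nlinarith [sq_nonneg ε]

end NatA

open NatA

theorem nat : KitS → PartS → FourS → WkS → PowS → AlgS → DqS → PtS → NatS := by
  intro _ part four wk pow alg dq pt s r R V hs hr hV h1 h2
  have hs' : |-s| < 1 := by rwa [abs_neg]
  obtain ⟨D, hD⟩ := wk ((2 * r + R) / 3) ((r + 2 * R) / 3) R V (by linarith) (by linarith) hV
    (dq_of dq hs (by linarith) hV h1 h2)
  have h4 := four.1 r _ V D (by linarith) hD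
  have hD' : Sb (ball 0 r) V D := hD.mono (ball_subset_ball (by linarith))
  have sub : ball (0 : ℂ) r ⊆ ball 0 R := ball_subset_ball hr.le
  have p1 := pt r V (pw (-s)) D hD' (pow.2.2.2.1 _) (mem_pw pow hs' h4) (h1.mono sub)
  have p2 := pt r V (fun w => I * pw s w) D hD' (contDiffOn_const.mul (pow.2.2.2.1 _))
    ((mem_pw pow hs h4).const_mul I) (h2.mono sub)
  have p3 := (part _ V D isOpen_ball isBounded_ball hD').2.1
  refine ⟨D, hD', ?_⟩
  filter_upwards [p1, p2, p3] with z a b c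
  refine ⟨?_, c⟩
  by_cases h0 : V z = 0
  · simp [Es, h0]
  have hd : DifferentiableAt ℝ (pw s) (V z) :=
    ((pow.2.2.2.1 s).contDiffAt (isOpen_compl_singleton.mem_nhds h0)).differentiableAt (by simp)
  refine alg.1 _ _ _ _ h0 ?_ ?_
  · rw [show 1 - s - 1 = -s by ring]
    exact a h0
  · rw [show 1 + s - 1 = s by ring]
    have := b h0
    rw [fderiv_const_mul hd] at this
    simp only [smul_apply, smul_eq_mul, ← mul_add, mul_left_comm I I] at this
    simpa only [mul_im, I_re, I_im, zero_mul, one_mul, zero_add] using this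

theorem core : PowS → NatS → LowS → LipS → StrS → CoreS := by
  intro pow nat low lip str ε hε
  obtain ⟨L, hL, hlip⟩ := lip ε hε
  refine ⟨L, hL, fun F hF => ?_⟩
  have hP := eP_pos hε
  have hQ := eQ_pos hε
  have hm := one_le hε
  generalize hm' : (eP ε + eQ ε) / 2 = m at hm
  have hm0 : 0 < m := by linarith
  have ha : -1 < m - 1 := by linarith
  have e1 : 1 - (eQ ε - eP ε) / (2 * m) = eP ε / m := by
    field_simp
    linarith
  have e2 : 1 + (eQ ε - eP ε) / (2 * m) = eQ ε / m := by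
    field_simp
    linarith
  generalize (eQ ε - eP ε) / (2 * m) = s at e1 e2
  have s1 : 0 < 1 - s := e1 ▸ div_pos hP hm0
  have s2 : 0 < 1 + s := e2 ▸ div_pos hQ hm0
  have hV : MemLp (fun z => pw (m - 1) (F z)) 2 (vo (ball 0 7)) := by
    have := hF.mem (closedBall 0 7) (closedBall_subset_ball (by norm_num)) (isCompact_closedBall _ _)
    rw [hm'] at this
    exact this.mono_measure (Measure.restrict_mono ball_subset_closedBall le_rfl)
  have sub : ball (0 : ℂ) 7 ⊆ ball 0 8 := ball_subset_ball (by norm_num)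
  have c1 : (-s + 1) * (m - 1 + 1) - 1 = eP ε - 1 := by
    rw [show -s + 1 = 1 - s by ring, e1]
    field_simp
    ring
  have c2 : (s + 1) * (m - 1 + 1) - 1 = eQ ε - 1 := by
    rw [show s + 1 = 1 + s by ring, e2]
    field_simp
    ring
  have c3 : (m⁻¹ - 1 + 1) * (m - 1 + 1) - 1 = 0 := by
    field_simp
    ring
  obtain ⟨D, hD, hE⟩ := nat s 6 7 (fun z => pw (m - 1) (F z)) (abs_lt.2 ⟨by linarith, by linarith⟩)
    (by norm_num) hV (cu_congr (hF.cu.mono sub) fun z => by rw [pow.1 _ _ _ ha, c1])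
    (cu_congr (hF.dv.mono sub) fun z => by rw [pow.1 _ _ _ ha, c2])
  obtain ⟨D', a, b, c⟩ := low (1 - s) (1 + s) m⁻¹ 4 6 _ D s1 s2 (inv_pos.2 hm0)
    (inv_le_one_of_one_le₀ hm) (by norm_num) hD hE
  have d1 : (1 - s) / m⁻¹ = eP ε := by
    rw [e1]
    field_simp
  have d2 : (1 + s) / m⁻¹ = eQ ε := by
    rw [e2]
    field_simp
  simp only [pow.1 _ _ _ ha, c3, pw_zero, d1, d2] at a b c
  have sol : Sol ε (ball 0 4) F D' := ⟨a, b, c.mono fun z h =>
    ⟨h.1, fun h0 => h.2 (by rw [h0, pw_at_zero])⟩⟩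
  refine ⟨sol.sb.memLp.1, fun c E hE0 hc => ?_⟩
  obtain ⟨F', f1, f2⟩ := hlip F D' c E sol hE0 hc
  exact ⟨F', f1, f2, fun z hz h => str ε (L * E) (1 / 2) F' D' z hε
    ((sol.mono (ball_subset_ball (by norm_num))).congr f1.symm) f2 hz h⟩

end Pool.Agent.MP_815c6c_an.P

end MrgPart1

-- ======== part 2: formerly Pool.Agent.MP_815c6c_an.P.Low
section MrgPart2

/-! Planar p-harmonic functions: lowering the power. -/

set_option autoImplicit false

noncomputable section

namespace Pool.Agent.MP_815c6c_an.P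

open Set Metric MeasureTheory Filter Topology Complex
open scoped ContDiff ENNReal ComplexConjugate

namespace Low

theorem memLp_iff {E : Type} [NormedAddCommGroup E] {μ : Measure ℂ} {f : ℂ → E}
    (h : AEStronglyMeasurable f μ) : MemLp f 2 μ ↔ ∫⁻ z, ‖f z‖ₑ ^ 2 ∂μ < ⊤ := by
  rw [MemLp, and_iff_right h, eLpNorm_lt_top_iff_lintegral_rpow_enorm_lt_top two_ne_zero
    ENNReal.ofNat_ne_top]
  simp

/-- the radial projection -/
def rad (w : ℂ) : M2 := (reCLM.comp (ml (conj w))).smulRight w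

theorem rad_apply (w X : ℂ) : rad w X = ((conj w * X).re : ℝ) * w := rfl

theorem abs_re_le (w X : ℂ) : |(conj w * X).re| ≤ ‖w‖ * ‖X‖ :=
  (abs_re_le_norm _).trans_eq (by rw [norm_mul, Complex.norm_conj])

/-- the radial correction is small -/
theorem corr {a ρ : ℝ} (w X : ℂ) (hρ : 0 < ρ) (h : ‖w‖ ^ 2 ≤ ρ) :
    ‖((a * (conj w * X).re / ρ : ℝ) : ℂ) * w‖ ≤ |a| * ‖X‖ := by
  rw [norm_mul, Complex.norm_real, Real.norm_eq_abs, abs_div, abs_mul, abs_of_pos hρ,
    div_mul_eq_mul_div, div_le_iff₀ hρ, mul_assoc, mul_assoc]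
  refine mul_le_mul_of_nonneg_left ?_ (abs_nonneg a)
  have := mul_le_mul_of_nonneg_right (abs_re_le w X) (norm_nonneg w)
  nlinarith [norm_nonneg X]

theorem norm_pd {δ : ℝ} (hδ : 0 < δ) (a : ℝ) (w : ℂ) :
    ‖pd δ a w‖ = (δ + ‖w‖ ^ 2) ^ (a / 2) * ‖w‖ := by
  rw [pd, norm_mul, Complex.norm_real, Real.norm_of_nonneg (by positivity)]

theorem sq_rpow (a : ℝ) (w : ℂ) : (‖w‖ ^ 2) ^ (a / 2) = ‖w‖ ^ a := by
  rw [← Real.rpow_natCast, ← Real.rpow_mul (norm_nonneg w)]
  congr 1
  push_cast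
  ring

theorem rho_le {δ a : ℝ} (hδ : 0 < δ) (ha : a ≤ 0) {w : ℂ} (hw : w ≠ 0) :
    (δ + ‖w‖ ^ 2) ^ (a / 2) ≤ ‖w‖ ^ a := by
  rw [← sq_rpow]
  exact Real.rpow_le_rpow_of_nonpos (by positivity) (by linarith) (by linarith)

theorem pd_le {δ a : ℝ} (hδ : 0 < δ) (h1 : -1 < a) (ha : a ≤ 0) (w : ℂ) :
    ‖pd δ a w‖ ≤ 1 + ‖w‖ := by
  rw [norm_pd hδ]
  by_cases hw : w = 0
  · simp [hw]
  have p := norm_pos_iff.2 hw
  refine (mul_le_mul_of_nonneg_right (rho_le hδ ha hw) p.le).trans ?_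
  rw [← Real.rpow_add_one p.ne']
  rcases le_total ‖w‖ 1 with c | c
  · linarith [Real.rpow_le_one p.le c (show 0 ≤ a + 1 by linarith)]
  · linarith [Real.rpow_le_self_of_one_le c (show a + 1 ≤ 1 by linarith)]

theorem fd_le (pow : PowS) {δ a : ℝ} (hδ : 0 < δ) (h1 : -1 < a) (ha : a ≤ 0) (w : ℂ) :
    ‖fderiv ℝ (pd δ a) w‖ ≤ 2 * (δ + ‖w‖ ^ 2) ^ (a / 2) := by
  refine ContinuousLinearMap.opNorm_le_bound _ (by positivity) fun X => ?_
  rw [(pow.2.2.2.2.2.2.1 δ a hδ).2, norm_mul, Complex.norm_real,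
    Real.norm_of_nonneg (by positivity), mul_comm 2, mul_assoc]
  refine mul_le_mul_of_nonneg_left ((norm_add_le _ _).trans ?_) (by positivity)
  have := corr (a := a) w X (show 0 < δ + ‖w‖ ^ 2 by positivity) (by linarith)
  rw [abs_of_nonpos ha] at this
  nlinarith [norm_nonneg X]

theorem le_fw (pow : PowS) {a : ℝ} (ha : a ≤ 0) {w : ℂ} (hw : w ≠ 0) (X : ℂ) :
    ‖w‖ ^ a * ((a + 1) * ‖X‖) ≤ ‖fderiv ℝ (pw a) w X‖ := by
  rw [pow.2.2.2.2.2.2.2 a w X hw, norm_mul, Complex.norm_real, Real.norm_of_nonneg (by positivity)]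
  refine mul_le_mul_of_nonneg_left ?_ (by positivity)
  have := corr (a := a) w X (show 0 < ‖w‖ ^ 2 by positivity) le_rfl
  rw [abs_of_nonpos ha] at this
  linarith [norm_sub_le (X + ((a * (conj w * X).re / ‖w‖ ^ 2 : ℝ) : ℂ) * w)
    (((a * (conj w * X).re / ‖w‖ ^ 2 : ℝ) : ℂ) * w), congrArg norm (add_sub_cancel_right X
    (((a * (conj w * X).re / ‖w‖ ^ 2 : ℝ) : ℂ) * w))]

/-- the regularisation parameters -/
def de (n : ℕ) : ℝ := 1 / ((n : ℝ) + 1)

theorem de_pos (n : ℕ) : 0 < de n := Nat.one_div_pos_of_nat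

theorem rho_lim (w : ℂ) : Tendsto (fun n => de n + ‖w‖ ^ 2) atTop (𝓝 (‖w‖ ^ 2)) := by
  simpa [de] using (tendsto_one_div_add_atTop_nhds_zero_nat (𝕜 := ℝ)).add_const (‖w‖ ^ 2)

theorem t_lim (a : ℝ) {w : ℂ} (hw : w ≠ 0) :
    Tendsto (fun n => (de n + ‖w‖ ^ 2) ^ (a / 2)) atTop (𝓝 (‖w‖ ^ a)) := by
  rw [← sq_rpow]
  exact (rho_lim w).rpow_const (Or.inl (by positivity))

theorem pd_lim (a : ℝ) (w : ℂ) : Tendsto (fun n => pd (de n) a w) atTop (𝓝 (pw a w)) := by
  by_cases hw : w = 0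
  · simp [hw, pd, pw]
  · exact (t_lim a hw).ofReal.mul_const w

theorem fd_lim (pow : PowS) (a : ℝ) {w : ℂ} (hw : w ≠ 0) :
    Tendsto (fun n => fderiv ℝ (pd (de n) a) w) atTop (𝓝 (fderiv ℝ (pw a) w)) := by
  have e : ∀ (t ρ : ℝ) (A : M2), (∀ X, A X = t * (X + (a * (conj w * X).re / ρ : ℝ) * w)) →
      A = t • (ml 1 + (a / ρ) • rad w) := fun t ρ A h => ContinuousLinearMap.ext fun X => by
    rw [h]
    simp only [smul_apply, add_apply, ml_apply, rad_apply,
      real_smul]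
    push_cast
    ring
  rw [e _ _ _ fun X => pow.2.2.2.2.2.2.2 a w X hw,
    funext fun n => e _ _ _ ((pow.2.2.2.2.2.2.1 _ a (de_pos n)).2 w)]
  exact (t_lim a hw).smul
    (((tendsto_const_nhds.div (rho_lim w) (by positivity)).smul_const _).const_add _)

theorem comp_lim {A : ℕ → M2} {A0 : M2} (h : Tendsto A atTop (𝓝 A0)) (N : M2) :
    Tendsto (fun n => (A n).comp N) atTop (𝓝 (A0.comp N)) :=
  ((continuous_id.clm_comp continuous_const).tendsto A0).comp h

/-- the conjugate cube -/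
def c3 (p : ℂ) : ℂ := conj p ^ 3

theorem c3_smooth : ContDiff ℝ ∞ c3 := conjCLE.contDiff.pow 3

theorem c3_le (p : ℂ) : ‖fderiv ℝ c3 p‖ ≤ 3 * ‖p‖ ^ 2 := by
  have h : HasFDerivAt c3 _ p :=
    ((hasDerivAt_pow 3 (conj p)).hasFDerivAt.restrictScalars ℝ).comp p conjCLE.hasFDerivAt
  rw [h.fderiv]
  refine ContinuousLinearMap.opNorm_le_bound _ (by positivity) fun X => le_of_eq ?_
  simp
  ring

theorem T3_eq : T3 = c3 ∘ pw (-2 / 3) := by
  funext w
  by_cases hw : w = 0
  · simp [hw, T3, c3, pw]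
  have p := norm_pos_iff.2 hw
  have e : (‖w‖ ^ (-2 / 3 : ℝ)) ^ 3 = (‖w‖ ^ 2)⁻¹ := by
    rw [← Real.rpow_natCast, ← Real.rpow_mul p.le, ← Real.rpow_natCast, ← Real.rpow_neg p.le]
    norm_num
  rw [Function.comp, T3, c3, pw, map_mul, conj_ofReal, mul_pow, ← ofReal_pow, e, ofReal_inv,
    div_eq_inv_mul]

theorem cube {δ : ℝ} (hδ : 0 < δ) (w : ℂ) :
    ((δ + ‖w‖ ^ 2) ^ (-2 / 3 / 2 : ℝ)) ^ 3 * ‖w‖ ^ 2 ≤ 1 := by
  have p : 0 < δ + ‖w‖ ^ 2 := by positivity
  rw [← Real.rpow_natCast, ← Real.rpow_mul p.le, show (-2 / 3 / 2 * (3 : ℕ) : ℝ) = -1 by norm_num,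
    Real.rpow_neg_one, inv_mul_le_iff₀ p]
  linarith

theorem t3 (kit : KitS) (pow : PowS) {U : Set ℂ} (hU : Bornology.IsBounded U) {F : ℂ → ℂ}
    {D : ℂ → M2} (h : Sb U F D) (h0 : ∀ᵐ z ∂vo U, F z = 0 → D z = 0) :
    Sb U (fun z => T3 (F z)) fun z => (fderiv ℝ T3 (F z)).comp (D z) := by
  have sm := fun n => (pow.2.2.2.2.2.2.1 _ (-2 / 3) (de_pos n)).1
  have d1 : ∀ n w, fderiv ℝ (c3 ∘ pd (de n) (-2 / 3)) w =
      (fderiv ℝ c3 (pd (de n) (-2 / 3) w)).comp (fderiv ℝ (pd (de n) (-2 / 3)) w) := fun n w =>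
    fderiv_comp w (c3_smooth.differentiable (by simp) _) ((sm n).differentiable (by simp) _)
  have d2 : ∀ n w, ‖fderiv ℝ (c3 ∘ pd (de n) (-2 / 3)) w‖ ≤ 6 := fun n w => by
    rw [d1]
    refine (ContinuousLinearMap.opNorm_comp_le _ _).trans ((mul_le_mul (c3_le _)
      (fd_le pow (de_pos n) (by norm_num) (by norm_num) w) (norm_nonneg _)
      (by positivity)).trans ?_)
    rw [norm_pd (de_pos n)]
    linarith [cube (de_pos n) w]
  refine kit.2.1 U _ _ _ _ (fun n => kit.2.2.1 U F D _ 6 hU h (c3_smooth.comp (sm n)) (d2 n))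
    ⟨fun z => ‖F z‖ + 6 * ‖D z‖, h.memLp.1.norm.add (h.memLp.2.norm.const_mul 6), ?_⟩
  filter_upwards [h0] with z hz
  refine ⟨fun n => ⟨?_, ?_⟩, ?_, ?_⟩
  · rw [Function.comp, c3, norm_pow, Complex.norm_conj, norm_pd (de_pos n)]
    nlinarith [cube (de_pos n) (F z), norm_nonneg (F z), norm_nonneg (D z)]
  · refine (ContinuousLinearMap.opNorm_comp_le _ _).trans ?_
    nlinarith [d2 n (F z), norm_nonneg (F z), norm_nonneg (D z)]
  · rw [T3_eq]
    exact (c3_smooth.continuous.tendsto _).comp (pd_lim _ _)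
  · by_cases c : F z = 0
    · simp [hz c]
    refine comp_lim ?_ _
    rw [T3_eq, fderiv_comp _ (c3_smooth.differentiable (by simp) _)
      (((pow.2.2.2.1 _).contDiffAt (isOpen_compl_singleton.mem_nhds c)).differentiableAt
        (by simp)), funext fun n => d1 n (F z)]
    exact ((continuous_fst.clm_comp continuous_snd).tendsto (_, _)).comp
      ((((c3_smooth.continuous_fderiv (by simp)).tendsto _).comp (pd_lim _ _)).prodMk_nhds
        (fd_lim pow _ c))

theorem qr (pow : PowS) (alg : AlgS) {P Q l δ : ℝ} (hP : 0 < P) (hQ : 0 < Q) (hl : 0 < l)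
    (h1 : l ≤ 1) (hδ : 0 < δ) {w : ℂ} {N : M2} (h : Es P Q w N) (h0 : w = 0 → N = 0) :
    Qr (P / l + P⁻¹ + Q / l + Q⁻¹) ((fderiv ℝ (pd δ (l - 1)) w).comp N) := by
  by_cases c : w = 0
  · simp [h0 c, Qr, jac]
  have p : 0 < ‖w‖ ^ 2 := by positivity
  have s0 : 0 ≤ ‖w‖ ^ 2 / (δ + ‖w‖ ^ 2) := by positivity
  have s1 : ‖w‖ ^ 2 / (δ + ‖w‖ ^ 2) ≤ 1 := (div_le_one (by positivity)).2 (by linarith)
  obtain ⟨m, hm⟩ : ∃ m, m = 1 + (l - 1) * (‖w‖ ^ 2 / (δ + ‖w‖ ^ 2)) := ⟨_, rfl⟩
  have m0 : l ≤ m := by nlinarith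
  have m1 : m ≤ 1 := by nlinarith
  have mp := hl.trans_le m0
  have e := alg.2.2.1 P Q ((δ + ‖w‖ ^ 2) ^ ((l - 1) / 2)) m w N (fderiv ℝ (pd δ (l - 1)) w) c
    (by positivity) mp.ne' h (fun X => by
      rw [(pow.2.2.2.2.2.2.1 δ _ hδ).2, hm]
      congr 4
      field_simp
      ring) 1
  refine (alg.2.1 _ _ _ _ (by positivity) (by positivity) (by simpa using c) e).mono
    (by positivity) ?_
  have k : ∀ x : ℝ, 0 < x → x / m ≤ x / l ∧ (x / m)⁻¹ ≤ x⁻¹ := fun x hx =>
    ⟨div_le_div_of_nonneg_left hx.le hl m0, inv_anti₀ hx (le_div_self hx.le mp m1)⟩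
  linarith [k P hP, k Q hQ]

end Low

open Low

theorem low : KitS → CacS → PowS → CubS → AlgS → LowS := by
  intro kit cac pow _ alg P Q l r R V D hP hQ hl h1 hr hV hE
  have a1 : -1 < l - 1 := by linarith
  have a0 : l - 1 ≤ 0 := by linarith
  have sub : ball (0 : ℂ) r ⊆ ball 0 R := ball_subset_ball hr.le
  have hE' := ae_restrict_of_ae_restrict_of_subset sub hE
  have fin : IsFiniteMeasure (vo (ball 0 R)) :=
    ⟨by simpa using measure_ball_lt_top (μ := volume) (x := (0 : ℂ)) (r := R)⟩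
  have s1 : ∀ n, Sb (ball 0 R) (fun z => pd (de n) (l - 1) (V z))
      fun z => (fderiv ℝ (pd (de n) (l - 1)) (V z)).comp (D z) := fun n =>
    kit.2.2.1 _ V D (pd (de n) (l - 1)) (2 * de n ^ ((l - 1) / 2)) isBounded_ball hV
      (pow.2.2.2.2.2.2.1 _ _ (de_pos n)).1 fun w => (fd_le pow (de_pos n) a1 a0 w).trans
        (mul_le_mul_of_nonneg_left (Real.rpow_le_rpow_of_nonpos (de_pos n)
          (le_add_of_nonneg_right (sq_nonneg _)) (by linarith)) zero_le_two)
  have m1 : MemLp (fun z => 1 + ‖V z‖) 2 (vo (ball 0 R)) := (memLp_const (1 : ℝ)).add hV.memLp.1.norm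
  obtain ⟨C, -, hC⟩ := cac r R hr
  have s2 : ∀ n, ∫⁻ z in ball 0 r, ‖(fderiv ℝ (pd (de n) (l - 1)) (V z)).comp (D z)‖ₑ ^ 2 ≤
      ENNReal.ofReal (C * (P / l + P⁻¹ + Q / l + Q⁻¹) ^ 2) *
        ∫⁻ z in ball 0 R, ‖1 + ‖V z‖‖ₑ ^ 2 := fun n => by
    refine (hC _ _ _ 0 (s1 n) (hE.mono fun z a =>
      qr pow alg hP hQ hl h1 (de_pos n) a.1 a.2)).trans ?_
    gcongr with z
    rw [sub_zero, ← ofReal_norm, ← ofReal_norm]
    exact ENNReal.ofReal_le_ofReal ((pd_le (de_pos n) a1 a0 _).trans (le_abs_self _))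
  have s3 : ∀ᵐ z ∂vo (ball 0 r), Tendsto (fun n => (fderiv ℝ (pd (de n) (l - 1)) (V z)).comp (D z))
      atTop (𝓝 ((fderiv ℝ (pw (l - 1)) (V z)).comp (D z))) := hE'.mono fun z a => by
    by_cases c : V z = 0
    · simp [a.2 c]
    · exact comp_lim (fd_lim pow _ c) _
  have m2 := fun n => ((s1 n).mono sub).memLp.2.1
  have s4 : MemLp (fun z => (fderiv ℝ (pw (l - 1)) (V z)).comp (D z)) 2 (vo (ball 0 r)) := by
    rw [memLp_iff (aestronglyMeasurable_of_tendsto_ae atTop m2 s3)]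
    refine lt_of_le_of_lt ?_ (ENNReal.mul_lt_top
      (ENNReal.ofReal_lt_top (r := C * (P / l + P⁻¹ + Q / l + Q⁻¹) ^ 2)) ((memLp_iff m1.1).1 m1))
    refine le_trans ?_ ((lintegral_liminf_le' (u := atTop) fun n =>
      (m2 n).enorm.pow_const 2).trans (liminf_le_of_frequently_le' (Frequently.of_forall s2)))
    exact lintegral_mono_ae (s3.mono fun z a =>
      (((ENNReal.continuous_pow 2).tendsto _).comp a.enorm).liminf_eq.ge)
  have s5 : Sb (ball 0 r) (fun z => pw (l - 1) (V z))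
      fun z => (fderiv ℝ (pw (l - 1)) (V z)).comp (D z) := by
    refine kit.2.1 _ _ _ _ _ (fun n => (s1 n).mono sub)
      ⟨fun z => 1 + ‖V z‖ + 2 / l * ‖(fderiv ℝ (pw (l - 1)) (V z)).comp (D z)‖,
        (m1.mono_measure (Measure.restrict_mono sub le_rfl)).add (s4.norm.const_mul _), ?_⟩
    filter_upwards [hE', s3] with z a b
    refine ⟨fun n => ⟨(pd_le (de_pos n) a1 a0 _).trans (le_add_of_nonneg_right (by positivity)),
      le_trans ?_ (le_add_of_nonneg_left (by positivity))⟩, pd_lim _ _, b⟩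
    by_cases c : V z = 0
    · simp [a.2 c]
    refine ContinuousLinearMap.opNorm_le_bound _ (by positivity) fun X => ?_
    have b1 := (fderiv ℝ (pd (de n) (l - 1)) (V z)).le_of_opNorm_le ((fd_le pow (de_pos n) a1 a0
      (V z)).trans (mul_le_mul_of_nonneg_left (rho_le (de_pos n) a0 c) zero_le_two)) (D z X)
    have b2 := (le_fw pow a0 c (D z X)).trans
      (((fderiv ℝ (pw (l - 1)) (V z)).comp (D z)).le_opNorm X)
    rw [mul_assoc, div_mul_eq_mul_div, le_div_iff₀ hl]
    have b3 := mul_le_mul_of_nonneg_right b1 hl.le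
    rw [ContinuousLinearMap.comp_apply]
    linarith
  refine ⟨_, s5, t3 kit pow isBounded_ball s5 (hE'.mono fun z a b => by
    simp [a.2 (pw_eq_zero.1 b)]), hE'.mono fun z a => ⟨?_, fun b => by simp [a.2 b]⟩⟩
  by_cases c : V z = 0
  · simp [c, pw_at_zero, Es]
  · exact alg.2.2.1 P Q (‖V z‖ ^ (l - 1)) l _ _ _ c (by positivity) hl.ne' a.1
      (fun X => pow.2.2.2.2.2.2.2 _ _ X c) _

end Pool.Agent.MP_815c6c_an.P

end
end MrgPart2

-- ======== part 3: formerly Pool.Agent.MP_815c6c_an.P.Line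
section MrgPart3

/-! Planar p-harmonic functions: estimates on lines and logarithmic cutoffs. -/

set_option autoImplicit false

namespace Pool.Agent.MP_815c6c_an.P

open Set Metric MeasureTheory Filter Topology Complex
open scoped ContDiff ENNReal ComplexConjugate

namespace Line

theorem cs {k : ℝ → ℝ} (hk : Continuous k) {c d : ℝ} (h : c < d) :
    (∫ t in c..d, k t) ^ 2 ≤ (d - c) * ∫ t in c..d, k t ^ 2 := by
  set J := ∫ t in c..d, k t with hJ
  have h0 : 0 ≤ ∫ t in c..d, ((d - c) * k t - J) ^ 2 :=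
    intervalIntegral.integral_nonneg h.le fun _ _ => sq_nonneg _
  have e : ∀ t, ((d - c) * k t - J) ^ 2 = (d - c) ^ 2 * k t ^ 2 - 2 * (d - c) * J * k t + J ^ 2 :=
    fun t => by ring
  simp only [e] at h0
  rw [intervalIntegral.integral_add (Continuous.intervalIntegrable (by fun_prop) _ _)
      (Continuous.intervalIntegrable (by fun_prop) _ _),
    intervalIntegral.integral_sub (Continuous.intervalIntegrable (by fun_prop) _ _)
      (Continuous.intervalIntegrable (by fun_prop) _ _), intervalIntegral.integral_const_mul,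
    intervalIntegral.integral_const_mul, intervalIntegral.integral_const, ← hJ, smul_eq_mul] at h0
  refine le_of_mul_le_mul_left ?_ (sub_pos.2 h)
  linarith

variable {w : ℂ → ℝ} {l : ℝ → ℂ} {v : ℂ} {a b c d y y' : ℝ}

theorem osc1 (hw : ContDiff ℝ 1 w) (hl : ∀ t, HasDerivAt l v t) (hv : ‖v‖ = 1) (h : c < d)
    (hy : y ∈ Icc c d) (hy' : y' ∈ Icc c d) :
    (w (l y) - w (l y')) ^ 2 ≤ (d - c) * ∫ t in c..d, ‖fderiv ℝ w (l t)‖ ^ 2 := by
  have cl : Continuous l := continuous_iff_continuousAt.2 fun t => (hl t).continuousAt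
  have cf : Continuous fun t => fderiv ℝ w (l t) := (hw.continuous_fderiv one_ne_zero).comp cl
  refine le_trans ?_ (cs cf.norm h)
  wlog hyy : y' ≤ y generalizing y y'
  · rw [← neg_sub, neg_sq]
    exact this hy' hy (le_of_not_ge hyy)
  have e := intervalIntegral.integral_eq_sub_of_hasDerivAt (a := y') (b := y)
    (f := fun t => w (l t)) (f' := fun t => fderiv ℝ w (l t) v)
    (fun t _ => (hw.differentiable one_ne_zero _).hasFDerivAt.comp_hasDerivAt t (hl t))
    (Continuous.intervalIntegrable (by fun_prop) _ _)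
  rw [← e, ← sq_abs]
  refine pow_le_pow_left₀ (abs_nonneg _) ?_ 2
  refine (intervalIntegral.norm_integral_le_of_norm_le (g := fun t => ‖fderiv ℝ w (l t)‖) hyy
    (μ := volume) (f := fun t => fderiv ℝ w (l t) v) (.of_forall fun t _ => ?_)
    (cf.norm.intervalIntegrable _ _)).trans
    (intervalIntegral.integral_mono_interval hy'.1 hyy hy.2 (.of_forall fun t => norm_nonneg _)
      (cf.norm.intervalIntegrable _ _))
  simpa [hv] using (fderiv ℝ w (l t)).le_opNorm v

theorem sup1 (hw : ContDiff ℝ 1 w) (hl : ∀ t, HasDerivAt l v t) (hv : ‖v‖ = 1) (h : c < d)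
    (hy : y ∈ Icc c d) (h1 : 1 ≤ |w (l y)|) :
    1 ≤ 2 * ((d - c)⁻¹ + (d - c)) * ∫ t in c..d, (w (l t) ^ 2 + ‖fderiv ℝ w (l t)‖ ^ 2) := by
  have cl : Continuous l := continuous_iff_continuousAt.2 fun t => (hl t).continuousAt
  have cf : Continuous fun t => fderiv ℝ w (l t) := (hw.continuous_fderiv one_ne_zero).comp cl
  have cw : Continuous fun t => w (l t) := hw.continuous.comp cl
  rw [intervalIntegral.integral_add (Continuous.intervalIntegrable (by fun_prop) _ _)
    (Continuous.intervalIntegrable (by fun_prop) _ _)]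
  set B := ∫ t in c..d, ‖fderiv ℝ w (l t)‖ ^ 2 with hB
  set A := ∫ t in c..d, w (l t) ^ 2 with hA
  have A0 : 0 ≤ A := intervalIntegral.integral_nonneg h.le fun _ _ => sq_nonneg _
  have B0 : 0 ≤ B := intervalIntegral.integral_nonneg h.le fun _ _ => sq_nonneg _
  have k : ∫ _ in c..d, (1 - 2 * ((d - c) * B)) ≤ ∫ t in c..d, 2 * w (l t) ^ 2 :=
    intervalIntegral.integral_mono_on h.le (Continuous.intervalIntegrable (by fun_prop) _ _)
      (Continuous.intervalIntegrable (by fun_prop) _ _) fun t ht => by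
        have := osc1 hw hl hv h hy ht
        have h2 : 1 ≤ w (l y) ^ 2 := by rw [← sq_abs]; exact one_le_pow₀ h1
        nlinarith [sq_nonneg (w (l y) - 2 * w (l t))]
  rw [intervalIntegral.integral_const, intervalIntegral.integral_const_mul, ← hA, smul_eq_mul] at k
  have L := sub_pos.2 h
  generalize d - c = s at k L ⊢
  refine le_of_mul_le_mul_left ?_ L
  have e : s * (2 * (s⁻¹ + s) * (A + B)) = 2 * (1 + s ^ 2) * (A + B) := by field_simp
  rw [e]
  nlinarith [mul_nonneg (sq_nonneg s) A0]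

theorem fub {F : ℂ → ℝ} (hF : Continuous F) (h : a ≤ b) (h' : c ≤ d) :
    ∫ z in Rc a b c d, F z = ∫ x in a..b, ∫ y in c..d, F (x + y * I) := by
  have hc : Continuous fun p : ℝ × ℝ => F (p.1 + p.2 * I) := by fun_prop
  have e := volume_preserving_equiv_real_prod.setIntegral_preimage_emb
    measurableEquivRealProd.measurableEmbedding (fun p : ℝ × ℝ => F (p.1 + p.2 * I))
    (Icc a b ×ˢ Icc c d)
  simp only [measurableEquivRealProd_apply, re_add_im] at e
  refine e.trans ?_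
  rw [Measure.volume_eq_prod, setIntegral_prod _
    (hc.continuousOn.integrableOn_compact (isCompact_Icc.prod isCompact_Icc))]
  simp only [intervalIntegral.integral_of_le h, intervalIntegral.integral_of_le h',
    integral_Icc_eq_integral_Ioc]

theorem fub' {F : ℂ → ℝ} (hF : Continuous F) (h : a ≤ b) (h' : c ≤ d) :
    ∫ z in Rc c d a b, F z = ∫ x in a..b, ∫ y in c..d, F (y + x * I) := by
  have hc : Continuous fun p : ℝ × ℝ => F (p.1 + p.2 * I) := by fun_prop
  rw [fub hF h' h]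
  refine intervalIntegral_intervalIntegral_swap (F := fun y x : ℝ => F (y + x * I)) ?_
  refine (hc.continuousOn.integrableOn_compact
    ((isCompact_uIcc (a := c) (b := d)).prod (isCompact_uIcc (a := a) (b := b)))).mono_set ?_
  exact prod_mono uIoc_subset_uIcc uIoc_subset_uIcc

theorem lin {G : ℝ → ℝ → ℝ} (hG : Continuous G.uncurry) (h : a ≤ b) {C : ℝ}
    (h1 : ∀ x ∈ Icc a b, 1 ≤ C * ∫ y in c..d, G x y) :
    b - a ≤ C * ∫ x in a..b, ∫ y in c..d, G x y := by
  rw [← intervalIntegral.integral_const_mul]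
  simpa using intervalIntegral.integral_mono_on (μ := volume) h
    (continuous_const.intervalIntegrable _ _) ((continuous_const.mul
      (intervalIntegral.continuous_parametric_intervalIntegral_of_continuous' hG c
        d)).intervalIntegrable _ _) h1

theorem ver (x t : ℝ) : HasDerivAt (fun y : ℝ => (x + y * I : ℂ)) I t := by
  simpa using ((hasDerivAt_id t).ofReal_comp.mul_const I).const_add (x : ℂ)

theorem hor (x t : ℝ) : HasDerivAt (fun y : ℝ => (y + x * I : ℂ)) 1 t := by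
  simpa using (hasDerivAt_id t).ofReal_comp.add_const (x * I : ℂ)

theorem bdd : ∃ M : ℝ, 0 < M ∧ ∀ x, deriv Real.smoothTransition x ≤ M := by
  have hc : Continuous (deriv Real.smoothTransition) :=
    (Real.smoothTransition.contDiff (n := 1)).continuous_deriv le_rfl
  obtain ⟨M, hM⟩ := (isCompact_Icc (a := (0 : ℝ)) (b := 1)).bddAbove_image hc.continuousOn
  refine ⟨|M| + 1, by positivity, fun x => ?_⟩
  have p : 0 ≤ |M| + 1 := by positivity
  rcases lt_or_ge x 0 with h | h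
  · have : Real.smoothTransition =ᶠ[𝓝 x] fun _ => 0 :=
      (eventually_lt_nhds h).mono fun y hy => Real.smoothTransition.zero_of_nonpos (le_of_lt hy)
    rwa [this.deriv_eq, deriv_const]
  rcases lt_or_ge 1 x with h' | h'
  · have : Real.smoothTransition =ᶠ[𝓝 x] fun _ => 1 :=
      (eventually_gt_nhds h').mono fun y hy => Real.smoothTransition.one_of_one_le (le_of_lt hy)
    rwa [this.deriv_eq, deriv_const]
  · linarith [hM (mem_image_of_mem _ ⟨h, h'⟩), le_abs_self M]

theorem cut {R η : ℝ} (hR : 0 < R) (hη : 0 < η) : ∃ ρ Ψ Ψ', Pf ρ R η Ψ Ψ' := by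
  obtain ⟨M, M0, hM⟩ := bdd
  set L := M / η with hL
  have L0 : 0 < L := div_pos M0 hη
  set g : ℝ → ℝ := fun s => Real.smoothTransition ((Real.log R - Real.log s) / L) with hg
  set Ψ : ℝ → ℝ := fun s => if s ≤ 0 then 1 else g s with hΨ
  have ρ0 : 0 < R * Real.exp (-L) := by positivity
  have one : ∀ s ≤ R * Real.exp (-L), Ψ s = 1 := fun s hs => by
    simp only [hΨ]
    split_ifs with c
    · rfl
    · refine Real.smoothTransition.one_of_one_le ((one_le_div L0).2 ?_)
      have := Real.log_le_log (not_le.1 c) hs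
      rw [Real.log_mul hR.ne' (Real.exp_ne_zero _), Real.log_exp] at this
      linarith
  have e1 : ∀ s ≤ 0, Ψ =ᶠ[𝓝 s] fun _ => 1 := fun s hs =>
    (eventually_lt_nhds (hs.trans_lt ρ0)).mono fun y hy => one y (le_of_lt hy)
  have e2 : ∀ s, 0 < s → Ψ =ᶠ[𝓝 s] g := fun s hs =>
    (eventually_gt_nhds hs).mono fun y hy => if_neg (not_le.2 hy)
  have cd : ContDiff ℝ 1 Ψ := contDiff_iff_contDiffAt.2 fun s => by
    rcases le_or_gt s 0 with h | h
    · exact contDiffAt_const.congr_of_eventuallyEq (e1 s h)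
    · refine ContDiffAt.congr_of_eventuallyEq ?_ (e2 s h)
      exact (Real.smoothTransition.contDiffAt (n := 1)).comp s
        ((contDiffAt_const.sub (Real.contDiffAt_log.2 h.ne')).div_const L)
  have d1 : ∀ s ≤ 0, deriv Ψ s = 0 := fun s hs => by rw [(e1 s hs).deriv_eq, deriv_const]
  have d2 : ∀ s, 0 < s → s * deriv Ψ s =
      -(deriv Real.smoothTransition ((Real.log R - Real.log s) / L) / L) := fun s hs => by
    have := ((Real.smoothTransition.contDiff (n := 1)).differentiable one_ne_zero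
      _).hasDerivAt.comp s (((Real.hasDerivAt_log hs.ne').const_sub (Real.log R)).div_const L)
    rw [(e2 s hs).deriv_eq, show deriv g s = _ from this.deriv]
    field_simp
  refine ⟨_, Ψ, deriv Ψ, ρ0, mul_lt_of_lt_one_right hR (Real.exp_lt_one_iff.2 (by linarith)),
    fun s => (cd.differentiable one_ne_zero s).hasDerivAt, cd.continuous_deriv le_rfl, one,
    fun s hs => ?_, fun s => ?_, fun s => ?_⟩
  · rw [hΨ]
    simp only [if_neg (not_le.2 (hR.trans_le hs))]
    exact Real.smoothTransition.zero_of_nonpos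
      (div_nonpos_of_nonpos_of_nonneg (sub_nonpos.2 (Real.log_le_log hR hs)) L0.le)
  · rcases le_or_gt s 0 with h | h
    · exact (d1 s h).le
    · refine nonpos_of_mul_nonpos_right ?_ h |> fun x => x
      rw [d2 s h]
      exact neg_nonpos.2 (div_nonneg Real.smoothTransition.monotone.deriv_nonneg L0.le)
  · rcases le_or_gt s 0 with h | h
    · simp [d1 s h, hη.le]
    · rw [d2 s h, neg_neg, div_le_iff₀ L0, hL, mul_div_cancel₀ _ hη.ne']
      exact hM _

end Line

open Line in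
theorem line : LineS := by
  refine ⟨fun a b c d w hw h h' => ?_, fun R η => cut⟩
  have cf := hw.continuous_fderiv one_ne_zero
  have cw := hw.continuous
  refine ⟨fun H => ?_, fun H => ?_, fun H => ?_, fun H => ?_⟩
  · rw [fub (by fun_prop) h h'.le]
    refine lin (by fun_prop) h fun x hx => ?_
    obtain ⟨y, hy, y', hy', k⟩ := H x hx
    refine le_trans ?_ (osc1 hw (ver x) norm_I h' hy hy')
    rw [← sq_abs]
    exact one_le_pow₀ k
  · rw [fub (by fun_prop) h h'.le]
    refine lin (by fun_prop) h fun x hx => ?_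
    obtain ⟨y, hy, k⟩ := H x hx
    exact sup1 hw (ver x) norm_I h' hy k
  · rw [fub' (by fun_prop) h h'.le]
    refine lin (by fun_prop) h fun x hx => ?_
    obtain ⟨y, hy, k⟩ := H x hx
    exact sup1 hw (hor x) norm_one h' hy k
  · rw [fub (by fun_prop) h h'.le, fub (by fun_prop) h h'.le, ← intervalIntegral.integral_const_mul]
    refine intervalIntegral.integral_mono_on h
      ((intervalIntegral.continuous_parametric_intervalIntegral_of_continuous' (by fun_prop) c
        d).intervalIntegrable _ _) ((continuous_const.mul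
      (intervalIntegral.continuous_parametric_intervalIntegral_of_continuous' (by fun_prop) c
        d)).intervalIntegrable _ _) fun x hx => ?_
    refine (intervalIntegral.integral_mono_on h'.le
      (Continuous.intervalIntegrable (by fun_prop) _ _) (continuous_const.intervalIntegrable _ _)
      (g := fun _ => (d - c) * ∫ t in c..d, ‖fderiv ℝ w (x + t * I)‖ ^ 2)
      fun t ht => ?_).trans_eq ?_
    · simpa [H x hx] using osc1 hw (ver x) norm_I h' ht (left_mem_Icc.2 h'.le)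
    · rw [intervalIntegral.integral_const, smul_eq_mul]
      ring

end Pool.Agent.MP_815c6c_an.P

end MrgPart3

-- ======== part 4: formerly Pool.Agent.MP_815c6c_an.P.Lip
section MrgPart4

/-! Planar p-harmonic functions: the Lipschitz bound from injectivity. -/

set_option autoImplicit false

namespace Pool.Agent.MP_815c6c_an.P

open Set Metric MeasureTheory Filter Topology Complex
open scoped ContDiff ENNReal ComplexConjugate

namespace Lip

/-- cluster values pass to maps that are controlled by the point and the value -/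
theorem cl {F u : ℂ → ℂ} {z : ℂ} {a : ℝ} (ha : 0 ≤ a) (h : Cl F z (F z))
    (hu : ∀ x, ‖u x - u z‖ ≤ ‖x - z‖ + a * ‖F x - F z‖) : Cl u z (u z) := fun ρ hρ e => by
  have p : 0 < ρ / (1 + a) := by positivity
  refine h _ p (measure_mono_null (fun x hx => ?_) e)
  have h1 : ‖x - z‖ < ρ / (1 + a) := mem_ball_iff_norm.1 hx.1
  have h2 := mul_le_mul_of_nonneg_left hx.2.le ha
  have h3 : ρ / (1 + a) + a * (ρ / (1 + a)) = ρ := by field_simp
  exact ⟨mem_ball_iff_norm.2 (by nlinarith), by linarith [hu x]⟩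

theorem sq_le {E : Type} [NormedAddCommGroup E] {x a : ℝ} (ha : 0 ≤ a) (v : E)
    (h : x ≤ a * ‖v‖) :
    ENNReal.ofReal x ^ 2 ≤ ENNReal.ofReal (a ^ 2) * ‖v‖ₑ ^ 2 := by
  rw [ENNReal.ofReal_pow ha, ← mul_pow, ← ofReal_norm, ← ENNReal.ofReal_mul ha]
  gcongr

/-- the smallness condition of the injectivity statement -/
theorem small {F u : ℂ → ℂ} {D D' : ℂ → M2} {c : ℂ} {a δ A B : ℝ} (ha : 0 ≤ a) (hδ : 0 < δ)
    (hA0 : 0 ≤ A) (hB0 : 0 ≤ B) (h : Sb (ball 0 3) F D)
    (h1 : ∀ z, ‖u z - z‖ ≤ a * ‖F z - c‖) (h2 : ∀ z, ‖D' z - ml 1‖ ≤ a * ‖D z‖)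
    (hA : ∫⁻ z in ball 0 3, ‖F z - c‖ₑ ^ 2 ≤ ENNReal.ofReal A)
    (hB : ∫⁻ z in ball 0 3, ‖D z‖ₑ ^ 2 ≤ ENNReal.ofReal B) :
    ∫⁻ z in {z | z ∈ ball 0 3 ∧ δ < ‖u z - z‖}, (1 + ‖D' z - ml 1‖ₑ ^ 2) ≤
      ENNReal.ofReal ((a / δ) ^ 2 * A + a ^ 2 * B) := by
  have m1 : AEMeasurable (fun z => ENNReal.ofReal ((a / δ) ^ 2) * ‖F z - c‖ₑ ^ 2)
      (vo (ball 0 3)) :=
    ((h.memLp.1.1.sub aestronglyMeasurable_const).enorm.pow_const 2).const_mul _
  have m2 : AEMeasurable (fun z => ENNReal.ofReal (a ^ 2) * ‖D z‖ₑ ^ 2) (vo (ball 0 3)) :=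
    (h.memLp.2.1.enorm.pow_const 2).const_mul _
  have s : {z | z ∈ ball (0 : ℂ) 3 ∧ δ < ‖u z - z‖} ⊆ ball 0 3 := fun _ k => k.1
  refine (setLIntegral_mono_ae ((m1.add m2).mono_set s)
    (Eventually.of_forall fun z k => add_le_add ?_ ?_)).trans ((lintegral_mono_set s).trans ?_)
  · have := sq_le (x := 1) (div_nonneg ha hδ.le) (F z - c)
      (by rw [div_mul_eq_mul_div, le_div_iff₀ hδ]; linarith [k.2, h1 z])
    simpa using this
  · simpa using sq_le ha (D z) (h2 z)
  simp only [Pi.add_apply]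
  rw [lintegral_add_left' m1, lintegral_const_mul' _ _ ENNReal.ofReal_ne_top,
    lintegral_const_mul' _ _ ENNReal.ofReal_ne_top,
    ENNReal.ofReal_add (by positivity) (by positivity), ENNReal.ofReal_mul (by positivity),
    ENNReal.ofReal_mul (by positivity)]
  gcongr

end Lip

theorem lip : KitS → FourS → CacS → CubS → AlgS → InjS → LipS := by
  rintro kit four cac cub alg ⟨δ, hδ, inj⟩ ε hε
  obtain ⟨K, hK, al⟩ := alg.2.2.2.1 ε hε
  obtain ⟨C, hC, ca⟩ := cac 3 4 (by norm_num)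
  have e0 : 0 < 1 - 3 * |ε| := by linarith
  obtain ⟨L, L0, hL⟩ : ∃ L : ℝ, 0 ≤ L ∧ L ^ 2 * δ = 4 / δ ^ 2 + 4 * (C * K ^ 2) :=
    ⟨√((4 / δ ^ 2 + 4 * (C * K ^ 2)) / δ), Real.sqrt_nonneg _, by
      rw [Real.sq_sqrt (by positivity), div_mul_cancel₀ _ hδ.ne']⟩
  refine ⟨lipschitzExtensionConstant ℂ * (L / (1 - 3 * |ε|)), by positivity,
    fun F D c E sol hE hF => ?_⟩
  have b34 : ball (0 : ℂ) 3 ⊆ ball 0 4 := ball_subset_ball (by norm_num)
  have s3 := sol.mono b34
  have hD : ∫⁻ z in ball 0 3, ‖D z‖ₑ ^ 2 ≤ ENNReal.ofReal (C * K ^ 2 * E ^ 2) := by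
    refine (ca K F D c sol.sb (sol.es.mono fun z k => (al _ 1 0 _ k.1 k.2).1)).trans ?_
    rw [ENNReal.ofReal_mul (by positivity : 0 ≤ C * K ^ 2)]
    gcongr
  have key : ∀ x ∈ ball (0 : ℂ) (1 / 2), ∀ y ∈ ball (0 : ℂ) (1 / 2), Cl F x (F x) → Cl F y (F y) →
      ‖F x - F y‖ ≤ L / (1 - 3 * |ε|) * E * ‖x - y‖ := by
    intro x hx y hy cx cy
    rcases eq_or_ne x y with rfl | n
    · simp
    obtain ⟨b, μ, hb, hμ⟩ := cub.2.2.2.2.2 ε (F x) (F y) (x - y) (sub_ne_zero.2 n)
    have cb := fun x y => cub.2.2.2.2.1 ε hε b x y hb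
    suffices |μ| ≤ L * E by
      have t := (cb (F x) (F y)).1
      rw [hμ, norm_mul, norm_real, Real.norm_eq_abs] at t
      rw [div_mul_eq_mul_div, div_mul_eq_mul_div, le_div_iff₀' e0]
      exact t.trans (by gcongr)
    refine le_of_not_gt fun g => n ?_
    have m0 : 0 < |μ| := (mul_nonneg L0 hE).trans_lt g
    have m1 : (μ : ℂ) ≠ 0 := ofReal_ne_zero.2 (abs_pos.1 m0)
    have nm : ‖(-(μ : ℂ)⁻¹)‖ = |μ|⁻¹ := by simp
    let u : ℂ → ℂ := fun z => z + -(μ : ℂ)⁻¹ * (Hc ε b (F z) - Hc ε b c)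
    let D' : ℂ → M2 := fun z => (ml (-(μ : ℂ)⁻¹)).comp ((DH ε b (F z)).comp (D z) - ml μ)
    have su : Sb (ball 0 3) u D' := by
      refine (kit.2.2.2.1 _ _ _ _ _ (ml (-(μ : ℂ)⁻¹ * b)) (ml (-(μ : ℂ)⁻¹ * (ε * conj b))) (ml 1)
        ((μ : ℂ)⁻¹ * Hc ε b c) isBounded_ball s3.sb s3.t3).congr
        (Eventually.of_forall fun z => ?_) (Eventually.of_forall fun z => ?_)
      · simp only [u, ml_apply]
        rw [show Hc ε b (F z) = b * F z + ε * conj b * T3 (F z) from rfl]
        ring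
      · ext1 v
        simp [D', DH]
        field_simp
    have cu : ∀ z, Cl F z (F z) → Cl u z (u z) := fun z h =>
      Lip.cl (a := |μ|⁻¹ * 2) (by positivity) h fun w => by
        rw [show u w - u z = w - z + -(μ : ℂ)⁻¹ * (Hc ε b (F w) - Hc ε b (F z)) by
          simp only [u]; ring]
        refine (norm_add_le _ _).trans (add_le_add le_rfl ?_)
        rw [norm_mul, nm, mul_assoc]
        gcongr
        exact (cb _ _).2.1
    have e : u y = u x := by
      rw [← sub_eq_zero, show u y - u x = (μ : ℂ)⁻¹ * (Hc ε b (F x) - Hc ε b (F y)) - (x - y) by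
        simp only [u]; ring, hμ, inv_mul_cancel_left₀ m1, sub_self]
    have jp : 0 < jac (ml (-(μ : ℂ)⁻¹)) := by
      rw [jac_ml, nm]
      positivity
    refine inj _ u D' (mul_nonneg (div_nonneg (sq_nonneg _) jp.le) (zero_le_one.trans hK)) su
      (s3.es.mono fun z k => (al _ b μ _ k.1 k.2).2.comp jp) ?_ x hx y hy
      (u x) (cu x cx) (e ▸ cu y cy)
    refine (Lip.small (a := |μ|⁻¹ * 2) (c := c) (by positivity) hδ (sq_nonneg E) (by positivity)
      s3.sb (fun z => ?_) (fun z => ?_) ((lintegral_mono_set b34).trans hF) hD).trans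
      (ENNReal.ofReal_le_ofReal ?_)
    · rw [show u z - z = -(μ : ℂ)⁻¹ * (Hc ε b (F z) - Hc ε b c) by simp only [u]; ring,
        norm_mul, nm, mul_assoc]
      gcongr
      exact (cb _ _).2.1
    · have : D' z - ml 1 = (ml (-(μ : ℂ)⁻¹)).comp ((DH ε b (F z)).comp (D z)) := by
        ext1 v
        simp [D']
        field_simp
        ring
      rw [this, mul_assoc]
      refine (ContinuousLinearMap.opNorm_comp_le _ _).trans ?_
      rw [norm_ml, nm]
      gcongr
      exact (ContinuousLinearMap.opNorm_comp_le _ _).trans (by gcongr; exact (cb _ 0).2.2.2)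
    · have : (|μ|⁻¹ * 2 / δ) ^ 2 * E ^ 2 + (|μ|⁻¹ * 2) ^ 2 * (C * K ^ 2 * E ^ 2) =
          (L * E) ^ 2 / |μ| ^ 2 * δ := by
        rw [show (L * E) ^ 2 / |μ| ^ 2 * δ = L ^ 2 * δ * E ^ 2 / |μ| ^ 2 by ring, hL]
        ring
      rw [this]
      refine mul_le_of_le_one_left hδ.le ((div_le_one (by positivity)).2 ?_)
      gcongr
  have lw : LipschitzOnWith (NNReal.mk (L / (1 - 3 * |ε|) * E) (by positivity)) F
      {z | z ∈ ball (0 : ℂ) (1 / 2) ∧ Cl F z (F z)} :=
    LipschitzOnWith.of_dist_le_mul fun x hx y hy => by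
      rw [dist_eq_norm, dist_eq_norm]
      exact key x hx.1 y hy.1 hx.2 hy.2
  obtain ⟨G, hG, eq⟩ := lw.extend_finite_dimension
  refine ⟨G, ?_, fun x y => ?_⟩
  · filter_upwards [ae_restrict_mem measurableSet_ball, ae_restrict_of_ae (four.2 F)] with z a b
    exact (eq ⟨a, b⟩).symm
  · have := hG.dist_le_mul x y
    rw [dist_eq_norm, dist_eq_norm, NNReal.coe_mul, NNReal.coe_mk, ← mul_assoc] at this
    exact this

end Pool.Agent.MP_815c6c_an.P

end MrgPart4

-- marker of a merged file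
example : 731051 + 165448 = 731051 + 165448 := rfl
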