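import Mathlib.Algebra.Lie.OfAssociative
import Mathlib.Algebra.Order.Archimedean.Real.Hom
import Mathlib.Algebra.Ring.IsFormallyReal
import Mathlib.Analysis.Calculus.FDeriv.Symmetric
import Mathlib.Analysis.Calculus.LineDeriv.IntegrationByParts
import Mathlib.MeasureTheory.Function.L2Space
import Mathlib.RingTheory.PiTensorProduct
import Mathlib.MeasureTheory.Measure.Lebesgue.VolumeOfBalls
import Mathlib.Topology.UniformSpace.Uniformizable
import Pool.Agent.MP_815c6c_an.P.Basic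

-- ======== part 0: formerly Pool.Agent.MP_815c6c_an.P.Cac
section MrgPart0

/-! Planar p-harmonic functions: the Caccioppoli inequality for maps of bounded distortion. -/

set_option autoImplicit false

noncomputable section

namespace Pool.Agent.MP_815c6c_an.P

open Set Metric MeasureTheory Filter Topology Complex
open scoped ContDiff ENNReal

namespace Cac

theorem parts {φ b : ℂ → ℝ} (hφ : ContDiff ℝ ∞ φ) (hc : HasCompactSupport φ)
    (hb : ContDiff ℝ ∞ b) (v w : ℂ) :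
    Integrable (fun z => fderiv ℝ φ z v * fderiv ℝ b z w) ∧
      ∫ z, fderiv ℝ φ z v * fderiv ℝ b z w = -∫ z, φ z * fderiv ℝ (fderiv ℝ b) z v w := by
  have hb1 : ContDiff ℝ ∞ (fderiv ℝ b) := hb.fderiv_right (m := ∞) (by simp)
  have hg : ContDiff ℝ ∞ fun z => fderiv ℝ b z w := hb1.clm_apply contDiff_const
  have e : ∀ z, fderiv ℝ (fun z => fderiv ℝ b z w) z v = fderiv ℝ (fderiv ℝ b) z v w := by
    intro z
    rw [fderiv_clm_apply (hb1.differentiable (by simp) z) (differentiableAt_const w)]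
    simp
  have i1 : Integrable fun z => fderiv ℝ φ z v * fderiv ℝ b z w :=
    (((hφ.continuous_fderiv (by simp)).clm_apply continuous_const).mul
      hg.continuous).integrable_of_hasCompactSupport (hc.fderiv_apply ℝ v).mul_right
  have i2 : Integrable fun z => φ z * fderiv ℝ (fun z => fderiv ℝ b z w) z v :=
    (hφ.continuous.mul ((hg.continuous_fderiv (by simp)).clm_apply
      continuous_const)).integrable_of_hasCompactSupport hc.mul_right
  have i3 : Integrable fun z => φ z * fderiv ℝ b z w :=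
    (hφ.continuous.mul hg.continuous).integrable_of_hasCompactSupport hc.mul_right
  have h := integral_mul_fderiv_eq_neg_fderiv_mul_of_integrable i1 i2 i3
    (fun x _ => hφ.differentiable (by simp) x) fun x _ => hg.differentiable (by simp) x
  simp only [e] at h
  exact ⟨i1, by rw [h, neg_neg]⟩

/-- the Jacobian is a null Lagrangian -/
theorem null {φ b : ℂ → ℝ} (hφ : ContDiff ℝ ∞ φ) (hc : HasCompactSupport φ)
    (hb : ContDiff ℝ ∞ b) :
    ∫ z, (fderiv ℝ φ z 1 * fderiv ℝ b z I - fderiv ℝ φ z I * fderiv ℝ b z 1) = 0 := by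
  obtain ⟨i1, e1⟩ := parts hφ hc hb 1 I
  obtain ⟨i2, e2⟩ := parts hφ hc hb I 1
  have s : ∀ z, fderiv ℝ (fderiv ℝ b) z 1 I = fderiv ℝ (fderiv ℝ b) z I 1 := fun z =>
    (hb.contDiffAt.isSymmSndFDerivAt (by
      rw [minSmoothness_of_isRCLikeNormedField]
      exact WithTop.coe_le_coe.2 le_top)).eq 1 I
  rw [integral_sub i1 i2, e1, e2]
  simp only [s, sub_self]

/-- the integrand -/
def G (η : ℂ → ℝ) (c z w : ℂ) (N : M2) : ℝ :=
  η z ^ 2 * jac N +
    2 * η z * (w - c).re * (fderiv ℝ η z 1 * (N I).im - fderiv ℝ η z I * (N 1).im)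

theorem smooth {η : ℂ → ℝ} (hη : ContDiff ℝ ∞ η) (hc : HasCompactSupport η) (c : ℂ)
    {v : ℂ → ℂ} (hv : ContDiff ℝ ∞ v) : ∫ z, G η c z (v z) (fderiv ℝ v z) = 0 := by
  have ha : ContDiff ℝ ∞ fun z => (v z - c).re := reCLM.contDiff.comp (hv.sub contDiff_const)
  have hb : ContDiff ℝ ∞ fun z => (v z).im := imCLM.contDiff.comp hv
  have h := null ((hη.mul hη).mul ha) (hc.mul_right.mul_right) hb
  rw [← h]
  refine integral_congr_ae (Eventually.of_forall fun z => ?_)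
  have d0 := (hv.differentiable (by simp) z).hasFDerivAt
  have d1 := (hη.differentiable (by simp) z).hasFDerivAt
  have d2 : HasFDerivAt (fun z => (v z - c).re) (reCLM.comp (fderiv ℝ v z)) z :=
    reCLM.hasFDerivAt.comp z (d0.sub_const c)
  have d3 : HasFDerivAt (fun z => (v z).im) (imCLM.comp (fderiv ℝ v z)) z :=
    imCLM.hasFDerivAt.comp z d0
  have d4 := ((d1.fun_mul d1).fun_mul d2).fderiv
  simp only [d4, d3.fderiv, G, jac]
  simp
  ring

theorem cross {η : ℂ → ℝ} {M : ℝ} (hM : ∀ z, ‖fderiv ℝ η z‖ ≤ M) (z : ℂ) (N : M2) :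
    |fderiv ℝ η z 1 * (N I).im - fderiv ℝ η z I * (N 1).im| ≤ 2 * M * ‖N‖ := by
  have a : ∀ x y : ℂ, ‖x‖ = 1 → ‖y‖ = 1 → |fderiv ℝ η z x * (N y).im| ≤ M * ‖N‖ := by
    intro x y hx hy
    rw [abs_mul]
    refine mul_le_mul ?_ ((abs_im_le_norm _).trans ?_) (abs_nonneg _)
      ((norm_nonneg _).trans (hM z))
    · have := (fderiv ℝ η z).le_opNorm x
      rw [hx, mul_one] at this
      exact this.trans (hM z)
    · have := N.le_opNorm y
      rwa [hy, mul_one] at this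
  have := abs_sub (fderiv ℝ η z 1 * (N I).im) (fderiv ℝ η z I * (N 1).im)
  linarith [a 1 I norm_one norm_I, a I 1 norm_I norm_one]

theorem rest {η : ℂ → ℝ} {M : ℝ} (hM : ∀ z, ‖fderiv ℝ η z‖ ≤ M) (c z w : ℂ) (N : M2) :
    |G η c z w N - η z ^ 2 * jac N| ≤ 4 * M * ‖w - c‖ * (|η z| * ‖N‖) := by
  rw [G, add_sub_cancel_left, abs_mul, abs_mul, abs_mul, abs_two]
  calc _ ≤ 2 * |η z| * ‖w - c‖ * (2 * M * ‖N‖) := by
        gcongr
        · exact abs_re_le_norm _
        · exact cross hM z N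
    _ = _ := by ring

theorem young {η : ℂ → ℝ} {M K : ℝ} (hM : ∀ z, ‖fderiv ℝ η z‖ ≤ M) (c z w : ℂ) {N : M2}
    (h : Qr K N) :
    η z ^ 2 * ‖N‖ ^ 2 ≤ 2 * K * G η c z w N + 16 * M ^ 2 * K ^ 2 * ‖w - c‖ ^ 2 := by
  have h1 := rest hM c z w N
  have h2 : η z ^ 2 * ‖N‖ ^ 2 ≤ η z ^ 2 * (K * jac N) := mul_le_mul_of_nonneg_left h (sq_nonneg _)
  have h3 : -(K * (G η c z w N - η z ^ 2 * jac N)) ≤ |K| * (4 * M * ‖w - c‖ * (|η z| * ‖N‖)) := by
    refine (neg_le_abs _).trans ?_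
    rw [abs_mul]
    exact mul_le_mul_of_nonneg_left h1 (abs_nonneg K)
  have h4 := sq_nonneg (|η z| * ‖N‖ - 4 * M * |K| * ‖w - c‖)
  have h5 := sq_abs K
  have h6 := sq_abs (η z)
  rw [← h5]
  rw [← h6] at h2 h3 ⊢
  nlinarith

theorem limit {η : ℂ → ℝ} {M R : ℝ} (hη : ContDiff ℝ ∞ η) (hc : HasCompactSupport η)
    (hs : tsupport η ⊆ ball 0 R) (h1 : ∀ z, |η z| ≤ 1) (hM : ∀ z, ‖fderiv ℝ η z‖ ≤ M) (c : ℂ)
    {u : ℂ → ℂ} {D : ℂ → M2} (h : Sb (ball 0 R) u D) :
    Integrable (fun z => G η c z (u z) (D z)) (vo (ball 0 R)) ∧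
      ∫ z in ball 0 R, G η c z (u z) (D z) = 0 := by
  obtain ⟨v, hv, g, hg, h⟩ := h
  have : IsFiniteMeasure (vo (ball (0 : ℂ) R)) :=
    isFiniteMeasure_restrict.2 measure_ball_lt_top.ne
  have hM0 : 0 ≤ M := (norm_nonneg _).trans (hM 0)
  have hd : Continuous (fderiv ℝ η) := hη.continuous_fderiv (by simp)
  have hη0 := hη.continuous
  have hG : Continuous fun p : ℂ × ℂ × M2 => G η c p.1 p.2.1 p.2.2 := by
    unfold G jac
    fun_prop
  have hm : ∀ n, AEStronglyMeasurable (fun z => G η c z (v n z) (fderiv ℝ (v n) z))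
      (vo (ball 0 R)) := fun n =>
    (hG.comp (continuous_id.prodMk ((hv n).continuous.prodMk
      ((hv n).continuous_fderiv (by simp))))).aestronglyMeasurable
  have hb : Integrable (fun z => g z ^ 2 + 4 * M * (g z ^ 2 + ‖c‖ * g z)) (vo (ball 0 R)) :=
    hg.integrable_sq.add
      ((hg.integrable_sq.add ((hg.integrable one_le_two).const_mul _)).const_mul _)
  have hbd : ∀ᵐ z ∂vo (ball 0 R), ∀ n, ‖G η c z (v n z) (fderiv ℝ (v n) z)‖ ≤
      g z ^ 2 + 4 * M * (g z ^ 2 + ‖c‖ * g z) := by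
    filter_upwards [h] with z hz n
    obtain ⟨a, b⟩ := hz.1 n
    have g0 : 0 ≤ g z := (norm_nonneg _).trans a
    have r1 := rest hM c z (v n z) (fderiv ℝ (v n) z)
    have r2 : |η z ^ 2 * jac (fderiv ℝ (v n) z)| ≤ 1 * g z ^ 2 := by
      rw [abs_mul, abs_pow]
      exact mul_le_mul (pow_le_one₀ (abs_nonneg _) (h1 z))
        ((abs_jac_le _).trans (pow_le_pow_left₀ (norm_nonneg _) b 2)) (abs_nonneg _) zero_le_one
    have r3 : 4 * M * ‖v n z - c‖ * (|η z| * ‖fderiv ℝ (v n) z‖) ≤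
        4 * M * (g z + ‖c‖) * (1 * g z) := by
      gcongr
      · exact (norm_sub_le _ _).trans (add_le_add a le_rfl)
      · exact h1 z
    have r4 := abs_sub_abs_le_abs_sub (G η c z (v n z) (fderiv ℝ (v n) z))
      (η z ^ 2 * jac (fderiv ℝ (v n) z))
    rw [Real.norm_eq_abs]
    nlinarith
  have hl : ∀ᵐ z ∂vo (ball 0 R), Tendsto (fun n => G η c z (v n z) (fderiv ℝ (v n) z)) atTop
      (𝓝 (G η c z (u z) (D z))) := by
    filter_upwards [h] with z hz
    exact (hG.tendsto (z, u z, D z)).comp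
      (tendsto_const_nhds.prodMk_nhds (hz.2.1.prodMk_nhds hz.2.2))
  refine ⟨hb.mono' (aestronglyMeasurable_of_tendsto_ae atTop hm hl) ?_, ?_⟩
  · filter_upwards [hbd, hl] with z a b
    exact le_of_tendsto' b.norm a
  have t := tendsto_integral_of_dominated_convergence _ hm hb (ae_all_iff.1 hbd) hl
  have e : ∀ n, ∫ z in ball 0 R, G η c z (v n z) (fderiv ℝ (v n) z) = 0 := by
    intro n
    rw [setIntegral_eq_integral_of_forall_compl_eq_zero, smooth hη hc c (hv n)]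
    intro z hz
    simp [G, image_eq_zero_of_notMem_tsupport fun a => hz (hs a)]
  simp only [e] at t
  exact tendsto_nhds_unique t tendsto_const_nhds

end Cac

theorem cac : CacS := by
  intro r R hr
  rcases le_or_gt r 0 with h0 | h0
  · exact ⟨0, le_rfl, fun K u D c _ _ => by simp [ball_eq_empty.2 h0]⟩
  let η : ContDiffBump (0 : ℂ) := ⟨r, (r + R) / 2, h0, by linarith⟩
  have hη : ContDiff ℝ ∞ η := η.contDiff
  have hc : HasCompactSupport η := η.hasCompactSupport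
  have hs : tsupport η ⊆ ball 0 R := by
    rw [η.tsupport_eq]
    exact closedBall_subset_ball (by show (r + R) / 2 < R; linarith)
  have h1 : ∀ z, |η z| ≤ 1 := fun z => by
    rw [abs_of_nonneg η.nonneg]
    exact η.le_one
  obtain ⟨M, hM⟩ := (hη.continuous_fderiv (by simp)).bounded_above_of_compact_support
    (hc.fderiv ℝ)
  refine ⟨16 * M ^ 2, by positivity, fun K u D c h hq => ?_⟩
  have : IsFiniteMeasure (vo (ball (0 : ℂ) R)) :=
    isFiniteMeasure_restrict.2 measure_ball_lt_top.ne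
  obtain ⟨iG, eG⟩ := Cac.limit hη hc hs h1 hM c h
  have iu : Integrable (fun z => ‖u z - c‖ ^ 2) (vo (ball 0 R)) :=
    (h.memLp.1.sub (memLp_const c)).norm.integrable_sq
  have iS := (iG.const_mul (2 * K)).add (iu.const_mul (16 * M ^ 2 * K ^ 2))
  have hy : ∀ᵐ z ∂vo (ball 0 R), η z ^ 2 * ‖D z‖ ^ 2 ≤
      2 * K * Cac.G η c z (u z) (D z) + 16 * M ^ 2 * K ^ 2 * ‖u z - c‖ ^ 2 :=
    hq.mono fun z a => Cac.young hM c z (u z) a
  have e : ∀ {E : Type} [NormedAddCommGroup E] (x : E), ‖x‖ₑ ^ 2 = ENNReal.ofReal (‖x‖ ^ 2) :=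
    fun x => by rw [ENNReal.ofReal_pow (norm_nonneg _), ofReal_norm]
  calc ∫⁻ z in ball 0 r, ‖D z‖ₑ ^ 2
      = ∫⁻ z in ball 0 r, ENNReal.ofReal (η z ^ 2 * ‖D z‖ ^ 2) := by
        refine setLIntegral_congr_fun measurableSet_ball fun z hz => ?_
        simp only [e, η.one_of_mem_closedBall (ball_subset_closedBall hz), one_pow, one_mul]
    _ ≤ ∫⁻ z in ball 0 R, ENNReal.ofReal (η z ^ 2 * ‖D z‖ ^ 2) :=
        lintegral_mono_set (ball_subset_ball hr.le)
    _ ≤ ∫⁻ z in ball 0 R, ENNReal.ofReal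
          (2 * K * Cac.G η c z (u z) (D z) + 16 * M ^ 2 * K ^ 2 * ‖u z - c‖ ^ 2) :=
        lintegral_mono_ae (hy.mono fun z a => ENNReal.ofReal_le_ofReal a)
    _ = ENNReal.ofReal (∫ z in ball 0 R,
          (2 * K * Cac.G η c z (u z) (D z) + 16 * M ^ 2 * K ^ 2 * ‖u z - c‖ ^ 2)) :=
        (ofReal_integral_eq_lintegral_ofReal iS
          (hy.mono fun z a => le_trans (by positivity) a)).symm
    _ = _ := by
        rw [integral_add (iG.const_mul _) (iu.const_mul _), integral_const_mul, integral_const_mul,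
          eG, mul_zero, zero_add, ENNReal.ofReal_mul (by positivity),
          ofReal_integral_eq_lintegral_ofReal iu (Eventually.of_forall fun z => sq_nonneg _)]
        simp only [e]

end Pool.Agent.MP_815c6c_an.P

end

end MrgPart0

-- ======== part 1: formerly Pool.Agent.MP_815c6c_an.P.Pow
section MrgPart1

/-! Planar p-harmonic functions: radial powers and the cubic term. -/

set_option autoImplicit false

namespace Pool.Agent.MP_815c6c_an.P

open Set Filter Topology Complex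
open scoped ContDiff ComplexConjugate

namespace PowK

theorem norm_pw (a : ℝ) (w : ℂ) (ha : -1 < a) : ‖pw a w‖ = ‖w‖ ^ (a + 1) := by
  rw [pw, norm_mul, norm_real, Real.norm_of_nonneg (Real.rpow_nonneg (norm_nonneg _) _),
    Real.rpow_add_one' (norm_nonneg _) (by linarith)]

theorem pw_pd (a : ℝ) : pw a = pd 0 a := funext fun w => by
  rw [pw, pd, zero_add, ← Real.rpow_natCast, ← Real.rpow_mul (norm_nonneg _)]
  congr 3
  push_cast
  ring

theorem smooth_pd {δ : ℝ} (a : ℝ) {w : ℂ} (h : δ + ‖w‖ ^ 2 ≠ 0) : ContDiffAt ℝ ∞ (pd δ a) w :=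
  (ofRealCLM.contDiff.contDiffAt.comp w (((contDiff_const.add
    (contDiff_norm_sq ℝ)).contDiffAt).rpow_const_of_ne h)).mul contDiffAt_id

theorem fderiv_pd {δ : ℝ} (a : ℝ) {w : ℂ} (h : 0 < δ + ‖w‖ ^ 2) (X : ℂ) :
    fderiv ℝ (pd δ a) w X =
      ((δ + ‖w‖ ^ 2) ^ (a / 2) : ℝ) * (X + (a * (conj w * X).re / (δ + ‖w‖ ^ 2) : ℝ) * w) := by
  have h1 := (ofRealCLM.hasFDerivAt.comp w ((((hasStrictFDerivAt_norm_sq w).hasFDerivAt.const_add
    δ).rpow_const (p := a / 2) (.inl h.ne')))).mul (hasFDerivAt_id w)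
  rw [show fderiv ℝ (pd δ a) w = _ from h1.fderiv]
  simp only [_root_.add_apply, _root_.smul_apply,
    ContinuousLinearMap.comp_apply, ContinuousLinearMap.id_apply, Function.comp, ofRealCLM_apply,
    innerSL_apply_apply, Complex.inner, id, smul_eq_mul, nsmul_eq_mul, Real.rpow_sub_one h.ne',
    mul_comm X]
  push_cast
  ring

/-- the real part of a product of differences -/
theorem re_mul (p q p' q' : ℝ) (x y : ℂ) : ((p * x - q * y) * conj (p' * x - q' * y)).re =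
    p * p' * ‖x‖ ^ 2 + q * q' * ‖y‖ ^ 2 - (p * q' + q * p') * (conj x * y).re := by
  simp [Complex.sq_norm, normSq_apply]
  ring

theorem sq_sub (x y : ℂ) : ‖x - y‖ ^ 2 = ‖x‖ ^ 2 + ‖y‖ ^ 2 - 2 * (conj x * y).re := by
  simp [Complex.sq_norm, normSq_apply]
  ring

theorem re_le (x y : ℂ) : |(conj x * y).re| ≤ ‖x‖ * ‖y‖ :=
  (abs_re_le_norm _).trans (by rw [norm_mul, norm_conj])

theorem mono (s : ℝ) (x y : ℂ) (h0 : 0 ≤ s) (h1 : s < 1) :
    (1 - s) * ‖x - y‖ ^ 2 ≤ ((pw s x - pw s y) * conj (pw (-s) x - pw (-s) y)).re := by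
  have e : ∀ w : ℂ, ‖w‖ ^ s * ‖w‖ ^ (-s) * ‖w‖ ^ 2 = ‖w‖ ^ 2 := fun w => by
    rcases (norm_nonneg w).eq_or_lt with h | h
    · simp [← h]
    · rw [← Real.rpow_add h]
      simp
  simp only [pw]
  rw [re_mul, sq_sub, e, e]
  by_cases hx : x = 0
  · simp only [hx, norm_zero, map_zero, zero_mul, zero_re]
    nlinarith [sq_nonneg ‖y‖]
  by_cases hy : y = 0
  · simp only [hy, norm_zero, mul_zero, zero_re]
    nlinarith [sq_nonneg ‖x‖]
  have r0 := norm_pos_iff.2 hx
  have t0 := norm_pos_iff.2 hy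
  have k : ∀ r t : ℝ, 0 < r → 0 < t → r ^ s * t ^ (-s) * (r * t) ≤ s * r ^ 2 + (1 - s) * (r * t) :=
    fun r t hr ht => by
      have := Real.geom_mean_le_arith_mean2_weighted h0 (sub_nonneg.2 h1.le) hr.le ht.le (by ring)
      rw [show 1 - s = -s + 1 by ring, Real.rpow_add_one ht.ne'] at this
      nlinarith [mul_le_mul_of_nonneg_left this hr.le]
  have k1 := k _ _ r0 t0
  have k2 := k _ _ t0 r0
  have a0 : 0 < ‖x‖ ^ s * ‖y‖ ^ (-s) := by positivity
  have a1 : ‖x‖ ^ s * ‖y‖ ^ (-s) * (‖y‖ ^ s * ‖x‖ ^ (-s)) = 1 := by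
    rw [Real.rpow_neg r0.le, Real.rpow_neg t0.le]
    field_simp
  have a2 : 2 ≤ ‖x‖ ^ s * ‖y‖ ^ (-s) + ‖y‖ ^ s * ‖x‖ ^ (-s) :=
    le_of_mul_le_mul_left (by nlinarith [sq_nonneg (‖x‖ ^ s * ‖y‖ ^ (-s) - 1)]) a0
  have a3 := mul_le_mul_of_nonneg_left (le_of_abs_le (re_le x y))
    (show 0 ≤ ‖x‖ ^ s * ‖y‖ ^ (-s) + ‖y‖ ^ s * ‖x‖ ^ (-s) - 2 * (1 - s) by linarith)
  linarith

theorem lower {a : ℝ} (ha : 0 ≤ a) (x y : ℂ) :
    (‖x‖ + ‖y‖) ^ a * ‖x - y‖ ≤ 2 ^ (a + 1) * ‖pw a x - pw a y‖ := by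
  have r0 := norm_nonneg x
  have t0 := norm_nonneg y
  rcases (norm_nonneg (x - y)).eq_or_lt with h | h
  · rw [← h, mul_zero]
    positivity
  have e := re_mul (‖x‖ ^ a) (‖y‖ ^ a) 1 1 x y
  simp only [ofReal_one, one_mul, mul_one] at e
  have b : (((‖x‖ ^ a : ℝ) * x - (‖y‖ ^ a : ℝ) * y) * conj (x - y)).re ≤
      ‖pw a x - pw a y‖ * ‖x - y‖ := (re_le_norm _).trans (by rw [norm_mul, norm_conj]; rfl)
  have m : 0 ≤ (‖x‖ ^ a - ‖y‖ ^ a) * (‖x‖ ^ 2 - ‖y‖ ^ 2) := by
    rcases le_total ‖x‖ ‖y‖ with c | c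
    · exact mul_nonneg_of_nonpos_of_nonpos (sub_nonpos.2 (Real.rpow_le_rpow r0 c ha))
        (sub_nonpos.2 (pow_le_pow_left₀ r0 c 2))
    · exact mul_nonneg (sub_nonneg.2 (Real.rpow_le_rpow t0 c ha))
        (sub_nonneg.2 (pow_le_pow_left₀ t0 c 2))
  have u : (‖x‖ ^ a + ‖y‖ ^ a) * ‖x - y‖ ≤ 2 * ‖pw a x - pw a y‖ := by
    refine le_of_mul_le_mul_right ?_ h
    rw [mul_assoc, ← sq, sq_sub]
    linarith
  have v : (‖x‖ + ‖y‖) ^ a ≤ 2 ^ a * (‖x‖ ^ a + ‖y‖ ^ a) := by
    have p1 : 0 ≤ ‖x‖ ^ a := by positivity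
    have p2 : 0 ≤ ‖y‖ ^ a := by positivity
    rcases le_total ‖x‖ ‖y‖ with c | c
    · refine (Real.rpow_le_rpow (by positivity) (show _ ≤ 2 * ‖y‖ by linarith) ha).trans ?_
      rw [Real.mul_rpow two_pos.le t0]
      exact mul_le_mul_of_nonneg_left (by linarith) (by positivity)
    · refine (Real.rpow_le_rpow (by positivity) (show _ ≤ 2 * ‖x‖ by linarith) ha).trans ?_
      rw [Real.mul_rpow two_pos.le r0]
      exact mul_le_mul_of_nonneg_left (by linarith) (by positivity)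
  refine (mul_le_mul_of_nonneg_right v h.le).trans ?_
  rw [Real.rpow_add_one two_ne_zero, mul_assoc, mul_assoc]
  exact mul_le_mul_of_nonneg_left u (by positivity)

theorem upper0 {a : ℝ} (ha : 0 ≤ a) {x y : ℂ} (c : ‖y‖ ≤ ‖x‖) :
    ‖pw a x - pw a y‖ ≤ (1 + max a 1) * ((‖x‖ + ‖y‖) ^ a * ‖x - y‖) := by
  have r0 := norm_nonneg x
  have m0 : 0 ≤ max a 1 := ha.trans (le_max_left _ _)
  have k : (‖x‖ ^ a - ‖y‖ ^ a) * ‖y‖ ≤ max a 1 * (‖x‖ ^ a * (‖x‖ - ‖y‖)) := by
    rcases (norm_nonneg y).eq_or_lt with t0 | t0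
    · rw [← t0, mul_zero, sub_zero]
      positivity
    have r1 := t0.trans_le c
    obtain ⟨τ, e⟩ : ∃ τ, ‖y‖ = τ * ‖x‖ := ⟨‖y‖ / ‖x‖, by field_simp⟩
    rw [e] at t0 c ⊢
    have τ0 : 0 < τ := (mul_pos_iff_of_pos_right r1).1 t0
    have τ1 : τ ≤ 1 := le_of_mul_le_mul_right (by linarith) r1
    have b := one_add_mul_self_le_rpow_one_add (s := τ - 1) (by linarith) (le_max_right a 1)
    rw [add_sub_cancel] at b
    replace b := b.trans (Real.rpow_le_rpow_of_exponent_ge τ0 τ1 (le_max_left a 1))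
    have b2 : (1 - τ ^ a) * τ ≤ max a 1 * (1 - τ) :=
      (mul_le_mul_of_nonneg_right (by linarith) τ0.le).trans
        (mul_le_of_le_one_right (mul_nonneg m0 (sub_nonneg.2 τ1)) τ1)
    rw [Real.mul_rpow τ0.le r0]
    nlinarith [mul_le_mul_of_nonneg_left b2 (show 0 ≤ ‖x‖ ^ a * ‖x‖ by positivity)]
  have e : pw a x - pw a y = (‖x‖ ^ a : ℝ) * (x - y) + (‖x‖ ^ a - ‖y‖ ^ a : ℝ) * y := by
    simp only [pw]
    push_cast
    ring
  have p1 : 0 ≤ ‖x‖ ^ a := by positivity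
  have q : ‖x‖ ^ a * ‖x - y‖ ≤ (‖x‖ + ‖y‖) ^ a * ‖x - y‖ := mul_le_mul_of_nonneg_right
    (Real.rpow_le_rpow r0 (le_add_of_nonneg_right (norm_nonneg _)) ha) (norm_nonneg _)
  have q2 := mul_le_mul_of_nonneg_left ((mul_le_mul_of_nonneg_left (norm_sub_norm_le x y) p1).trans
    q) m0
  rw [e]
  refine (norm_add_le _ _).trans ?_
  rw [norm_mul, norm_mul, norm_real, norm_real, Real.norm_of_nonneg p1, Real.norm_of_nonneg
    (sub_nonneg.2 (Real.rpow_le_rpow (norm_nonneg y) c ha))]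
  linarith

theorem lip (x y : ℂ) : ‖T3 x - T3 y‖ ≤ 3 * ‖x - y‖ := by
  have n3 : ∀ w : ℂ, ‖T3 w‖ = ‖w‖ := fun w => by
    rcases eq_or_ne w 0 with rfl | h
    · simp [T3]
    · have := norm_ne_zero_iff.2 h
      simp only [T3, norm_div, norm_pow, norm_conj, norm_real, norm_norm]
      field_simp
  have z3 : T3 0 = 0 := by simp [T3]
  by_cases hx : x = 0
  · rw [hx, z3, zero_sub, zero_sub, norm_neg, norm_neg, n3]
    linarith [norm_nonneg y]
  by_cases hy : y = 0
  · rw [hy, z3, sub_zero, sub_zero, n3]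
    linarith [norm_nonneg x]
  have m0 : 0 < ‖x‖ * ‖y‖ := mul_pos (norm_pos_iff.2 hx) (norm_pos_iff.2 hy)
  have e1 : conj (T3 x) * T3 y * ((‖x‖ * ‖y‖) ^ 2 : ℝ) = conj (conj x * y) ^ 3 := by
    have := ofReal_ne_zero.2 (norm_ne_zero_iff.2 hx)
    have := ofReal_ne_zero.2 (norm_ne_zero_iff.2 hy)
    simp only [T3, map_div₀, map_pow, map_mul, conj_conj, conj_ofReal]
    push_cast
    field_simp
  have e2 : ∀ z : ℂ, (conj z ^ 3).re = 4 * z.re ^ 3 - 3 * ‖z‖ ^ 2 * z.re := fun z => by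
    rw [Complex.sq_norm]
    simp [normSq_apply, pow_succ]
    ring
  have e3 := congrArg re e1
  rw [re_mul_ofReal, e2, norm_mul, norm_conj] at e3
  refine abs_le_of_sq_le_sq' ?_ (by positivity) |>.2
  rw [mul_pow, sq_sub, sq_sub, n3, n3]
  refine le_of_mul_le_mul_right ?_ (pow_pos m0 2)
  have b := abs_le.1 (re_le x y)
  have u1 := mul_nonneg (sq_nonneg ((conj x * y).re - ‖x‖ * ‖y‖))
    (show 0 ≤ (conj x * y).re + 2 * (‖x‖ * ‖y‖) by linarith [b.1])
  have u2 := mul_nonneg (sq_nonneg (‖x‖ - ‖y‖)) (sq_nonneg (‖x‖ * ‖y‖))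
  linarith

theorem norm_fd (w : ℂ) : ‖fderiv ℝ T3 w‖ ≤ 3 :=
  norm_fderiv_le_of_lip' ℝ (by norm_num) (Eventually.of_forall fun x => lip x w)

end PowK

open PowK

theorem pow : PowS := by
  have sm : ∀ a : ℝ, ∀ w : ℂ, w ≠ 0 → ContDiffAt ℝ ∞ (pw a) w := fun a w h =>
    pw_pd a ▸ smooth_pd a (by simpa using h)
  refine ⟨fun a b w hb => ?_, fun a w ha => norm_pw a w ha, fun a ha => ?_,
    fun a w hw => (sm a w hw).contDiffWithinAt, mono, fun a ha => ?_, fun δ a hδ => ?_,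
    fun a w X hw => ?_⟩
  · rcases eq_or_ne w 0 with rfl | h
    · simp only [pw_at_zero]
    · have h0 := norm_pos_iff.2 h
      rw [pw, norm_pw b w hb, pw, pw, ← mul_assoc, ← ofReal_mul, ← Real.rpow_mul h0.le,
        ← Real.rpow_add h0]
      congr 3
      ring
  · refine continuous_iff_continuousAt.2 fun w => ?_
    rcases eq_or_ne w 0 with rfl | h
    · rw [ContinuousAt, pw_at_zero, tendsto_zero_iff_norm_tendsto_zero]
      simp only [norm_pw a _ ha]
      have := (continuous_norm.rpow_const (p := a + 1) fun w : ℂ => .inr (by linarith)).tendsto 0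
      rwa [norm_zero, Real.zero_rpow (by linarith)] at this
    · exact (sm a w h).continuousAt
  · have m0 : 0 ≤ max a 1 := ha.trans (le_max_left _ _)
    have p0 : (0 : ℝ) < 2 ^ (a + 1) := by positivity
    refine ⟨1 + max a 1 + 2 ^ (a + 1), by positivity, fun x y => ⟨?_, (lower ha x y).trans
      (mul_le_mul_of_nonneg_right (by linarith) (norm_nonneg _))⟩⟩
    refine le_trans ?_ (mul_le_mul_of_nonneg_right (le_add_of_nonneg_right p0.le) (by positivity))
    rcases le_total ‖y‖ ‖x‖ with c | c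
    · exact upper0 ha c
    · rw [norm_sub_rev, norm_sub_rev x, add_comm ‖x‖]
      exact upper0 ha c
  · exact ⟨contDiff_iff_contDiffAt.2 fun w => smooth_pd a (by positivity),
      fun w X => fderiv_pd a (by positivity) X⟩
  · have h0 := norm_pos_iff.2 hw
    rw [pw_pd, fderiv_pd a (by positivity), zero_add, ← Real.rpow_natCast,
      ← Real.rpow_mul h0.le, show ((2 : ℕ) : ℝ) * (a / 2) = a by push_cast; ring]

theorem cub : CubS := by
  have e : T3 = fun w : ℂ => conj w ^ 3 * (((‖w‖ ^ 2)⁻¹ : ℝ) : ℂ) := funext fun w => by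
    rw [T3, div_eq_mul_inv, ofReal_inv]
  refine ⟨fun w hw => ContDiffAt.contDiffWithinAt ?_, lip, norm_fd, fun w X hw => ?_,
    fun ε hε c x y hc => ?_, fun ε x y z hz => ?_⟩
  · rw [e]
    exact (conjCLE.contDiff.contDiffAt.pow 3).mul (ofRealCLM.contDiff.contDiffAt.comp w
      ((contDiff_norm_sq ℝ).contDiffAt.inv (by simpa using hw)))
  · have h0 : ‖w‖ ^ 2 ≠ 0 := by simpa using hw
    have h1 := ((conjCLE : ℂ →L[ℝ] ℂ).hasFDerivAt (x := w)).pow 3 |>.mul
      (ofRealCLM.hasFDerivAt.comp w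
        ((hasDerivAt_inv h0).comp_hasFDerivAt w (hasStrictFDerivAt_norm_sq w).hasFDerivAt))
    have h2 : ((‖w‖ : ℝ) : ℂ) ≠ 0 := by simpa using hw
    rw [T3, (congrArg (fderiv ℝ · w) e).trans h1.fderiv]
    simp [Complex.inner, mul_comm X]
    field_simp
    ring
  · have n1 : ‖(ε : ℂ) * conj c‖ = |ε| := by simp [hc]
    have e0 := abs_nonneg ε
    have k : ∀ u v : ℂ, ‖v‖ ≤ 3 * ‖u‖ → (1 - 3 * |ε|) * ‖u‖ ≤ ‖c * u + ε * conj c * v‖ ∧
        ‖c * u + ε * conj c * v‖ ≤ 2 * ‖u‖ := fun u v h => by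
      have a1 := norm_add_le (c * u) (ε * conj c * v)
      have a2 := norm_sub_le (c * u + ε * conj c * v) (ε * conj c * v)
      rw [add_sub_cancel_right] at a2
      rw [norm_mul c, norm_mul _ v, n1, hc] at a1 a2
      have a3 := mul_le_mul_of_nonneg_left h e0
      have a4 := mul_le_mul_of_nonneg_right hε.le (norm_nonneg u)
      constructor <;> linarith
    have k1 := k (x - y) (T3 x - T3 y) (lip x y)
    rw [show c * (x - y) + ε * conj c * (T3 x - T3 y) = Hc ε c x - Hc ε c y by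
      simp only [Hc]; ring] at k1
    have k2 := fun y => k y (fderiv ℝ T3 x y) ((ContinuousLinearMap.le_opNorm _ _).trans
      (mul_le_mul_of_nonneg_right (norm_fd x) (norm_nonneg _)))
    exact ⟨k1.1, k1.2, (k2 y).1, ContinuousLinearMap.opNorm_le_bound _ two_pos.le fun y => (k2 y).2⟩
  · obtain ⟨c, hc, e⟩ := exists_norm_eq_mul_self
      ((x - y) * conj z - conj (ε * (T3 x - T3 y) * conj z))
    have e1 : ((Hc ε c x - Hc ε c y) * conj z).im = 0 := by
      have := congrArg im e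
      rw [ofReal_im] at this
      rw [this]
      simp [Hc]
      ring
    refine ⟨c, ((Hc ε c x - Hc ε c y) * conj z).re / ‖z‖ ^ 2, hc, ?_⟩
    have h2 : ((‖z‖ : ℝ) : ℂ) ≠ 0 := by simpa using hz
    rw [ofReal_div, conj_eq_iff_re.1 (conj_eq_iff_im.2 e1), div_mul_eq_mul_div, mul_assoc,
      conj_mul']
    push_cast
    field_simp

end Pool.Agent.MP_815c6c_an.P

end MrgPart1

-- ======== part 2: formerly Pool.Agent.MP_815c6c_an.P.Alg
section MrgPart2

/-! Planar p-harmonic functions: the algebra of the first order system. -/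

set_option autoImplicit false

noncomputable section

namespace Pool.Agent.MP_815c6c_an.P

open Set Metric MeasureTheory Filter Topology Complex
open scoped ContDiff ENNReal ComplexConjugate

namespace Alg

/-- bounded distortion read in a rotated frame -/
theorem qr_frame {K : ℝ} {M : M2} {u v : ℂ} (hu : u ≠ 0) (hv : v ≠ 0)
    (h : (M u * v).re ^ 2 + (M u * v).im ^ 2 + (M (I * u) * v).re ^ 2 + (M (I * u) * v).im ^ 2 ≤
      K * ((M u * v).re * (M (I * u) * v).im - (M u * v).im * (M (I * u) * v).re)) : Qr K M := by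
  have hp : 0 < normSq u * normSq v := mul_pos (normSq_pos.2 hu) (normSq_pos.2 hv)
  have e1 : (M u * v).re ^ 2 + (M u * v).im ^ 2 + (M (I * u) * v).re ^ 2 + (M (I * u) * v).im ^ 2 =
      normSq u * normSq v * (‖M 1‖ ^ 2 + ‖M I‖ ^ 2) := by
    rw [M2_apply M u, M2_apply M (I * u), Complex.sq_norm, Complex.sq_norm]
    simp [normSq_apply]
    ring
  have e2 : (M u * v).re * (M (I * u) * v).im - (M u * v).im * (M (I * u) * v).re =
      normSq u * normSq v * jac M := by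
    rw [M2_apply M u, M2_apply M (I * u), jac]
    simp [normSq_apply]
    ring
  rw [e1, e2, mul_left_comm] at h
  exact (sq_norm_le M).trans (le_of_mul_le_mul_left h hp)

theorem c1 (pow : PowS) (P Q : ℝ) (w : ℂ) (N : M2) (hw : w ≠ 0)
    (h1 : (fderiv ℝ (pw (P - 1)) w (N 1) + I * fderiv ℝ (pw (P - 1)) w (N I)).im = 0)
    (h2 : (fderiv ℝ (pw (Q - 1)) w (N 1) + I * fderiv ℝ (pw (Q - 1)) w (N I)).re = 0) :
    Es P Q w N := by
  have hf := pow.2.2.2.2.2.2.2
  have hn : 0 < ‖w‖ := norm_pos_iff.2 hw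
  have hr : (w.re * w.re + w.im * w.im) * (w.re * w.re + w.im * w.im)⁻¹ = 1 :=
    mul_inv_cancel₀ (by rw [← normSq_apply]; exact (normSq_pos.2 hw).ne')
  rw [hf _ _ _ hw, hf _ _ _ hw, mul_left_comm, ← mul_add] at h1 h2
  rw [im_ofReal_mul] at h1
  rw [re_ofReal_mul] at h2
  replace h1 := (mul_eq_zero.1 h1).resolve_left (Real.rpow_pos_of_pos hn _).ne'
  replace h2 := (mul_eq_zero.1 h2).resolve_left (Real.rpow_pos_of_pos hn _).ne'
  rw [Complex.sq_norm, normSq_apply] at h1 h2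
  simp only [add_im, add_re, mul_im, mul_re, I_re, I_im, ofReal_re, ofReal_im, conj_re,
    conj_im, div_eq_mul_inv] at h1 h2
  generalize (w.re * w.re + w.im * w.im)⁻¹ = i at *
  unfold Es
  rw [M2_apply N (conj w), M2_apply N (I * conj w)]
  simp only [add_im, add_re, mul_im, mul_re, I_re, I_im, ofReal_re, ofReal_im, conj_re, conj_im]
  constructor
  · linear_combination -(w.re * w.re + w.im * w.im) * h2 + (Q - 1) *
      (w.re * (w.re * (N 1).re + w.im * (N 1).im) - w.im * (w.re * (N I).re + w.im * (N I).im)) * hr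
  · linear_combination (w.re * w.re + w.im * w.im) * h1 - (P - 1) *
      (w.im * (w.re * (N 1).re + w.im * (N 1).im) + w.re * (w.re * (N I).re + w.im * (N I).im)) * hr

theorem c2 (P Q : ℝ) (w : ℂ) (N : M2) (hP : 0 < P) (hQ : 0 < Q) (hw : w ≠ 0) (h : Es P Q w N) :
    Qr (P + P⁻¹ + Q + Q⁻¹) N := by
  have hc : conj w ≠ 0 := by simpa using hw
  refine qr_frame hc hc ?_
  rw [h.1, h.2]
  set t1 := (N (conj w) * conj w).re
  set t2 := (N (I * conj w) * conj w).re
  have a1 : P⁻¹ * P = 1 := inv_mul_cancel₀ hP.ne'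
  have a2 : Q⁻¹ * Q = 1 := inv_mul_cancel₀ hQ.ne'
  have b1 : 0 ≤ (P + P⁻¹) * (Q * t1 ^ 2) := by positivity
  have b2 : 0 ≤ (Q + Q⁻¹) * (P * t2 ^ 2) := by positivity
  have e : (P + P⁻¹ + Q + Q⁻¹) * (t1 * (Q * t1) - -P * t2 * t2) =
      (P + P⁻¹) * (Q * t1 ^ 2) + (Q + Q⁻¹) * (P * t2 ^ 2) +
        (t1 ^ 2 + (-P * t2) ^ 2 + t2 ^ 2 + (Q * t1) ^ 2) := by
    linear_combination t2 ^ 2 * a1 + t1 ^ 2 * a2
  rw [e]
  linarith

theorem c3 (P Q t l : ℝ) (w : ℂ) (N A : M2) (hw : w ≠ 0) (hl : l ≠ 0) (h : Es P Q w N)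
    (hA : ∀ X, A X = t * (X + ((l - 1) * (conj w * X).re / ‖w‖ ^ 2 : ℝ) * w)) (t' : ℝ) :
    Es (P / l) (Q / l) (t' * w) (A.comp N) := by
  have hr : (w.re * w.re + w.im * w.im) * (w.re * w.re + w.im * w.im)⁻¹ = 1 :=
    mul_inv_cancel₀ (by rw [← normSq_apply]; exact (normSq_pos.2 hw).ne')
  have k1 : ∀ X, (A X * conj w).re = t * l * (X * conj w).re := fun X => by
    rw [hA, Complex.sq_norm, normSq_apply]
    simp only [add_im, add_re, mul_im, mul_re, ofReal_re, ofReal_im, conj_re, conj_im,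
      div_eq_mul_inv]
    linear_combination t * (l - 1) * (w.re * X.re + w.im * X.im) * hr
  have k2 : ∀ X, (A X * conj w).im = t * (X * conj w).im := fun X => by
    rw [hA]
    simp only [add_im, add_re, mul_im, mul_re, ofReal_re, ofReal_im, conj_re, conj_im]
    ring
  have k3 : ∀ X : ℂ, (A.comp N) (t' * X) * (t' * conj w) =
      ((t' ^ 2 : ℝ) : ℂ) * (A (N X) * conj w) := fun X => by
    rw [← real_smul, map_smul, real_smul, ContinuousLinearMap.comp_apply]
    push_cast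
    ring
  unfold Es
  rw [map_mul (starRingEnd ℂ), conj_ofReal, mul_left_comm I, k3, k3]
  simp only [re_ofReal_mul, im_ofReal_mul, k1, k2]
  rw [h.1, h.2]
  constructor <;> field_simp

theorem DH_frame (cub : CubS) (ε : ℝ) (c w X : ℂ) (hw : w ≠ 0) :
    DH ε c w X * (w * (normSq w : ℝ)) = c * w ^ 2 * (X * conj w) +
      ε * conj (c * w ^ 2) * (2 * conj (X * conj w) - X * conj w) := by
  have hc : conj w ≠ 0 := by simpa using hw
  have e1 : ((‖w‖ ^ 2 : ℝ) : ℂ) = w * conj w := by rw [mul_conj, Complex.sq_norm]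
  have e2 : ((2 * (conj w * X).re : ℝ) : ℂ) = conj w * X + w * conj X := by
    rw [← add_conj]; simp
  simp only [DH, _root_.add_apply, ContinuousLinearMap.comp_apply, ml_apply]
  rw [cub.2.2.2.1 w X hw, T3, e1, e2, ← mul_conj]
  simp only [map_mul, map_pow, conj_conj]
  field_simp
  ring

theorem c4 (cub : CubS) (ε : ℝ) (hε : |ε| < 1 / 3) : ∃ K : ℝ, 1 ≤ K ∧ ∀ (w c : ℂ) (μ : ℝ) (N : M2),
    Es (eP ε) (eQ ε) w N → (w = 0 → N = 0) → Qr K N ∧ Qr K ((DH ε c w).comp N - ml μ) := by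
  have hP := eP_pos hε
  have hQ := eQ_pos hε
  have eP' : eP ε * (1 + 3 * ε) = 1 - ε :=
    div_mul_cancel₀ _ (by linarith [(abs_lt.1 hε).1])
  have eQ' : eQ ε * (1 - 3 * ε) = 1 + ε :=
    div_mul_cancel₀ _ (by linarith [(abs_lt.1 hε).2])
  generalize eP ε = P at *
  generalize eQ ε = Q at *
  have p0 : 0 < P + P⁻¹ + Q + Q⁻¹ := by positivity
  have p1 : 0 < P / Q + Q / P := by positivity
  refine ⟨2 + (P / Q + Q / P) + (P + P⁻¹ + Q + Q⁻¹), by linarith, fun w c μ N h h0 => ?_⟩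
  by_cases hw : w = 0
  · rw [h0 hw]
    refine ⟨by simp [Qr, jac], ?_⟩
    have : (DH ε c w).comp (0 : M2) - ml μ = ml (-μ) := by
      ext z; simp
    rw [this, Qr, jac_ml, norm_ml]
    exact le_mul_of_one_le_left (sq_nonneg _) (by linarith)
  refine ⟨(c2 P Q w N hP hQ hw h).mono p0 (by linarith), ?_⟩
  have hc : conj w ≠ 0 := by simpa using hw
  have hv : w * (normSq w : ℝ) ≠ 0 := mul_ne_zero hw (ofReal_ne_zero.2 (normSq_pos.2 hw).ne')
  refine qr_frame hc hv ?_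
  have f1 : ((DH ε c w).comp N - ml μ) (conj w) * (w * (normSq w : ℝ)) =
      c * w ^ 2 * (N (conj w) * conj w) + ε * conj (c * w ^ 2) *
        (2 * conj (N (conj w) * conj w) - N (conj w) * conj w) - (μ * normSq w ^ 2 : ℝ) := by
    rw [← DH_frame cub ε c w _ hw]
    simp only [_root_.sub_apply, ContinuousLinearMap.comp_apply, ml_apply]
    push_cast
    rw [← mul_conj]
    ring
  have f2 : ((DH ε c w).comp N - ml μ) (I * conj w) * (w * (normSq w : ℝ)) =
      c * w ^ 2 * (N (I * conj w) * conj w) + ε * conj (c * w ^ 2) *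
        (2 * conj (N (I * conj w) * conj w) - N (I * conj w) * conj w) -
        I * (μ * normSq w ^ 2 : ℝ) := by
    rw [← DH_frame cub ε c w _ hw]
    simp only [_root_.sub_apply, ContinuousLinearMap.comp_apply, ml_apply]
    push_cast
    rw [← mul_conj]
    ring
  rw [f1, f2]
  obtain ⟨h1, h2⟩ := h
  generalize N (conj w) * conj w = a at *
  generalize N (I * conj w) * conj w = b at *
  generalize c * w ^ 2 = z
  generalize μ * normSq w ^ 2 = ν
  set m := Q * a.re * ((1 - 3 * ε) * z.re) + P * b.re * ((1 + 3 * ε) * z.im) - ν with hm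
  set n := -(a.re * ((1 + 3 * ε) * z.im)) + b.re * ((1 - 3 * ε) * z.re) with hn
  have g1 : (z * a + ε * conj z * (2 * conj a - a) - ν).re = m := by
    simp [h2, hm]
    linear_combination (-(a.re * z.re)) * eQ'
  have g2 : (z * a + ε * conj z * (2 * conj a - a) - ν).im = -P * n := by
    simp [h2, hn]
    linear_combination (-(a.re * z.im)) * eP'
  have g3 : (z * b + ε * conj z * (2 * conj b - b) - I * ν).re = Q * n := by
    simp [h1, hn]
    linear_combination (-(b.re * z.re)) * eQ'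
  have g4 : (z * b + ε * conj z * (2 * conj b - b) - I * ν).im = m := by
    simp [h1, hm]
    linear_combination (-(b.re * z.im)) * eP'
  rw [g1, g2, g3, g4]
  have e : (P / Q + Q / P) * (P * Q * n ^ 2) = (-P * n) ^ 2 + (Q * n) ^ 2 := by
    field_simp
  have b1 : 0 ≤ P * Q * n ^ 2 := by positivity
  have b2 : 0 ≤ (P / Q + Q / P) * m ^ 2 := by positivity
  have b3 : 0 ≤ (P + P⁻¹ + Q + Q⁻¹) * (m ^ 2 + P * Q * n ^ 2) := by positivity
  have e' : (2 + (P / Q + Q / P) + (P + P⁻¹ + Q + Q⁻¹)) * (m * m - -P * n * (Q * n)) =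
      2 * m ^ 2 + 2 * (P * Q * n ^ 2) + (P / Q + Q / P) * m ^ 2 +
        (P / Q + Q / P) * (P * Q * n ^ 2) +
        (P + P⁻¹ + Q + Q⁻¹) * (m ^ 2 + P * Q * n ^ 2) := by ring
  rw [e', e]
  linarith

/-- the linear map with given values at `1` and `I` -/
def mk2 (α β : ℂ) : M2 := reCLM.smulRight α + imCLM.smulRight β

theorem mk2_apply (α β z : ℂ) : mk2 α β z = z.re * α + z.im * β := by simp [mk2]

theorem c5 (K : ℝ) (N : M2) (hK : 0 ≤ K) (h : Qr K N) (h0 : N ≠ 0) :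
    ∃ N' : M2, N'.comp N = ml 1 ∧ ‖N'‖ * ‖N‖ ≤ 2 * K ∧ 0 < jac N' := by
  have hn : 0 < ‖N‖ := norm_pos_iff.2 h0
  have hj : 0 < jac N := by
    by_contra hj
    exact absurd (lt_of_lt_of_le (pow_pos hn 2) h)
      (not_lt.2 (mul_nonpos_of_nonneg_of_nonpos hK (not_lt.1 hj)))
  obtain ⟨A, hA⟩ : ∃ A : M2, A = mk2 ⟨(N I).im, -(N 1).im⟩ ⟨-(N I).re, (N 1).re⟩ := ⟨_, rfl⟩
  have a1 : A.comp N = ml (jac N) := by
    refine M2_ext ?_ ?_ <;>
    · rw [ContinuousLinearMap.comp_apply, hA, mk2_apply]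
      apply Complex.ext <;> simp [jac] <;> ring
  have a2 : ‖A‖ ≤ 2 * ‖N‖ := by
    have b1 : ‖N 1‖ ≤ ‖N‖ := by simpa using N.le_opNorm 1
    have b2 : ‖N I‖ ≤ ‖N‖ := by simpa using N.le_opNorm I
    have b3 : ‖A 1‖ ^ 2 + ‖A I‖ ^ 2 = ‖N 1‖ ^ 2 + ‖N I‖ ^ 2 := by
      simp only [hA, mk2_apply, Complex.sq_norm, normSq_apply]
      simp
      ring
    refine (abs_le_of_sq_le_sq' ((sq_norm_le A).trans ?_) (by positivity)).2
    rw [b3]
    nlinarith [norm_nonneg (N 1), norm_nonneg (N I)]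
  have a3 : ((jac N)⁻¹ • A).comp N = ml 1 := by
    rw [ContinuousLinearMap.smul_comp, a1]
    ext z
    simp [← mul_assoc, inv_mul_cancel₀ (ofReal_ne_zero.2 hj.ne')]
  refine ⟨(jac N)⁻¹ • A, a3, ?_, ?_⟩
  · rw [norm_smul, norm_inv, Real.norm_of_nonneg hj.le, mul_assoc, inv_mul_le_iff₀ hj]
    have := mul_le_mul_of_nonneg_right a2 hn.le
    unfold Qr at h
    nlinarith
  · have := jac_comp ((jac N)⁻¹ • A) N
    rw [a3, jac_ml] at this
    by_contra hj'
    have := mul_nonpos_of_nonpos_of_nonneg (not_lt.1 hj') hj.le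
    simp at *
    linarith

/-- multiply by `c`, then stretch the real part -/
def eqv (c : ℂ) (α : ℝ) (hc : c ≠ 0) (hα : α ≠ 0) : ℂ ≃L[ℝ] ℂ :=
  ContinuousLinearEquiv.equivOfInverse ((mk2 α I).comp (ml c)) ((ml c⁻¹).comp (mk2 (α⁻¹ : ℝ) I))
    (fun z => by
      have : mk2 (α⁻¹ : ℝ) I (mk2 α I (c * z)) = c * z := by
        generalize c * z = y
        apply Complex.ext <;> simp [mk2_apply, hα]
      simp only [ContinuousLinearMap.comp_apply, ml_apply, this, inv_mul_cancel_left₀ hc])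
    (fun z => by
      simp only [ContinuousLinearMap.comp_apply, ml_apply, mul_inv_cancel_left₀ hc]
      apply Complex.ext <;> simp [mk2_apply, hα])

theorem eqv_apply (c : ℂ) (α : ℝ) (hc : c ≠ 0) (hα : α ≠ 0) (z : ℂ) :
    eqv c α hc hα z = ⟨α * (z * c).re, (z * c).im⟩ := by
  change mk2 α I (c * z) = _
  rw [mul_comm c z]
  generalize z * c = y
  apply Complex.ext <;> simp [mk2_apply, mul_comm]

theorem eqv_symm (c : ℂ) (α : ℝ) (hc : c ≠ 0) (hα : α ≠ 0) (z : ℂ) :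
    (eqv c α hc hα).symm z * c = ⟨α⁻¹ * z.re, z.im⟩ := by
  change c⁻¹ * mk2 (α⁻¹ : ℝ) I z * c = _
  rw [mul_comm, mul_inv_cancel_left₀ hc]
  apply Complex.ext <;> simp [mk2_apply, mul_comm]

theorem frame_diff (N : M2) (s w w' : ℂ) (hs : ‖s‖ = 1) :
    ‖N (s * conj w) * conj w - N (s * conj w') * conj w'‖ ≤
      ‖w - w'‖ * (‖w‖ + ‖w'‖) * ‖N‖ := by
  have e : N (s * conj w) * conj w - N (s * conj w') * conj w' =
      N (s * conj (w - w')) * conj w + N (s * conj w') * conj (w - w') := by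
    rw [map_sub, mul_sub, map_sub]; ring
  have b : ∀ y : ℂ, ‖N (s * conj y)‖ ≤ ‖N‖ * ‖y‖ := fun y => by
    simpa [hs] using N.le_opNorm (s * conj y)
  rw [e]
  refine (norm_add_le _ _).trans ?_
  rw [norm_mul, norm_mul, Complex.norm_conj, Complex.norm_conj]
  have b1 := mul_le_mul_of_nonneg_right (b (w - w')) (norm_nonneg w)
  have b2 := mul_le_mul_of_nonneg_right (b w') (norm_nonneg (w - w'))
  linarith

theorem c6 (P Q : ℝ) (w : ℂ) (hP : 0 < P) (hQ : 0 < Q) (hw : w ≠ 0) : ∃ l m : ℂ ≃L[ℝ] ℂ,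
    (∀ β : ℂ, Es P Q w ((m.symm : M2).comp ((ml β).comp (l : M2)))) ∧
    (∀ η : ℝ, 0 < η → ∀ᶠ w' in 𝓝 w, ∀ N : M2, Es P Q w' N →
      ‖m (N (l.symm 1)) + I * m (N (l.symm I))‖ ≤ η * ‖N‖) ∧
    (P = 1 → Q = 1 → ∀ (w' : ℂ) (N : M2), w' ≠ 0 → Es P Q w' N →
      m (N (l.symm 1)) + I * m (N (l.symm I)) = 0) := by
  have hc : conj w ≠ 0 := by simpa using hw
  obtain ⟨α, hα, hα2⟩ : ∃ α : ℝ, 0 < α ∧ Q * α * α = P :=
    ⟨√(P / Q), Real.sqrt_pos.2 (by positivity), by
      rw [mul_assoc, Real.mul_self_sqrt (by positivity)]; field_simp⟩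
  have hγ : 0 < Q * α := mul_pos hQ hα
  obtain ⟨r, hr, hr2⟩ : ∃ r : ℝ, 0 < r ∧ conj w * w = r :=
    ⟨normSq w, normSq_pos.2 hw, by rw [mul_comm, mul_conj]⟩
  have l1 : (eqv w α hw hα.ne').symm 1 = (α * r)⁻¹ • conj w := by
    rw [ContinuousLinearEquiv.symm_apply_eq, map_smul, eqv_apply, hr2]
    apply Complex.ext <;> simp
    field_simp
  have l2 : (eqv w α hw hα.ne').symm I = r⁻¹ • (I * conj w) := by
    rw [ContinuousLinearEquiv.symm_apply_eq, map_smul, eqv_apply, mul_assoc, hr2]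
    apply Complex.ext <;> simp
    field_simp
  have key : ∀ N : M2, eqv (conj w) (Q * α) hc hγ.ne' (N ((eqv w α hw hα.ne').symm 1)) +
      I * eqv (conj w) (Q * α) hc hγ.ne' (N ((eqv w α hw hα.ne').symm I)) =
      ⟨r⁻¹ * (Q * (N (conj w) * conj w).re - (N (I * conj w) * conj w).im),
        (α * r)⁻¹ * ((N (conj w) * conj w).im + P * (N (I * conj w) * conj w).re)⟩ := fun N => by
    rw [l1, l2, map_smul, map_smul, map_smul, map_smul, eqv_apply, eqv_apply, ← hα2]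
    generalize N (conj w) * conj w = a
    generalize N (I * conj w) * conj w = b
    apply Complex.ext
    · simp
      field_simp
      ring
    · simp
      field_simp
  refine ⟨eqv w α hw hα.ne', eqv (conj w) (Q * α) hc hγ.ne', fun β => ?_, fun η hη => ?_,
    fun h1 h2 w' N hw' h => ?_⟩
  · unfold Es
    simp only [ContinuousLinearMap.comp_apply, ContinuousLinearEquiv.coe_coe, ml_apply, eqv_symm,
      eqv_apply, mul_assoc I, hr2, ← hα2]
    constructor
    · simp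
      field_simp
    · simp
      field_simp
  · have ct : Continuous fun w' : ℂ =>
        (r⁻¹ * (Q + 1) + (α * r)⁻¹ * (1 + P)) * (‖w - w'‖ * (‖w‖ + ‖w'‖)) := by fun_prop
    filter_upwards [ct.continuousAt.eventually (gt_mem_nhds (a := η) (by simpa using hη))]
      with w' hw' N h
    rw [key]
    have d1 := frame_diff N 1 w w' norm_one
    have d2 := frame_diff N I w w' norm_I
    simp only [one_mul] at d1
    obtain ⟨h1, h2⟩ := h
    generalize ‖w - w'‖ * (‖w‖ + ‖w'‖) = d at *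
    generalize N (conj w) * conj w = a at *
    generalize N (I * conj w) * conj w = b at *
    generalize N (conj w') * conj w' = a' at *
    generalize N (I * conj w') * conj w' = b' at *
    have a1 := (abs_re_le_norm _).trans d1
    have a2 := (abs_im_le_norm _).trans d1
    have b1 := (abs_re_le_norm _).trans d2
    have b2 := (abs_im_le_norm _).trans d2
    have x1 : |Q * a.re - b.im| ≤ (Q + 1) * (d * ‖N‖) := by
      have : Q * a.re - b.im = Q * (a - a').re - (b - b').im := by simp [h1]; ring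
      rw [this]
      refine (abs_sub _ _).trans ?_
      rw [abs_mul, abs_of_pos hQ]
      nlinarith [mul_le_mul_of_nonneg_left a1 hQ.le]
    have x2 : |a.im + P * b.re| ≤ (1 + P) * (d * ‖N‖) := by
      have : a.im + P * b.re = (a - a').im + P * (b - b').re := by simp [h2]; ring
      rw [this]
      refine (abs_add_le _ _).trans ?_
      rw [abs_mul, abs_of_pos hP]
      nlinarith [mul_le_mul_of_nonneg_left b1 hP.le]
    refine (norm_le_abs_re_add_abs_im _).trans ?_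
    have p1 : 0 < r⁻¹ := inv_pos.2 hr
    have p2 : 0 < (α * r)⁻¹ := inv_pos.2 (mul_pos hα hr)
    simp only [abs_mul, abs_of_pos p1, abs_of_pos p2]
    have y1 := mul_le_mul_of_nonneg_left x1 p1.le
    have y2 := mul_le_mul_of_nonneg_left x2 p2.le
    have y3 := mul_le_mul_of_nonneg_right hw'.le (norm_nonneg N)
    linarith
  · rw [key]
    subst h1 h2
    have id1 : ∀ y : ℂ, 1 * (N (conj y) * conj y).re - (N (I * conj y) * conj y).im =
        normSq y * ((N 1).re - (N I).im) := fun y => by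
      rw [M2_apply N (conj y), M2_apply N (I * conj y)]
      simp [normSq_apply]
      ring
    have id2 : ∀ y : ℂ, (N (conj y) * conj y).im + 1 * (N (I * conj y) * conj y).re =
        normSq y * ((N 1).im + (N I).re) := fun y => by
      rw [M2_apply N (conj y), M2_apply N (I * conj y)]
      simp [normSq_apply]
      ring
    have z1 : (N 1).re - (N I).im = 0 :=
      (mul_eq_zero.1 ((id1 w').symm.trans (by rw [h.1, sub_self]))).resolve_left
        (normSq_pos.2 hw').ne'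
    have z2 : (N 1).im + (N I).re = 0 :=
      (mul_eq_zero.1 ((id2 w').symm.trans (by rw [h.2]; ring))).resolve_left
        (normSq_pos.2 hw').ne'
    rw [id1, id2, z1, z2]
    apply Complex.ext <;> simp

end Alg

theorem alg : PowS → CubS → AlgS := fun pow cub =>
  ⟨Alg.c1 pow, Alg.c2, fun P Q t l w N A hw _ hl => Alg.c3 P Q t l w N A hw hl, Alg.c4 cub, Alg.c5,
    Alg.c6⟩

end Pool.Agent.MP_815c6c_an.P

end
end MrgPart2

-- ======== part 3: formerly Pool.Agent.MP_815c6c_an.P.Apx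
section MrgPart3

/-! Planar p-harmonic functions: approximation by solutions of the frozen system. -/

set_option autoImplicit false

noncomputable section

namespace Pool.Agent.MP_815c6c_an.P

open Set Metric MeasureTheory Filter Topology Complex
open scoped ContDiff ENNReal ComplexConjugate

namespace Apx

/-- the Cauchy-Riemann operator of the coordinate `l` -/
def Db (l : ℂ ≃L[ℝ] ℂ) (f : ℂ → ℂ) (z : ℂ) : ℂ :=
  fderiv ℝ f z (l.symm 1) + I * fderiv ℝ f z (l.symm I)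

variable {l : ℂ ≃L[ℝ] ℂ} {G φ k : ℂ → ℂ} {D : ℂ → M2} {η : ℝ} {w : ℂ → ℝ}

lemma Db_const {f : ℂ → ℂ} {z c : ℂ} (h : f =ᶠ[𝓝 z] fun _ => c) : Db l f z = 0 := by
  simp [Db, h.fderiv_eq]

lemma Db_cont {f : ℂ → ℂ} (h : ContDiff ℝ 1 f) : Continuous (Db l f) :=
  ((h.continuous_fderiv one_ne_zero).clm_apply continuous_const).add
    (continuous_const.mul ((h.continuous_fderiv one_ne_zero).clm_apply continuous_const))

lemma norm_le (l : ℂ ≃L[ℝ] ℂ) : ∃ c : ℝ, 0 < c ∧ ∀ z, ‖z‖ ≤ c * ‖l z‖ :=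
  ⟨‖(l.symm : M2)‖ + 1, by positivity, fun z => by
    have := (l.symm : M2).le_opNorm (l z)
    simp only [ContinuousLinearEquiv.coe_coe, ContinuousLinearEquiv.symm_apply_apply] at this
    nlinarith [norm_nonneg (l z)]⟩

/-- a bounded Cauchy kernel -/
lemma kern (line : LineS) (l : ℂ ≃L[ℝ] ℂ) {r : ℝ} (hr : 0 < r) : ∃ (k : ℂ → ℂ) (w : ℂ → ℝ),
    ContDiff ℝ 1 k ∧ (∀ z, Db l k z = w z) ∧ Continuous w ∧ (∀ z, 0 ≤ w z) ∧
      (∀ z, r ≤ ‖z‖ → w z = 0 ∧ k z = (l z)⁻¹) ∧ ∃ z, w z ≠ 0 := by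
  obtain ⟨c, hc, hl⟩ := norm_le l
  obtain ⟨ρ, Ψ, Ψ', h⟩ := line.2 ((r / c) ^ 2 / 2) 1 (by positivity) one_pos
  have hΨ : ContDiff ℝ 1 Ψ := contDiff_one_iff_deriv.2 ⟨fun s => (h.der s).differentiableAt, by
    rw [show deriv Ψ = Ψ' from funext fun s => (h.der s).deriv]
    exact h.cont⟩
  have hn : ContDiff ℝ 1 fun z => ‖l z‖ ^ 2 := l.contDiff.norm_sq ℝ
  have hz : ∀ z, l z = 0 → (fun z => ((1 - Ψ (‖l z‖ ^ 2) : ℝ) : ℂ) * (l z)⁻¹) =ᶠ[𝓝 z] fun _ => 0 :=
    fun z e => by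
      filter_upwards [hn.continuous.continuousAt.eventually_lt_const
        (show ‖l z‖ ^ 2 < ρ by simpa [e] using h.pos)] with y hy
      simp [h.one _ hy.le]
  refine ⟨fun z => ((1 - Ψ (‖l z‖ ^ 2) : ℝ) : ℂ) * (l z)⁻¹, fun z => -2 * Ψ' (‖l z‖ ^ 2),
    contDiff_iff_contDiffAt.2 fun z => ?_, fun z => ?_,
    continuous_const.mul (h.cont.comp hn.continuous), fun z => by linarith [h.anti (‖l z‖ ^ 2)],
    fun z hz => ?_, ?_⟩
  · by_cases e : l z = 0
    · exact contDiffAt_const.congr_of_eventuallyEq (hz z e)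
    · exact (ofRealCLM.contDiff.comp (contDiff_const.sub (hΨ.comp hn))).contDiffAt.mul
        (l.contDiff.contDiffAt.inv e)
  · by_cases e : l z = 0
    · rw [Db_const (hz z e)]
      have : Ψ' 0 = 0 := (h.der 0).unique ((hasDerivAt_const (0 : ℝ) (1 : ℝ)).congr_of_eventuallyEq
        ((eventually_lt_nhds h.pos).mono fun s hs => h.one s hs.le))
      simp [e, this]
    · have a1 := (ofRealCLM.hasFDerivAt.comp z (((h.der _).comp_hasFDerivAt z
        (l.hasFDerivAt (x := z)).norm_sq).const_sub 1)).mul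
        ((hasDerivAt_inv e).comp_hasFDerivAt z (l.hasFDerivAt (x := z)))
      have a2 : fderiv ℝ (fun z => ((1 - Ψ (‖l z‖ ^ 2) : ℝ) : ℂ) * (l z)⁻¹) z = _ := a1.fderiv
      have a3 : ((l z).re : ℂ) + (l z).im * I = l z := re_add_im _
      rw [Db, a2]
      simp [Complex.inner]
      field_simp
      linear_combination (-2 * (Ψ' (‖l z‖ ^ 2) : ℂ) * l z) * a3 -
        (1 - (Ψ (‖l z‖ ^ 2) : ℂ)) * I_mul_I
  · have a1 : r / c ≤ ‖l z‖ := by
      rw [div_le_iff₀' hc]
      exact hz.trans (hl z)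
    have a2 : (r / c) ^ 2 / 2 < ‖l z‖ ^ 2 := by
      have : 0 < r / c := by positivity
      nlinarith
    have : Ψ' (‖l z‖ ^ 2) = 0 := (h.der _).unique
      ((hasDerivAt_const (‖l z‖ ^ 2) (0 : ℝ)).congr_of_eventuallyEq
        ((eventually_gt_nhds a2).mono fun s hs => h.zero s hs.le))
    simp [this, h.zero _ a2.le]
  · obtain ⟨s, hs, e⟩ := exists_hasDerivAt_eq_slope Ψ Ψ' h.lt hΨ.continuous.continuousOn
      fun s _ => h.der s
    refine ⟨l.symm (√s : ℝ), ?_⟩
    rw [h.one _ le_rfl, h.zero _ le_rfl] at e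
    simp only [ContinuousLinearEquiv.apply_symm_apply, Complex.norm_real, Real.norm_eq_abs, sq_abs,
      Real.sq_sqrt (h.pos.trans hs.1).le, e]
    exact mul_ne_zero (by norm_num) (div_ne_zero (by norm_num) (sub_pos.2 h.lt).ne')

lemma integ {E : Type} [NormedAddCommGroup E] {f : ℂ → E} (hf : Continuous f)
    (h0 : ∀ z, 1 < ‖z‖ → f z = 0) : Integrable f :=
  hf.integrable_of_hasCompactSupport (HasCompactSupport.intro (isCompact_closedBall 0 1)
    fun z hz => h0 z (by simpa using hz))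

/-- testing the approximate equation -/
lemma key (part : PartS) (hG : Sb (ball 0 1) G D)
    (hη : ∀ᵐ z ∂vo (ball 0 1), ‖D z (l.symm 1) + I * D z (l.symm I)‖ ≤ η) (hφ : ContDiff ℝ 1 φ)
    (h0 : ∀ z, 3 / 4 < ‖z‖ → φ z = 0) : ‖∫ z, Db l φ z * G z‖ ≤ η * ∫ z, ‖φ z‖ := by
  have hs : tsupport φ ⊆ closedBall 0 (3 / 4) := closure_minimal
    (fun z hz => by_contra fun e => hz (h0 z (by simpa using e))) isClosed_closedBall
  have H := (part _ G D isOpen_ball isBounded_ball hG).1 φ hφ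
    ((isCompact_closedBall 0 _).of_isClosed_subset (isClosed_tsupport φ) hs)
    (hs.trans (closedBall_subset_ball (by norm_num)))
  obtain ⟨i1, j1, e1⟩ := H (l.symm 1)
  obtain ⟨i2, j2, e2⟩ := H (l.symm I)
  have e : ∫ z, Db l φ z * G z = -∫ z, φ z * (D z (l.symm 1) + I * D z (l.symm I)) := by
    simp only [Db, add_mul, mul_add, mul_assoc, mul_left_comm (φ _) I]
    rw [integral_add i1 (i2.const_mul I), integral_add j1 (j2.const_mul I), integral_const_mul,
      integral_const_mul, e1, e2]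
    ring
  rw [e, norm_neg, ← integral_const_mul]
  refine norm_integral_le_of_norm_le ((integ hφ.continuous fun z hz =>
    h0 z (by linarith)).norm.const_mul η) ?_
  filter_upwards [(ae_restrict_iff' measurableSet_ball).1 hη] with z hz
  by_cases c : z ∈ ball (0 : ℂ) 1
  · rw [norm_mul, mul_comm]
    exact mul_le_mul_of_nonneg_right (hz c) (norm_nonneg _)
  · simp [h0 z (by simp at c; linarith)]

/-- the cutoff -/
def bu : ContDiffBump (0 : ℂ) := ⟨1 / 2, 5 / 8, by norm_num, by norm_num⟩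

def ch (z : ℂ) : ℂ := (bu z : ℝ)

lemma ch_smooth : ContDiff ℝ 1 ch := ofRealCLM.contDiff.comp bu.contDiff

lemma ch_one {z : ℂ} (h : ‖z‖ ≤ 1 / 2) : ch z = 1 := by
  rw [ch, bu.one_of_mem_closedBall (by simpa [bu] using h), ofReal_one]

lemma ch_zero {z : ℂ} (h : 5 / 8 < ‖z‖) : ch z = 0 := by
  rw [ch, bu.zero_of_le_dist (by simpa [bu] using h.le), ofReal_zero]

lemma psi_in {z : ℂ} (h : ‖z‖ < 1 / 2) : Db l ch z = 0 :=
  Db_const ((continuous_norm.continuousAt.eventually_lt_const h).mono fun _ e => ch_one e.le)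

lemma psi_out {z : ℂ} (h : 5 / 8 < ‖z‖) : Db l ch z = 0 :=
  Db_const ((continuous_norm.continuousAt.eventually_const_lt h).mono fun _ e => ch_zero e)

/-- the representation formula -/
lemma rep (part : PartS) (hG : Sb (ball 0 1) G D) (hc : Continuous G) (h0 : 0 ≤ η)
    (hη : ∀ᵐ z ∂vo (ball 0 1), ‖D z (l.symm 1) + I * D z (l.symm I)‖ ≤ η) (hk : ContDiff ℝ 1 k)
    (hw : ∀ z, Db l k z = w z) (hwc : Continuous w) (hr : ∀ z, 1 / 8 ≤ ‖z‖ → w z = 0) {K : ℝ}
    (hK : ∀ z, ‖z‖ ≤ 2 → ‖k z‖ ≤ K) {a : ℂ} (ha : ‖a‖ ≤ 1 / 8) :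
    ‖(∫ z, Db l ch z * k (z - a) * G z) + ∫ z, w (z - a) * G z‖ ≤ η * (K * ∫ z, ‖ch z‖) := by
  have hka : ContDiff ℝ 1 fun z => k (z - a) := hk.comp (contDiff_id.sub contDiff_const)
  have hv : ∀ z, 1 / 2 < ‖z‖ → w (z - a) = 0 := fun z hz =>
    hr _ (by linarith [norm_sub_norm_le z a])
  have h1 := key part hG hη (ch_smooth.mul hka) fun z hz => by
    rw [ch_zero (by linarith), zero_mul]
  have h2 : ∀ z, Db l (fun z => ch z * k (z - a)) z * G z =
      Db l ch z * k (z - a) * G z + w (z - a) * G z := fun z => by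
    have a1 : ch z * w (z - a) = w (z - a) := by
      rcases le_or_gt ‖z‖ (1 / 2) with e | e
      · rw [ch_one e, one_mul]
      · simp [hv z e]
    rw [← a1, ← hw, Db, Db, Db, fderiv_fun_mul (ch_smooth.differentiable one_ne_zero z)
      (hka.differentiable one_ne_zero z), fderiv_comp_sub]
    simp only [add_apply, smul_apply, smul_eq_mul]
    ring
  simp only [h2] at h1
  have i1 : Integrable fun z => Db l ch z * k (z - a) * G z :=
    integ (((Db_cont ch_smooth).mul hka.continuous).mul hc) fun z hz => by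
      simp [psi_out (show 5 / 8 < ‖z‖ by linarith)]
  have i2 : Integrable fun z => (w (z - a) : ℂ) * G z :=
    integ (by fun_prop) fun z hz => by simp [hv z (by linarith)]
  rw [integral_add i1 i2] at h1
  refine h1.trans (mul_le_mul_of_nonneg_left ?_ h0)
  rw [← integral_const_mul]
  refine integral_mono_of_nonneg (.of_forall fun _ => norm_nonneg _) ((integ ch_smooth.continuous
    fun z hz => ch_zero (by linarith)).norm.const_mul K) (.of_forall fun z => ?_)
  rcases le_or_gt ‖z‖ 1 with e | e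
  · simp only [norm_mul]
    rw [mul_comm]
    exact mul_le_mul_of_nonneg_right (hK _ (by linarith [norm_sub_le z a])) (norm_nonneg _)
  · simp [ch_zero (show 5 / 8 < ‖z‖ by linarith)]

instance : IsFiniteMeasure (vo (ball (0 : ℂ) 1)) :=
  ⟨by simp⟩

lemma sb_one : Sb (ball 0 1) (fun _ => 1) fun _ => 0 :=
  ⟨fun _ _ => 1, fun _ => contDiff_const, fun _ => 1, memLp_const _, .of_forall fun z => by simp⟩

lemma sb_sub (h : Sb (ball 0 1) G D) (c : ℂ) : Sb (ball 0 1) (fun z => G z - c) D := by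
  obtain ⟨v, hv, g, hg, h⟩ := h
  refine ⟨fun n z => v n z - c, fun n => (hv n).sub contDiff_const, fun z => g z + ‖c‖,
    hg.add (memLp_const _), h.mono fun z a => ⟨fun n => ⟨(norm_sub_le _ _).trans
      (add_le_add (a.1 n).1 le_rfl), ?_⟩, a.2.1.sub_const c, ?_⟩⟩
  · simp only [fderiv_sub_const]
    linarith [(a.1 n).2, norm_nonneg c]
  · simpa only [fderiv_sub_const] using a.2.2

/-- the mass of the kernel -/
lemma mass (part : PartS) (hk : ContDiff ℝ 1 k) (hw : ∀ z, Db l k z = w z) (hwc : Continuous w)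
    (hr : ∀ z, 1 / 8 ≤ ‖z‖ → w z = 0 ∧ k z = (l z)⁻¹) :
    ((∫ z, w z : ℝ) : ℂ) = -∫ z, Db l ch z * (l z)⁻¹ := by
  obtain ⟨K, hK⟩ := (isCompact_closedBall (0 : ℂ) 2).exists_bound_of_continuousOn
    hk.continuous.continuousOn
  have h := rep part sb_one continuous_const le_rfl (.of_forall fun z => by simp) hk hw hwc
    (fun z hz => (hr z hz).1) (fun z hz => hK z (by simpa using hz)) (a := 0) (by simp)
  simp only [sub_zero, mul_one, zero_mul, norm_le_zero_iff] at h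
  have e : ∫ z, Db l ch z * k z = ∫ z, Db l ch z * (l z)⁻¹ :=
    integral_congr_ae (.of_forall fun z => by
      rcases lt_or_ge ‖z‖ (1 / 2) with e | e
      · simp [psi_in e]
      · simp only [(hr z (by linarith)).2])
  rw [← integral_complex_ofReal, ← e]
  exact eq_neg_of_add_eq_zero_right h

/-- the kernel averages approximate the values -/
lemma avg {L r : ℝ} (hL : 0 ≤ L) (hG : ∀ x y, ‖G x - G y‖ ≤ L * ‖x - y‖) (hc : Continuous G)
    (hwc : Continuous w) (h0 : ∀ z, 0 ≤ w z) (hr : ∀ z, r ≤ ‖z‖ → w z = 0) (hr' : r ≤ 1)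
    (a : ℂ) : ‖(∫ z, w (z - a) * G z) - (∫ z, w z : ℝ) * G a‖ ≤ L * r * ∫ z, w z := by
  have i0 : Integrable w := integ hwc fun z hz => hr z (by linarith)
  rw [← integral_add_right_eq_self _ a, ← integral_complex_ofReal, ← integral_mul_const, ← integral_sub,
    ← integral_const_mul]
  · refine norm_integral_le_of_norm_le (i0.const_mul _) (.of_forall fun z => ?_)
    rcases le_or_gt r ‖z‖ with e | e
    · simp [hr z e]
    · have := hG (z + a) a
      rw [add_sub_cancel_right] at this ⊢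
      change ‖(w z : ℂ) * G (z + a) - (w z : ℂ) * G a‖ ≤ _
      rw [← mul_sub, norm_mul, Complex.norm_real, Real.norm_of_nonneg (h0 z), mul_comm]
      exact mul_le_mul_of_nonneg_right (this.trans (mul_le_mul_of_nonneg_left e.le hL)) (h0 z)
  · simp only [add_sub_cancel_right]
    exact integ ((continuous_ofReal.comp hwc).mul (hc.comp (continuous_id.add continuous_const)))
      fun z hz => by simp [hr z (by linarith)]
  · exact i0.ofReal.mul_const _

/-- the expansion of the Cauchy kernel -/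
lemma expand (l : ℂ ≃L[ℝ] ℂ) : ∃ C : ℝ, 0 < C ∧ ∀ (L : ℝ) (G k : ℂ → ℂ) (a : ℂ), 0 ≤ L →
    Continuous G → (∀ z, ‖G z‖ ≤ L * ‖z‖) → Continuous k → (∀ z, 1 / 8 ≤ ‖z‖ → k z = (l z)⁻¹) →
    ‖a‖ ≤ 1 / 8 → ‖(∫ z, Db l ch z * k (z - a) * G z) - (∫ z, Db l ch z * k (z - 0) * G z) -
      (∫ z, Db l ch z * k z ^ 2 * G z) * l a‖ ≤ C * L * ‖a‖ ^ 2 := by
  obtain ⟨c, hc, hl⟩ := norm_le l
  have hψ : Continuous (Db l ch) := Db_cont ch_smooth
  have hB : 0 ≤ ∫ z, ‖Db l ch z‖ := integral_nonneg fun _ => norm_nonneg _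
  refine ⟨16 * c ^ 3 * ‖(l : M2)‖ ^ 2 * (∫ z, ‖Db l ch z‖) + 1, by positivity,
    fun L G k a hL hG hGL hk hr ha => ?_⟩
  have i : ∀ f : ℂ → ℂ, Continuous f → Integrable fun z => Db l ch z * f z * G z := fun f hf =>
    integ ((hψ.mul hf).mul hG) fun z hz => by simp [psi_out (show 5 / 8 < ‖z‖ by linarith)]
  have i1 := i (fun z => k (z - a)) (hk.comp (continuous_id.sub continuous_const))
  have i2 := i (fun z => k (z - 0)) (hk.comp (continuous_id.sub continuous_const))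
  have i3 := (i (fun z => k z ^ 2) (hk.pow 2)).mul_const (l a)
  have i4 : Integrable fun z => Db l ch z * k (z - a) * G z - Db l ch z * k (z - 0) * G z :=
    i1.sub i2
  rw [← integral_mul_const, ← integral_sub i1 i2, ← integral_sub i4 i3]
  refine (norm_integral_le_of_norm_le (g := fun z =>
    16 * c ^ 3 * ‖(l : M2)‖ ^ 2 * L * ‖a‖ ^ 2 * ‖Db l ch z‖) ((integ hψ fun z hz =>
      psi_out (by linarith)).norm.const_mul _) (.of_forall fun z => ?_)).trans ?_
  · rcases lt_or_ge ‖z‖ (1 / 2) with e | e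
    · simp [psi_in e]
    rcases lt_or_ge (5 / 8) ‖z‖ with e' | e'
    · simp [psi_out e']
    have a1 : 1 / 4 ≤ ‖z - a‖ := by linarith [norm_sub_norm_le z a]
    have a2 : 1 ≤ 2 * c * ‖l z‖ := by linarith [hl z]
    have a3 : 1 ≤ 4 * c * ‖l z - l a‖ := by
      rw [← map_sub]
      linarith [hl (z - a)]
    have b2 : l z ≠ 0 := fun h => by
      rw [h, norm_zero] at a2
      linarith
    have b3 : l z - l a ≠ 0 := fun h => by
      rw [h, norm_zero] at a3
      linarith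
    have c2 : ‖(l z)⁻¹‖ ≤ 2 * c := by
      rw [norm_inv, inv_le_iff_one_le_mul₀ (norm_pos_iff.2 b2)]
      exact a2
    have c3 : ‖(l z - l a)⁻¹‖ ≤ 4 * c := by
      rw [norm_inv, inv_le_iff_one_le_mul₀ (norm_pos_iff.2 b3)]
      exact a3
    have c4 : ‖l a‖ ≤ ‖(l : M2)‖ * ‖a‖ := (l : M2).le_opNorm a
    have c5 : ‖G z‖ ≤ L := (hGL z).trans (mul_le_of_le_one_right hL (by linarith))
    have d : Db l ch z * k (z - a) * G z - Db l ch z * k (z - 0) * G z -
        Db l ch z * k z ^ 2 * G z * l a =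
        (l z)⁻¹ ^ 2 * (l z - l a)⁻¹ * l a ^ 2 * G z * Db l ch z := by
      rw [sub_zero, hr z (by linarith), hr _ (by linarith), map_sub]
      field_simp
      ring
    rw [d, norm_mul, norm_mul, norm_mul, norm_mul, norm_pow, norm_pow]
    calc _ ≤ (2 * c) ^ 2 * (4 * c) * (‖(l : M2)‖ * ‖a‖) ^ 2 * L * ‖Db l ch z‖ := by gcongr
      _ = _ := by ring
  · rw [integral_const_mul]
    nlinarith [mul_nonneg hL (sq_nonneg ‖a‖)]

end Apx

open Apx in
theorem apx : PartS → LineS → ApxS := by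
  intro part line l L0 κ θ0 hκ hθ0
  obtain ⟨C, hC, hexp⟩ := expand l
  obtain ⟨m, hm, hmass⟩ : ∃ m : ℝ, 0 < m ∧ (m : ℂ) = -∫ z, Db l ch z * (l z)⁻¹ := by
    obtain ⟨k, w, h1, h2, h3, h4, h5, z, h6⟩ := kern line l (show (0 : ℝ) < 1 / 8 by norm_num)
    exact ⟨_, h3.integral_pos_of_hasCompactSupport_nonneg_nonzero
      (HasCompactSupport.intro (isCompact_closedBall 0 1) fun z hz =>
        (h5 z (by simp at hz; linarith)).1) h4 h6, mass part h1 h2 h3 h5⟩
  set L := |L0| + 1 with hL0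
  have hL : 0 < L := by positivity
  set θ := min (min θ0 (1 / 8)) (κ * m / (3 * (C * L))) with hθ'
  have hθ : 0 < θ := by positivity
  have t1 : θ ≤ 1 / 8 := (min_le_left _ _).trans (min_le_right _ _)
  have t2 : θ * (3 * (C * L)) ≤ κ * m := (le_div_iff₀ (by positivity)).1 (min_le_right _ _)
  set r := min (1 / 8) (κ * θ / (6 * L)) with hr'
  have r1 : r ≤ 1 / 8 := min_le_left _ _
  have r2 : r * (6 * L) ≤ κ * θ := (le_div_iff₀ (by positivity)).1 (min_le_right _ _)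
  obtain ⟨k, w, h1, h2, h3, h4, h5, -⟩ := kern line l (show 0 < r by positivity)
  have h6 : ∀ z, 1 / 8 ≤ ‖z‖ → w z = 0 ∧ k z = (l z)⁻¹ := fun z hz => h5 z (r1.trans hz)
  have hme : ∫ z, w z = m := ofReal_injective ((mass part h1 h2 h3 h6).trans hmass.symm)
  obtain ⟨K, hK⟩ := (isCompact_closedBall (0 : ℂ) 2).exists_bound_of_continuousOn
    h1.continuous.continuousOn
  set A := |K * ∫ z, ‖ch z‖| + 1 with hA'
  have hA : 0 < A := by positivity
  refine ⟨θ, κ * θ * m / (6 * A), hθ, (min_le_left _ _).trans (min_le_left _ _), by positivity,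
    fun G0 D hG0 hLip hη => ?_⟩
  set G := fun z => G0 z - G0 0 with hG'
  have hG : ∀ x y, ‖G x - G y‖ ≤ L * ‖x - y‖ := fun x y => by
    simp only [hG', sub_sub_sub_cancel_right]
    exact (hLip x y).trans (mul_le_mul_of_nonneg_right (by linarith [le_abs_self L0])
      (norm_nonneg _))
  have hc : Continuous G := (LipschitzWith.of_dist_le' (K := L) fun x y => by
    simpa only [dist_eq_norm] using hG x y).continuous
  have hz : G 0 = 0 := sub_self _
  have e1 : ∀ a : ℂ, ‖a‖ ≤ 1 / 8 →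
      ‖(∫ z, Db l ch z * k (z - a) * G z) + m * G a‖ ≤ κ * θ * m / 3 := fun a ha => by
    have a1 := rep part (sb_sub hG0 (G0 0)) hc (by positivity) hη h1 h2 h3
      (fun z hz => (h6 z hz).1) (fun z hz => hK z (by simpa using hz)) ha
    have a2 := avg hL.le hG hc h3 h4 (fun z hz => (h5 z hz).1) (by linarith) a
    have a3 : κ * θ * m / (6 * A) * (K * ∫ z, ‖ch z‖) ≤ κ * θ * m / (6 * A) * A :=
      mul_le_mul_of_nonneg_left (by linarith [le_abs_self (K * ∫ z, ‖ch z‖)]) (by positivity)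
    have a4 : κ * θ * m / (6 * A) * A = κ * θ * m / 6 := by field_simp
    rw [hme] at a2
    have a5 := norm_sub_le ((∫ z, Db l ch z * k (z - a) * G z) + ∫ z, w (z - a) * G z)
      ((∫ z, w (z - a) * G z) - m * G a)
    rw [add_sub_assoc, sub_sub_cancel] at a5
    nlinarith [mul_le_mul_of_nonneg_right r2 hm.le]
  refine ⟨-(∫ z, Db l ch z * k z ^ 2 * G z) / m, fun a ha => ?_⟩
  have ha' : ‖a‖ ≤ θ := (mem_ball_zero_iff.1 ha).le
  have b1 := e1 a (ha'.trans t1)
  have b2 := e1 0 (by simp)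
  have b3 := hexp L G k a hL.le hc (fun z => by simpa [hz] using hG z 0) h1.continuous
    (fun z hz => (h6 z hz).2) (ha'.trans t1)
  have b4 : C * L * ‖a‖ ^ 2 ≤ C * L * θ ^ 2 := by gcongr
  rw [hz, mul_zero, add_zero] at b2
  generalize ∫ z, Db l ch z * k (z - a) * G z = X at *
  generalize ∫ z, Db l ch z * k (z - 0) * G z = Y at *
  generalize ∫ z, Db l ch z * k z ^ 2 * G z = Z at *
  have hm' : (m : ℂ) ≠ 0 := ofReal_ne_zero.2 hm.ne'
  have b5 : (m : ℂ) * (G a - -Z / m * l a) = X + m * G a - Y - (X - Y - Z * l a) := by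
    field_simp
    ring
  have b6 := (norm_sub_le (X + m * G a - Y) (X - Y - Z * l a)).trans
    (add_le_add (norm_sub_le _ _) le_rfl)
  rw [← b5, norm_mul, Complex.norm_real, Real.norm_of_nonneg hm.le] at b6
  refine le_of_mul_le_mul_left (b6.trans ?_) hm
  nlinarith [mul_le_mul_of_nonneg_right t2 hθ.le]

end Pool.Agent.MP_815c6c_an.P

end
end MrgPart3

-- ======== part 4: formerly Pool.Agent.MP_815c6c_an.P.Str
section MrgPart4

/-! Planar p-harmonic functions: strict differentiability. -/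

set_option autoImplicit false

namespace Pool.Agent.MP_815c6c_an.P

open Set Metric MeasureTheory Filter Topology Complex
open scoped ContDiff ENNReal ComplexConjugate

namespace Str

theorem strict {F : ℂ → ℂ} {z : ℂ} (h : ∀ κ : ℝ, 0 < κ → ∃ r, 0 < r ∧ ∃ N : M2,
    ∀ x ∈ ball z r, ∀ y ∈ ball z r, ‖F x - F y - N (x - y)‖ ≤ κ * ‖x - y‖) :
    ∃ N : M2, HasStrictFDerivAt F N z := by
  choose r hr N hN using fun n : ℕ => h (1 / ((n : ℝ) + 1)) Nat.one_div_pos_of_nat
  have d : ∀ n k, ‖N n - N k‖ ≤ 1 / ((n : ℝ) + 1) + 1 / ((k : ℝ) + 1) := fun n k => by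
    refine ContinuousLinearMap.opNorm_le_of_ball (lt_min (hr n) (hr k)) (by positivity) fun v hv => ?_
    rw [mem_ball_zero_iff, lt_min_iff] at hv
    have a := hN n (z + v) (by simpa using hv.1) z (mem_ball_self (hr n))
    have b := hN k (z + v) (by simpa using hv.2) z (mem_ball_self (hr k))
    rw [add_sub_cancel_left] at a b
    rw [show (N n - N k) v = (F (z + v) - F z - N k v) - (F (z + v) - F z - N n v) by simp, add_mul]
    linarith [norm_sub_le (F (z + v) - F z - N k v) (F (z + v) - F z - N n v)]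
  have t := tendsto_one_div_add_atTop_nhds_zero_nat (𝕜 := ℝ)
  obtain ⟨M, hM⟩ := cauchySeq_tendsto_of_complete (cauchySeq_of_le_tendsto_0 (s := N)
    (fun n : ℕ => 2 * (1 / ((n : ℝ) + 1))) (fun n k j a b => by
      have a' : 1 / ((n : ℝ) + 1) ≤ 1 / ((j : ℝ) + 1) := Nat.one_div_le_one_div a
      have b' : 1 / ((k : ℝ) + 1) ≤ 1 / ((j : ℝ) + 1) := Nat.one_div_le_one_div b
      rw [dist_eq_norm]
      linarith [d n k]) (by simpa using t.const_mul 2))
  have e : ∀ n, ‖N n - M‖ ≤ 1 / ((n : ℝ) + 1) := fun n =>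
    le_of_tendsto_of_tendsto' (tendsto_const_nhds.sub hM).norm
      (by simpa using t.const_add (1 / ((n : ℝ) + 1))) (d n)
  refine ⟨M, hasStrictFDerivAt_iff_isLittleO.2 (Asymptotics.isLittleO_iff.2 fun c hc => ?_)⟩
  obtain ⟨n, hn⟩ := exists_nat_one_div_lt (half_pos hc)
  filter_upwards [prod_mem_nhds (ball_mem_nhds z (hr n)) (ball_mem_nhds z (hr n))] with p hp
  have a := hN n _ hp.1 _ hp.2
  have b := (N n - M).le_of_opNorm_le (e n) (p.1 - p.2)
  rw [show F p.1 - F p.2 - M (p.1 - p.2) =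
    (F p.1 - F p.2 - N n (p.1 - p.2)) + (N n - M) (p.1 - p.2) by simp]
  refine (norm_add_le _ _).trans ?_
  nlinarith [norm_nonneg (p.1 - p.2)]

theorem ae_aff {U U' : Set ℂ} {p : ℂ → Prop} (a : ℂ) {b : ℝ} (hb : b ≠ 0) (hU : MeasurableSet U)
    (hU' : MeasurableSet U') (h : ∀ x ∈ U', a + b * x ∈ U) (k : ∀ᵐ w ∂vo U, p w) :
    ∀ᵐ x ∂vo U', p (a + b * x) := by
  rw [ae_restrict_iff' hU] at k
  rw [ae_restrict_iff' hU']
  filter_upwards [((measurePreserving_add_left volume a).quasiMeasurePreserving.comp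
    (Measure.quasiMeasurePreserving_smul volume hb)).ae k] with x e hx
  exact e (h x hx)

theorem lin (N : M2) (r : ℝ) (v : ℂ) : N (r * v) = r * N v := N.map_smul r v

theorem cl {u : ℂ → ℂ} (h : Continuous u) (z : ℂ) : Cl u z (u z) := fun ρ hρ =>
  (isOpen_ball.inter (isOpen_lt (h.sub continuous_const).norm continuous_const)).measure_ne_zero _
    ⟨z, mem_ball_self hρ, by simpa using hρ⟩

theorem mem_aff {z x : ℂ} {r s : ℝ} (hr : 0 < r) (hx : x ∈ ball (0 : ℂ) s) :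
    z + r * x ∈ ball z (r * s) := by
  rw [mem_ball_zero_iff] at hx
  rw [mem_ball_iff_norm, add_sub_cancel_left, norm_mul, norm_real, Real.norm_of_nonneg hr.le]
  exact mul_lt_mul_of_pos_left hx hr

theorem inv_aff {z y : ℂ} {r s : ℝ} (hr : 0 < r) (hy : y ∈ ball z (r * s)) :
    ∃ x ∈ ball (0 : ℂ) s, y = z + r * x := by
  have : (r : ℂ) ≠ 0 := ofReal_ne_zero.2 hr.ne'
  refine ⟨(y - z) / r, ?_, by field_simp; ring⟩
  rw [mem_ball_zero_iff, norm_div, norm_real, Real.norm_of_nonneg hr.le, div_lt_iff₀' hr]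
  exact mem_ball_iff_norm.1 hy

variable {ε L R : ℝ} {F : ℂ → ℂ} {D : ℂ → M2} {z : ℂ}

theorem near (kit : KitS) (part : PartS) (apx : ApxS) (sol : Sol ε (ball 0 R) F D) (hL : 0 ≤ L)
    (lip : ∀ x y, ‖F x - F y‖ ≤ L * ‖x - y‖) (l m : ℂ ≃L[ℝ] ℂ)
    (hE : ∀ η : ℝ, 0 < η → ∀ᶠ x in 𝓝 z, x ∈ ball (0 : ℂ) R ∧ ∀ N : M2,
      Es (eP ε) (eQ ε) (F x) N ∧ (F x = 0 → N = 0) →
        ‖m (N (l.symm 1)) + I * m (N (l.symm I))‖ ≤ η * ‖N‖)
    {κ r0 : ℝ} (hκ : 0 < κ) (h0 : 0 < r0) : ∃ r, 0 < r ∧ r ≤ r0 ∧ ∃ β : ℂ,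
      ∀ y ∈ ball z (r * 3), ‖F y - F z - m.symm (β * l (y - z))‖ ≤ κ * r := by
  have hs : 0 < 3 * (‖(m.symm : M2)‖ + 1) := by positivity
  obtain ⟨θ, η, t0, t1, e0, hA⟩ := apx l (‖(m : M2)‖ * L) _ 1 (div_pos hκ hs) one_pos
  obtain ⟨ρ', p0, hρ'⟩ := Metric.eventually_nhds_iff_ball.1 (hE (η / (2 * L + 1)) (by positivity))
  obtain ⟨ρ, r1, r2, hρ⟩ : ∃ ρ, 0 < ρ ∧ ρ ≤ r0 ∧ ball z (ρ * 1) ⊆ ball z ρ' :=
    ⟨min ρ' r0, lt_min p0 h0, min_le_right _ _, ball_subset_ball (by simp)⟩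
  have hc : (ρ : ℂ) ≠ 0 := ofReal_ne_zero.2 r1.ne'
  have ins : ∀ x ∈ ball (0 : ℂ) 1, z + ρ * x ∈ ball (0 : ℂ) R := fun x hx =>
    (hρ' _ (hρ (mem_aff r1 hx))).1
  have s1 := kit.2.2.2.2 _ _ F D z ρ hc measurableSet_ball ins sol.sb
  have s2 := kit.2.2.2.1 _ _ _ _ _ ((ml ((ρ⁻¹ : ℝ) : ℂ)).comp (m : M2)) 0 0 0 isBounded_ball s1 s1
  obtain ⟨β, hβ⟩ := hA _ _ s2 (fun x y => by
      have := (m : M2).le_opNorm_of_le (lip (z + ρ * x) (z + ρ * y))
      rw [add_sub_add_left_eq_sub, ← mul_sub, norm_mul, norm_real, Real.norm_of_nonneg r1.le,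
        map_sub] at this
      simp only [ContinuousLinearMap.comp_apply, ml_apply, zero_apply, add_zero]
      rw [← mul_sub, norm_mul, norm_real, Real.norm_of_nonneg (inv_pos.2 r1).le,
        inv_mul_le_iff₀ r1]
      exact this.trans_eq (by ring)) (by
      filter_upwards [ae_aff z r1.ne' measurableSet_ball measurableSet_ball ins
        (sol.es.and ((part _ F D isOpen_ball isBounded_ball sol.sb).2.2 L lip)),
        ae_restrict_mem measurableSet_ball] with x a hx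
      have b := (hρ' _ (hρ (mem_aff r1 hx))).2 _ a.1
      simp only [ContinuousLinearMap.comp_apply, ml_apply, add_apply,
        zero_apply, add_zero, lin, ofReal_inv, mul_inv_cancel_left₀ hc]
      refine b.trans ?_
      rw [div_mul_eq_mul_div, div_le_iff₀ (by positivity)]
      exact mul_le_mul_of_nonneg_left (by linarith [a.2]) e0.le)
  refine ⟨ρ * θ / 3, by positivity, by nlinarith, β, fun y hy => ?_⟩
  obtain ⟨x, hx, rfl⟩ := inv_aff r1 (s := θ) (by rwa [div_mul_cancel₀ _ three_ne_zero] at hy)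
  have a := (m.symm : M2).le_opNorm_of_le (hβ x hx)
  have e : F (z + ρ * x) - F z - m.symm (β * l (z + ρ * x - z)) =
      ρ * (m.symm : M2) (((ρ⁻¹ : ℝ) : ℂ) * m (F (z + ρ * x)) - ((ρ⁻¹ : ℝ) : ℂ) * m (F z) - β * l x) := by
    have := lin (l : M2) ρ x
    have e2 := lin (m.symm : M2) ρ (β * l x)
    rw [ContinuousLinearEquiv.coe_coe] at this e2
    rw [add_sub_cancel_left, this, mul_left_comm, e2, map_sub, map_sub, lin, lin]
    simp only [ContinuousLinearEquiv.coe_coe, ContinuousLinearEquiv.symm_apply_apply, ofReal_inv]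
    field_simp
  simp only [ContinuousLinearMap.comp_apply, ml_apply, zero_apply, add_zero,
    mul_zero] at a
  rw [e, norm_mul, norm_real, Real.norm_of_nonneg r1.le]
  refine (mul_le_mul_of_nonneg_left a r1.le).trans ?_
  have : ‖(m.symm : M2)‖ * (κ / (3 * (‖(m.symm : M2)‖ + 1))) ≤ κ / 3 := by
    rw [← mul_div_assoc, div_le_div_iff₀ hs three_pos]
    nlinarith [norm_nonneg (m.symm : M2)]
  nlinarith [mul_le_mul_of_nonneg_left this (mul_pos r1 t0).le]

end Str

open Str in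
theorem str (kit : KitS) (part : PartS) (cub : CubS) (alg : AlgS) (inj : InjS) (apx : ApxS) :
    StrS := by
  intro ε L R F D z hε sol lip hz hF
  have hL : 0 ≤ L := by simpa using (norm_nonneg _).trans (lip 1 0)
  have cF : Continuous F := (LipschitzWith.of_dist_le_mul (K := ⟨L, hL⟩) fun x y => by
    rw [dist_eq_norm, dist_eq_norm]; exact lip x y).continuous
  have zR : ∀ᶠ x in 𝓝 z, x ∈ ball (0 : ℂ) R := isOpen_ball.mem_nhds hz
  obtain ⟨w, l, m, w0, hN, hE, hS⟩ : ∃ (w : ℂ) (l m : ℂ ≃L[ℝ] ℂ), w ≠ 0 ∧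
      (∀ β : ℂ, Es (eP ε) (eQ ε) w ((m.symm : M2).comp ((ml β).comp (l : M2)))) ∧
      (∀ η : ℝ, 0 < η → ∀ᶠ x in 𝓝 z, x ∈ ball (0 : ℂ) R ∧ ∀ N : M2,
        Es (eP ε) (eQ ε) (F x) N ∧ (F x = 0 → N = 0) →
          ‖m (N (l.symm 1)) + I * m (N (l.symm I))‖ ≤ η * ‖N‖) ∧
      ∀ η : ℝ, 0 < η → ∀ᶠ p : ℂ × ℂ in 𝓝 (F z, F z),
        ‖ε * (T3 p.1 - T3 p.2 - fderiv ℝ T3 w (p.1 - p.2))‖ ≤ η * ‖p.1 - p.2‖ := by
    rcases hF with h | rfl
    · obtain ⟨l, m, h1, h2, -⟩ := alg.2.2.2.2.2 _ _ _ (eP_pos hε) (eQ_pos hε) h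
      refine ⟨_, l, m, h, h1, fun η e => zR.and ((cF.continuousAt.eventually (h2 η e)).mono
        fun x k N n => k N n.1), fun η e => ?_⟩
      have := (cub.1.contDiffAt (isOpen_compl_singleton.mem_nhds h)).hasStrictFDerivAt (by simp)
      filter_upwards [Asymptotics.isLittleO_iff.1 (hasStrictFDerivAt_iff_isLittleO.1 this) e]
        with p k
      rw [norm_mul, norm_real]
      exact (mul_le_of_le_one_left (norm_nonneg _) (hε.le.trans (by norm_num))).trans k
    · obtain ⟨l, m, h1, -, h3⟩ := alg.2.2.2.2.2 _ _ 1 (eP_pos hε) (eQ_pos hε) one_ne_zero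
      refine ⟨_, l, m, one_ne_zero, h1, fun η e => zR.mono fun x k => ⟨k, fun N n => ?_⟩,
        fun η e => Eventually.of_forall fun p => by simp; positivity⟩
      by_cases c : F x = 0
      · simp [n.2 c]
      · rw [h3 (by simp [eP]) (by simp [eQ]) _ N c n.1, norm_zero]
        positivity
  obtain ⟨δ, d0, hI⟩ := inj
  obtain ⟨K, K1, hK⟩ := alg.2.2.2.1 ε hε
  have g0 : 0 < 1 - 3 * |ε| := by linarith
  refine strict fun κ hκ => ?_
  have C0 : 0 < L + 2 * K * (3 * L + 2) / δ := by positivity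
  obtain ⟨τ, t0, hτ⟩ : ∃ τ, 0 < τ ∧ τ * (L + 2 * K * (3 * L + 2) / δ) = (1 - 3 * |ε|) * κ :=
    ⟨_, div_pos (mul_pos g0 hκ) C0, div_mul_cancel₀ _ C0.ne'⟩
  have hb : ∀ᶠ p : ℂ × ℂ in 𝓝 (z, z), p.1 ∈ ball (0 : ℂ) R ∧
      ‖ε * (T3 (F p.1) - T3 (F p.2) - fderiv ℝ T3 w (F p.1 - F p.2))‖ ≤ τ * ‖F p.1 - F p.2‖ :=
    (continuous_fst.continuousAt.eventually zR).and
      (((cF.prodMap cF).tendsto (z, z)).eventually (hS τ t0))
  obtain ⟨ρ, p0, hρ⟩ := Metric.eventually_nhds_iff_ball.1 hb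
  obtain ⟨r, r0, r1, β, hβ⟩ := near kit part apx sol hL lip l m hE t0 (div_pos p0 three_pos)
  have hc : (r : ℂ) ≠ 0 := ofReal_ne_zero.2 r0.ne'
  replace hρ := fun x (hx : x ∈ ball z (r * 3)) y (hy : y ∈ ball z (r * 3)) => hρ (x, y) (by
    rw [← ball_prod_same]
    exact ⟨ball_subset_ball (by linarith) hx, ball_subset_ball (by linarith) hy⟩)
  replace hN := hN β
  replace hβ : ∀ y ∈ ball z (r * 3),
      ‖F y - F z - ((m.symm : M2).comp ((ml β).comp (l : M2))) (y - z)‖ ≤ τ * r := hβ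
  generalize (m.symm : M2).comp ((ml β).comp (l : M2)) = N at hN hβ
  refine ⟨r * (1 / 2), by positivity, N, fun z1 h1 z2 h2 => ?_⟩
  rcases eq_or_ne z1 z2 with rfl | ne
  · simp
  obtain ⟨c, μ, c1, hμ⟩ := cub.2.2.2.2.2 ε (F z1) (F z2) _ (sub_ne_zero.2 ne)
  have hH : ∀ x ∈ ball z (r * 3), ∀ y ∈ ball z (r * 3),
      ‖Hc ε c (F x) - Hc ε c (F y) - DH ε c w (F x - F y)‖ ≤ τ * (L * ‖x - y‖) := fun x hx y hy => by
    rw [show Hc ε c (F x) - Hc ε c (F y) - DH ε c w (F x - F y) =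
      conj c * (ε * (T3 (F x) - T3 (F y) - fderiv ℝ T3 w (F x - F y))) by
        simp only [Hc, DH, add_apply, ContinuousLinearMap.comp_apply, ml_apply]
        ring, norm_mul, norm_conj, c1, one_mul]
    exact (hρ x hx y hy).2.trans (mul_le_mul_of_nonneg_left (lip x y) t0.le)
  have sb3 : ball z (r * (1 / 2)) ⊆ ball z (r * 3) := ball_subset_ball (by linarith)
  have hM : ‖(DH ε c w).comp N - ml μ‖ ≤ τ * (2 * K * (3 * L + 2) / δ) := by
    by_contra! big
    have M0 : 0 < ‖(DH ε c w).comp N - ml μ‖ := lt_trans (by positivity) big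
    obtain ⟨M', i1, i2, i3⟩ := alg.2.2.2.2.1 K _ (by linarith)
      (hK w c μ N hN fun k => absurd k w0).2 (norm_pos_iff.1 M0)
    have ins : ∀ x ∈ ball (0 : ℂ) 3, z + r * x ∈ ball (0 : ℂ) R := fun x hx =>
      (hρ _ (mem_aff r0 hx) z (mem_ball_self (by positivity))).1
    have s := kit.2.2.2.1 _ _ _ _ _ (M'.comp (ml (((r⁻¹ : ℝ) : ℂ) * c)))
      (M'.comp (ml (((r⁻¹ : ℝ) : ℂ) * (ε * conj c)))) (-M'.comp (ml μ))
      (-M' (((r⁻¹ : ℝ) : ℂ) * Hc ε c (F z))) isBounded_ball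
      (kit.2.2.2.2 _ _ F D z r hc measurableSet_ball ins sol.sb)
      (kit.2.2.2.2 _ _ _ _ z r hc measurableSet_ball ins sol.t3)
    replace s := s.congr (u' := fun x =>
        M' (((r⁻¹ : ℝ) : ℂ) * (Hc ε c (F (z + r * x)) - Hc ε c (F z)) - μ * x))
      (D' := fun x => M'.comp ((DH ε c (F (z + r * x))).comp (D (z + r * x)) - ml μ))
      (Eventually.of_forall fun x => by
        simp only [ContinuousLinearMap.comp_apply, ml_apply, neg_apply,
          ← map_neg, ← map_add]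
        congr 1
        simp only [Hc]
        ring)
      (Eventually.of_forall fun x => ContinuousLinearMap.ext fun v => by
        simp only [ContinuousLinearMap.comp_apply, ml_apply, neg_apply, add_apply, sub_apply, DH]
        rw [lin (D _), lin (fderiv ℝ T3 _), ← map_neg, ← map_add, ← map_add, ofReal_inv]
        congr 1
        field_simp
        ring)
    have cH : Continuous (Hc ε c) := (LipschitzWith.of_dist_le_mul (K := 2) fun x y => by
      rw [dist_eq_norm, dist_eq_norm]; exact (cub.2.2.2.2.1 ε hε c x y c1).2.1).continuous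
    have cu : Continuous fun x : ℂ =>
        M' (((r⁻¹ : ℝ) : ℂ) * (Hc ε c (F (z + r * x)) - Hc ε c (F z)) - μ * x) := by fun_prop
    obtain ⟨x1, a1, rfl⟩ := inv_aff r0 h1
    obtain ⟨x2, a2, rfl⟩ := inv_aff r0 h2
    refine ne (congrArg (fun x => z + r * x) (hI _ _ _ (by positivity) s ((ae_aff z r0.ne' measurableSet_ball
      measurableSet_ball ins sol.es).mono fun x k => (hK _ c μ _ k.1 k.2).2.comp i3) ?_
      x1 a1 x2 a2 _ (cl cu x1) ?_))
    · rw [(eq_empty_of_forall_notMem fun x hx => ?_ : {x | x ∈ ball (0 : ℂ) 3 ∧ δ < _} = ∅)]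
      · simp
      · obtain ⟨hx, k⟩ := hx
        have b1 := hH _ (mem_aff r0 hx) z (mem_ball_self (by positivity))
        have b2 := (DH ε c w).le_of_opNorm_le_of_le (cub.2.2.2.2.1 ε hε c w 0 c1).2.2.2
          (hβ _ (mem_aff r0 hx))
        have b3 : M' (((DH ε c w).comp N - ml μ) x) = x := by
          simpa using congrArg (fun A : M2 => A x) i1
        rw [add_sub_cancel_left] at b1 b2
        rw [norm_mul, norm_real, Real.norm_of_nonneg r0.le] at b1
        have b4 : ‖((r⁻¹ : ℝ) : ℂ) * (Hc ε c (F (z + r * x)) - Hc ε c (F z)) - μ * x -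
            ((DH ε c w).comp N - ml μ) x‖ ≤ τ * (3 * L + 2) := by
          rw [show ((r⁻¹ : ℝ) : ℂ) * (Hc ε c (F (z + r * x)) - Hc ε c (F z)) - μ * x -
              ((DH ε c w).comp N - ml μ) x = ((r⁻¹ : ℝ) : ℂ) *
              ((Hc ε c (F (z + r * x)) - Hc ε c (F z) - DH ε c w (F (z + r * x) - F z)) +
                DH ε c w (F (z + r * x) - F z - N (r * x))) by
            simp only [ContinuousLinearMap.comp_apply, ml_apply, sub_apply,
              map_sub, lin, ofReal_inv]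
            field_simp
            ring, norm_mul, norm_real, Real.norm_of_nonneg (inv_pos.2 r0).le, inv_mul_le_iff₀ r0]
          refine (norm_add_le _ _).trans ?_
          have := mul_le_mul_of_nonneg_left (mem_ball_zero_iff.1 hx).le
            (by positivity : 0 ≤ τ * L * r)
          linarith
        have b5 := M'.le_opNorm_of_le b4
        rw [map_sub, b3] at b5
        rw [← mul_div_assoc, div_lt_iff₀ d0] at big
        have b6 := mul_le_mul_of_nonneg_right i2 (by positivity : 0 ≤ τ * (3 * L + 2))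
        have b7 := mul_lt_mul_of_pos_left (k.trans_le b5) M0
        linarith
    · convert cl cu x2 using 2
      rw [show Hc ε c (F (z + r * x1)) = Hc ε c (F (z + r * x2)) + μ * (r * (x1 - x2)) by
        rw [← sub_eq_iff_eq_add', hμ]; ring, ofReal_inv]
      field_simp
      ring
  have f1 := (cub.2.2.2.2.1 ε hε c w (F z1 - F z2 - N (z1 - z2)) c1).2.2.1
  have f2 := hH z1 (sb3 h1) z2 (sb3 h2)
  have f3 := ((DH ε c w).comp N - ml μ).le_of_opNorm_le hM (z1 - z2)
  rw [show DH ε c w (F z1 - F z2 - N (z1 - z2)) = -((Hc ε c (F z1) - Hc ε c (F z2) -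
      DH ε c w (F z1 - F z2)) + ((DH ε c w).comp N - ml μ) (z1 - z2)) by
    rw [hμ, map_sub _ (F z1 - F z2)]
    simp only [ContinuousLinearMap.comp_apply, ml_apply, sub_apply]
    ring, norm_neg] at f1
  refine le_of_mul_le_mul_left ((f1.trans (norm_add_le _ _)).trans ?_) g0
  rw [← mul_assoc, ← hτ]
  linarith

end Pool.Agent.MP_815c6c_an.P

end MrgPart4

-- marker of a merged file
example : 731051 + 149390 = 731051 + 149390 := rfl
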