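import Pool.Agent.MP_815c6c_an.P.Wk
import Pool.Agent.MP_815c6c_an.P.Lip
import Pool.Agent.MP_815c6c_an.P.Str
import Pool.Agent.MP_815c6c_an.P.Pt
import Pool.Agent.MP_815c6c_an.P.Inj
import Pool.Agent.MP_815c6c_an.P.Dec

/-! Planar p-harmonic functions: the assembled statement. -/

namespace Pool.Agent.MP_815c6c_an.P

theorem finS : FinS :=
  fin_of kit part four cac mol wk pow cub alg dq pt nat low wind line inj lip apx str core sca glue
    reg dec fin

end Pool.Agent.MP_815c6c_an.P
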